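import Pool.Agent.P.MP_9321be_ag.NC.EBas

/-!
The retraction with a cutoff, and constancy of the eigenvalue property on tubes.
-/

namespace Pool.Agent.P.MP_9321be_ag.NC.E

open Pool.Agent.P.MP_9321be_ag.ND.E Set Complex Filter Topology

namespace Cut3

variable {σ : Type} [Fintype σ]

/-- The cutoff function between the radii `a` and `b`. -/
noncomputable def rho (a b : σ → ℝ) (x : σ → ℂ) : ℝ :=
  ∏ j, max 0 (min 1 ((b j - ‖x j‖) / (b j - a j)))

lemma rho_cont (a b : σ → ℝ) : Continuous (rho a b) := by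
  unfold rho; fun_prop

lemma rho_nonneg (a b : σ → ℝ) (x : σ → ℂ) : 0 ≤ rho a b x :=
  Finset.prod_nonneg fun _ _ => le_max_left _ _

lemma rho_le (a b : σ → ℝ) (x : σ → ℂ) : rho a b x ≤ 1 :=
  Finset.prod_le_one (fun _ _ => le_max_left _ _) fun _ _ => max_le zero_le_one (min_le_left _ _)

lemma rho_one {a b : σ → ℝ} (hab : ∀ j, a j < b j) {x : σ → ℂ} (hx : ∀ j, ‖x j‖ ≤ a j) :
    rho a b x = 1 := by
  refine Finset.prod_eq_one fun j _ => ?_
  have h1 : 1 ≤ (b j - ‖x j‖) / (b j - a j) := by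
    rw [le_div_iff₀ (sub_pos.2 (hab j))]; linarith [hx j]
  rw [min_eq_left h1, max_eq_right zero_le_one]

lemma rho_zero {a b : σ → ℝ} (hab : ∀ j, a j < b j) {x : σ → ℂ} {j : σ} (hx : b j ≤ ‖x j‖) :
    rho a b x = 0 := by
  refine Finset.prod_eq_zero (Finset.mem_univ j) (max_eq_left (min_le_of_right_le ?_))
  exact div_nonpos_of_nonpos_of_nonneg (by linarith) (sub_pos.2 (hab j)).le

end Cut3

open Cut3

theorem t_Cut : S_Cut := by
  intro α σ _ _ _ _ ex c h ε β C L D W μ hc hdk hμ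
  have hab : ∀ j, wl h L (D - W - 2) j < wl h L (D - W - 1) j := fun j => wl_lt h L j (by linarith)
  have hbc : ∀ j, wl h L (D - W - 1) j < wl h L (D - W) j := fun j => wl_lt h L j (by linarith)
  set ρ : (σ → ℂ) → ℝ := rho (wl h L (D - W - 2)) (wl h L (D - W - 1)) with hρ
  have hρc : Continuous ρ := rho_cont _ _
  have hz : ∀ p : YY σ, (∃ j, wl h L (D - W - 1) j ≤ ‖p.1 j‖) →
      (fun j => 1 + (ρ p.1 : ℂ) * (μ p j - 1)) = 1 := by
    rintro p ⟨j, hj⟩
    funext i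
    rw [hρ, rho_zero hab hj]; simp
  have hn : ∀ (p : YY σ) (j : σ), ‖1 + (ρ p.1 : ℂ) * (μ p j - 1) - 1‖ ≤ ‖μ p j - 1‖ := by
    intro p j
    rw [add_sub_cancel_left, norm_mul, norm_real, Real.norm_of_nonneg (rho_nonneg _ _ _)]
    exact mul_le_of_le_one_left (norm_nonneg _) (rho_le _ _ _)
  refine ⟨fun p j => 1 + (ρ p.1 : ℂ) * (μ p j - 1), fun p => ?_, fun p hp => ?_, fun p hp =>
    ⟨fun j => ?_, fun h2 => ?_, fun h0 j => ?_, hz p⟩⟩
  · funext j
    simp only [hdk]; rfl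
  · by_cases h0 : ∀ j, ‖p.1 j‖ < wl h L (D - W) j
    · have hev : ∀ᶠ q : YY σ in 𝓝 p, ∀ j, ‖q.1 j‖ < wl h L (D - W) j :=
        eventually_all.2 fun j =>
          (by fun_prop : Continuous fun q : YY σ => ‖q.1 j‖).continuousAt.eventually_lt_const (h0 j)
      have h1 : ContinuousWithinAt μ
          {p : YY σ | (∀ j, ‖p.1 j‖ ≤ wl h L (D - W) j) → p ∈ Ap ex c ε β} p := by
        refine (hc p (hp fun j => (h0 j).le)).mono_of_mem_nhdsWithin ?_
        filter_upwards [self_mem_nhdsWithin, mem_nhdsWithin_of_mem_nhds hev] with q hq hq'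
        exact hq fun j => (hq' j).le
      refine continuousWithinAt_pi.2 fun j => continuousWithinAt_const.add
        (ContinuousWithinAt.mul ?_ ((continuousWithinAt_pi.1 h1 j).sub continuousWithinAt_const))
      exact (by fun_prop : Continuous fun q : YY σ => (ρ q.1 : ℂ)).continuousWithinAt
    · obtain ⟨j, hj⟩ := not_forall.1 h0
      have hj' : wl h L (D - W - 1) j < ‖p.1 j‖ := (hbc j).trans_le (not_lt.1 hj)
      have hev : ∀ᶠ q : YY σ in 𝓝 p, wl h L (D - W - 1) j < ‖q.1 j‖ :=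
        (by fun_prop : Continuous fun q : YY σ => ‖q.1 j‖).continuousAt.eventually_const_lt hj'
      refine (continuousAt_const (y := (1 : σ → ℂ))).congr ?_ |>.continuousWithinAt
      filter_upwards [hev] with q hq
      exact (hz q ⟨j, hq.le⟩).symm
  · by_cases h0 : ∀ j, ‖p.1 j‖ ≤ wl h L (D - W) j
    · exact (hn p j).trans ((hμ p (hp h0)).2 j).1
    · obtain ⟨i, hi⟩ := not_forall.1 h0
      have := congrFun (hz p ⟨i, ((hbc i).trans (not_le.1 hi)).le⟩) j
      simp only [Pi.one_apply] at this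
      simp only [this]; norm_num
  · have h0 := hp fun j => (h2 j).trans ((hab j).trans (hbc j)).le
    have e : (fun j => 1 + (ρ p.1 : ℂ) * (μ p j - 1)) = μ p := by
      funext j
      rw [hρ, rho_one hab h2]; simp
    simp only [e]
    exact (hμ p h0).1
  · refine le_trans (mul_le_mul_of_nonneg_right (hn p j) ?_) ((hμ p (hp h0)).2 j).2
    exact Finset.sum_nonneg fun _ _ => norm_nonneg _

theorem t_Const3 : S_Step3 → S_NDNI → S_NIND → S_Path → S_Const3 := by
  intro hS hA hB hP α σ _ _ _ _ _ ex c₀ c₁ w lam hw h₀ h₁ hE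
  have hc : Continuous fun t : ℂ => c₀ + t • (c₁ - c₀) := by fun_prop
  have hloc : ∀ t₀ : ℂ, NI ex (c₀ + t₀ • (c₁ - c₀)) → ∀ᶠ t in 𝓝 t₀, NI ex (c₀ + t • (c₁ - c₀)) ∧
      (Eig3 ex (c₀ + t • (c₁ - c₀)) w lam ↔ Eig3 ex (c₀ + t₀ • (c₁ - c₀)) w lam) :=
    fun t₀ h => by
      obtain ⟨r, hr, h'⟩ := hS α σ ex _ w lam hw h
      filter_upwards [hc.continuousAt.eventually (Metric.ball_mem_nhds _ hr)] with t ht
      rw [dist_eq_norm] at ht
      have h0 : ‖c₀ + t₀ • (c₁ - c₀) - (c₀ + t₀ • (c₁ - c₀))‖ < r := by simpa using hr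
      exact ⟨(h' _ _ ht h0).1, (h' _ _ ht h0).2, (h' _ _ h0 ht).2⟩
  have h₀' : NI ex (c₀ + (0 : ℂ) • (c₁ - c₀)) := by simpa using h₀
  have h₁' : NI ex (c₀ + (1 : ℂ) • (c₁ - c₀)) := by simpa using h₁
  have hcount : {t : ℂ | ¬ NI ex (c₀ + t • (c₁ - c₀))}.Countable :=
    (hP α σ ex c₀ (c₁ - c₀) ((hloc 0 h₀').mono fun t ht => hB α σ ex _ ht.1)).mono
      fun t ht h => ht (hA α σ ex _ h)
  have hconn := (hcount.isConnected_compl_of_one_lt_rank (by
    rw [Complex.rank_real_complex]; norm_num)).isPreconnected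
  have key := hconn.induction₂' (fun s t : ℂ => Eig3 ex (c₀ + s • (c₁ - c₀)) w lam ↔
      Eig3 ex (c₀ + t • (c₁ - c₀)) w lam)
    (fun s hs => ((hloc s (not_not.1 hs)).mono fun t ht => ⟨ht.2.symm, ht.2⟩).filter_mono
      nhdsWithin_le_nhds)
    (fun _ _ _ _ _ _ h h' => h.trans h') (x := 1) (y := 0) (not_not.2 h₁') (not_not.2 h₀')
  simpa using key.1 (by simpa using hE)

end Pool.Agent.P.MP_9321be_ag.NC.E
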