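import Pool.Agent.P.MP_9321be_ag.NC.EBas

/-!
Exact supporting weights for the three level complex.
-/

namespace Pool.Agent.P.MP_9321be_ag.NC.E

open Pool.Agent.P.MP_9321be_ag.ND.E Filter Topology Matrix

namespace Exact3

variable {α σ : Type} [Fintype α] [DecidableEq α] [Fintype σ] [DecidableEq σ]

/-- Prescribing coordinates inside an annihilator. -/
theorem solve {v : α → σ → ℝ} {T : Finset α} {J : Finset σ}
    (H : ∀ (m : α → ℝ) (κ : σ → ℝ), (∀ a ∉ T, m a = 0) → (∀ j ∉ J, κ j = 0) →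
      ∑ a, m a • v a + κ = 0 → κ = 0) (y : σ → ℝ) :
    ∃ d : σ → ℝ, (∀ a ∈ T, v a ⬝ᵥ d = 0) ∧ ∀ j ∈ J, d j = y j := by
  obtain ⟨e, he⟩ : ∃ e : σ → ℝ, e = fun j => if j ∈ J then 1 else 0 := ⟨_, rfl⟩
  have hm : e * y ∈ (Tool.perp v T).map (LinearMap.mulLeft ℝ e) := by
    by_contra hy
    obtain ⟨φ, h1, h2⟩ := Submodule.exists_dual_map_eq_bot_of_notMem hy inferInstance
    obtain ⟨c, hc⟩ : ∃ c : σ → ℝ, ∀ z, φ z = z ⬝ᵥ c := ⟨fun i => φ (Pi.single i 1), fun z => by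
      conv_lhs => rw [pi_eq_sum_univ' z]
      simp [dotProduct]⟩
    have h3 : ∀ z, φ (e * z) = (e * c) ⬝ᵥ z := fun z => by
      rw [hc]; exact Finset.sum_congr rfl fun i _ => by simp only [Pi.mul_apply]; ring
    have h4 := Tool.mem_span_of_perp (v := v) (τ := T) (y := e * c) fun d hd =>
      (h3 d).symm.trans ((Submodule.eq_bot_iff _).1 h2 _ ⟨_, ⟨d, Tool.mem_perp.2 hd, rfl⟩, rfl⟩)
    obtain ⟨m, hm⟩ := (Submodule.mem_span_image_finset_iff_exists_fun' ℝ).1 h4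
    have h5 := H (fun a => if a ∈ T then -m a else 0) (e * c) (fun a ha => if_neg ha)
      (fun j hj => by simp [he, hj]) (by
        rw [← hm]; simp [ite_smul, Finset.sum_ite_mem])
    exact h1 (by rw [h3, h5, zero_dotProduct])
  obtain ⟨d, hd, e1⟩ := hm
  refine ⟨d, Tool.mem_perp.1 hd, fun j hj => ?_⟩
  simpa [he, hj] using congrFun e1 j

/-- Supporting data of a face. -/
structure Sup (ex : α → σ → ℕ) (h : σ → ℝ) (h₂ : α → ℝ) (τ : Finset (α ⊕ σ))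
    (u ω₁ ω₂ δ : σ → ℝ) : Prop where
  a0 : ∀ a, 1 ≤ rv ex a ⬝ᵥ u
  j0 : ∀ j, 0 ≤ u j
  a1 : ∀ a, rv ex a ⬝ᵥ u = 1 → 0 ≤ rv ex a ⬝ᵥ ω₁
  j1 : ∀ j, u j = 0 → h j ≤ ω₁ j
  a2 : ∀ a, rv ex a ⬝ᵥ u = 1 → rv ex a ⬝ᵥ ω₁ = 0 → rv ex a ⬝ᵥ δ = 0 ∧
    (Sum.inl a ∈ τ → rv ex a ⬝ᵥ ω₂ + h₂ a = 0) ∧ (Sum.inl a ∉ τ → 0 < rv ex a ⬝ᵥ ω₂ + h₂ a)
  j2 : ∀ j, u j = 0 → ω₁ j = h j → ω₂ j = 0 ∧ δ j = if Sum.inr j ∈ τ then -1 else 10
  a3 : ∀ a, Sum.inl a ∈ τ → rv ex a ⬝ᵥ u = 1 ∧ rv ex a ⬝ᵥ ω₁ = 0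
  j3 : ∀ j, Sum.inr j ∈ τ → u j = 0 ∧ ω₁ j = h j

theorem exact {ex : α → σ → ℕ} {h : σ → ℝ} {h₂ : α → ℝ} (H : Hts ex h h₂) {τ : Finset (α ⊕ σ)}
    (hτ : τ ∈ K3 ex h h₂) : ∃ u ω₁ ω₂ δ, Sup ex h h₂ τ u ω₁ ω₂ δ := by
  classical
  obtain ⟨u, ω₁, ω₂, h0, h1, h2, h3⟩ := mem_K3.1 hτ
  obtain ⟨T, hT⟩ : ∃ T : Finset α, ∀ a, a ∈ T ↔ rv ex a ⬝ᵥ u = 1 ∧ rv ex a ⬝ᵥ ω₁ = 0 :=
    ⟨Finset.univ.filter fun a => rv ex a ⬝ᵥ u = 1 ∧ rv ex a ⬝ᵥ ω₁ = 0, by simp⟩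
  obtain ⟨J, hJ⟩ : ∃ J : Finset σ, ∀ j, j ∈ J ↔ u j = 0 ∧ ω₁ j = h j :=
    ⟨Finset.univ.filter fun j => u j = 0 ∧ ω₁ j = h j, by simp⟩
  have hs := solve (v := rv ex) (T := T) (J := J) fun m κ hm hκ e => by
    refine H.gen T J (fun m κ ⟨hm, hκ, e, _⟩ => ?_) m κ ⟨hm, hκ, e, ?_⟩
    · have e1 := congrArg (· ⬝ᵥ ω₁) e
      simp only [add_dotProduct, sum_dotProduct, smul_dotProduct, zero_dotProduct] at e1
      rw [Finset.sum_eq_zero fun a _ => by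
        by_cases ha : a ∈ T
        · simp [((hT a).1 ha).2]
        · simp [hm a ha], zero_add] at e1
      rw [← e1]
      refine Finset.sum_congr rfl fun j _ => ?_
      by_cases hj : j ∈ J
      · rw [((hJ j).1 hj).2]
      · simp [hκ j hj]
    · have e1 := congrArg (· ⬝ᵥ u) e
      simp only [add_dotProduct, sum_dotProduct, smul_dotProduct, zero_dotProduct] at e1
      have e2 : κ ⬝ᵥ u = 0 := Finset.sum_eq_zero fun j _ => by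
        by_cases hj : j ∈ J
        · simp [((hJ j).1 hj).1]
        · simp [hκ j hj]
      rw [e2, add_zero] at e1
      rw [← e1]
      refine Finset.sum_congr rfl fun a _ => ?_
      by_cases ha : a ∈ T
      · simp [((hT a).1 ha).1]
      · simp [hm a ha]
  have hK : (T.filter fun a => rv ex a ⬝ᵥ ω₂ + h₂ a = 0).map Function.Embedding.inl ∈
      K3 ex h h₂ := mem_K3.2 ⟨u, ω₁, ω₂, h0, h1, h2, fun a ha => by
        simpa [hT, and_assoc] using ha, fun j hj => by simp at hj⟩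
  obtain ⟨Λ, hΛ, -⟩ := Tool.exists_dual (H.ind _ hK)
  obtain ⟨d, hd⟩ : ∃ d : σ → ℝ, ∀ a ∈ T, rv ex a ⬝ᵥ ω₂ + h₂ a = 0 →
      rv ex a ⬝ᵥ d = if Sum.inl a ∈ τ then 0 else 1 :=
    ⟨Λ fun b => if b ∈ τ then 0 else 1, fun a ha hb => hΛ _ (Sum.inl a) (by simp [ha, hb])⟩
  have hev : ∀ᶠ s in 𝓝[>] (0 : ℝ), ∀ a, Sum.inl a ∉ τ → a ∈ T →
      0 < rv ex a ⬝ᵥ ω₂ + h₂ a + s * (rv ex a ⬝ᵥ d) := by
    refine eventually_all.2 fun a => ?_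
    by_cases ha : Sum.inl a ∈ τ
    · exact Eventually.of_forall fun s hs => absurd ha hs
    by_cases hu : a ∈ T
    · rcases (h2.1 a ((hT a).1 hu).1 ((hT a).1 hu).2).eq_or_lt with e | e
      · filter_upwards [self_mem_nhdsWithin] with s hs _ _
        rw [hd a hu e.symm, if_neg ha, ← e]
        simpa using hs
      · have hc := ((by fun_prop : Continuous fun s : ℝ =>
          rv ex a ⬝ᵥ ω₂ + h₂ a + s * (rv ex a ⬝ᵥ d)).tendsto 0).eventually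
          (lt_mem_nhds (show 0 < rv ex a ⬝ᵥ ω₂ + h₂ a + 0 * (rv ex a ⬝ᵥ d) by simpa using e))
        filter_upwards [nhdsWithin_le_nhds hc] with s hs _ _ using hs
    · exact Eventually.of_forall fun s _ hs => absurd hs hu
  obtain ⟨s, hs'⟩ := hev.exists
  obtain ⟨z, hz1, hz2⟩ := hs (-(ω₂ + s • d))
  obtain ⟨δ, hδ1, hδ2⟩ := hs fun j => if Sum.inr j ∈ τ then -1 else 10
  refine ⟨u, ω₁, ω₂ + s • d + z, δ, h0.1, h0.2, h1.1, h1.2, fun a e1 e2 => ?_, fun j e1 e2 => ?_,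
    fun a ha => ⟨(h3.1 a ha).1, (h3.1 a ha).2.1⟩, fun j hj => ⟨(h3.2 j hj).1, (h3.2 j hj).2.1⟩⟩
  · have ha := (hT a).2 ⟨e1, e2⟩
    simp only [dotProduct_add, dotProduct_smul, smul_eq_mul, hz1 a ha]
    refine ⟨hδ1 a ha, fun hm => ?_, fun hm => by linarith [hs' a hm ha]⟩
    rw [hd a ha (h3.1 a hm).2.2, if_pos hm]
    linarith [(h3.1 a hm).2.2]
  · have hj := (hJ j).2 ⟨e1, e2⟩
    exact ⟨by rw [Pi.add_apply, hz2 j hj]; simp, hδ2 j hj⟩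

theorem large (x y : ℝ) : ∀ᶠ R : ℝ in atTop, 0 < x → y ≤ R * x := by
  by_cases hx : 0 < x
  · filter_upwards [(tendsto_id.atTop_mul_const hx).eventually_ge_atTop y] with R hR _ using hR
  · exact Eventually.of_forall fun _ h => absurd h hx

end Exact3

theorem t_Exact3 : S_Exact3 := by
  intro α σ _ _ _ _ ex h h₂ H
  classical
  choose! u ω₁ ω₂ δ hS using fun τ (hτ : τ ∈ K3 ex h h₂) => Exact3.exact H hτ
  have hγ : ∀ᶠ γ in 𝓝[>] (0 : ℝ), ∀ τ a, 0 < rv ex a ⬝ᵥ ω₂ τ + h₂ a →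
      γ ≤ rv ex a ⬝ᵥ ω₂ τ + h₂ a := by
    refine eventually_all.2 fun τ => eventually_all.2 fun a => ?_
    by_cases hp : 0 < rv ex a ⬝ᵥ ω₂ τ + h₂ a
    · filter_upwards [nhdsWithin_le_nhds (ge_mem_nhds hp)] with γ hγ _ using hγ
    · exact Eventually.of_forall fun γ ha => absurd ha hp
  obtain ⟨γ, hγ, hγ0⟩ := (hγ.and self_mem_nhdsWithin).exists
  refine ⟨γ, hγ0, fun L₂ hL₂ D hD => ?_⟩
  filter_upwards [eventually_all.2 fun τ => eventually_all.2 fun a => Exact3.large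
      (rv ex a ⬝ᵥ ω₁ τ) (L₂ * γ - L₂ * (rv ex a ⬝ᵥ ω₂ τ + h₂ a) - D * (rv ex a ⬝ᵥ δ τ)),
    eventually_all.2 fun τ => eventually_all.2 fun j => Exact3.large
      (ω₁ τ j - h j) (10 * D - L₂ * ω₂ τ j - D * δ τ j)] with L e1 e2
  filter_upwards [eventually_all.2 fun τ => eventually_all.2 fun a => Exact3.large
      (rv ex a ⬝ᵥ u τ - 1) (L₂ * γ - L * (rv ex a ⬝ᵥ ω₁ τ) - L₂ * (rv ex a ⬝ᵥ ω₂ τ + h₂ a) -
        D * (rv ex a ⬝ᵥ δ τ)),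
    eventually_all.2 fun τ => eventually_all.2 fun j => Exact3.large
      (u τ j) (10 * D - L * (ω₁ τ j - h j) - L₂ * ω₂ τ j - D * δ τ j)] with R e3 e4
  refine ⟨fun τ => R • u τ + L • ω₁ τ + L₂ • ω₂ τ + D • δ τ, fun τ hτ => ?_⟩
  have S := hS τ hτ
  simp only [dotProduct_add, dotProduct_smul, smul_eq_mul, Pi.add_apply, Pi.smul_apply]
  refine ⟨fun a => ⟨fun ha => ?_, fun ha => ?_⟩, fun j => ⟨fun hj => ?_, fun hj => ?_⟩⟩
  · obtain ⟨b1, b2⟩ := S.a3 a ha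
    obtain ⟨b3, b4, -⟩ := S.a2 a b1 b2
    rw [b1, b2, b3]
    linear_combination L₂ * b4 ha
  · rcases (S.a0 a).eq_or_lt with b1 | b1
    · rcases (S.a1 a b1.symm).eq_or_lt with b2 | b2
      · obtain ⟨b3, -, b4⟩ := S.a2 a b1.symm b2.symm
        have := mul_le_mul_of_nonneg_left (hγ τ a (b4 ha)) hL₂
        rw [← b1, ← b2, b3]
        linarith
      · have := e1 τ a b2
        rw [← b1]
        linarith
    · linarith [e3 τ a (sub_pos.2 b1)]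
  · obtain ⟨b1, b2⟩ := S.j3 j hj
    obtain ⟨b3, b4⟩ := S.j2 j b1 b2
    rw [b1, b2, b3, b4, if_pos hj]
    ring
  · rcases (S.j0 j).eq_or_lt with b1 | b1
    · rcases (S.j1 j b1.symm).eq_or_lt with b2 | b2
      · obtain ⟨b3, b4⟩ := S.j2 j b1.symm b2.symm
        rw [← b1, ← b2, b3, b4, if_neg hj]
        linarith
      · have := e2 τ j (sub_pos.2 b2)
        rw [← b1]
        linarith
    · linarith [e4 τ j b1]

end Pool.Agent.P.MP_9321be_ag.NC.E
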