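import Pool.Agent.P.MP_9321be_ag.NC.EBas

/-!
Assembly of the eigenclass on tubes.
-/

namespace Pool.Agent.P.MP_9321be_ag.NC.E

open Pool.Agent.Lib.Helper83 Pool.Agent.P.MP_9321be_ag.ND.E Set Complex Filter

namespace Fam3

theorem exists_compl {σ : Type} [Fintype σ] {p : ℕ} (y : Fin p → σ → ℝ)
    (h : LinearIndependent ℝ y) : ∃ (q : ℕ) (u : Fin q → σ → ℝ), p + q = Fintype.card σ ∧
      ⊤ ≤ Submodule.span ℝ (range u ∪ range y) := by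
  obtain ⟨W, hW⟩ := (Submodule.span ℝ (range y)).exists_isCompl
  refine ⟨_, W.subtype ∘ Module.finBasis ℝ W, ?_, ?_⟩
  · simpa [finrank_span_eq_card h] using Submodule.finrank_add_eq_of_isCompl hW
  · rw [Submodule.span_union, range_comp, Submodule.span_image, Module.Basis.span_eq,
      Submodule.map_subtype_top, sup_comm, hW.sup_eq_top]

theorem exists_int_sum {α : Type} (s : Finset α) (g : α → ℝ) (h : ∀ a ∈ s, ∃ z : ℤ, g a = z) :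
    ∃ z : ℤ, ∑ a ∈ s, g a = z :=
  Finset.sum_induction g (fun x => ∃ z : ℤ, x = z)
    (fun _ _ ⟨a, ha⟩ ⟨b, hb⟩ => ⟨a + b, by simp [ha, hb]⟩) ⟨0, by simp⟩ h

theorem inv {α σ : Type} [Fintype α] [Nonempty α] [Fintype σ] (ex : α → σ → ℕ) (c : α → ℂ)
    (K₀ : ℝ) (h : σ → ℝ) (L : ℝ) : (ld3 ex c K₀ h L).Inv T3 (io α σ) := fun p => by
  have e : lab3 ex c K₀ h L (T3 p) = lab3 ex c K₀ h L p := by
    simp only [lab3, T3, lab_dk]
    rfl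
  refine ⟨e, rfl, ?_⟩
  simp only [ld3, e]
  cases lab3 ex c K₀ h L p with
  | inl a =>
    simp only [T3, zz_dk, Sum.elim_inl, io, Pi.one_apply]
    simp only [dk, add_im, mul_im, mul_re, re_ofNat, ofReal_re, im_ofNat, ofReal_im, I_im, I_re]
    rw [add_div, mul_zero, sub_zero, mul_one, mul_zero, add_zero, div_self Real.two_pi_pos.ne']
    ring
  | inr j => simp [T3, io]

end Fam3

open Fam3

theorem t_Fam3 (hND : S_NDNI) (hCo : S_Const3) (hG : S_KGen) (hGen : S_Gen3) (hCl : S_Cl3)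
    (hUn : S_Uniq3) (hNe : S_Near3) (hPh : S_Phi) (hVa : S_Val) (hSt : S_Stress) (hAp : S_NVApp)
    (hLo : S_Loc3) (hI : S_Imap3) (hLa : S_Lab) : S_Fam3 := by
  intro α σ _ _ _ _ ex c h u ω s g ne nd hp gen u0 u1 w0 w1 sr sv ind hg ap hz
  classical
  set E := s.filter fun a => ∀ z : ℤ, g a ≠ z with hE
  set τ₀ := s.filter fun a => ∀ z : ℤ, z ≤ 0 → g a ≠ z with hτ
  have hEs : E ⊆ s := Finset.filter_subset _ _
  have hr : ∀ a ∈ s \ E, ∃ z : ℤ, g a = z := fun a ha => by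
    simp only [hE, Finset.mem_sdiff, Finset.mem_filter, not_and, not_forall, not_not] at ha
    exact ha.2 ha.1
  obtain ⟨z₀, hz₀⟩ := exists_int_sum _ (fun a => g a * io α σ a) fun a ha => by
    obtain ⟨z, e⟩ := hr a ha
    cases a with
    | inl a => exact ⟨z, by simp [io, e]⟩
    | inr a => exact ⟨0, by simp [io]⟩
  have hsum := Finset.sum_sdiff (f := fun a => g a * io α σ a) hEs
  obtain ⟨a₀, ha₀⟩ : ∃ a, Sum.inl a ∈ E := by
    by_contra hc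
    refine hz z₀ ?_
    rw [← hsum, hz₀, Finset.sum_eq_zero, add_zero]
    rintro (a | a) ha
    · exact (hc ⟨a, ha⟩).elim
    · simp [io]
  have hEτ : E ⊆ τ₀ := Finset.monotone_filter_right _ fun a _ h z _ => h z
  have hint : ∀ i, ∃ z : ℤ, ∑ a ∈ E, g a * ex3 ex a i = z := fun i => by
    obtain ⟨z, e⟩ := exists_int_sum (s \ E) (fun a => g a * ex3 ex a i) fun a ha => by
      obtain ⟨z, e⟩ := hr a ha
      exact ⟨z * ex3 ex a i, by simp [e]⟩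
    have := Finset.sum_sdiff (f := fun a => g a * ex3 ex a i) hEs
    exact ⟨1 - z, by push_cast; linarith [hg i]⟩
  have hI₀ : Intr (rv (ex3 ex)) τ₀ := fun i => by
    obtain ⟨a, h1, h2⟩ := Finset.exists_lt_of_sum_lt (s := s) (f := fun _ => (0 : ℝ))
      (g := fun a => g a * ex3 ex a i) (by simp [hg i])
    refine ⟨a, Finset.mem_filter.2 ⟨h1, fun z hz' e => ?_⟩, fun e => ?_⟩
    · have : (z : ℝ) ≤ 0 := by exact_mod_cast hz'
      nlinarith [(ex3 ex a i).cast_nonneg (α := ℝ)]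
    · simp [show (ex3 ex a i : ℝ) = 0 from e] at h2
  have : Nonempty α := ⟨a₀⟩
  obtain ⟨d, hd⟩ : ∃ d, Fintype.card σ = d + 1 := Nat.exists_eq_succ_of_ne_zero
    (@Fintype.card_ne_zero _ _ ⟨(Function.ne_iff.1 (ne a₀)).choose⟩)
  let e : Fin (d + 1) ≃ σ := (Fintype.equivFinOfCardEq hd).symm
  obtain ⟨h₂, h0, h1, h2⟩ := hGen α σ ex h s gen ind
  obtain ⟨sec, hsec⟩ := (hG _ σ (rv (ex3 ex))).2 _ h2
  have ht : Hts ex h h₂ := ⟨ne, hp, gen, h2⟩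
  have hsK : s ∈ K3 ex h h₂ := mem_K3.2 ⟨u, ω, 0, ⟨u1, u0⟩, ⟨w0, w1⟩,
    ⟨fun a _ _ => by simpa using h0 a, fun _ _ _ => le_rfl⟩,
    fun a ha => ⟨(sr a ha).1, (sr a ha).2, by simp [h1 a ha]⟩,
    fun j hj => ⟨(sv j hj).1, (sv j hj).2, rfl⟩⟩
  have cx : Cx (rv (ex3 ex)) (K3 ex h h₂) :=
    ⟨KL_down _ _ _ _, h2, hCl α σ ex h h₂ ht, hUn _ σ _ _ _ _ h2⟩
  let r : Fin τ₀.card → α ⊕ σ := fun i => τ₀.equivFin.symm i
  have hr' : Finset.univ.image r = τ₀ := by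
    ext a
    simp only [Finset.mem_image, Finset.mem_univ, true_and]
    exact ⟨fun ⟨i, e⟩ => e ▸ (τ₀.equivFin.symm i).2, fun ha => ⟨τ₀.equivFin ⟨a, ha⟩, by simp [r]⟩⟩
  obtain ⟨q, u₀, hq, hu₀⟩ := exists_compl (rv (ex3 ex) ∘ r)
    ((h2 τ₀ (cx.down s hsK _ (Finset.filter_subset _ _))).comp τ₀.equivFin.symm
      τ₀.equivFin.symm.injective)
  have hp' : 0 < τ₀.card := Finset.card_pos.2 ⟨_, hEτ ha₀⟩
  have P1 := hPh _ σ _ _ sec _ q r u₀ cx.down h2 hsec hp' hu₀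
  have P2 := hVa _ σ _ _ sec _ q _ e r u₀ cx.down h2 hsec hp' (hq.trans hd) hu₀
  rw [hr'] at P1 P2
  obtain ⟨Λ, Q1, Q2⟩ := hSt _ σ _ _ d e τ₀ q _ cx hI₀ (hq.trans hd) P1 P2
  obtain ⟨μ, m1, m2, m3⟩ := hAp _ σ (ex3 ex) _ s E τ₀ g Λ cx hsK hg (fun a => Finset.mem_filter)
    (fun a => Finset.mem_filter) ap Q1
  have hm : (0 : ℝ) < Fintype.card α := by exact_mod_cast Fintype.card_pos
  obtain ⟨L₂, ⟨ni, n1⟩, n2⟩ := ((hNe α σ ex h h₂ (3 * Fintype.card α) ht (by positivity)).and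
    (hI α σ ex h h₂ (3 * Fintype.card α) ht le_rfl)).exists
  have el : exp (-(2 * Real.pi * I * (∑ a ∈ s, g a * io α σ a : ℝ))) =
      exp (-(2 * Real.pi * I * (∑ a ∈ E, g a * io α σ a : ℝ))) := by
    rw [← hsum, hz₀, exp_eq_exp_iff_exists_int]
    exact ⟨-z₀, by push_cast; ring⟩
  rw [el]
  refine hCo α σ ex c _ h _ hp (hND α σ ex c nd) ni ⟨d, 1, fun W₂ => ?_⟩
  filter_upwards [eventually_gt_atTop W₂, eventually_ge_atTop 2] with D d1 d2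
  filter_upwards [n1, n2 D d2] with L ⟨η₀, e0, n3⟩ n4
  refine ⟨η₀, e0, fun η hη => ?_⟩
  obtain ⟨Ψ, W, im⟩ := n4 η hη
  exact hLa _ _ σ _ _ _ T3 _ _ _ d e τ₀ E g q _ Ψ W μ T3_cont (inv _ _ _ _ _) cx hI₀ hEτ hint P1
    (hLo α σ ex h h₂ L₂ _ L D W₂ η₀ _ τ₀ le_rfl d1 n3 hI₀ ⟨a₀, hEτ ha₀⟩) im
    (fun a ha => (Finset.mem_filter.1 ha).2) m2 m3 (Q2 μ m1)

end Pool.Agent.P.MP_9321be_ag.NC.E
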