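import Pool.Agent.P.MP_9321be_ag.NC.EBas
import Pool.Agent.P.MP_9321be_ag.ND.EKExact

/-!
Uniqueness of the facet on a side of a ridge, and generic real heights.
-/

namespace Pool.Agent.P.MP_9321be_ag.NC.E

open Pool.Agent.P.MP_9321be_ag.ND.E Filter

namespace Gen3

variable {α σ : Type} [Fintype σ]

theorem level {v : α → σ → ℝ} {ρ : Finset α} {b b' : α} {d w w' : σ → ℝ} {H : α → ℝ}
    (hρ : LinearIndepOn ℝ v (ρ : Set α)) (hc : ρ.card + 1 = Fintype.card σ)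
    (hd : ∀ a ∈ ρ, v a ⬝ᵥ d = 0) (h0 : 0 < v b ⬝ᵥ d) (h0' : 0 < v b' ⬝ᵥ d)
    (h1 : ∀ a ∈ ρ, v a ⬝ᵥ w + H a = 0) (h1' : ∀ a ∈ ρ, v a ⬝ᵥ w' + H a = 0)
    (h2 : v b ⬝ᵥ w + H b = 0) (h2' : v b' ⬝ᵥ w' + H b' = 0)
    (h3 : 0 ≤ v b' ⬝ᵥ w + H b') (h3' : 0 ≤ v b ⬝ᵥ w' + H b) : w = w' := by
  have hd0 : d ≠ 0 := by
    rintro rfl
    simp at h0
  obtain ⟨c, hcu⟩ := Tool.exists_smul hρ hc hd0 hd (d' := w - w') fun a ha => by
    rw [dotProduct_sub]
    linarith [h1 a ha, h1' a ha]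
  have hc0 : c = 0 := by
    have e1 := congrArg (v b ⬝ᵥ ·) hcu
    have e2 := congrArg (v b' ⬝ᵥ ·) hcu
    simp only [dotProduct_sub, dotProduct_smul, smul_eq_mul] at e1 e2
    exact KExact.zero_of h0 h0' (by linarith) (by linarith)
  rwa [hc0, zero_smul, sub_eq_zero] at hcu

variable [Fintype α] [DecidableEq α]

omit [Fintype σ] in
theorem ind_iff {v : α → σ → ℝ} {τ : Finset α} : LinearIndepOn ℝ v (τ : Set α) ↔
    ∀ g : α → ℝ, (∀ a ∉ τ, g a = 0) → ∑ a, g a • v a = 0 → g = 0 := by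
  rw [linearIndepOn_finset_iff]
  constructor
  · intro h g h1 h2
    funext a
    by_cases ha : a ∈ τ
    · refine h g ?_ a ha
      rw [← h2]
      exact Finset.sum_subset (Finset.subset_univ τ) fun x _ hx => by rw [h1 x hx, zero_smul]
    · exact h1 a ha
  · intro h f hf a ha
    have h1 := h (fun a => if a ∈ τ then f a else 0) (fun a ha => if_neg ha) (by
      rw [← hf]
      simp [ite_smul, Finset.sum_ite_mem])
    simpa [ha] using congrFun h1 a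

omit [DecidableEq α] in
theorem exists_big (x y : α → ℝ) : ∃ M : ℝ, ∀ a, 0 < x a → 0 ≤ M * x a + y a := by
  have h : ∀ a, ∀ᶠ M : ℝ in atTop, 0 < x a → 0 ≤ M * x a + y a := by
    intro a
    by_cases ha : 0 < x a
    · filter_upwards [eventually_ge_atTop (-y a / x a)] with M hM _
      rw [div_le_iff₀ ha] at hM
      linarith
    · exact Eventually.of_forall fun M h => (ha h).elim
  exact (eventually_all.2 h).exists

omit [DecidableEq α] in
theorem rel_dot {ex : α → σ → ℕ} {m : α → ℝ} {κ : σ → ℝ} (h : ∑ a, m a • rv ex a + κ = 0)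
    (y : σ → ℝ) : ∑ a, m a * (rv ex a ⬝ᵥ y) + κ ⬝ᵥ y = 0 := by
  have h1 := congrArg (· ⬝ᵥ y) h
  simpa only [add_dotProduct, sum_dotProduct, smul_dotProduct, smul_eq_mul, zero_dotProduct]
    using h1

end Gen3

open Gen3

theorem t_Uniq3 : S_Uniq3 := by
  intro α σ _ _ _ _ v H₀ H₁ H₂ hI ρ b b' d hb hb' hc hd h0 h0'
  have hbρ : b ∉ ρ := fun hm => h0.ne' (hd b hm)
  have hbρ' : b' ∉ ρ := fun hm => h0'.ne' (hd b' hm)
  have hρ : LinearIndepOn ℝ v (ρ : Set α) :=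
    (hI _ hb).mono (Finset.coe_subset.2 (Finset.subset_insert _ _))
  obtain ⟨u, ω₁, ω₂, h1, h2, h3, h4⟩ := hb
  obtain ⟨u', ω₁', ω₂', h1', h2', h3', h4'⟩ := hb'
  have m := h4 b (Finset.mem_insert_self b ρ)
  have m' := h4' b' (Finset.mem_insert_self b' ρ)
  have r := fun a ha => h4 a (Finset.mem_insert_of_mem ha)
  have r' := fun a ha => h4' a (Finset.mem_insert_of_mem ha)
  obtain rfl : u = u' := level hρ hc hd h0 h0' (fun a ha => (r a ha).1) (fun a ha => (r' a ha).1)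
    m.1 m'.1 (h1 b') (h1' b)
  obtain rfl : ω₁ = ω₁' := level hρ hc hd h0 h0' (fun a ha => (r a ha).2.1)
    (fun a ha => (r' a ha).2.1) m.2.1 m'.2.1 (h2 b' m'.1) (h2' b m.1)
  obtain rfl : ω₂ = ω₂' := level hρ hc hd h0 h0' (fun a ha => (r a ha).2.2)
    (fun a ha => (r' a ha).2.2) m.2.2 m'.2.2 (h3 b' m'.1 m'.2.1) (h3' b m.1 m.2.1)
  by_contra hne
  have hK : insert b' (insert b ρ) ∈ KL v H₀ H₁ H₂ := ⟨u, ω₁, ω₂, h1, h2, h3, fun a ha => by
    rcases Finset.mem_insert.1 ha with rfl | ha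
    · exact m'
    · exact h4 a ha⟩
  have hle := Tool.card_le (hI _ hK)
  rw [Finset.card_insert_of_notMem (by
    rw [Finset.mem_insert, not_or]; exact ⟨fun e => hne e.symm, hbρ'⟩),
    Finset.card_insert_of_notMem hbρ] at hle
  omega

theorem t_Gen3 : S_KGen → S_Gen3 := by
  intro hK α σ _ _ _ _ ex h s hG hs
  have hs' : LinearIndepOn ℝ (rv ex) (s.toLeft : Set α) := by
    refine ind_iff.2 fun g h1 h2 => ?_
    have h3 := ind_iff.1 hs (Sum.elim g 0) (by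
      rintro (a | j) ha
      · exact h1 a fun hm => ha (Finset.mem_toLeft.1 hm)
      · rfl) (by simpa [Fintype.sum_sum_type] using h2)
    funext a
    exact congrFun h3 (Sum.inl a)
  obtain ⟨h₂, p1, p2, hI⟩ := (hK α σ (rv ex)).1 s.toLeft hs'
  refine ⟨h₂, p1, fun a ha => p2 a (Finset.mem_toLeft.2 ha), fun τ hτ => ?_⟩
  obtain ⟨u, ω₁, ω₂, ⟨a0, -⟩, ⟨a1, -⟩, ⟨a2, -⟩, a3, b3⟩ := mem_K3.1 hτ
  obtain ⟨M, hM⟩ := exists_big (fun a => rv ex a ⬝ᵥ ω₁) fun a => rv ex a ⬝ᵥ ω₂ + h₂ a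
  have hr : τ.toLeft ∈ KK (rv ex) h₂ := by
    refine ⟨u, M • ω₁ + ω₂, a0, fun a ha => ?_, fun a ha => ?_⟩
    · obtain ⟨e1, e2, e3⟩ := a3 a (Finset.mem_toLeft.1 ha)
      refine ⟨e1, ?_⟩
      rw [dotProduct_add, dotProduct_smul, e2, smul_zero, zero_add, e3]
    · rw [dotProduct_add, dotProduct_smul, smul_eq_mul, add_assoc]
      rcases (a1 a ha).eq_or_lt with e | e
      · rw [← e, mul_zero, zero_add]
        exact a2 a ha e.symm
      · exact hM a e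
  have hrel : ∀ m κ, Rel ex τ.toLeft τ.toRight m κ → κ ⬝ᵥ h = 0 := by
    rintro m κ ⟨c1, c2, c3, -⟩
    have e1 := rel_dot c3 ω₁
    have e2 : ∑ a, m a * (rv ex a ⬝ᵥ ω₁) = 0 := Finset.sum_eq_zero fun a _ => by
      by_cases ha : a ∈ τ.toLeft
      · rw [(a3 a (Finset.mem_toLeft.1 ha)).2.1, mul_zero]
      · rw [c1 a ha, zero_mul]
    have e3 : κ ⬝ᵥ h = κ ⬝ᵥ ω₁ := Finset.sum_congr rfl fun j _ => by
      by_cases hj : j ∈ τ.toRight
      · rw [(b3 j (Finset.mem_toRight.1 hj)).2.1]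
      · rw [c2 j hj, zero_mul, zero_mul]
    linarith
  refine ind_iff.2 fun g g1 g2 => ?_
  have c1 : ∀ a ∉ τ.toLeft, g (Sum.inl a) = 0 := fun a ha =>
    g1 _ fun hm => ha (Finset.mem_toLeft.2 hm)
  have c2 : ∀ j ∉ τ.toRight, 2 * g (Sum.inr j) = 0 := fun j hj => by
    rw [g1 _ fun hm => hj (Finset.mem_toRight.2 hm), mul_zero]
  have c3 : ∑ a, g (Sum.inl a) • rv ex a + (fun j => 2 * g (Sum.inr j)) = 0 := by
    rw [← g2, Fintype.sum_sum_type]
    congr 1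
    funext i
    simp [rv_inr, Finset.sum_apply, Pi.single_apply, mul_comm]
  have c4 : ∑ a, g (Sum.inl a) = 0 := by
    have e1 := rel_dot c3 u
    have e2 : ∑ a, g (Sum.inl a) * (rv ex a ⬝ᵥ u) = ∑ a, g (Sum.inl a) :=
      Finset.sum_congr rfl fun a _ => by
        by_cases ha : a ∈ τ.toLeft
        · rw [(a3 a (Finset.mem_toLeft.1 ha)).1, mul_one]
        · rw [c1 a ha, zero_mul]
    have e3 : (fun j => 2 * g (Sum.inr j)) ⬝ᵥ u = 0 := Finset.sum_eq_zero fun j _ => by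
      by_cases hj : j ∈ τ.toRight
      · rw [(b3 j (Finset.mem_toRight.1 hj)).1, mul_zero]
      · exact mul_eq_zero_of_left (c2 j hj) _
    linarith
  have k0 := hG _ _ hrel (fun a => g (Sum.inl a)) (fun j => 2 * g (Sum.inr j)) ⟨c1, c2, c3, c4⟩
  rw [k0, add_zero] at c3
  have m0 := ind_iff.1 (hI _ hr) (fun a => g (Sum.inl a)) c1 c3
  funext a
  rcases a with a | j
  · exact congrFun m0 a
  · have := congrFun k0 j
    simpa using this

end Pool.Agent.P.MP_9321be_ag.NC.E
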