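import Pool.Agent.P.MP_9321be_ag.NC.EBas
import Pool.Agent.P.MP_9321be_ag.ND.EImap

/-!
Construction of the patchworking maps on the tubes.
-/

namespace Pool.Agent.P.MP_9321be_ag.NC.E

open Pool.Agent.Lib.Helper83 Pool.Agent.P.MP_9321be_ag.ND.E Set Complex Filter Topology
open Pool.Agent.P.MP_9321be_ag.ND.E.Imap

namespace Imap3

variable {α σ : Type} [Fintype α] [DecidableEq α] [Fintype σ] [DecidableEq σ]

/-- Averages of a function with a gap. -/
lemma gap {c : ℝ} (hc : 0 ≤ c) {τ : Finset α} {β : α → ℝ} (hβ : β ∈ Dτ τ) (a : α)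
    (f : Finset α → ℝ) (r g : ℝ) (h : ∀ J ⊆ τ, (a ∈ J → f J = r) ∧ (a ∉ J → r + g ≤ f J)) :
    r + g * (1 - tr c β a) ≤ ∑ J, rho (tr c β) J * f J ∧
      (tr c β a = 1 → ∑ J, rho (tr c β) J * f J = r) := by
  refine ⟨?_, fun ha => av_eq hβ ha _ r fun J hJ haJ => (h J hJ).1 haJ⟩
  have := av_ge hc hβ (fun J => r + g * (if a ∈ J then 0 else 1)) f (fun J hJ => by
    by_cases ha : a ∈ J
    · simp [ha, (h J hJ).1 ha]
    · simpa [ha] using (h J hJ).2 ha)
  refine le_trans (le_of_eq ?_) this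
  simp only [mul_add, Finset.sum_add_distrib, ← Finset.sum_mul, sum_rho, one_mul]
  rw [← sum_rho_not, Finset.mul_sum]
  congr 1
  exact Finset.sum_congr rfl fun J _ => by ring

omit [Fintype α] [DecidableEq α] in
lemma tr_two {c : ℝ} {β : α → ℝ} {a : α} (h : 1 / 2 < tr c β a) : tr (2 * c) β a = 1 :=
  min_eq_left (by have := h.trans_le (min_le_right _ _); linarith)

lemma e_int {θ : ℝ} (h : ∃ z : ℤ, θ = z) : exp (2 * Real.pi * I * θ) = 1 := by
  obtain ⟨z, hz⟩ := h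
  rw [hz, ← exp_int_mul_two_pi_mul_I z]; congr 1; push_cast; ring

omit [DecidableEq α] in
/-- The pointwise estimates without a dominant term. -/
lemma key2 (T θ : α → ℝ) (R η K₀ : ℝ) (hK : (Fintype.card α : ℝ) ≤ K₀) (hη : K₀ * η < 1)
    (hη0 : 0 < η) (hT : ∀ a, R ≤ T a)
    (hd : ∀ a, (∃ z : ℤ, θ a = z) ∨ Real.exp (-T a) ≤ Real.exp (-R) * η) :
    -Real.exp (-R) < (∑ a, (Real.exp (-T a) : ℝ) * exp (2 * Real.pi * I * θ a)).re ∧
      ‖∑ a, (Real.exp (-T a) : ℝ) * exp (2 * Real.pi * I * θ a)‖ ≤ K₀ * Real.exp (-R) := by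
  have hn : ∀ a, ‖((Real.exp (-T a) : ℝ) : ℂ) * exp (2 * Real.pi * I * θ a)‖ = Real.exp (-T a) :=
    fun a => by
      rw [norm_mul, norm_e, mul_one, Complex.norm_real, Real.norm_of_nonneg (Real.exp_pos _).le]
  have hR := Real.exp_pos (-R)
  constructor
  · have h1 : ∀ a, -(Real.exp (-R) * η) ≤
        (((Real.exp (-T a) : ℝ) : ℂ) * exp (2 * Real.pi * I * θ a)).re := fun a => by
      rcases hd a with hz | hz
      · rw [e_int hz, mul_one, ofReal_re]
        have := mul_pos hR hη0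
        linarith [Real.exp_pos (-T a)]
      · have := (abs_le.1 (abs_re_le_norm
          (((Real.exp (-T a) : ℝ) : ℂ) * exp (2 * Real.pi * I * θ a)))).1
        rw [hn] at this; linarith
    have h2 := Finset.sum_le_sum fun a (_ : a ∈ Finset.univ) => h1 a
    simp only [Finset.sum_const, Finset.card_univ, nsmul_eq_mul] at h2
    rw [re_sum]
    have h3 : (Fintype.card α : ℝ) * (Real.exp (-R) * η) ≤ K₀ * (Real.exp (-R) * η) :=
      mul_le_mul_of_nonneg_right hK (by positivity)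
    nlinarith
  · refine (norm_sum_le _ _).trans ?_
    calc ∑ a, ‖((Real.exp (-T a) : ℝ) : ℂ) * exp (2 * Real.pi * I * θ a)‖
        ≤ ∑ _a : α, Real.exp (-R) := Finset.sum_le_sum fun a _ => by
          rw [hn]; exact Real.exp_le_exp.2 (neg_le_neg (hT a))
      _ ≤ _ := by
          simp only [Finset.sum_const, Finset.card_univ, nsmul_eq_mul]
          exact mul_le_mul_of_nonneg_right hK hR.le

lemma norm_mon (ex : α → σ → ℕ) (p w : σ → ℝ) (a : α) :
    ‖mon (ex a) (pt p w)‖ = Real.exp (-(rv ex a ⬝ᵥ p)) := by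
  have := congrArg norm (term_pt ex (fun _ => 0) 0 p w a)
  rw [norm_mul, norm_mul, norm_e, Complex.norm_real] at this
  simpa [vc] using this

/-- The cutoff. -/
noncomputable def cut (c : ℝ) (β : α ⊕ σ → ℝ) : ℝ := ∏ a : α, max 0 (min 1 (2 - c * β (.inl a)))

omit [DecidableEq α] [Fintype σ] [DecidableEq σ] in
lemma cut_cont (c : ℝ) : Continuous (cut c : (α ⊕ σ → ℝ) → ℝ) := by
  unfold cut; fun_prop

omit [DecidableEq α] [Fintype σ] [DecidableEq σ] in
lemma cut_nonneg (c : ℝ) (β : α ⊕ σ → ℝ) : 0 ≤ cut c β :=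
  Finset.prod_nonneg fun _ _ => le_max_left _ _

omit [DecidableEq α] [Fintype σ] [DecidableEq σ] in
lemma cut_le (c : ℝ) (β : α ⊕ σ → ℝ) : cut c β ≤ 1 :=
  Finset.prod_le_one (fun _ _ => le_max_left _ _) fun _ _ => max_le zero_le_one (min_le_left _ _)

omit [DecidableEq α] [Fintype σ] [DecidableEq σ] in
lemma cut_one {c : ℝ} {β : α ⊕ σ → ℝ} (h : ∀ a, tr c β (.inl a) ≠ 1) : cut c β = 1 :=
  Finset.prod_eq_one fun a _ => by
    have : c * β (.inl a) < 1 := by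
      by_contra hc; exact h a (min_eq_left (not_lt.1 hc))
    rw [min_eq_left (by linarith), max_eq_right zero_le_one]

omit [DecidableEq α] [Fintype σ] [DecidableEq σ] in
lemma cut_zero {c : ℝ} {β : α ⊕ σ → ℝ} (h : cut c β = 0) : ∃ a, tr c β (.inl a) = 1 := by
  by_contra hc
  rw [cut_one (not_exists.1 hc)] at h
  exact one_ne_zero h

omit [DecidableEq α] [DecidableEq σ] in
lemma cut_ne [Nonempty α] {τ : Finset (α ⊕ σ)} {β : α ⊕ σ → ℝ} (hβ : β ∈ Dτ τ) {c : ℝ}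
    (hc : c = 2 * Fintype.card α + Fintype.card σ) (h : cut c β ≠ 0) :
    ∃ j, tr c β (.inr j) = 1 := by
  by_contra hn
  have h1 : ∀ a, c * β (.inl a) < 2 := fun a => by
    by_contra h2
    exact h (Finset.prod_eq_zero (Finset.mem_univ a)
      (max_eq_left ((min_le_right _ _).trans (by linarith))))
  have h2 : ∀ j, c * β (.inr j) ≤ 1 := fun j => by
    by_contra h2
    exact hn ⟨j, min_eq_left (not_le.1 h2).le⟩
  have h3 := Finset.sum_lt_sum_of_nonempty Finset.univ_nonempty fun a _ => h1 a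
  have h4 := Finset.sum_le_sum fun j (_ : j ∈ Finset.univ) => h2 j
  have h5 := hβ.1.2
  rw [Fintype.sum_sum_type] at h5
  rw [← Finset.mul_sum] at h3 h4
  simp only [Finset.sum_const, Finset.card_univ, nsmul_eq_mul] at h3 h4
  have : c * (∑ a, β (.inl a) + ∑ j, β (.inr j)) = c := by rw [h5, mul_one]
  linarith

end Imap3

open Imap3 in
theorem t_Imap3 : S_KGen → S_Exact3 → S_Imap3 := by
  intro hG hE α σ _ _ _ _ _ ex h h₂ K₀ hH hK3
  obtain ⟨sec, hsec⟩ := (hG (α ⊕ σ) σ (rv (ex3 ex))).2 _ hH.ind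
  obtain ⟨γ, hγ, hE⟩ := hE α σ ex h h₂ hH
  obtain ⟨t, ht, hη⟩ := small K₀ 1 one_pos
  have hm0 : (0 : ℝ) ≤ Fintype.card α := Nat.cast_nonneg _
  have hK : (Fintype.card α : ℝ) ≤ K₀ := by linarith
  filter_upwards [eventually_ge_atTop (2 * t / γ)] with L₂ hL D hD
  have hL0 : 0 < L₂ := lt_of_lt_of_le (by positivity) hL
  have hη1 : K₀ * Real.exp (-(L₂ * γ / 2)) < 1 := hη _ (by
    rw [div_le_iff₀ hγ] at hL; linarith)
  filter_upwards [hE L₂ hL0.le D (by linarith)] with L hE η hη0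
  obtain ⟨R₀, -, hR₀⟩ := small (K₀ + 1) η hη0
  obtain ⟨R₁, -, hR₁⟩ := small (∑ a, Real.exp (L₂ * h₂ a)) η hη0
  obtain ⟨R, ⟨p, hp⟩, hR, hR'⟩ :=
    (hE.and ((eventually_ge_atTop R₀).and (eventually_ge_atTop R₁))).exists
  obtain ⟨c, hc⟩ : ∃ c : ℝ, c = 2 * Fintype.card α + Fintype.card σ := ⟨_, rfl⟩
  have hc0 : 0 ≤ c := by rw [hc]; positivity
  have hdown : ∀ τ ∈ K3 ex h h₂, ∀ J ⊆ τ, J ∈ K3 ex h h₂ := KL_down _ _ _ _
  set W : (α ⊕ σ → ℝ) → (α ⊕ σ → ℝ) → σ → ℝ := fun k => av (2 * c) fun J => sec J k with hW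
  set x : (α ⊕ σ → ℝ) → (α ⊕ σ → ℝ) → σ → ℂ := fun k β => pt (av c p β) (W k β) with hx
  set T : (α ⊕ σ → ℝ) → α → ℝ := fun β a => rv ex a ⬝ᵥ av c p β + L₂ * h₂ a with hT
  set y : (α ⊕ σ → ℝ) → (α ⊕ σ → ℝ) → ℂ := fun k β =>
    ev ex (vc h₂ L₂) (x k β) + (cut c β * Real.exp (-R) : ℝ) with hy
  have hev : ∀ k β, ev ex (vc h₂ L₂) (x k β) =
      ∑ a, (Real.exp (-T β a) : ℝ) * exp (2 * Real.pi * I * (rv ex a ⬝ᵥ W k β : ℝ)) :=
    fun k β => Finset.sum_congr rfl fun a _ => term_pt ex h₂ L₂ _ _ a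
  have hTg : ∀ τ ∈ K3 ex h h₂, ∀ β ∈ Dτ τ, ∀ a,
      R + L₂ * γ * (1 - tr c β (.inl a)) ≤ T β a ∧ (tr c β (.inl a) = 1 → T β a = R) := by
    intro τ hτ β hβ a
    have := gap hc0 hβ (.inl a) (fun J => rv ex a ⬝ᵥ p J + L₂ * h₂ a) R (L₂ * γ)
      fun J hJ => (hp J (hdown τ hτ J hJ)).1 a
    rwa [← dot_av] at this
  have hPg : ∀ τ ∈ K3 ex h h₂, ∀ β ∈ Dτ τ, ∀ j,
      L * h j - D + 11 * D * (1 - tr c β (.inr j)) ≤ av c p β j ∧
        (tr c β (.inr j) = 1 → av c p β j = L * h j - D) := by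
    intro τ hτ β hβ j
    have := gap hc0 hβ (.inr j) (fun J => p J j) (L * h j - D) (11 * D) fun J hJ =>
      ⟨((hp J (hdown τ hτ J hJ)).2 j).1, fun hj => by
        have := ((hp J (hdown τ hτ J hJ)).2 j).2 hj; linarith⟩
    have h3 : av c p β j = ∑ J, rho (tr c β) J * p J j := by simp [av, Finset.sum_apply]
    rwa [h3]
  have hθ : ∀ τ ∈ K3 ex h h₂, ∀ k, ∀ β ∈ Dτ τ, ∀ a, tr (2 * c) β a = 1 →
      rv (ex3 ex) a ⬝ᵥ W k β = k a := by
    intro τ hτ k β hβ a ha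
    have := dot_av (2 * c) (fun J => sec J k) β (rv (ex3 ex) a) 0
    simp only [add_zero] at this
    exact this.trans (av_eq hβ ha _ _ fun J hJ haJ => hsec.1 J (hdown τ hτ J hJ) a haJ k)
  have hsm : ∀ τ ∈ K3 ex h h₂, ∀ β ∈ Dτ τ, ∀ a, tr (2 * c) β (.inl a) ≠ 1 →
      Real.exp (-T β a) ≤ Real.exp (-R) * Real.exp (-(L₂ * γ / 2)) := by
    intro τ hτ β hβ a ha
    have h2 : tr c β (.inl a) ≤ 1 / 2 := not_lt.1 fun h => ha (tr_two h)
    have := (hTg τ hτ β hβ a).1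
    rw [← Real.exp_add, Real.exp_le_exp]
    nlinarith [mul_pos hL0 hγ]
  have hTR : ∀ τ ∈ K3 ex h h₂, ∀ β ∈ Dτ τ, ∀ a, R ≤ T β a := by
    intro τ hτ β hβ a
    have := (hTg τ hτ β hβ a).1
    nlinarith [mul_nonneg (mul_pos hL0 hγ).le (sub_nonneg.2 (tr_le c β (.inl a)))]
  have hkey : ∀ τ ∈ K3 ex h h₂, ∀ k, IsInt k → ∀ β ∈ Dτ τ,
      0 < (y k β).re ∧ ‖y k β‖ ≤ (K₀ + 1) * Real.exp (-R) := by
    intro τ hτ k hk β hβ
    have hd : ∀ a, (∃ z : ℤ, rv ex a ⬝ᵥ W k β = z) ∨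
        Real.exp (-T β a) ≤ Real.exp (-R) * Real.exp (-(L₂ * γ / 2)) := fun a => by
      by_cases ha : tr (2 * c) β (.inl a) = 1
      · left; rw [← rv_inl, hθ τ hτ k β hβ _ ha]; exact hk _
      · right; exact hsm τ hτ β hβ a ha
    obtain ⟨k1, k2⟩ := key2 (T β) _ R _ K₀ hK hη1 (Real.exp_pos _) (hTR τ hτ β hβ) hd
    have hR0 := Real.exp_pos (-R)
    have b0 := cut_nonneg c β
    have b1 := cut_le c β
    simp only [hy]
    rw [hev]
    constructor
    · rw [add_re, ofReal_re]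
      by_cases hb : ∃ a, tr c β (.inl a) = 1
      · obtain ⟨a, ha⟩ := hb
        have := (key (T β) _ R _ K₀ hK hη1 (Real.exp_pos _) (hTR τ hτ β hβ)
          ⟨a, (hTg τ hτ β hβ a).2 ha, by
            rw [← rv_inl, hθ τ hτ k β hβ _ (tr_two (by rw [ha]; norm_num))]; exact hk _⟩ hd).1
        nlinarith
      · rw [cut_one (not_exists.1 hb)]; linarith
    · refine (norm_add_le _ _).trans ?_
      rw [Complex.norm_real, Real.norm_of_nonneg (by positivity)]
      nlinarith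
  have hnx : ∀ k β j, ‖x k β j‖ = Real.exp (-av c p β j) := fun k β j => norm_pt _ _ _
  have hwall : ∀ τ ∈ K3 ex h h₂, ∀ k, ∀ β ∈ Dτ τ, ∀ j, wl h L (1 - D) j < ‖x k β j‖ →
      tr (2 * c) β (.inr j) = 1 := by
    intro τ hτ k β hβ j hj
    rw [hnx, wl, Real.exp_lt_exp] at hj
    have := (hPg τ hτ β hβ j).1
    refine tr_two (not_le.1 fun h2 => ?_)
    nlinarith
  have hin : ∀ τ ∈ K3 ex h h₂, ∀ k, ∀ β ∈ Dτ τ, (∀ j, ‖x k β j‖ ≤ wl h L (D - 1) j) →
      cut c β = 0 := by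
    intro τ hτ k β hβ hj
    by_contra hb
    obtain ⟨j, h1⟩ := cut_ne hβ hc hb
    have := hj j
    rw [hnx, (hPg τ hτ β hβ j).2 h1, wl, Real.exp_le_exp] at this
    linarith
  have hmem : ∀ τ : Finset (α ⊕ σ), ∀ β ∈ Dτ τ, ∀ a, tr (2 * c) β a = 1 → a ∈ τ := by
    intro τ β hβ a ha
    by_contra hτa
    simp [tr, hβ.2 a hτa] at ha
  have hcx : ∀ k, Continuous (x k) := fun k => cont_pt (cont_av _ _) (cont_av _ _)
  have hEQ : ∀ τ ∈ K3 ex h h₂, ∀ k, IsInt k → ∀ β ∈ Dτ τ, (∀ j, ‖x k β j‖ ≤ wl h L (D - 1) j) →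
      ev ex (vc h₂ L₂) (x k β) = exp (log (y k β)) := by
    intro τ hτ k hk β hβ hj
    have h1 := (hkey τ hτ k hk β hβ).1
    rw [exp_log fun h0 => by rw [h0] at h1; simp at h1]
    simp only [hy]
    rw [hin τ hτ k β hβ hj]; simp
  refine ⟨fun k β => ((x k β, log (y k β)), 0), W, ?_, fun k => cont_av _ _, ?_, ?_,
    fun k β => lft_pt _ _, ?_⟩
  · intro τ hτ k hk
    have hcy : Continuous (y k) := ((cont_ev ex _).comp (hcx k)).add
      (continuous_ofReal.comp ((cut_cont c).mul continuous_const))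
    exact ((hcx k).continuousOn.prodMk (hcy.continuousOn.clog
      fun β hβ => Or.inl (hkey τ hτ k hk β hβ).1)).prodMk continuousOn_const
  · intro τ hτ k hk β hβ
    obtain ⟨h1, h2⟩ := hkey τ hτ k hk β hβ
    have hne : y k β ≠ 0 := fun h0 => by rw [h0] at h1; simp at h1
    refine ⟨?_, ?_, fun j => ⟨?_, by simp, fun hj => ?_⟩, hEQ τ hτ k hk β hβ⟩
    · refine lt_of_le_of_lt ?_ (hR₁ R hR')
      rw [Finset.sum_mul]
      refine Finset.sum_le_sum fun a _ => ?_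
      have := hTR τ hτ β hβ a
      simp only [hT] at this
      simp only [hx]
      rw [norm_mon, ← Real.exp_add, Real.exp_le_exp]
      linarith
    · simp only [log_re]
      exact Real.log_lt_log (norm_pos_iff.2 hne) (h2.trans_lt (hR₀ R hR))
    · have := (hPg τ hτ β hβ j).1
      simp only []
      rw [hnx, wl, Real.exp_lt_exp]
      nlinarith [tr_le c β (.inr j)]
    · have h3 := hθ τ hτ k β hβ _ (hwall τ hτ k β hβ j hj)
      rw [rv_inr_dot] at h3
      have h4 := e_int (θ := 2 * W k β j) (h3 ▸ hk _)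
      have h5 := (lft_pt (av c p β) (W k β) j).2
      simp only [Pi.zero_apply, ofReal_zero, mul_zero, exp_zero, mul_one]
      change x k β j = ‖x k β j‖ * _ at h5
      have h6 : ((2 : ℕ) : ℂ) * (2 * Real.pi * I * W k β j) =
          2 * Real.pi * I * (2 * W k β j : ℝ) := by push_cast; ring
      conv_lhs => rw [h5, mul_pow, ← exp_nat_mul, h6, h4, mul_one]
  · intro τ hτ k k' hkk β hβ
    have : W k β = W k' β := by
      refine Finset.sum_congr rfl fun J _ => ?_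
      by_cases hJ : rho (tr (2 * c) β) J = 0
      · simp [hJ]
      · have := hsec.2 J (k - k') fun a ha => by simp [hkk a (sub_of_rho hβ hJ ha)]
        rw [map_sub, sub_eq_zero] at this
        simp only [this]
    simp only [hy, hx, this]
  · intro τ hτ k hk β hβ
    obtain ⟨h1, -⟩ := hkey τ hτ k hk β hβ
    set s := log (y k β) with hs
    simp only [LD.kap, ld3]
    by_cases hw : ∃ j, wl h L 0 j < ‖x k β j‖
    · have e : lab3 ex (vc h₂ L₂) K₀ h L ((x k β, s), 0) = .inr hw.choose := dif_pos hw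
      have h2 := hwall τ hτ k β hβ _ ((wl_le h L _ (by linarith)).trans_lt hw.choose_spec)
      rw [e]
      exact ⟨hmem τ β hβ _ h2, by rw [hθ τ hτ k β hβ _ h2]; simp⟩
    have e : lab3 ex (vc h₂ L₂) K₀ h L ((x k β, s), 0) =
        .inl (lab ex (vc h₂ L₂) K₀ (x k β, s)) := dif_neg hw
    have hj : ∀ j, ‖x k β j‖ ≤ wl h L (D - 1) j := fun j =>
      (not_lt.1 (not_exists.1 hw j)).trans (wl_le h L j (by linarith))
    have ha := lab_mem (p := (x k β, s)) hK3 (hEQ τ hτ k hk β hβ hj)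
    rw [e]
    generalize lab ex (vc h₂ L₂) K₀ (x k β, s) = a at ha
    have hz : ∀ b, zz ex (vc h₂ L₂) b (x k β, s) = (Real.exp (-T β b) : ℝ) *
        exp (2 * Real.pi * I * (rv ex b ⬝ᵥ W k β : ℝ)) * exp (-s) := fun b => by
      rw [zz]; exact congrArg (· * exp (-s)) (term_pt ex h₂ L₂ _ _ b)
    have hn : ∀ b, ‖zz ex (vc h₂ L₂) b (x k β, s)‖ = Real.exp (-T β b) * ‖exp (-s)‖ := fun b => by
      rw [hz, norm_mul, norm_mul, norm_e, mul_one, Complex.norm_real,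
        Real.norm_of_nonneg (Real.exp_pos _).le]
    have ha1 : tr (2 * c) β (.inl a) = 1 := by
      by_contra hcn
      obtain ⟨a0, h0⟩ := cut_zero (hin τ hτ k β hβ hj)
      have h2 := (hTg τ hτ β hβ a0).2 h0
      have h3 := (Finset.single_le_sum (f := fun b => ‖zz ex (vc h₂ L₂) b (x k β, s)‖)
        (fun b _ => norm_nonneg _) (Finset.mem_univ a0)).trans_lt ha.1
      simp only [hn, h2] at h3
      have h4 := hsm τ hτ β hβ a hcn
      have h5 : 0 < ‖exp (-s)‖ := norm_pos_iff.2 (exp_ne_zero _)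
      have h6 : 0 ≤ K₀ := hm0.trans hK
      have h7 : Real.exp (-R) < K₀ * Real.exp (-T β a) := by
        rw [← mul_assoc] at h3; exact lt_of_mul_lt_mul_right h3 h5.le
      have h8 := mul_le_mul_of_nonneg_left h4 h6
      nlinarith [Real.exp_pos (-R)]
    refine ⟨hmem τ β hβ _ ha1, ?_⟩
    have hth := hθ τ hτ k β hβ _ ha1
    have him : |s.im| < Real.pi / 2 := by
      rw [hs, log_im]; exact abs_arg_lt_pi_div_two_iff.2 (Or.inl h1)
    have harg : arg (zz ex (vc h₂ L₂) a (x k β, s)) = -s.im := by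
      rw [hz, e_int (by rw [← rv_inl, hth]; exact hk _), mul_one,
        arg_real_mul _ (Real.exp_pos _), ← log_im, log_exp]
      · simp
      · simp only [neg_im]; linarith [(abs_lt.1 him).2, Real.pi_pos]
      · simp only [neg_im]; linarith [(abs_lt.1 him).1, Real.pi_pos]
    rw [hth, Sum.elim_inl, harg]
    ring

end Pool.Agent.P.MP_9321be_ag.NC.E
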