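import Pool.Agent.P.MP_9321be_ag.NC.EBas
import Pool.Agent.P.MP_9321be_ag.ND.ESingA
import Pool.Agent.P.MP_9321be_ag.ND.ECycA
import Pool.Agent.P.MP_9321be_ag.ND.ECyc

/-!
The eigenclass of a labelled space.
-/

namespace Pool.Agent.P.MP_9321be_ag.NC.E

open Pool.Agent.Lib.Helper83 Pool.Agent.P.MP_9321be_ag.ND.E Set Complex Filter Topology

namespace Lab3

variable {Y α σ : Type} [TopologicalSpace Y] [Fintype α] [DecidableEq α] [Fintype σ]
  [DecidableEq σ] {D : LD Y α σ} {v : α → σ → ℝ} {K : Set (Finset α)} {τ₀ E : Finset α}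
  {g ι : α → ℝ} {q : ℕ} {Φ : (α → ℝ) → LC ℝ (X0 α σ) →ₗ[ℝ] ℝ} {T : Y → Y} {S : Set Y}

omit [TopologicalSpace Y] [DecidableEq σ] in
theorem wd (hΦ : PhiP v K τ₀ q Φ) (hne : τ₀.Nonempty) (hE : E ⊆ τ₀)
    (hg : ∀ i, ∃ z : ℤ, ∑ a ∈ E, g a * v a i = z) {n : ℕ} {p : Fin n → Y}
    {w w' : Fin n → σ → ℝ} {k k' : α → ℝ} (h : D.Vld v p w k) (h' : D.Vld v p w' k') :
    chi g E k' * (Φ k' (ax ℝ fun j => (D.lab (p j), w' j)) : ℝ) =
      chi g E k * (Φ k (ax ℝ fun j => (D.lab (p j), w j)) : ℝ) := by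
  have mem : ∀ w : Fin n → σ → ℝ, (ax ℝ fun j => (D.lab (p j), w j)) ∈
      lsub ℝ (labIn σ (Finset.univ.image fun j => D.lab (p j))) n := fun w =>
    ax_mem fun j => by simp [labIn]
  by_cases hs : τ₀ ⊆ Finset.univ.image fun j => D.lab (p j)
  swap
  · simp [hΦ.van _ hs _ _ _ (mem _)]
  obtain ⟨j₀, -, -⟩ := Finset.mem_image.1 (hs hne.choose_spec)
  choose z hz using fun j => SingA.lft_int (h.1 j) (h'.1 j)
  have e : ∀ j, w' j = w j + fun i => (z j₀ i : ℝ) := fun j => funext fun i => by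
    have a1 := abs_lt.1 (h.2.1 j j₀ i)
    have a2 := abs_lt.1 (h'.2.1 j j₀ i)
    have : |z j i - z j₀ i| < 1 := by
      have : |(z j i : ℝ) - z j₀ i| < 1 := by
        rw [← hz, ← hz, abs_lt]
        constructor <;> linarith
      exact_mod_cast this
    rw [Pi.add_apply, ← sub_eq_zero.1 (Int.abs_lt_one_iff.1 this), ← hz]
    ring
  have ek : ∀ a ∈ Finset.univ.image fun j => D.lab (p j),
      k' a = (k + fun a => v a ⬝ᵥ fun i => (z j₀ i : ℝ)) a := fun a ha => by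
    obtain ⟨j, -, rfl⟩ := Finset.mem_image.1 ha
    rw [Pi.add_apply, ← h.2.2, ← h'.2.2, e, LD.kap, LD.kap, dotProduct_add]
    ring
  rw [hΦ.loc _ _ _ ek _ _ (mem _), ← hΦ.tr k fun i => (z j₀ i : ℝ), amap_ax]
  choose y hy using hg
  congr 1
  · refine exp_eq_exp_iff_exists_int.2 ⟨∑ i, y i * z j₀ i, ?_⟩
    have : ∑ a ∈ E, g a * k' a = ∑ a ∈ E, g a * k a + ∑ i, y i * z j₀ i := by
      rw [Finset.sum_congr rfl fun a ha => congrArg (g a * ·) (ek a (hs (hE ha)))]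
      push_cast
      simp only [Pi.add_apply, mul_add, Finset.sum_add_distrib, ← hy, Finset.sum_mul,
        dotProduct, Finset.mul_sum, mul_assoc]
      rw [Finset.sum_comm]
    rw [this]
    push_cast
    ring
  · simp only [e, Function.comp_def]

/-- The value of the cochain does not depend on the lift. -/
def WD3 (D : LD Y α σ) (v : α → σ → ℝ) (g : α → ℝ) (E : Finset α)
    (Φ : (α → ℝ) → LC ℝ (X0 α σ) →ₗ[ℝ] ℝ) : Prop :=
  ∀ (n : ℕ) (s : C(Dl n, Y)) (w : Fin n → σ → ℝ) (k : α → ℝ), D.Vld v (vtx s) w k →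
    D.Ph v g E Φ (sx ℂ s) = chi g E k * (Φ k (ax ℝ fun j => (D.lab (vtx s j), w j)) : ℝ)

omit [DecidableEq σ] in
theorem wd3 (hΦ : PhiP v K τ₀ q Φ) (hne : τ₀.Nonempty) (hE : E ⊆ τ₀)
    (hg : ∀ i, ∃ z : ℤ, ∑ a ∈ E, g a * v a i = z) : WD3 D v g E Φ := fun n s w k h => by
  rw [LD.Ph, sx, Finsupp.linearCombination_single, one_smul, dif_pos ⟨(w, k), h⟩]
  exact wd hΦ hne hE hg h (Exists.choose_spec (p := fun y : (Fin n → σ → ℝ) × (α → ℝ) =>
    D.Vld v (vtx s) y.1 y.2) _)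

omit [TopologicalSpace Y] [Fintype α] [DecidableEq α] [DecidableEq σ] in
theorem vld_T (hI : D.Inv T ι) {n : ℕ} {p : Fin n → Y} {w : Fin n → σ → ℝ} {k : α → ℝ} :
    D.Vld v (T ∘ p) w k ↔ D.Vld v p w (k + ι) := by
  simp only [LD.Vld, LD.kap, Function.comp_apply, (hI _).1, (hI _).2.1, (hI _).2.2, Pi.add_apply]
  refine and_congr_right fun _ => and_congr_right fun _ => forall_congr' fun j => ?_
  constructor <;> intro h <;> linarith

omit [DecidableEq σ] in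
theorem nil (hT : Continuous T) (hI : D.Inv T ι) (hΦ : PhiP v K τ₀ q Φ) (W : WD3 D v g E Φ)
    (x : Ch ℂ Y) : D.Ph v g E Φ
      ((Tl T (exp (-(2 * Real.pi * I * (∑ a ∈ E, g a * ι a : ℝ)))) ^ (q + 1)) x) = 0 := by
  set lam := exp (-(2 * Real.pi * I * (∑ a ∈ E, g a * ι a : ℝ))) with hlam
  refine all_eq (D.Ph v g E Φ ∘ₗ (Tl T lam ^ (q + 1) : Module.End ℂ _)) 0 ?_ x
  rintro ⟨n, s⟩
  show D.Ph v g E Φ ((Tl T lam ^ (q + 1)) (sx ℂ s)) = 0
  have st : ∀ (N : ℕ) (s : C(Dl n, Y)), D.Ph v g E Φ ((Tl T lam ^ (N + 1)) (sx ℂ s)) =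
      D.Ph v g E Φ ((Tl T lam ^ N) (sx ℂ ((⟨T, hT⟩ : C(Y, Y)).comp s))) -
        lam * D.Ph v g E Φ ((Tl T lam ^ N) (sx ℂ s)) := fun N s => by
    rw [pow_succ, Module.End.mul_apply, Tl_apply, map_sub, map_sub, map_smul, map_smul,
      push_sx_eq T s ((⟨T, hT⟩ : C(Y, Y)).comp s) fun _ => rfl, smul_eq_mul]
  by_cases hv : ∃ y : (Fin n → σ → ℝ) × (α → ℝ), D.Vld v (vtx s) y.1 y.2
  · obtain ⟨⟨w, k⟩, hv⟩ := hv
    obtain ⟨P, p1, p2⟩ := hΦ.poly (ax ℝ fun j => (D.lab (vtx s j), w j))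
    let Q : Polynomial ℝ :=
      MvPolynomial.aeval (fun a => Polynomial.C (k a) - Polynomial.C (ι a) * Polynomial.X) P
    have hQ : ∀ x, Q.eval x = MvPolynomial.eval (k - x • ι) P := fun x => by
      have := MvPolynomial.comp_aeval_apply
        (fun a => Polynomial.C (k a) - Polynomial.C (ι a) * Polynomial.X) (Polynomial.aeval x) P
      simpa [Q, Pi.sub_def, Pi.smul_def, mul_comm x] using this
    have key : ∀ (N : ℕ) (x : ℝ) (s' : C(Dl n, Y)), D.Vld v (vtx s') w (k - x • ι) →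
        (∀ j, D.lab (vtx s' j) = D.lab (vtx s j)) → D.Ph v g E Φ ((Tl T lam ^ N) (sx ℂ s')) =
          lam ^ N * chi g E (k - x • ι) * ((fwdDiff 1)^[N] Q.eval x : ℝ) := by
      intro N
      induction N with
      | zero =>
        intro x s' h1 h2
        rw [pow_zero, Module.End.one_apply, W n s' w _ h1, pow_zero, one_mul]
        simp only [h2, p2, Function.iterate_zero, id, hQ]
      | succ N ih =>
        intro x s' h1 h2
        have h4 : (k - (x + 1) • ι) + ι = k - x • ι := by rw [add_smul, one_smul]; abel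
        have h3 : chi g E (k - (x + 1) • ι) = lam * chi g E (k - x • ι) := by
          rw [hlam, ← h4, chi, chi, ← exp_add]
          simp only [Pi.add_apply, mul_add, Finset.sum_add_distrib]
          congr 1
          rw [ofReal_add]
          ring
        rw [← h4] at h1
        have h5 := ih (x + 1) ((⟨T, hT⟩ : C(Y, Y)).comp s')
          ((vld_T hI (p := vtx s')).2 h1) fun j => (hI (vtx s' j)).1.trans (h2 j)
        rw [h4] at h1
        rw [st, ih x s' h1 h2, h5, h3, Function.iterate_succ_apply', fwdDiff]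
        push_cast
        ring
    rw [key _ 0 s (by simpa using hv) fun _ => rfl,
      Polynomial.fwdDiff_iter_eq_zero_of_degree_lt (Nat.lt_succ_of_le ?_)]
    · simp
    · simpa using MvPolynomial.aeval_natDegree_le (n := 1) P p1
        (fun a => Polynomial.C (k a) - Polynomial.C (ι a) * Polynomial.X) fun a =>
        (Polynomial.natDegree_sub_le _ _).trans (by
          simpa using (Polynomial.natDegree_C_mul_le _ _).trans Polynomial.natDegree_X_le)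
  · have key : ∀ (N : ℕ) (s' : C(Dl n, Y)),
        (¬ ∃ y : (Fin n → σ → ℝ) × (α → ℝ), D.Vld v (vtx s') y.1 y.2) →
        D.Ph v g E Φ ((Tl T lam ^ N) (sx ℂ s')) = 0 := by
      intro N
      induction N with
      | zero =>
        intro s' h
        rw [pow_zero, Module.End.one_apply, LD.Ph, sx, Finsupp.linearCombination_single, one_smul,
          dif_neg h]
      | succ N ih =>
        intro s' h
        rw [st, ih s' h, ih _ fun ⟨y, hy⟩ => h ⟨(y.1, y.2 + ι), (vld_T hI (p := vtx s')).1 hy⟩]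
        simp
    exact key _ s hv

omit [DecidableEq σ] in
theorem coc (hΦ : PhiP v K τ₀ q Φ) (W : WD3 D v g E Φ) (hL : D.Loc v K τ₀ S) :
    ∃ N : Y → Set Y, (∀ p, IsOpen (N p)) ∧ (∀ p ∈ S, p ∈ N p) ∧
      ∀ n, ∀ x ∈ small ℂ S N n, D.Ph v g E Φ (bd x) = 0 := by
  choose N n1 n2 τ n4 n5 using hL
  classical
  refine ⟨fun p => if hp : p ∈ S then N p hp else ∅, fun p => ?_, fun p hp => by simp [hp, n2],
    fun n x hx => small_ind (P := ⊥) (D.Ph v g E Φ ∘ₗ bd) (fun p c hc =>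
      sub_ind (N := ⊥) _ (fun s hs => ?_) hc) hx⟩
  · beta_reduce
    split_ifs
    exacts [n1 _ _, isOpen_empty]
  obtain _ | n := n
  · simp
  have hp : p ∈ S := by_contra fun hp => by simpa [hp] using hs (stdSimplex.vertex 0)
  simp only [hp, dif_pos] at hs
  rw [Submodule.mem_bot, LinearMap.comp_apply, bd_succ, map_sum]
  by_cases h1 : τ₀ ⊆ τ p hp
  · obtain ⟨n3, w, k, hw⟩ := n5 p hp h1
    have := hΦ.coc _ n3 k _ _ (ax_mem (R := ℝ)
      (v := fun j => (D.lab (vtx s j), w (vtx s j))) fun j => n4 p hp _ (hs _))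
    rw [abd_succ, map_sum] at this
    have h2 := congrArg (fun x : ℝ => chi g E k * x) this
    simp only [map_smul, smul_eq_mul, Complex.ofReal_sum, Finset.mul_sum] at h2
    refine (Finset.sum_congr rfl fun i _ => ?_).trans (h2.trans (by simp))
    rw [map_smul, W n _ _ k (hw n _ fun j => hs _), vtx_face, smul_eq_mul]
    push_cast
    exact mul_left_comm _ _ _
  · refine Finset.sum_eq_zero fun i _ => ?_
    rw [map_smul, LD.Ph, sx, Finsupp.linearCombination_single, one_smul]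
    split_ifs with h2
    · rw [hΦ.van _ h1 _ _ _ (ax_mem fun j => n4 p hp _ (hs _))]
      simp
    · simp

/-- Realisation of a formal chain on the sheet given by `ψ`. -/
noncomputable def re3 (ψ : (α → ℝ) → Y) : LC ℝ α →ₗ[ℝ] Ch ℂ Y :=
  (push ψ ∘ₗ affL ∘ₗ amap fun a => (Pi.single a 1 : α → ℝ)).restrictScalars ℝ ∘ₗ cx

theorem re3_apply (ψ : (α → ℝ) → Y) (c : LC ℝ α) :
    re3 ψ c = push ψ (affL (amap (fun a => (Pi.single a 1 : α → ℝ)) (cx c))) := rfl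

variable [Nonempty Y] {d : ℕ} {Ψ : (α → ℝ) → (α → ℝ) → Y} {W : (α → ℝ) → (α → ℝ) → σ → ℝ}

theorem sheet (hC : S_Carr) (e : Fin (d + 1) ≃ σ) (hx : Cx v K) (hI : Intr v τ₀)
    (hΦ : PhiP v K τ₀ q Φ) (hW : WD3 D v g E Φ) (hΨ : D.Im v K S Ψ W) (k : α → ℝ)
    (hk : IsInt k) : ∀ᶠ m in atTop, D.Ph v g E Φ ((Sd ^ m) (re3 (Ψ k) (zc e v K))) =
      chi g E k * (NN e v K Φ k : ℝ) := by
  let e₁ : α → α → ℝ := fun a => Pi.single a 1
  let vd : (α → ℝ) → X0 α σ := fun β => (D.lab (Ψ k β), W k β)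
  let Θ : LC ℝ (α → ℝ) →ₗ[ℝ] ℂ := (D.Ph v g E Φ ∘ₗ push (Ψ k) ∘ₗ affL).restrictScalars ℝ ∘ₗ cx
  let Θ' : LC ℝ (α → ℝ) →ₗ[ℝ] ℂ := chi g E k • (Algebra.linearMap ℝ ℂ ∘ₗ Φ k ∘ₗ amap vd)
  have hl := fun τ hτ => hΨ.labk τ hτ k hk
  have hA : ∀ τ ∈ K, ∃ η > 0, ∀ n, ∀ x ∈ dsub ℝ (Dτ τ) n η, Θ x = Θ' x := by
    intro τ hτ
    obtain ⟨η, hη, h⟩ := Metric.uniformContinuousOn_iff_le.1
      ((Dτ_compact τ).uniformContinuousOn_of_continuous (hΨ.contW k).continuousOn) (1 / 4)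
      (by norm_num)
    refine ⟨η, hη, fun n x hx => supp_eq Θ Θ' ?_ hx⟩
    rintro ⟨n, β⟩ ⟨-, hβ, hd⟩
    show D.Ph v g E Φ (push (Ψ k) (affL (cx (ax ℝ β)))) =
      chi g E k * (Φ k (amap vd (ax ℝ β)) : ℝ)
    have hc := cont_of (hΨ.cont τ hτ k hk) (aff_mem (Dτ_convex τ) hβ)
    have hv : vtx (⟨Ψ k ∘ aff β, hc⟩ : C(Dl n, Y)) = Ψ k ∘ β :=
      funext fun j => congrArg (Ψ k) (aff_vertex β j)
    rw [cx_ax, affL_ax, push_sx _ _ hc, hW n _ (W k ∘ β) k, hv, amap_ax]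
    · rfl
    · rw [hv]
      refine ⟨fun j => hΨ.lift k _, fun j j' i => ?_, fun j => (hl τ hτ _ (hβ j)).2⟩
      have := (dist_le_pi_dist _ _ i).trans (h _ (hβ j) _ (hβ j') (hd j j'))
      rw [Real.dist_eq] at this
      exact this.trans_lt (by norm_num)
  have hB : ∀ t : Fin (d + 1) → α, ∀ᶠ m in atTop, Finset.univ.image t ∈ K →
      D.Ph v g E Φ ((Sd ^ m) (push (Ψ k) (affL (ax ℂ (e₁ ∘ t))))) =
        Θ' (((sd : Module.End ℝ _) ^ m) (ax ℝ (e₁ ∘ t))) := by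
    intro t
    by_cases ht : Finset.univ.image t ∈ K
    · obtain ⟨η, hη, h⟩ := hA _ ht
      have h1 : ∀ j, (e₁ ∘ t) j ∈ Dτ (Finset.univ.image t) := fun j =>
        single_mem_Dτ (Finset.mem_image_of_mem t (Finset.mem_univ j))
      have h0 : ax ℝ (e₁ ∘ t) ∈ dsub ℝ (Dτ (Finset.univ.image t)) (d + 1) 1 :=
        Finsupp.single_mem_supported ℝ 1 ⟨rfl, h1, fun i j =>
          (Metric.dist_le_diam_of_mem (bounded_stdSimplex _) (h1 i).1 (h1 j).1).trans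
            diam_stdSimplex_le⟩
      have hq : Tendsto (fun m : ℕ => (((d + 1 : ℕ) : ℝ) / ((d + 1 : ℕ) + 1)) ^ m) atTop (𝓝 0) :=
        tendsto_pow_atTop_nhds_zero_of_lt_one (by positivity) (by
          rw [div_lt_one (by positivity)]; linarith)
      filter_upwards [hq.eventually (ge_mem_nhds hη)] with m hm _
      rw [Sd_pow_real (Dτ_convex _) (hΨ.cont _ ht k hk) (ax_mem h1), ← cx_ax, ← cx_sd_pow]
      refine h (d + 1) _ fun a ha => ?_
      have := sd_pow_dsub (Dτ_convex _) h0 m ha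
      exact ⟨this.1, this.2.1, fun i j => (this.2.2 i j).trans (by rwa [mul_one])⟩
    · exact Eventually.of_forall fun m h => absurd h ht
  filter_upwards [eventually_all.2 hB] with m hm
  have h1 := hC α σ v K d e τ₀ q Φ
    (amap vd ∘ₗ ((sd : Module.End ℝ _) ^ m) ∘ₗ amap e₁ - amap fun a => (a, 0)) hx hI hΦ
    (fun x => by simp [abd_amap, CycA.abd_sd_pow])
    (fun t => by
      simp only [LinearMap.sub_apply, LinearMap.comp_apply, amap_ax, CycA.sd_pow_nil, sub_eq_zero]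
      congr 1; exact Subsingleton.elim _ _)
    (fun τ hτ j x hx => sub_mem
      (amap_mem (φ := vd) (K' := labIn σ τ) (fun β hβ => (hl τ hτ β hβ).1)
        (sd_pow_mem (Dτ_convex τ) (amap_mem (fun a ha => single_mem_Dτ ha) hx) m))
      (amap_mem (φ := fun a => (a, 0)) (K' := labIn σ τ) (fun a ha => ha) hx)) k
  rw [LinearMap.sub_apply, map_sub, sub_eq_zero] at h1
  rw [NN, ← h1, re3_apply]
  show _ = Θ' (((sd : Module.End ℝ _) ^ m) (amap e₁ (zc e v K)))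
  simp only [zc, map_sum, map_smul, cx_ax, amap_ax, ← Complex.coe_smul]
  refine Finset.sum_congr rfl fun t _ => ?_
  split_ifs with ht
  · rw [hm t ht]
  · simp

open Cyc in
theorem cyc (hZ : S_Zc) (hC : S_Carr) (e : Fin (d + 1) ≃ σ) (cx' : Cx v K) (hI : Intr v τ₀)
    (hP : PhiP v K τ₀ q Φ) (wd : WD3 D v g E Φ) (im : D.Im v K S Ψ W) {μ : Multiset α}
    (hE : ∀ a ∈ E, ∀ z : ℤ, g a ≠ z) (hμ : ∀ a ∈ μ, a ∉ E) (hIn : Intr v (μ.toFinset ∪ E))
    {c₀ : ℝ} (h0 : c₀ ≠ 0) (hc₀ : ∀ k, Dm μ (NN e v K Φ) k = c₀) :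
    ∃ z ∈ sub ℂ S (d + 1), bd z = 0 ∧ ∃ c₁ ≠ 0, ∀ᶠ m in atTop, D.Ph v g E Φ ((Sd ^ m) z) = c₁ := by
  classical
  refine ⟨Dm (E.val + μ) (fun k => re3 (Ψ k) (zc e v K)) 0, ?_, ?_,
    (E.val.map fun a => exp (2 * Real.pi * I * g a) - 1).prod * (chi g E 0 * c₀), ?_, ?_⟩
  · refine Dm_mem (sub ℂ S (d + 1)) _ (fun k hk => ?_) isInt_zero
    refine supp_mem (N := (sub ℂ S (d + 1)).restrictScalars ℝ) _ ?_ (zc_supp e _ K)
    rintro ⟨_, t⟩ ⟨rfl, ht⟩
    exact push_mem (im.maps _ ht k hk) (model_mem t)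
  · refine (Dm_map (bd (R := ℂ) (X := Y)).toAddMonoidHom _ _ _).trans ?_
    have h1 : ∀ k, IsInt k → bd (re3 (Ψ k) (zc e v K)) = re3 (Ψ k) (abd (zc e v K)) := by
      intro k hk
      refine supp_eq (bd.restrictScalars ℝ ∘ₗ re3 (Ψ k)) (re3 (Ψ k) ∘ₗ abd) ?_ (zc_supp e _ K)
      rintro ⟨_, t⟩ ⟨rfl, ht⟩
      change bd (re3 (Ψ k) (ax ℝ t)) = re3 (Ψ k) (abd (ax ℝ t))
      rw [re3_apply, re3_apply, bd_push (im.cont _ ht k hk) (model_mem t), bd_affL, abd_amap,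
        cx_abd]
    refine (Dm_congr _ h1 isInt_zero).trans ?_
    have hy := hZ α σ _ K d e cx'
    generalize abd (zc e v K) = y at hy
    have h2 : ∀ k, re3 (Ψ k) y = ∑ x ∈ y.support, y x • re3 (Ψ k) (ax ℝ x.2) := fun k => by
      conv_lhs => rw [← Finsupp.sum_single y, Finsupp.sum, map_sum]
      refine Finset.sum_congr rfl fun x _ => ?_
      rw [← map_smul, ax, Finsupp.smul_single, smul_eq_mul, mul_one]
    simp only [h2]
    rw [Dm_sum]
    refine Finset.sum_eq_zero fun x hx => ?_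
    obtain ⟨-, h3, h4⟩ := hy hx
    obtain ⟨a, h5, h6⟩ := Finset.not_subset.1 fun h => h4 (hIn.mono h)
    refine Dm_eq_zero (c := a) (by simpa [or_comm] using h5) (fun k => ?_) 0
    rw [re3_apply, re3_apply, push_congr (im.loc _ h3 _ k fun b hb => ?_) (model_mem x.2)]
    rw [Pi.add_apply, Pi.single_eq_of_ne (fun e : b = a => h6 (e ▸ hb)), add_zero]
  · refine mul_ne_zero (Multiset.prod_ne_zero fun h => ?_)
      (mul_ne_zero (exp_ne_zero _) (ofReal_ne_zero.2 h0))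
    obtain ⟨a, ha, h⟩ := Multiset.mem_map.1 h
    obtain ⟨z, hz⟩ := exp_eq_one_iff.1 (sub_eq_zero.1 h)
    refine hE a ha z ?_
    have : (g a : ℂ) = z := mul_left_cancel₀ two_pi_I_ne_zero (by linear_combination hz)
    exact_mod_cast this
  · filter_upwards [Dm_eventually (E.val + μ) (sheet hC e cx' hI hP wd im) isInt_zero] with m hm
    refine (Dm_map (D.Ph v g E Φ ∘ₗ (Sd ^ m : Module.End ℂ _)).toAddMonoidHom _ _ _).trans
      (hm.trans ?_)
    rw [Dm_add, ← Dm_chi g E c₀ E.val (fun _ h => h)]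
    congr 1
    funext k
    refine (Dm_smul μ (chi g E) (fun a ha k => by rw [chi_add, if_neg (hμ a ha), one_mul])
      (fun k => ((NN e v K Φ k : ℝ) : ℂ)) k).trans ?_
    rw [smul_eq_mul, ← hc₀ k]
    exact congrArg _ (Dm_map ofRealHom.toAddMonoidHom μ _ k).symm

theorem small3 {lam : ℂ} {S₁ S₂ : Set Y} {N : Y → Set Y} {k M : ℕ} {Φ : Ch ℂ Y →ₗ[ℂ] ℂ}
    (hT : Continuous T) (hN : ∀ p, IsOpen (N p)) (cov : ∀ p ∈ S₂, p ∈ N p)
    (hb : ∀ c ∈ small ℂ S₂ N (k + 2), Φ (bd c) = 0) (nil : ∀ c, Φ ((Tl T lam ^ M) c) = 0)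
    (hz : ∃ z ∈ sub ℂ S₁ (k + 1), bd z = 0 ∧ ∃ c ≠ 0, ∀ᶠ m in atTop, Φ ((Sd ^ m) z) = c) :
    EigD k T lam S₁ S₂ := by
  obtain ⟨z, z1, z2, c, hc, z3⟩ := hz
  let Z : Submodule ℂ (ℕ → ℂ) :=
    { carrier := {f | ∀ᶠ m in atTop, f m = 0}
      add_mem' := fun ha hb => (ha.and hb).mono fun m h => by simp [h.1, h.2]
      zero_mem' := Eventually.of_forall fun _ => rfl
      smul_mem' := fun r _ ha => ha.mono fun m h => by simp [h] }
  obtain ⟨π, p1, p2⟩ := Submodule.exists_dual_map_eq_bot_of_notMem (p := Z) (x := fun _ => c)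
    (fun h => hc (Eventually.exists h).choose_spec) inferInstance
  have p3 : ∀ f ∈ Z, π f = 0 := fun f hf => (Submodule.eq_bot_iff _).1 p2 _ ⟨f, hf, rfl⟩
  have cm : Commute (Sd : Module.End ℂ (Ch ℂ Y)) (Tl T lam) := LinearMap.ext fun c => by
    simp only [Module.End.mul_apply, Tl_apply, map_sub, map_smul, Sml.Sd_push hT]
  refine ⟨M, π ∘ₗ LinearMap.pi fun m : ℕ => Φ ∘ₗ (Sd ^ m : Module.End ℂ _), fun x hx => p3 _ ?_,
    fun x _ _ => p3 _ (Eventually.of_forall fun m => ?_), z, z1, z2, fun h => p1 ?_⟩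
  · exact (eventually_small hN (fun p hp => mem_iUnion.2 ⟨p, cov p hp⟩) hx).mono fun m hm => by
      simpa [← bd_Sd_pow] using hb _ hm
  · simpa [← (cm.pow_pow m M).eq, ← Module.End.mul_apply] using nil ((Sd ^ m) x)
  · have := p3 ((fun _ => c) - LinearMap.pi (fun m : ℕ => Φ ∘ₗ (Sd ^ m : Module.End ℂ _)) z)
      (z3.mono fun m hm => by simp [hm])
    rwa [map_sub, show π _ = 0 from h, sub_zero] at this

end Lab3

open Lab3 in
theorem t_Lab (hZ : S_Zc) (hC : S_Carr) : S_Lab := by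
  rintro Y α σ _ _ _ _ _ _ D v K T ι S₁ S₂ d e τ₀ E g q Φ Ψ W μ hT hI cx hI₀ hE hg hΦ hL im hE' hμ
    hIn ⟨c₀, h0, hc₀⟩
  obtain ⟨a, ha, -⟩ := hI₀ (e 0)
  have wd : WD3 D v g E Φ := wd3 hΦ ⟨a, ha⟩ hE hg
  obtain ⟨N, n1, n2, n3⟩ := coc hΦ wd hL
  exact small3 hT n1 n2 (n3 _) (nil hT hI hΦ wd) (cyc hZ hC e cx hI₀ hΦ wd im hE' hμ hIn h0 hc₀)

end Pool.Agent.P.MP_9321be_ag.NC.E
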