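import Pool.Agent.P.MP_9321be_ag.NC.EBas
import Pool.Agent.P.MP_9321be_ag.ND.EKApprox

/-!
One level of the lexicographic order, and almost tight sets are faces.
-/

namespace Pool.Agent.P.MP_9321be_ag.NC.E

open Pool.Agent.P.MP_9321be_ag.ND.E Set Filter Topology

namespace Level3

/-- The homogenised vectors, with a zero vector added. -/
def ww {α σ : Type} (v : α → σ → ℝ) (h : α → ℝ) : Option α → Option σ → ℝ :=
  fun o => o.elim 0 fun a (i : Option σ) => i.elim (h a) (v a)

theorem ww_none {α σ : Type} [Fintype σ] (v : α → σ → ℝ) (h : α → ℝ) (y : Option σ → ℝ) :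
    ww v h none ⬝ᵥ y = 0 := by
  simp [ww]

theorem ww_some {α σ : Type} [Fintype σ] (v : α → σ → ℝ) (h : α → ℝ) (a : α) (y : Option σ → ℝ) :
    ww v h (some a) ⬝ᵥ y = v a ⬝ᵥ (fun i => y (some i)) + y none * h a := by
  simp only [ww, dotProduct, Fintype.sum_option, Option.elim]
  ring

end Level3

open Level3 in
theorem t_Level : S_TC → S_Level := by
  intro hT α σ _ _ _ _ v h H κ
  classical
  obtain ⟨B, hB⟩ := (finite_range fun a => |H a|).bddAbove
  have hB' : ∀ a, |H a| ≤ |B| := fun a => (hB ⟨a, rfl⟩).trans (le_abs_self B)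
  obtain ⟨C, -, h2⟩ := KApprox.all hT (ww v h) (2 * (|κ| + |B|))
  filter_upwards [eventually_ge_atTop C] with L hL F q hq
  have hκ := le_abs_self κ
  have hκ0 := abs_nonneg κ
  have hB0 := abs_nonneg B
  obtain ⟨r, r1, r2⟩ := h2 (Finset.insertNone F)
    (Finset.insertNone (F.filter fun a => v a ⬝ᵥ q + L * h a + H a ≤ κ))
    (fun o ho => by
      rw [Finset.mem_insertNone] at ho ⊢
      exact fun a ha => (Finset.mem_filter.1 (ho a ha)).1)
    (fun o => o.elim L q) fun a ha b hb => by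
      have e1 : ww v h a ⬝ᵥ (fun o : Option σ => o.elim L q) ≤ |κ| + |B| := by
        cases a with
        | none => rw [ww_none]; linarith
        | some a =>
          rw [ww_some]
          have := (Finset.mem_filter.1 (Finset.some_mem_insertNone.1 ha)).2
          have := abs_le.1 (hB' a)
          simp only [Option.elim]
          change v a ⬝ᵥ q + L * h a ≤ _
          linarith
      have e2 : -(|κ| + |B|) ≤ ww v h b ⬝ᵥ (fun o : Option σ => o.elim L q) := by
        cases b with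
        | none => rw [ww_none]; linarith
        | some b =>
          rw [ww_some]
          have := hq b (Finset.some_mem_insertNone.1 hb)
          have := abs_le.1 (hB' b)
          simp only [Option.elim]
          change _ ≤ v b ⬝ᵥ q + L * h b
          linarith
      linarith
  have hl : 0 < ((fun o : Option σ => o.elim L q) - r) none := by
    have := r1 none
    simp only [Pi.sub_apply, Option.elim]
    linarith
  generalize ((fun o : Option σ => o.elim L q) - r) = y at r2 hl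
  have e : ∀ a, v a ⬝ᵥ ((y none)⁻¹ • fun i => y (some i)) + h a =
      (y none)⁻¹ * (ww v h (some a) ⬝ᵥ y) := fun a => by
    rw [ww_some, dotProduct_smul, smul_eq_mul, mul_add, inv_mul_cancel_left₀ hl.ne']
  refine ⟨(y none)⁻¹ • fun i => y (some i), fun a ha => ?_⟩
  have k1 := r2 none Finset.none_mem_insertNone (some a) (Finset.some_mem_insertNone.2 ha)
  rw [ww_none] at k1
  refine ⟨by rw [e]; positivity, fun hn => ?_⟩
  have k2 := r2 (some a) (Finset.some_mem_insertNone.2 (Finset.mem_filter.2 ⟨ha, hn⟩)) none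
    Finset.none_mem_insertNone
  rw [ww_none] at k2
  rw [e, k2.antisymm k1, mul_zero]

theorem t_Approx : S_Level → S_Approx := by
  intro hL α σ _ _ _ _ v H₀ H₁ H₂ κ
  classical
  filter_upwards [hL α σ v H₂ 0 κ] with L₂ h₂
  filter_upwards [hL α σ v H₁ (fun a => L₂ * H₂ a) κ] with L₁ h₁
  filter_upwards [hL α σ v H₀ (fun a => L₁ * H₁ a + L₂ * H₂ a) κ] with L₀ h₀ p hp
  obtain ⟨u, hu⟩ := h₀ Finset.univ p fun a _ => by linarith [hp a]
  have e1 : ∀ a, v a ⬝ᵥ u + H₀ a = 0 → v a ⬝ᵥ (p - L₀ • u) = v a ⬝ᵥ p + L₀ * H₀ a := fun a ha => by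
    rw [dotProduct_sub, dotProduct_smul, smul_eq_mul, eq_neg_of_add_eq_zero_left ha]
    ring
  obtain ⟨ω₁, h1⟩ := h₁ (Finset.univ.filter fun a => v a ⬝ᵥ u + H₀ a = 0) (p - L₀ • u)
    fun a ha => by
      rw [e1 a (Finset.mem_filter.1 ha).2]
      linarith [hp a]
  have e2 : ∀ a, v a ⬝ᵥ u + H₀ a = 0 → v a ⬝ᵥ ω₁ + H₁ a = 0 →
      v a ⬝ᵥ (p - L₀ • u - L₁ • ω₁) = v a ⬝ᵥ p + L₀ * H₀ a + L₁ * H₁ a := fun a ha hb => by
    rw [dotProduct_sub, e1 a ha, dotProduct_smul, smul_eq_mul, eq_neg_of_add_eq_zero_left hb]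
    ring
  obtain ⟨ω₂, h2⟩ := h₂ (Finset.univ.filter fun a => v a ⬝ᵥ u + H₀ a = 0 ∧ v a ⬝ᵥ ω₁ + H₁ a = 0)
    (p - L₀ • u - L₁ • ω₁) fun a ha => by
      rw [e2 a (Finset.mem_filter.1 ha).2.1 (Finset.mem_filter.1 ha).2.2, Pi.zero_apply]
      linarith [hp a]
  refine ⟨u, ω₁, ω₂, fun a => (hu a (Finset.mem_univ a)).1,
    fun a ha => (h1 a (Finset.mem_filter.2 ⟨Finset.mem_univ a, ha⟩)).1,
    fun a ha hb => (h2 a (Finset.mem_filter.2 ⟨Finset.mem_univ a, ha, hb⟩)).1, fun a ha => ?_⟩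
  have hn := (Finset.mem_filter.1 ha).2
  have k0 := (hu a (Finset.mem_univ a)).2 (by linarith)
  have k1 := (h1 a (Finset.mem_filter.2 ⟨Finset.mem_univ a, k0⟩)).2 (by rw [e1 a k0]; linarith)
  exact ⟨k0, k1, (h2 a (Finset.mem_filter.2 ⟨Finset.mem_univ a, k0, k1⟩)).2
    (by rw [e2 a k0 k1, Pi.zero_apply]; linarith)⟩

end Pool.Agent.P.MP_9321be_ag.NC.E
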