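import Pool.Agent.P.MP_9321be_ag.NC.EBas
import Pool.Agent.P.MP_9321be_ag.ND.ESingB

/-!
Local structure of the labels on the tube.
-/

namespace Pool.Agent.P.MP_9321be_ag.NC.E

open Pool.Agent.P.MP_9321be_ag.ND.E Set Complex Filter Topology

namespace Loc3

variable {α σ : Type} [Fintype α] [Nonempty α] [Fintype σ] {ex : α → σ → ℕ} {c : α → ℂ}
  {K₀ L : ℝ} {h : σ → ℝ} {p : ZZ σ}

theorem lab_cases (ex : α → σ → ℕ) (c : α → ℂ) (K₀ : ℝ) (h : σ → ℝ) (L : ℝ) (p : ZZ σ) :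
    (∃ j, lab3 ex c K₀ h L p = Sum.inr j ∧ wl h L 0 j < ‖p.1.1 j‖) ∨
      (lab3 ex c K₀ h L p = Sum.inl (lab ex c K₀ p.1) ∧ ∀ j, ‖p.1.1 j‖ ≤ wl h L 0 j) := by
  by_cases hp : ∃ j, wl h L 0 j < ‖p.1.1 j‖
  · exact Or.inl ⟨_, dif_pos hp, hp.choose_spec⟩
  · exact Or.inr ⟨dif_neg hp, fun j => not_lt.1 fun e => hp ⟨j, e⟩⟩

theorem kap_inl [DecidableEq σ] {a : α} (e : lab3 ex c K₀ h L p = Sum.inl a) (w : σ → ℝ) :
    (ld3 ex c K₀ h L).kap (rv (ex3 ex)) p w = kap ex c a p.1 w := by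
  simp only [LD.kap, ld3, e, kap, Sum.elim_inl, rv_inl]
  ring

theorem kap_inr [DecidableEq σ] {j : σ} (e : lab3 ex c K₀ h L p = Sum.inr j) (w : σ → ℝ) :
    (ld3 ex c K₀ h L).kap (rv (ex3 ex)) p w = 2 * w j - p.2 j := by
  simp only [LD.kap, ld3, e, Sum.elim_inr, rv_inr_dot]

theorem int_of_lift {x : ℂ} {w θ : ℝ} (h0 : x ≠ 0) (h1 : x = ‖x‖ * exp (2 * Real.pi * I * w))
    (h2 : x ^ 2 = (‖x‖ : ℂ) ^ 2 * exp (2 * Real.pi * I * θ)) : ∃ z : ℤ, 2 * w - θ = z := by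
  nth_rw 1 [h1] at h2
  rw [mul_pow, sq (exp _), ← exp_add] at h2
  obtain ⟨z, hz⟩ := exp_eq_exp_iff_exists_int.1 (mul_left_cancel₀
    (pow_ne_zero 2 (ofReal_ne_zero.2 (norm_ne_zero_iff.2 h0))) h2)
  refine ⟨z, ofReal_injective (mul_left_cancel₀ two_pi_I_ne_zero ?_)⟩
  push_cast
  linear_combination hz

theorem eq_of_int {x y : ℝ} (hx : ∃ z : ℤ, x = z) (hy : ∃ z : ℤ, y = z) (h : |x - y| < 1) :
    x = y := by
  obtain ⟨z, rfl⟩ := hx
  obtain ⟨z', rfl⟩ := hy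
  exact_mod_cast sub_eq_zero.1 (Int.abs_lt_one_iff.1 (by exact_mod_cast h))

end Loc3

open Loc3

theorem t_Loc3 : S_Loc3 := by
  intro α σ _ _ _ _ _ ex h h₂ L₂ K₀ L D W η K τ₀ hK hW hN hI ⟨a₀, ha₀⟩ p hp
  classical
  set c := vc h₂ L₂
  set S := XX ex c h L D W η
  by_cases hA : ∃ j, wl h L 0 j < ‖p.1.1 j‖
  · obtain ⟨j, hj⟩ := hA
    refine ⟨{q | wl h L 0 j < ‖q.1.1 j‖}, isOpen_lt (by fun_prop) (by fun_prop), hj,
      Finset.univ.map Function.Embedding.inr, fun q hq => ?_, fun e => by simpa using e ha₀⟩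
    rcases lab_cases ex c K₀ h L q with ⟨i, e, -⟩ | ⟨-, e⟩
    · simp [ld3, e]
    · exact absurd hq.2 (not_lt.2 (e j))
  have hB : ∀ j, ‖p.1.1 j‖ ≤ wl h L 0 j := fun j => not_lt.1 fun e => hA ⟨j, e⟩
  have eq : ∀ q ∈ S, (∀ j, ‖q.1.1 j‖ ≤ wl h L 0 j) → ev ex c q.1.1 = exp q.1.2 := fun q hq e =>
    hq.2.2.2 fun j => (e j).trans (wl_le h L j (by linarith))
  have e := eq p hp hB
  have hS : 0 < Sm ex p.1.1 := by
    refine (Finset.sum_nonneg fun _ _ => norm_nonneg _).lt_of_ne fun h0 => exp_ne_zero p.1.2 ?_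
    rw [← e]
    refine Finset.sum_eq_zero fun a _ => mul_eq_zero_of_right _ (norm_eq_zero.1 ?_)
    exact (Finset.sum_eq_zero_iff_of_nonneg fun _ _ => norm_nonneg _).1 h0.symm a
      (Finset.mem_univ a)
  obtain ⟨τ, hτ, mτ, vτ⟩ : ∃ τ ∈ K,
      (∀ a, Sum.inl a ∈ τ ↔ ∑ b, ‖zz ex c b p.1‖ ≤ K₀ * ‖zz ex c a p.1‖) ∧
      ∀ j, Sum.inr j ∈ τ ↔ ‖p.1.1 j‖ = wl h L 0 j := by
    refine ⟨_, hN p.1.1 hp.1 hB hS, fun a => ?_, fun j => by simp⟩
    simp only [Finset.mem_filter, Finset.mem_univ, true_and, Sum.elim_inl, zz,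
      norm_mul _ (exp _), ← Finset.sum_mul, ← mul_assoc]
    exact (mul_le_mul_iff_left₀ (norm_pos_iff.2 (exp_ne_zero _))).symm
  have e1 : ∀ᶠ q : ZZ σ in 𝓝 p, ∀ a, q.1 ∈ Va ex c K₀ a →
      Sum.inl a ∈ τ ∧ -‖zz ex c a p.1‖ / 2 ≤ (zz ex c a p.1).re := eventually_all.2 fun a => by
    by_cases h1 : Sum.inl a ∈ τ
    · by_cases h2 : -‖zz ex c a p.1‖ / 2 ≤ (zz ex c a p.1).re
      · exact .of_forall fun _ _ => ⟨h1, h2⟩
      · exact (ContinuousAt.eventually_lt (f := fun q : ZZ σ => (zz ex c a q.1).re)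
          (g := fun q => -‖zz ex c a q.1‖ / 2) (by fun_prop) (by fun_prop) (not_le.1 h2)).mono
          fun q hq hv => (lt_asymm hq hv.2).elim
    · exact (ContinuousAt.eventually_lt (f := fun q : ZZ σ => K₀ * ‖zz ex c a q.1‖)
        (g := fun q => ∑ b, ‖zz ex c b q.1‖) (by fun_prop) (by fun_prop)
        (not_le.1 (mt (mτ a).2 h1))).mono fun q hq hv => (lt_asymm hq hv.1).elim
  have e0 : ∀ᶠ q : ZZ σ in 𝓝 p, ∀ j, wl h L 0 j < ‖q.1.1 j‖ → Sum.inr j ∈ τ :=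
    eventually_all.2 fun j => by
      by_cases h1 : Sum.inr j ∈ τ
      · exact .of_forall fun _ _ => h1
      · exact (ContinuousAt.eventually_lt (f := fun q : ZZ σ => ‖q.1.1 j‖)
          (g := fun _ => wl h L 0 j) (by fun_prop) (by fun_prop)
          ((hB j).lt_of_ne (mt (vτ j).2 h1))).mono fun q hq hv => (lt_asymm hq hv).elim
  suffices H : ∃ (w : ZZ σ → σ → ℝ) (k : α ⊕ σ → ℝ), τ₀ ⊆ τ → ∀ᶠ q in 𝓝 p,
      Lft q.1.1 (w q) ∧ (∀ i, |w q i - w p i| < 1 / 4) ∧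
      (∀ a, Sum.inl a ∈ τ → -‖zz ex c a p.1‖ / 2 ≤ (zz ex c a p.1).re →
        kap ex c a q.1 (w q) = k (Sum.inl a)) ∧
      ∀ j, Sum.inr j ∈ τ → q ∈ S → 2 * w q j - q.2 j = k (Sum.inr j) by
    obtain ⟨w, k, H⟩ := H
    obtain ⟨N, n1, n2, n3⟩ :=
      eventually_nhds_iff.1 ((e1.and e0).and (eventually_imp_distrib_left.2 H))
    have l1 := fun q (hq : q ∈ S ∩ N) e => (n1 q hq.2).1.1 _ (lab_mem hK (eq q hq.1 e))
    refine ⟨N, n2, n3, τ, fun q hq => ?_, fun hI => ⟨hτ, w, k, fun n t ht =>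
      ⟨fun j => ((n1 _ (ht j).2).2 hI).1, fun j j' i => ?_, fun j => ?_⟩⟩⟩
    · change lab3 ex c K₀ h L q ∈ τ
      rcases lab_cases ex c K₀ h L q with ⟨i, e, e'⟩ | ⟨e, e'⟩
      · exact e ▸ (n1 q hq.2).1.2 i e'
      · exact e ▸ (l1 q hq e').1
    · have a1 := abs_lt.1 (((n1 _ (ht j).2).2 hI).2.1 i)
      have a2 := abs_lt.1 (((n1 _ (ht j').2).2 hI).2.1 i)
      simp only [Function.comp_apply]
      rw [abs_lt]
      constructor <;> linarith
    · rcases lab_cases ex c K₀ h L (t j) with ⟨i, e, e'⟩ | ⟨e, e'⟩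
      · rw [kap_inr e]
        exact (((n1 _ (ht j).2).2 hI).2.2.2 i ((n1 _ (ht j).2).1.2 i e') (ht j).1).trans
          (congrArg k e.symm)
      · rw [kap_inl e]
        exact (((n1 _ (ht j).2).2 hI).2.2.1 _ (l1 _ (ht j) e').1 (l1 _ (ht j) e').2).trans
          (congrArg k e.symm)
  have nz : ∀ a, Sum.inl a ∈ τ → zz ex c a p.1 ≠ 0 := fun a ha h0 => by
    have := (SingB.one_le e).trans ((mτ a).1 ha)
    norm_num [h0] at this
  let w : ZZ σ → σ → ℝ := fun q i => (arg (p.1.1 i) + arg (q.1.1 i / p.1.1 i)) / (2 * Real.pi)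
  refine ⟨w, Sum.elim (fun a => kap ex c a p.1 (w p)) fun j => 2 * w p j - p.2 j, fun hs => ?_⟩
  have hx : ∀ i, p.1.1 i ≠ 0 := fun i => by
    obtain ⟨a | j, h1, h2⟩ := hI.mono hs i
    · exact (Tool.mon_ne_zero_iff _ _).1 (right_ne_zero_of_mul (left_ne_zero_of_mul (nz a h1))) i
        (by simpa [rv, ex3] using h2)
    · obtain rfl : i = j := by_contra fun e => h2 (by simp [rv_inr, e])
      exact norm_pos_iff.1 (((vτ i).1 h1).symm ▸ wl_pos h L 0 i)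
  have cw : ContinuousAt w p := continuousAt_pi.2 fun i =>
    (continuousAt_const.add (ContinuousAt.comp (f := fun q : ZZ σ => q.1.1 i / p.1.1 i)
      (continuousAt_arg (by simp [hx i])) (by fun_prop))).div_const _
  have e2 : ∀ᶠ q in 𝓝 p, Lft q.1.1 (w q) := by
    filter_upwards [eventually_all.2 fun i => ContinuousAt.eventually_ne
      (g := fun q : ZZ σ => q.1.1 i) (by fun_prop) (hx i)] with q hq i
    refine ⟨hq i, ?_⟩
    have h1 : 2 * Real.pi * I * w q i = arg (p.1.1 i) * I + arg (q.1.1 i / p.1.1 i) * I := by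
      simp only [w]
      push_cast
      field_simp
    have h2 : (‖q.1.1 i‖ : ℂ) = ‖p.1.1 i‖ * ‖q.1.1 i / p.1.1 i‖ := by
      rw [← ofReal_mul, ← norm_mul, mul_div_cancel₀ _ (hx i)]
    rw [h1, h2, exp_add, mul_mul_mul_comm, norm_mul_exp_arg_mul_I, norm_mul_exp_arg_mul_I,
      mul_div_cancel₀ _ (hx i)]
  have cl : ∀ {F : ZZ σ → ℝ} (_ : ContinuousAt F p) {r : ℝ}, 0 < r →
      ∀ᶠ q in 𝓝 p, |F q - F p| < r := fun hF _ hr => Metric.tendsto_nhds.1 hF _ hr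
  refine e2.and ((eventually_all.2 fun i => cl (continuousAt_pi.1 cw i) (by norm_num)).and
    ((eventually_all.2 fun a => eventually_imp_distrib_left.2 fun ha =>
      eventually_imp_distrib_left.2 fun h2 => ?_).and
      (eventually_all.2 fun j => eventually_imp_distrib_left.2 fun hj => ?_)))
  · have sl : zz ex c a p.1 ∈ slitPlane := by
      by_contra hs
      rw [mem_slitPlane_iff, not_or, not_lt, not_not] at hs
      have h3 := norm_pos_iff.2 (nz a ha)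
      have h4 := norm_le_abs_re_add_abs_im (zz ex c a p.1)
      rw [hs.2, abs_of_nonpos hs.1, abs_zero] at h4
      linarith
    have ck : ContinuousAt (fun q => kap ex c a q.1 (w q)) p :=
      ((ContinuousAt.comp (g := fun y => rv ex a ⬝ᵥ y) (by fun_prop) cw).sub (by fun_prop)).sub
        ((ContinuousAt.comp (f := fun q : ZZ σ => zz ex c a q.1) (continuousAt_arg sl)
          (by fun_prop)).div_const _)
    filter_upwards [e2, cl ck one_pos] with q h3 h4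
    exact eq_of_int (SingB.kap_int h3 a) (SingB.kap_int e2.self_of_nhds a) h4
  · have h1 : wl h L (W - D) j < ‖p.1.1 j‖ := (vτ j).1 hj ▸ wl_lt h L j (by linarith)
    have ck : ContinuousAt (fun q => 2 * w q j - q.2 j) p :=
      (continuousAt_const.mul (continuousAt_pi.1 cw j)).sub (by fun_prop)
    filter_upwards [e2, cl ck one_pos, ContinuousAt.eventually_lt (f := fun _ => wl h L (W - D) j)
      (g := fun q : ZZ σ => ‖q.1.1 j‖) (by fun_prop) (by fun_prop) h1] with q h3 h4 h5 h6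
    exact eq_of_int (int_of_lift (h3 j).1 (h3 j).2 ((h6.2.2.1 j).2.2 h5))
      (int_of_lift (hx j) (e2.self_of_nhds j).2 ((hp.2.2.1 j).2.2 h1)) h4

end Pool.Agent.P.MP_9321be_ag.NC.E
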