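import Pool.Agent.P.MP_9321be_ag.NC.EBas
import Pool.Agent.P.MP_9321be_ag.ND.ENear

/-!
Inside the walls the large terms and the active walls form a face.
-/

namespace Pool.Agent.P.MP_9321be_ag.NC.E

open Pool.Agent.P.MP_9321be_ag.ND.E Filter Topology

namespace Near3

variable {α σ : Type} [Fintype α] [DecidableEq α] [Fintype σ] [DecidableEq σ]

omit [DecidableEq α] [DecidableEq σ] in
theorem sm_le (ex : α → σ → ℕ) (h : α → ℝ) (L : ℝ) (x : σ → ℂ) :
    Sm ex x ≤ (∑ a, Real.exp (L * h a)) * ∑ b, ‖vc h L b * mon (ex b) x‖ := by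
  rw [Sm, Finset.mul_sum]
  refine Finset.sum_le_sum fun a _ => ?_
  rw [norm_mul, Near.norm_vc, ← mul_assoc]
  refine le_mul_of_one_le_left (norm_nonneg _) ?_
  rw [Real.exp_neg, ← div_eq_mul_inv, one_le_div (Real.exp_pos _)]
  exact Finset.single_le_sum (f := fun a => Real.exp (L * h a))
    (fun _ _ => (Real.exp_pos _).le) (Finset.mem_univ a)

theorem face3 (H : S_Approx) (ex : α → σ → ℕ) (h : σ → ℝ) (h₂ : α → ℝ) {K : ℝ} (hK : 0 < K) :
    ∀ᶠ L₂ in atTop, ∀ᶠ L in atTop, ∃ η > 0, ∀ x : σ → ℂ, Sm ex x < η →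
      (∀ j, ‖x j‖ ≤ wl h L 0 j) → 0 < Sm ex x → ∀ τ : Finset (α ⊕ σ),
      (∀ a, Sum.inl a ∈ τ → ∑ b, ‖vc h₂ L₂ b * mon (ex b) x‖ ≤ K * ‖vc h₂ L₂ a * mon (ex a) x‖) →
      (∀ j, Sum.inr j ∈ τ → ‖x j‖ = wl h L 0 j) → τ ∈ K3 ex h h₂ := by
  filter_upwards [H (α ⊕ σ) σ (rv (ex3 ex)) (-io α σ) (Sum.elim 0 fun j => -(2 * h j))
    (Sum.elim h₂ 0) (2 * K + 2)] with L₂ H1
  filter_upwards [H1] with L H2
  obtain ⟨μ₀, H3⟩ := eventually_atTop.1 H2
  obtain ⟨E, hE⟩ : ∃ E : ℝ, E = ∑ a, Real.exp (-(L₂ * h₂ a)) + 1 := ⟨_, rfl⟩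
  have hE0 : 0 < E := by rw [hE]; positivity
  refine ⟨Real.exp (-μ₀) / E, by positivity, fun x hx hw hS τ hτ hτ' => ?_⟩
  have hS' : 0 < ∑ b, ‖vc h₂ L₂ b * mon (ex b) x‖ :=
    pos_of_mul_pos_right (hS.trans_le (sm_le ex h₂ L₂ x)) (by positivity)
  have hU : IsOpen {x : σ → ℂ | Sm ex x < Real.exp (-μ₀) / E ∧ (∀ a, Sum.inl a ∈ τ →
      ∑ b, ‖vc h₂ L₂ b * mon (ex b) x‖ < 2 * K * ‖vc h₂ L₂ a * mon (ex a) x‖) ∧
      (∀ j, ‖x j‖ < wl h L 1 j) ∧ ∀ j, Sum.inr j ∈ τ → wl h L (-1) j < ‖x j‖} := by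
    refine IsOpen.and (isOpen_lt (by fun_prop) (by fun_prop)) (IsOpen.and ?_ (IsOpen.and ?_ ?_))
    all_goals simp only [Set.ofPred_forall]
    · exact isOpen_iInter_of_finite fun a => isOpen_iInter_of_finite fun _ =>
        isOpen_lt (by fun_prop) (by fun_prop)
    · exact isOpen_iInter_of_finite fun a => isOpen_lt (by fun_prop) (by fun_prop)
    · exact isOpen_iInter_of_finite fun a => isOpen_iInter_of_finite fun _ =>
        isOpen_lt (by fun_prop) (by fun_prop)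
  have hd : Dense (Set.pi Set.univ fun _ : σ => ({0}ᶜ : Set ℂ)) :=
    dense_pi _ fun _ _ => dense_compl_singleton 0
  obtain ⟨y, hy, hy1, hy2, hy3, hy4⟩ := hd.exists_mem_open hU ⟨x, hx,
    fun a ha => by linarith [hτ a ha], fun j => (hw j).trans_lt (wl_lt h L j one_pos),
    fun j hj => (wl_lt h L j (by norm_num)).trans_eq (hτ' j hj).symm⟩
  have hy0 : ∀ i, y i ≠ 0 := fun i => hy i trivial
  have hne : (Finset.univ : Finset α).Nonempty := by
    by_contra hn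
    rw [Finset.not_nonempty_iff_eq_empty] at hn
    simp [hn] at hS'
  obtain ⟨a₀, -, h0⟩ := Finset.exists_min_image _
    (fun a => rv ex a ⬝ᵥ (fun i => -Real.log ‖y i‖) + L₂ * h₂ a) hne
  have hμ : μ₀ ≤ rv ex a₀ ⬝ᵥ (fun i => -Real.log ‖y i‖) + L₂ * h₂ a₀ := by
    have h1 : ‖mon (ex a₀) y‖ ≤ Real.exp (-μ₀) / E := (Finset.single_le_sum
      (f := fun b => ‖mon (ex b) y‖) (fun _ _ => norm_nonneg _) (Finset.mem_univ a₀)).trans hy1.le
    have h2 : Real.exp (-(L₂ * h₂ a₀)) ≤ E := by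
      have := Finset.single_le_sum (f := fun a => Real.exp (-(L₂ * h₂ a)))
        (fun _ _ => (Real.exp_pos _).le) (Finset.mem_univ a₀)
      linarith
    have h3 : ‖vc h₂ L₂ a₀ * mon (ex a₀) y‖ ≤ Real.exp (-μ₀) := by
      rw [norm_mul, Near.norm_vc]
      calc _ ≤ E * (Real.exp (-μ₀) / E) := by gcongr
        _ = _ := by field_simp
    rw [Near.norm_tm ex h₂ L₂ _ hy0, Real.exp_le_exp] at h3
    linarith
  refine KL_down _ _ _ _ _ (H3 _ hμ (fun i => -Real.log ‖y i‖) ?_) τ fun b hb => ?_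
  · rintro (a | j)
    · have := h0 a (Finset.mem_univ a)
      simp only [rv_inl, io, Pi.neg_apply, Sum.elim_inl, Pi.one_apply, Pi.zero_apply]
      linarith
    · have := Real.log_le_log (norm_pos_iff.2 (hy0 j)) (hy3 j).le
      rw [wl, Real.log_exp] at this
      simp only [rv_inr_dot, io, Pi.neg_apply, Sum.elim_inr, Pi.zero_apply]
      linarith
  · refine Finset.mem_filter.2 ⟨Finset.mem_univ _, ?_⟩
    rcases b with a | j
    · have h4 := (Finset.single_le_sum (f := fun b => ‖vc h₂ L₂ b * mon (ex b) y‖)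
        (fun _ _ => norm_nonneg _) (Finset.mem_univ a₀)).trans (hy2 a hb).le
      have h5 : 2 * K ≤ Real.exp (2 * K) := by linarith [Real.add_one_le_exp (2 * K)]
      have h6 := h4.trans (mul_le_mul_of_nonneg_right h5 (norm_nonneg _))
      simp only [Near.norm_tm ex h₂ L₂ _ hy0] at h6
      rw [← Real.exp_add, Real.exp_le_exp] at h6
      simp only [rv_inl, io, Pi.neg_apply, Sum.elim_inl, Pi.one_apply, Pi.zero_apply]
      linarith
    · have := Real.log_le_log (wl_pos _ _ _ _) (hy4 j hb).le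
      rw [wl, Real.log_exp] at this
      simp only [rv_inr_dot, io, Pi.neg_apply, Sum.elim_inr, Pi.zero_apply]
      linarith

end Near3

theorem t_Near3 : S_Approx → S_Near3 := by
  intro H α σ _ _ _ _ ex h h₂ K₀ hH hK
  classical
  obtain ⟨K₁, hK1, M, hM, hg⟩ := Near.grad ex
    (K := {ρ : Finset α | ρ.map Function.Embedding.inl ∈ K3 ex h h₂}) fun ρ hρ => by
      have := hH.ind _ hρ
      rw [Finset.coe_map] at this
      exact this.comp_of_image Sum.inl_injective.injOn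
  filter_upwards [Near3.face3 H ex h h₂ hK1, Near3.face3 H ex h h₂ hK] with L₂ H1 H2
  refine ⟨?_, H2.mono fun L ⟨η, hη, H3⟩ => ⟨η, hη, fun x a1 a2 a3 => H3 x a1 a2 a3 _
    (fun a ha => by simpa only [Finset.mem_filter, Finset.mem_univ, true_and,
      Sum.elim_inl] using ha)
    fun j hj => by simpa only [Finset.mem_filter, Finset.mem_univ, true_and,
      Sum.elim_inr] using hj⟩⟩
  obtain ⟨L, η, hη, H3⟩ := H1.exists
  have hm : (0 : ℝ) < Fintype.card α + 1 := by positivity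
  have ev : ∀ t : ℝ, 0 < t → ∀ᶠ ε in 𝓝[>] (0 : ℝ), ε ≤ t := fun t ht =>
    nhdsWithin_le_nhds (ge_mem_nhds ht)
  obtain ⟨ε, ⟨⟨e1, e2⟩, e4⟩, hε⟩ := ((((ev 1 one_pos).and (eventually_all.2 fun j =>
    ev _ (wl_pos h L 0 j))).and (ev _ (div_pos hη hm))).and self_mem_nhdsWithin).exists
  have hε' : 0 < ε := hε
  obtain ⟨E, hE⟩ : ∃ E : ℝ, E = ∑ a, Real.exp (L₂ * h₂ a) := ⟨_, rfl⟩
  have hE0 : 0 ≤ E := by rw [hE]; positivity
  refine ⟨ε, hε, (E * M + 1)⁻¹, by positivity, fun x hx => ?_⟩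
  have hx' : ∀ i, ‖x i‖ ≤ ε := fun i => (norm_le_pi_norm x i).trans hx.le
  have h1 : Sm ex x < η := by
    have := Finset.sum_le_card_nsmul Finset.univ (fun a => ‖mon (ex a) x‖) ε fun a _ =>
      Tool.norm_mon_le (hH.ne a) e1 hx'
    rw [le_div_iff₀ hm] at e4
    simp only [Finset.card_univ, nsmul_eq_mul] at this
    rw [Sm]; linarith
  have h2 := Near3.sm_le ex h₂ L₂ x
  rw [← hE] at h2
  rcases (Finset.sum_nonneg fun b (_ : b ∈ Finset.univ) =>
    norm_nonneg (mon (ex b) x)).eq_or_lt with h0 | h0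
  · rw [Sm, ← h0, mul_zero]; positivity
  have h3 : ∑ b, ‖vc h₂ L₂ b * mon (ex b) x‖ ≤ M * ∑ i, ‖lg ex (vc h₂ L₂) x i‖ := by
    simpa only [lg, mul_right_comm _ (mon _ x)] using hg _ fun τ hτ =>
      H3 x h1 (fun j => (hx' j).trans (e2 j)) h0 _ (fun a ha => hτ a (by simpa using ha))
        fun j hj => by simp at hj
  rw [inv_mul_le_iff₀ (by positivity)]
  have h4 : 0 ≤ ∑ i, ‖lg ex (vc h₂ L₂) x i‖ := by positivity
  nlinarith [mul_le_mul_of_nonneg_left h3 hE0]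

end Pool.Agent.P.MP_9321be_ag.NC.E
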