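import Pool.Agent.P.MP_9321be_ag.NC.EBas
import Pool.Agent.P.MP_9321be_ag.ND.EStep

/-!
The eigenvalue property on tubes is locally constant.
-/

namespace Pool.Agent.P.MP_9321be_ag.NC.E

open Pool.Agent.Lib.Helper83 Pool.Agent.P.MP_9321be_ag.ND.E Set Complex Filter Topology

namespace Step3

variable {α σ : Type} [Fintype α] [Fintype σ] {ex : α → σ → ℕ}

/-- The action of a multiplier close to one. -/
noncomputable def act (p : ZZ σ) (m : σ → ℂ) : ZZ σ :=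
  ((p.1.1 * m, p.1.2), fun j => p.2 j + arg (m j) / Real.pi)

/-- The tube without the equation. -/
def WX (ex : α → σ → ℕ) (h : σ → ℝ) (L D W η : ℝ) : Set (ZZ σ) :=
  {p | Sm ex p.1.1 < η ∧ p.1.2.re < Real.log η ∧
    ∀ j, ‖p.1.1 j‖ < wl h L (D + W) j ∧ |p.2 j| < W ∧ (wl h L (W - D) j < ‖p.1.1 j‖ →
      p.1.1 j ^ 2 = (‖p.1.1 j‖ : ℂ) ^ 2 * exp (2 * Real.pi * I * p.2 j))}

/-- The growth constant. -/
def C0 (ex : α → σ → ℕ) : ℝ := 2 ^ (∑ a, ∑ i, ex a i)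

theorem C0_one : 1 ≤ C0 ex := one_le_pow₀ one_le_two

theorem C0_pos : 0 < C0 ex := one_pos.trans_le C0_one

omit [Fintype σ] in
theorem act_one (p : ZZ σ) : act p 1 = p := by simp [act]

theorem two_le : (2 : ℝ) ≤ Real.exp 1 := by linarith [Real.add_one_le_exp (1 : ℝ)]

theorem nm_le {m : ℂ} (hm : ‖m - 1‖ ≤ 1 / 2) : ‖m‖ ≤ 2 := by
  have := norm_le_norm_sub_add m 1
  rw [norm_one] at this
  linarith

theorem nm_ge {m : ℂ} (hm : ‖m - 1‖ ≤ 1 / 2) : 1 / 2 ≤ ‖m‖ := by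
  have := norm_sub_norm_le 1 m
  rw [norm_one, norm_sub_rev] at this
  linarith

theorem re_pos {m : ℂ} (hm : ‖m - 1‖ ≤ 1 / 2) : 0 < m.re := by
  have := (abs_le.1 ((abs_re_le_norm (m - 1)).trans hm)).1
  simp only [sub_re, one_re] at this
  linarith

theorem up {x m : ℂ} (hm : ‖m - 1‖ ≤ 1 / 2) : ‖x * m‖ ≤ Real.exp 1 * ‖x‖ := by
  rw [norm_mul, mul_comm]
  exact mul_le_mul_of_nonneg_right ((nm_le hm).trans two_le) (norm_nonneg _)

theorem down {x m : ℂ} (hm : ‖m - 1‖ ≤ 1 / 2) : ‖x‖ ≤ Real.exp 1 * ‖x * m‖ := by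
  rw [norm_mul]
  have h1 := nm_ge hm
  have h2 := two_le
  have h3 : 1 ≤ Real.exp 1 * ‖m‖ := by nlinarith
  nlinarith [norm_nonneg x]

theorem Sm_mul {x m : σ → ℂ} (hm : ∀ j, ‖m j - 1‖ ≤ 1 / 2) :
    Sm ex (x * m) ≤ C0 ex * Sm ex x := by
  rw [Sm, Sm, Finset.mul_sum]
  refine Finset.sum_le_sum fun a _ => ?_
  rw [Step.mon_mul, norm_mul, mul_comm]
  refine mul_le_mul_of_nonneg_right ?_ (norm_nonneg _)
  rw [mon, norm_prod]
  refine le_trans (Finset.prod_le_prod (g := fun i => (2 : ℝ) ^ ex a i)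
    (fun _ _ => norm_nonneg _) fun i _ => ?_) ?_
  · rw [norm_pow]
    exact pow_le_pow_left₀ (norm_nonneg _) (nm_le (hm i)) _
  · rw [Finset.prod_pow_eq_pow_sum]
    exact pow_le_pow_right₀ one_le_two (Finset.single_le_sum (f := fun a => ∑ i, ex a i)
      (fun _ _ => Nat.zero_le _) (Finset.mem_univ a))

theorem WX_mono {h : σ → ℝ} {L D W W' η : ℝ} (hW : W ≤ W') :
    WX ex h L D W η ⊆ WX ex h L D W' η :=
  fun _ ⟨h1, h2, h3⟩ => ⟨h1, h2,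
    fun j => ⟨(h3 j).1.trans_le (wl_le h L j (by linarith)), (h3 j).2.1.trans_le hW,
      fun e => (h3 j).2.2 ((wl_le h L j (by linarith)).trans_lt e)⟩⟩

theorem XX_sub {c : α → ℂ} {h : σ → ℝ} {L D W η : ℝ} : XX ex c h L D W η ⊆ WX ex h L D W η :=
  fun _ hp => ⟨hp.1, hp.2.1, hp.2.2.1⟩

theorem act_mem {h : σ → ℝ} {L D W η : ℝ} {p : ZZ σ} {m : σ → ℂ}
    (hm : ∀ j, ‖m j - 1‖ ≤ 1 / 2) (hp : p ∈ WX ex h L D W η) :
    act p m ∈ WX ex h L D (W + 1) (C0 ex * η) := by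
  obtain ⟨h1, h2, h3⟩ := hp
  have η0 : 0 < η := (Step.Sm_nonneg _).trans_lt h1
  refine ⟨(Sm_mul hm).trans_lt (mul_lt_mul_of_pos_left h1 C0_pos),
    h2.trans_le (Real.log_le_log η0 (le_mul_of_one_le_left η0.le C0_one)), fun j => ⟨?_, ?_, ?_⟩⟩
  · refine (up (hm j)).trans_lt ?_
    rw [← add_assoc, wl_add]
    exact mul_lt_mul_of_pos_left (h3 j).1 (Real.exp_pos 1)
  · have a1 : |arg (m j)| < Real.pi / 2 := abs_arg_lt_pi_div_two_iff.2 (Or.inl (re_pos (hm j)))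
    have a2 : |arg (m j) / Real.pi| < 1 := by
      rw [abs_div, abs_of_pos Real.pi_pos, div_lt_one Real.pi_pos]
      linarith [Real.pi_pos]
    exact (abs_add_le _ _).trans_lt (add_lt_add (h3 j).2.1 a2)
  · intro e
    have e1 : wl h L (W - D) j < ‖p.1.1 j‖ := by
      have e2 := e.trans_le (up (x := p.1.1 j) (hm j))
      rw [show W + 1 - D = W - D + 1 by ring, wl_add] at e2
      exact lt_of_mul_lt_mul_left e2 (Real.exp_pos 1).le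
    have e2 := (h3 j).2.2 e1
    have e3 : m j ^ 2 = (‖m j‖ : ℂ) ^ 2 * exp (2 * (arg (m j) * I)) := by
      conv_lhs => rw [← norm_mul_exp_arg_mul_I (m j)]
      rw [mul_pow, ← Complex.exp_nat_mul]
      simp
    have e4 : (Real.pi : ℂ) ≠ 0 := ofReal_ne_zero.2 Real.pi_ne_zero
    have e5 : 2 * Real.pi * I * ((p.2 j + arg (m j) / Real.pi : ℝ) : ℂ) =
        2 * Real.pi * I * p.2 j + 2 * (arg (m j) * I) := by
      push_cast
      field_simp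
    change (p.1.1 j * m j) ^ 2 = (‖p.1.1 j * m j‖ : ℂ) ^ 2 *
      exp (2 * Real.pi * I * ((p.2 j + arg (m j) / Real.pi : ℝ) : ℂ))
    rw [e5, exp_add, mul_pow, norm_mul, ofReal_mul, mul_pow]
    conv_lhs => rw [e2, e3]
    ring

theorem act_XX {c : α → ℂ} {h : σ → ℝ} {L D W η : ℝ} {p : ZZ σ} {m : σ → ℂ}
    (hm : ∀ j, ‖m j - 1‖ ≤ 1 / 2) (hp : p ∈ WX ex h L D W η)
    (he : (∀ j, ‖p.1.1 j‖ ≤ wl h L (D - W - 2) j) → ev ex c (p.1.1 * m) = exp p.1.2) :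
    act p m ∈ XX ex c h L D (W + 3) (C0 ex * η) := by
  obtain ⟨h1, h2, h3⟩ := WX_mono (W' := W + 3) (by linarith) (act_mem hm hp)
  refine ⟨h1, h2, h3, fun e => he fun j => (down (hm j)).trans ?_⟩
  rw [show D - W - 2 = D - (W + 3) + 1 by ring, wl_add]
  exact mul_le_mul_of_nonneg_left (e j) (Real.exp_pos 1).le

omit [Fintype σ] in
theorem act_cont {X : Type} [TopologicalSpace X] {S : Set X} {P : X → ZZ σ} {M : X → σ → ℂ}
    (hP : ContinuousOn P S) (hM : ContinuousOn M S) (hm : ∀ x ∈ S, ∀ j, ‖M x j - 1‖ ≤ 1 / 2) :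
    ContinuousOn (fun x => act (P x) (M x)) S := by
  refine ((hP.fst.fst.mul hM).prodMk hP.fst.snd).prodMk (continuousOn_pi.2 fun j => ?_)
  refine (continuousOn_pi.1 hP.snd j).add (ContinuousOn.div_const (fun x hx => ?_) _)
  exact (continuousAt_arg (Or.inl (re_pos (hm x hx j)))).comp_continuousWithinAt
    (f := fun x => M x j) (continuousOn_pi.1 hM j x hx)

theorem dom_mem {c c' : α → ℂ} {h : σ → ℝ} {L D W η ε β : ℝ} (hε : 0 < ε)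
    (hw : ∀ j, wl h L (D - W) j < ε) (hc : ‖c - c'‖ ≤ β) {p : ZZ σ}
    (hp : p ∈ XX ex c' h L D W η) (e : ∀ j, ‖p.1.1 j‖ ≤ wl h L (D - W) j) : p.1 ∈ Ap ex c ε β :=
  ⟨(pi_norm_lt_iff hε).2 fun j => (e j).trans_lt (hw j), hp.2.2.2 e ▸
    (Step.ev_sub_le c c' p.1.1).trans (mul_le_mul_of_nonneg_right hc (Step.Sm_nonneg _))⟩

end Step3

open Step Step3

theorem t_Step3 : S_TRD → S_Retr → S_Cut → S_Step3 := by
  rintro hT hR hC α σ _ _ _ _ ex c h lam hh ⟨ε, ε0, κ, κ0, hN⟩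
  obtain ⟨β, β0, C, C0', hR⟩ := hR α σ ex (κ / 2) (‖c‖ + 1) (half_pos κ0)
  obtain ⟨η, η0, hη⟩ := exists_eta ex (B := ‖c‖ + 1) (by positivity) β0
  obtain ⟨N, hD⟩ : ∃ D : ℝ, D = (∑ a, ∑ i, ex a i : ℕ) := ⟨_, rfl⟩
  have D0 : 0 ≤ N := hD ▸ Nat.cast_nonneg _
  refine ⟨min (min 1 (κ / 2 / (N + 1))) (min (β / 2) (η / (2 * C))), by positivity,
    fun c' c'' h' h'' => ?_⟩
  simp only [lt_min_iff] at h' h''
  have hB : ∀ d : α → ℂ, ‖d - c‖ < 1 → ‖d‖ ≤ ‖c‖ + 1 := fun d hd => by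
    linarith [norm_le_norm_sub_add d c]
  have hq : ∀ d : α → ℂ, ‖d - c‖ < κ / 2 / (N + 1) → NIq ex d ε (κ / 2) := fun d hd => by
    rw [lt_div_iff₀ (by positivity)] at hd
    exact niq hN (by rw [← hD]; linarith [norm_nonneg (d - c)])
  have d0 : ‖c' - c''‖ ≤ ‖c' - c‖ + ‖c'' - c‖ := by
    simpa using norm_sub_le (c' - c) (c'' - c)
  have d1 : ‖c' - c''‖ ≤ β := by linarith [h'.2.1, h''.2.1]
  have d2 : ‖c'' - c'‖ ≤ β := by rwa [norm_sub_rev]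
  have d3 : C * ‖c'' - c'‖ < η := by
    have a1 := (lt_div_iff₀ (by positivity)).1 h'.2.2
    have a2 := (lt_div_iff₀ (by positivity)).1 h''.2.2
    rw [norm_sub_rev]
    nlinarith
  refine ⟨⟨ε, ε0, κ / 2, half_pos κ0, hq c' h'.1.2⟩, fun ⟨k, W₁, hE⟩ => ⟨k, W₁ + 3, fun W₂ => ?_⟩⟩
  obtain ⟨μ', c1, k1, r1⟩ := hR c' ε (hB c' h'.1.1) (hq c' h'.1.2)
  obtain ⟨μ'', c2, k2, r2⟩ := hR c'' ε (hB c'' h''.1.1) (hq c'' h''.1.2)
  obtain ⟨V, v1, v2⟩ : ∃ V, W₂ ≤ V ∧ W₁ + 3 ≤ V := ⟨_, le_max_left _ _, le_max_right _ _⟩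
  filter_upwards [hE (V + 3)] with D hE
  filter_upwards [hE, wl_small hh (D - W₁) ε0, wl_small hh (D - V) ε0] with L hE w1 w2
  obtain ⟨η₀, e0, hE⟩ := hE
  have Cp : 0 < C0 ex := C0_pos
  refine ⟨η₀ / C0 ex, by positivity, fun η'' e'' => ?_⟩
  obtain ⟨θ, θ0, t1, t2⟩ : ∃ θ > 0, C0 ex * θ ≤ η'' ∧ C0 ex * (C0 ex * θ) ≤ η₀ := by
    refine ⟨min (η'' / C0 ex) (η₀ / C0 ex / C0 ex), by positivity, ?_, ?_⟩
    · rw [mul_comm, ← le_div_iff₀ Cp]; exact min_le_left _ _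
    · rw [mul_comm, ← le_div_iff₀ Cp, mul_comm, ← le_div_iff₀ Cp]; exact min_le_right _ _
  obtain ⟨m', n1, cm1, q1⟩ := hC α σ ex c' h ε β C L D V μ' c1 k1 r1
  obtain ⟨m'', -, cm2, q2⟩ := hC α σ ex c'' h ε β C L D W₁ μ'' c2 k2 r2
  have s1 : ∀ p ∈ XX ex c' h L D W₁ θ, (∀ j, ‖p.1.1 j‖ ≤ wl h L (D - W₁) j) →
      p.1 ∈ Ap ex c'' ε β := fun p hp => dom_mem ε0 w1 d2 hp
  have s2 : ∀ p ∈ XX ex c'' h L D V (η₀ / C0 ex), (∀ j, ‖p.1.1 j‖ ≤ wl h L (D - V) j) →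
      p.1 ∈ Ap ex c' ε β := fun p hp => dom_mem ε0 w2 d1 hp
  have hm : ∀ q ∈ XX ex c' h L D W₁ θ ×ˢ Icc (0 : ℝ) 1, ∀ j,
      ‖(1 + q.2 • (m'' q.1.1 - 1)) j - 1‖ ≤ ‖m'' q.1.1 j - 1‖ := fun q hq j => by
    simp only [Pi.add_apply, Pi.one_apply, Pi.smul_apply, Pi.sub_apply, add_sub_cancel_left,
      norm_smul, Real.norm_eq_abs, abs_of_nonneg hq.2.1]
    exact mul_le_of_le_one_left (norm_nonneg _) hq.2.2
  have hm2 : ∀ q ∈ XX ex c' h L D W₁ θ ×ˢ Icc (0 : ℝ) 1, ∀ j,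
      ‖(1 + q.2 • (m'' q.1.1 - 1)) j - 1‖ ≤ 1 / 2 := fun q hq j =>
    (hm q hq j).trans ((q2 _ (s1 _ hq.1)).1 j)
  have hk : ∀ q ∈ XX ex c' h L D W₁ θ ×ˢ Icc (0 : ℝ) 1,
      (∀ j, ‖(act q.1 (1 + q.2 • (m'' q.1.1 - 1))).1.1 j‖ ≤ wl h L (D - V) j) →
        (act q.1 (1 + q.2 • (m'' q.1.1 - 1))).1 ∈ Ap ex c' ε β := fun q hq e => by
    have e1 : ∀ j, ‖q.1.1.1 j‖ ≤ wl h L (D - W₁) j := fun j => by
      refine (down (hm2 q hq j)).trans ((mul_le_mul_of_nonneg_left (e j)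
        (Real.exp_pos 1).le).trans ?_)
      rw [← wl_add]
      exact wl_le h L j (by linarith)
    have e2 := hq.1.2.2.2 e1
    refine ⟨(pi_norm_lt_iff ε0).2 fun j => (e j).trans_lt (w2 j), ?_⟩
    change ‖ev ex c' (q.1.1.1 * _) - exp q.1.1.2‖ ≤ β * Sm ex (q.1.1.1 * _)
    rw [← e2]
    refine hη c' _ _ (hB c' h'.1.1) fun j => (hm q hq j).trans_lt (lt_of_le_of_lt ?_ d3)
    have a1 := (q2 _ (s1 _ hq.1)).2.2.1 e1 j
    rw [← e2] at a1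
    refine le_of_mul_le_mul_right (a1.trans ?_) (Sm_pos e2)
    rw [mul_assoc]
    exact mul_le_mul_of_nonneg_left (ev_sub_le _ _ _) C0'.le
  have cmid : ContinuousOn (fun q : ZZ σ × ℝ => act q.1 (1 + q.2 • (m'' q.1.1 - 1)))
      (XX ex c' h L D W₁ θ ×ˢ Icc (0 : ℝ) 1) :=
    act_cont continuousOn_fst (continuousOn_const.add (continuousOn_snd.smul
      ((cm2.comp continuousOn_fst.fst fun q hq => s1 _ hq.1).sub continuousOn_const))) hm2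
  refine EigD.mono (hT (ZZ σ) (ZZ σ) k T3 T3 lam (XX ex c' h L D W₁ θ) (XX ex c' h L D (V + 3) η₀)
    (XX ex c'' h L D (W₁ + 3) η'') (XX ex c'' h L D V (η₀ / C0 ex))
    (fun p => act p (m'' p.1)) (fun p => act p (m' p.1))
    (fun q => act (act q.1 (1 + q.2 • (m'' q.1.1 - 1)))
      (m' (act q.1 (1 + q.2 • (m'' q.1.1 - 1))).1))
    T3_cont (T3_maps _ _ _ _ _ _ _)
    (act_cont continuousOn_id (cm2.comp continuousOn_fst s1) fun p hp => (q2 _ (s1 p hp)).1)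
    (fun p hp => XX_mono ex c'' h L D le_rfl (by positivity) t1
      (act_XX (q2 _ (s1 p hp)).1 (XX_sub hp) (q2 _ (s1 p hp)).2.1))
    (act_cont continuousOn_id (cm1.comp continuousOn_fst s2) fun p hp => (q1 _ (s2 p hp)).1)
    (fun p hp => ?_) (fun p _ => ?_)
    (act_cont cmid (cm1.comp cmid.fst hk) fun q hq => (q1 _ (hk q hq)).1)
    (fun q hq => XX_mono ex c' h L D le_rfl (by positivity) t2
      (act_XX (q1 _ (hk q hq)).1 (WX_mono (by linarith) (act_mem (hm2 q hq) (XX_sub hq.1)))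
        (q1 _ (hk q hq)).2.1))
    (fun p hp => ?_) (fun p _ => by simp) (hE θ θ0)) subset_rfl
    (XX_mono ex c'' h L D v1 (by positivity) le_rfl)
  · have := act_XX (q1 _ (s2 p hp)).1 (XX_sub hp) (q1 _ (s2 p hp)).2.1
    rwa [mul_div_cancel₀ _ Cp.ne'] at this
  · change act (T3 p) (m' (dk p.1)) = _
    rw [n1]; rfl
  · have a0 := hk (p, 0) ⟨hp, le_rfl, zero_le_one⟩
    simp only [zero_smul, add_zero, act_one] at a0 ⊢
    have : m' p.1 = 1 := by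
      by_cases e : ∀ j, ‖p.1.1 j‖ ≤ wl h L (D - V) j
      · funext j
        have e2 := hp.2.2.2 fun j => (e j).trans (wl_le h L j (by linarith))
        have a1 := (q1 _ a0).2.2.1 e j
        rw [e2, sub_self, norm_zero, mul_zero] at a1
        exact sub_eq_zero.1 (norm_le_zero_iff.1 (nonpos_of_mul_nonpos_left a1 (Sm_pos e2)))
      · obtain ⟨j, hj⟩ := not_forall.1 e
        exact (q1 _ a0).2.2.2 ⟨j, (wl_le h L j (by linarith)).trans (not_le.1 hj).le⟩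
    rw [this, act_one]

end Pool.Agent.P.MP_9321be_ag.NC.E
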