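import Pool.Agent.P.MP_9321be_ag.NC.LV
import Pool.Agent.P.MP_9321be_ag.ND.EStep
import Pool.Agent.P.MP_9321be_ag.ND.ERetr
import Pool.Agent.P.MP_9321be_ag.ND.ERoot
import Pool.Agent.P.MP_9321be_ag.ND.EImap

/-!
Quasi-unipotence of the local monodromy at the points where all monomials vanish.
-/

namespace Pool.Agent.P.MP_9321be_ag.NC

open Pool.Agent.Lib.Helper83 Set Filter Topology Complex ND.E ND.E.Step

namespace QU

variable {α σ : Type} [Fintype α] [DecidableEq α] [Fintype σ] [DecidableEq σ]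

/-- The Fredholm alternative. -/
lemma alt (ex : α → σ → ℕ) (P : α → Prop) (Q : σ → Prop) :
    (∃ u : σ → ℚ, (∀ j, Q j → u j = 0) ∧ ∀ a, P a → ∑ j, ex a j * u j = 1) ∨
    ∃ r : α → ℝ, (∀ a, ¬ P a → r a = 0) ∧ (∀ j, ¬ Q j → ∑ a, r a * ex a j = 0) ∧ ∑ a, r a = 1 := by
  classical
  let M : Matrix α σ ℚ := Matrix.of fun a j => if P a ∧ ¬ Q j then (ex a j : ℚ) else 0
  let t : α → ℚ := fun a => if P a then 1 else 0
  by_cases h : t ∈ LinearMap.range M.mulVecLin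
  · obtain ⟨u, hu⟩ := h
    refine Or.inl ⟨fun j => if Q j then 0 else u j, fun j hj => if_pos hj, fun a ha => ?_⟩
    have := congrFun hu a
    simp only [Matrix.mulVecLin_apply, Matrix.mulVec, dotProduct, M, t, Matrix.of_apply, ha,
      true_and, if_true] at this
    rw [← this]
    exact Finset.sum_congr rfl fun j _ => by by_cases hj : Q j <;> simp [hj]
  · obtain ⟨φ, h1, h2⟩ := Submodule.exists_dual_map_eq_bot_of_notMem h inferInstance
    have hφ : ∀ y : α → ℚ, φ y = ∑ a, y a * φ (Pi.single a 1) := fun y => by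
      conv_lhs => rw [pi_eq_sum_univ' y]
      simp only [map_sum, map_smul, smul_eq_mul]
    refine Or.inr ⟨fun a => ((t a * φ (Pi.single a 1) / φ t : ℚ) : ℝ), fun a ha => by simp [t, ha],
      fun j hj => ?_, ?_⟩
    · have h3 : φ (M.mulVecLin (Pi.single j 1)) = 0 :=
        (Submodule.eq_bot_iff _).1 h2 _ ⟨_, ⟨_, rfl⟩, rfl⟩
      rw [hφ] at h3
      have h4 : ∑ a, t a * φ (Pi.single a 1) / φ t * ex a j = 0 := by
        rw [← zero_div (φ t), ← h3, Finset.sum_div]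
        refine Finset.sum_congr rfl fun a _ => ?_
        by_cases ha : P a
        · simp [M, t, ha, hj]; ring
        · simp [M, t, ha]
      beta_reduce
      exact_mod_cast h4
    · have h4 : ∑ a, t a * φ (Pi.single a 1) / φ t = 1 := by
        rw [← Finset.sum_div, ← hφ, div_self h1]
      beta_reduce
      exact_mod_cast h4

/-- The relative sizes of the monomials. -/
noncomputable def rel (ex : α → σ → ℕ) (p : YY σ) : α → ℝ := fun a => ‖mon (ex a) p.1‖ / Sm ex p.1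

omit [DecidableEq α] [DecidableEq σ] in
lemma cont_mon (a : σ → ℕ) : Continuous (mon a : (σ → ℂ) → ℂ) := by unfold mon; fun_prop

omit [DecidableEq α] [DecidableEq σ] in
lemma cont_Sm (ex : α → σ → ℕ) : Continuous (Sm ex) :=
  continuous_finsetSum _ fun a _ => (cont_mon (ex a)).norm

omit [DecidableEq σ] in
lemma norm_lt_of_mem {F : (σ → ℂ) → ℂ} {x₀ : σ → ℂ} {ε δ : ℝ} (h : 0 < ε) {p : YY σ}
    (hp : p ∈ Mx F x₀ ε δ) : ‖p.1 - x₀‖ < ε := norm_lt h hp.1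

omit [DecidableEq α] [DecidableEq σ] in
/-- Relative sizes that cannot occur. -/
lemma empty (ex : α → σ → ℕ) (c : α → ℂ) {x₀ : σ → ℂ} (hS : Sm ex x₀ = 0) {b r : α → ℝ}
    (h1 : ∀ a, b a = 0 → r a = 0) (h2 : ∀ j, x₀ j = 0 → ∑ a, r a * ex a j = 0)
    (h3 : ∑ a, r a = 1) : ∃ U ∈ 𝓝 b, ∃ η > 0, Mx (ev ex c) x₀ η η ∩ rel ex ⁻¹' U = ∅ := by
  let G : (σ → ℂ) × (α → ℝ) → ℝ := fun q =>
    ∑ j, (∑ a, r a * ex a j) * Real.log ‖q.1 j‖ - ∑ a, r a * Real.log (q.2 a)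
  have hG : ContinuousAt G (x₀, b) := by
    refine ContinuousAt.sub (tendsto_finsetSum _ fun j _ => ?_) (tendsto_finsetSum _ fun a _ => ?_)
    · by_cases hj : x₀ j = 0
      · simp [h2 j hj]
      · exact ContinuousAt.mul continuousAt_const (ContinuousAt.log (by fun_prop) (by simpa using hj))
    · by_cases ha : b a = 0
      · simp [h1 a ha]
      · exact ContinuousAt.mul continuousAt_const (ContinuousAt.log (by fun_prop) ha)
  have h4 : ∀ᶠ q in 𝓝 (x₀, b), Sm ex q.1 < Real.exp (G q) :=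
    ContinuousAt.eventually_lt ((cont_Sm ex).comp continuous_fst).continuousAt hG.rexp
      (by simpa [hS] using Real.exp_pos _)
  have h5 : ∀ᶠ q : (σ → ℂ) × (α → ℝ) in 𝓝 (x₀, b), ∀ a, b a ≠ 0 → q.2 a ≠ 0 :=
    eventually_all.2 fun a => by
      by_cases ha : b a = 0
      · simp [ha]
      · have : ContinuousAt (fun q : (σ → ℂ) × (α → ℝ) => q.2 a) (x₀, b) := by fun_prop
        exact (this.eventually_ne ha).mono fun q hq _ => hq
  obtain ⟨η, hη, h6⟩ := Metric.eventually_nhds_iff.1 (h4.and h5)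
  refine ⟨Metric.ball b η, Metric.ball_mem_nhds b hη, η, hη, eq_empty_of_forall_notMem ?_⟩
  rintro p ⟨hp, hU⟩
  obtain ⟨h7, h8⟩ := h6 (y := (p.1, rel ex p)) (by
    rw [Prod.dist_eq, max_lt_iff]
    exact ⟨by rw [dist_eq_norm]; exact norm_lt_of_mem hη hp, hU⟩)
  have hpos := Sm_pos hp.2.1
  have h9 : ∀ a, r a * Real.log (rel ex p a) =
      ∑ j, r a * ex a j * Real.log ‖p.1 j‖ - r a * Real.log (Sm ex p.1) := fun a => by
    by_cases ha : b a = 0
    · simp [h1 a ha]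
    · have h10 : ‖mon (ex a) p.1‖ ≠ 0 := (div_ne_zero_iff.1 (h8 a ha)).1
      rw [rel, Real.log_div h10 hpos.ne', mul_sub]
      congr 1
      rw [mon, norm_prod] at h10 ⊢
      rw [Real.log_prod (Finset.prod_ne_zero_iff.1 h10), Finset.mul_sum]
      exact Finset.sum_congr rfl fun j _ => by rw [norm_pow, Real.log_pow, mul_assoc]
  have h10 : G (p.1, rel ex p) = Real.log (Sm ex p.1) := by
    simp only [G, h9, Finset.sum_sub_distrib, ← Finset.sum_mul, h3, one_mul]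
    rw [Finset.sum_comm]
    simp only [← Finset.sum_mul]
    ring
  rw [h10, Real.exp_log hpos] at h7
  exact lt_irrefl _ h7

/-- Rotation of the coordinates. -/
noncomputable def rot (u : σ → ℝ) (t : ℝ) : σ → ℂ := fun j => exp (2 * Real.pi * I * (t * u j : ℝ))

omit [Fintype σ] [DecidableEq σ] in
lemma norm_rot (u : σ → ℝ) (t : ℝ) (j : σ) : ‖rot u t j‖ = 1 := by
  rw [rot, Complex.norm_exp]; simp

omit [DecidableEq σ] in
lemma mon_rot (a : σ → ℕ) (u : σ → ℝ) (t : ℝ) :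
    mon a (rot u t) = exp (2 * Real.pi * I * (t * ∑ j, a j * u j : ℝ)) := by
  simp only [mon, rot, ← Complex.exp_nat_mul, ← Complex.exp_sum]
  congr 1
  push_cast
  simp only [Finset.mul_sum]
  exact Finset.sum_congr rfl fun j _ => by ring

omit [DecidableEq σ] in
lemma norm_mon_rot (a : σ → ℕ) (x : σ → ℂ) (u : σ → ℝ) (t : ℝ) :
    ‖mon a (x * rot u t)‖ = ‖mon a x‖ := by
  rw [mon_mul, norm_mul, mon_rot, Complex.norm_exp]; simp

omit [Fintype σ] [DecidableEq σ] in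
lemma dk_iter (N : ℕ) (p : YY σ) : dk^[N] p = (p.1, p.2 + 2 * Real.pi * I * N) := by
  induction N with
  | zero => simp
  | succ N ih => rw [Function.iterate_succ_apply', ih, dk]; push_cast; rw [add_assoc, mul_add_one]

/-- Rotation followed by the retraction. -/
lemma rotate (ex : α → σ → ℕ) (c : α → ℂ) {e κ : ℝ} (hκ : 0 < κ) (hN : NIq ex c e κ)
    {x₀ : σ → ℂ} (hx : ‖x₀‖ < e) {b : α → ℝ} (hb : ∑ a, b a = 1) {u : σ → ℚ}
    (h1 : ∀ j, x₀ j ≠ 0 → u j = 0) (h2 : ∀ a, b a ≠ 0 → ∑ j, ex a j * u j = 1) {U : Set (α → ℝ)}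
    (hU : U ∈ 𝓝 b) {δ : ℝ} (hδ : 0 < δ) (k : ℕ) : ∃ U' ∈ 𝓝 b, ∃ η > 0,
      Kill dk G0 k (Mx (ev ex c) x₀ η η ∩ rel ex ⁻¹' U') (Mx (ev ex c) x₀ δ δ ∩ rel ex ⁻¹' U) := by
  obtain ⟨β, hβ, C, hC, hR⟩ := t_Retr t_Root α σ ex κ ‖c‖ hκ
  obtain ⟨μ, cμ, -, hμ⟩ := hR c e le_rfl hN
  obtain ⟨N, hN0, hNu⟩ : ∃ N : ℕ, 0 < N ∧ ∀ j, ∃ z : ℤ, (N : ℚ) * u j = z := by
    refine ⟨∏ j, (u j).den, Finset.prod_pos fun j _ => (u j).den_pos, fun j => ?_⟩
    obtain ⟨m, hm⟩ := Finset.dvd_prod_of_mem (fun j => (u j).den) (Finset.mem_univ j)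
    refine ⟨m * (u j).num, ?_⟩
    rw [hm]; push_cast
    rw [mul_right_comm, Rat.den_mul_eq_num, mul_comm]
  have e1 : ∀ᶠ q : (σ → ℂ) × (σ → ℂ) in 𝓝 (x₀, 1), ∑ j, ‖(q.1 * q.2) j - x₀ j‖ ^ 2 < δ ^ 2 :=
    ContinuousAt.eventually_lt (by simp only [Pi.mul_apply]; fun_prop) continuousAt_const
      (by simpa using pow_pos hδ 2)
  have e2 : ∀ᶠ q : (α → ℝ) × (σ → ℂ) in 𝓝 (b, 1),
      (fun a => q.1 a * ‖mon (ex a) q.2‖ / ∑ a, q.1 a * ‖mon (ex a) q.2‖) ∈ U := by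
    have c1 : ∀ a, Continuous fun q : (α → ℝ) × (σ → ℂ) => q.1 a * ‖mon (ex a) q.2‖ := fun a =>
      ((continuous_apply a).comp continuous_fst).mul ((cont_mon _).comp continuous_snd).norm
    refine ContinuousAt.preimage_mem_nhds (continuousAt_pi.2 fun a => (c1 a).continuousAt.div
      (continuous_finsetSum _ fun a _ => c1 a).continuousAt (by simp [mon, hb])) ?_
    simpa [mon, hb] using hU
  obtain ⟨η₁, hη₁, e1⟩ := Metric.eventually_nhds_iff.1 e1
  obtain ⟨η₂, hη₂, e2⟩ := Metric.eventually_nhds_iff.1 e2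
  obtain ⟨γ, hγ, g1, g2, g3⟩ : ∃ γ > 0, γ ≤ β ∧ C * γ < η₁ ∧ C * γ < η₂ := by
    refine ⟨min β (min η₁ η₂ / (2 * C)), by positivity, min_le_left _ _, lt_min_iff.1 ?_⟩
    have := (le_div_iff₀ (by positivity)).1 (min_le_right β (min η₁ η₂ / (2 * C)))
    linarith [lt_min hη₁ hη₂]
  obtain ⟨ρ, hρ, r1, r2⟩ : ∃ ρ > 0, ρ ≤ η₂ ∧ ‖c‖ * (Fintype.card α * (2 * ρ)) ≤ γ := by
    refine ⟨min η₂ (γ / (‖c‖ * Fintype.card α * 2 + 1)), by positivity, min_le_left _ _, ?_⟩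
    have := (le_div_iff₀ (by positivity)).1 (min_le_right η₂ (γ / (‖c‖ * Fintype.card α * 2 + 1)))
    have h0 : 0 < min η₂ (γ / (‖c‖ * Fintype.card α * 2 + 1)) := by positivity
    linarith
  obtain ⟨η, hη, t1, t2, t3⟩ : ∃ η > 0, η ≤ η₁ ∧ η ≤ δ ∧ η ≤ e - ‖x₀‖ :=
    ⟨min η₁ (min δ (e - ‖x₀‖)), lt_min hη₁ (lt_min hδ (sub_pos.2 hx)), min_le_left _ _,
      (min_le_right _ _).trans (min_le_left _ _), (min_le_right _ _).trans (min_le_right _ _)⟩
  let v : σ → ℝ := fun j => u j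
  let R : YY σ × ℝ → YY σ := fun q =>
    (q.1.1 * rot v (N * q.2), q.1.2 + 2 * Real.pi * I * (N * q.2 : ℝ))
  have cR : Continuous R := by
    refine Continuous.prodMk (Continuous.mul (by fun_prop) (continuous_pi fun j => ?_)) (by fun_prop)
    unfold rot; fun_prop
  have hSm : ∀ q, Sm ex (R q).1 = Sm ex q.1.1 := fun q =>
    Finset.sum_congr rfl fun a _ => norm_mon_rot _ _ _ _
  have hd : ∀ q : YY σ × ℝ, q.1 ∈ Mx (ev ex c) x₀ η η → ‖(R q).1 - x₀‖ < η := fun q hq => by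
    refine (pi_norm_lt_iff hη).2 fun j => lt_of_eq_of_lt ?_
      ((norm_le_pi_norm _ j).trans_lt (norm_lt_of_mem hη hq))
    by_cases hj : x₀ j = 0
    · simp [R, hj, norm_rot]
    · simp [R, rot, v, h1 j hj]
  have herr : ∀ q : YY σ × ℝ, q.1 ∈ Mx (ev ex c) x₀ η η ∩ rel ex ⁻¹' Metric.ball b ρ →
      ‖ev ex c (R q).1 - exp (R q).2‖ ≤ γ * Sm ex (R q).1 := fun q hq => by
    have hpos := Sm_pos hq.1.2.1
    have a1 := sum_le c fun a => mon (ex a) q.1.1 *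
      (mon (ex a) (rot v (N * q.2)) - exp (2 * Real.pi * I * (N * q.2 : ℝ)))
    have a2 : ∀ a, ‖mon (ex a) q.1.1 * (mon (ex a) (rot v (N * q.2)) -
        exp (2 * Real.pi * I * (N * q.2 : ℝ)))‖ ≤ 2 * ρ * Sm ex q.1.1 := fun a => by
      by_cases ha : b a = 0
      · have a3 : |rel ex q.1 a - b a| < ρ := (dist_le_pi_dist _ _ a).trans_lt hq.2
        rw [ha, sub_zero, abs_lt, rel, div_lt_iff₀ hpos] at a3
        have a4 := norm_sub_le (mon (ex a) (rot v (N * q.2))) (exp (2 * Real.pi * I * (N * q.2 : ℝ)))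
        rw [mon_rot, Imap.norm_e, Imap.norm_e, ← mon_rot] at a4
        rw [norm_mul]
        nlinarith [norm_nonneg (mon (ex a) q.1.1), a3.2]
      · have a3 : ∑ j, (ex a j : ℝ) * v j = 1 := by simp only [v]; exact_mod_cast h2 a ha
        rw [mon_rot, a3, mul_one, sub_self, mul_zero, norm_zero]
        positivity
    have a3 := Finset.sum_le_sum fun a (_ : a ∈ Finset.univ) => a2 a
    rw [Finset.sum_const, Finset.card_univ, nsmul_eq_mul] at a3
    rw [hSm]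
    refine le_trans (le_of_eq ?_) ((a1.trans (mul_le_mul_of_nonneg_left a3 (norm_nonneg _))).trans
      (by nlinarith))
    simp only [R, exp_add, ← hq.1.2.1, ev, mon_mul, Finset.sum_mul, ← Finset.sum_sub_distrib]
    congr 1
    exact Finset.sum_congr rfl fun a _ => by ring
  have hAp : MapsTo R ((Mx (ev ex c) x₀ η η ∩ rel ex ⁻¹' Metric.ball b ρ) ×ˢ Icc (0 : ℝ) 1)
      (Ap ex c e β) := fun q hq =>
    ⟨by linarith [norm_le_norm_sub_add (R q).1 x₀, hd q hq.1.1], (herr q hq.1).trans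
      (mul_le_mul_of_nonneg_right g1 (Sm_nonneg _))⟩
  have hone : ∀ p ∈ Ap ex c e β, ev ex c p.1 = exp p.2 → μ p = 1 := fun p hp h => funext fun j => by
    have a1 := ((hμ p hp).2 j).2
    rw [h, sub_self, norm_zero, mul_zero] at a1
    exact sub_eq_zero.1 (norm_le_zero_iff.1 (nonpos_of_mul_nonpos_left a1 (Sm_pos h)))
  refine ⟨Metric.ball b ρ, Metric.ball_mem_nhds b hρ, η, hη, kill_htpy cont_dk
    (X_pow_sub_one_mem_G0 hN0) (H := (fun p => (p.1 * μ p, p.2)) ∘ R)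
    (((continuousOn_fst.mul cμ).prodMk continuousOn_snd).comp cR.continuousOn hAp)
    (fun q hq => ?_) (fun p hp => ?_) fun p hp => ?_⟩
  · have hpos := Sm_pos hq.1.1.2.1
    have hm : ‖μ (R q) - 1‖ ≤ C * γ := (pi_norm_le_iff_of_nonneg (by positivity)).2 fun j => by
      have a1 := (((hμ _ (hAp hq)).2 j).2).trans (mul_le_mul_of_nonneg_left (herr q hq.1) hC.le)
      rw [hSm, ← mul_assoc] at a1
      exact le_of_mul_le_mul_right a1 hpos
    refine ⟨⟨e1 (y := ((R q).1, μ (R q))) ?_, (hμ _ (hAp hq)).1, ?_⟩, ?_⟩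
    · rw [Prod.dist_eq, max_lt_iff, dist_eq_norm, dist_eq_norm]
      exact ⟨(hd q hq.1.1).trans_le t1, hm.trans_lt g2⟩
    · simpa [R] using hq.1.1.2.2.trans_le (Real.log_le_log hη t2)
    · have a1 := e2 (y := (rel ex q.1, μ (R q))) (by
        rw [Prod.dist_eq, max_lt_iff, dist_eq_norm (μ (R q))]
        exact ⟨lt_of_lt_of_le hq.1.2 r1, hm.trans_lt g3⟩)
      rw [mem_preimage]
      convert a1 using 1
      funext a
      have a2 : ∀ a, ‖mon (ex a) ((R q).1 * μ (R q))‖ =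
          rel ex q.1 a * ‖mon (ex a) (μ (R q))‖ * Sm ex q.1.1 := fun a => by
        rw [mon_mul, norm_mul, norm_mon_rot, rel]; field_simp
      simp only [Function.comp_apply]
      rw [rel, Sm]
      simp only [a2, ← Finset.sum_mul]
      rw [mul_div_mul_right _ _ hpos.ne']
  · have a1 : R (p, 0) = p := by
      refine Prod.ext (funext fun j => ?_) ?_ <;> simp [R, rot]
    have a2 := hAp (mk_mem_prod hp ⟨le_rfl, zero_le_one⟩)
    rw [a1] at a2
    simp [a1, hone p a2 hp.1.2.1]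
  · have a1 : R (p, 1) = dk^[N] p := by
      rw [dk_iter]
      refine Prod.ext (funext fun j => ?_) (by simp [R])
      obtain ⟨z, hz⟩ := hNu j
      have : (N : ℝ) * 1 * v j = z := by rw [mul_one]; simp only [v]; exact_mod_cast hz
      simp only [R, rot, Pi.mul_apply, this]
      rw [mul_comm (2 * Real.pi * I), ofReal_intCast, exp_int_mul_two_pi_mul_I, mul_one]
    have a2 := hAp (mk_mem_prod hp ⟨zero_le_one, le_rfl⟩)
    rw [a1] at a2
    have a3 := hone _ a2 ((Mx_dk (ev ex c) x₀ η η).iterate N hp.1).2.1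
    simp [a1, a3]

end QU

open QU in
/-- Quasi-unipotence. -/
theorem qu {α σ : Type} [Fintype α] [DecidableEq α] [Fintype σ] [DecidableEq σ]
    (ex : α → σ → ℕ) (c : α → ℂ) {e κ : ℝ} (hκ : 0 < κ) (hN : NIq ex c e κ) {x₀ : σ → ℂ}
    (hx : ‖x₀‖ < e) (hS : Sm ex x₀ = 0) {ε δ : ℝ} (hε : 0 < ε) (hδ : 0 < δ) (k : ℕ) :
    ∃ η > 0, Kill dk G0 k (Mx (ev ex c) x₀ η η) (Mx (ev ex c) x₀ ε δ) := by
  have hG : Polynomial.X - 1 ∈ G0 := by simpa using X_pow_sub_one_mem_G0 one_pos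
  have hloc : ∀ b ∈ stdSimplex ℝ α, ∀ U ∈ 𝓝 b, ∀ a > 0, ∀ k, ∃ U' ∈ 𝓝 b, ∃ a' > 0,
      Kill dk G0 k (Mx (ev ex c) x₀ a' a' ∩ rel ex ⁻¹' U') (Mx (ev ex c) x₀ a a ∩ rel ex ⁻¹' U) := by
    intro b hb U hU a ha k
    rcases alt ex (fun a => b a ≠ 0) (fun j => x₀ j ≠ 0) with ⟨u, h1, h2⟩ | ⟨r, h1, h2, h3⟩
    · exact rotate ex c hκ hN hx hb.2 h1 h2 hU ha k
    · obtain ⟨U', hU', η, hη, h⟩ := QU.empty ex c hS (fun a ha => h1 a (not_not.2 ha))
        (fun j hj => h2 j (not_not.2 hj)) h3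
      exact ⟨U', hU', η, hη, by rw [h]; exact kill_empty hG⟩
  obtain ⟨U, -, hU, η, hη, h⟩ := lg (π := rel ex) (S := fun a => Mx (ev ex c) x₀ a a)
    (C₀ := stdSimplex ℝ α) cont_dk hG (fun a b ha h => Mx_mono _ _ ha.le h ha h)
    (fun a _ => Mx_dk _ _ _ _) (fun _ => rfl)
    (fun a _ => continuousOn_pi.2 fun b => ((cont_mon _).comp continuous_fst).norm.continuousOn.div
      ((cont_Sm ex).comp continuous_fst).continuousOn fun p hp => (Step.Sm_pos hp.2.1).ne')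
    hloc k _ subset_rfl (isCompact_stdSimplex ℝ α) univ isOpen_univ
    (subset_univ _) (min ε δ) (lt_min hε hδ)
  refine ⟨η, hη, h.mono (fun p hp => ⟨hp, hU ⟨fun a => div_nonneg (norm_nonneg _)
    (Step.Sm_nonneg _), ?_⟩⟩) fun p hp => Mx_mono _ _ (lt_min hε hδ).le (min_le_left _ _)
      (lt_min hε hδ) (min_le_right _ _) hp.1⟩
  simp only [rel, ← Finset.sum_div]
  exact div_self (Step.Sm_pos hp.2.1).ne'

end Pool.Agent.P.MP_9321be_ag.NC
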