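import Pool.Agent.P.MP_9321be_ag.NC.EIface
import Pool.Agent.P.MP_9321be_ag.NC.QU
import Pool.Agent.P.MP_9321be_ag.ND.ETool

/-!
From an eigenclass on the tubes to an eigenvalue at a nearby point.
-/

namespace Pool.Agent.P.MP_9321be_ag.NC.E

open Pool.Agent.Lib.Helper83 Pool.Agent.P.MP_9321be_ag.ND.E Set Complex Filter Topology

namespace Fin3

variable {α σ : Type} [Fintype α] [Fintype σ] {ex : α → σ → ℕ} {c : α → ℂ} {h : σ → ℝ}
  {L D W : ℝ} {lam : ℂ}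

omit [Fintype σ] in
theorem wl_lt {t t' : ℝ} (ht : t < t') (j : σ) : wl h L t j < wl h L t' j :=
  Real.exp_lt_exp.2 (by linarith)

omit [Fintype σ] in
theorem wl_le {t t' : ℝ} (ht : t ≤ t') (j : σ) : wl h L t j ≤ wl h L t' j :=
  Real.exp_le_exp.2 (by linarith)

theorem XX_mono {W' η η' : ℝ} (hW : W ≤ W') (h0 : 0 < η) (hη : η ≤ η') :
    XX ex c h L D W η ⊆ XX ex c h L D W' η' := fun _ hp =>
  ⟨hp.1.trans_le hη, hp.2.1.trans_le (Real.log_le_log h0 hη), fun j =>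
    ⟨(hp.2.2.1 j).1.trans_le (wl_le (by linarith) j), (hp.2.2.1 j).2.1.trans_le hW, fun h1 =>
      (hp.2.2.1 j).2.2 ((wl_le (by linarith) j).trans_lt h1)⟩,
    fun h1 => hp.2.2.2 fun j => (h1 j).trans (wl_le (by linarith) j)⟩

theorem XX_T3 (η : ℝ) : MapsTo T3 (XX ex c h L D W η) (XX ex c h L D W η) := fun p hp =>
  ⟨hp.1, by simpa [T3, dk] using hp.2.1, hp.2.2.1, fun h1 => by
    simpa [T3, dk, exp_add] using hp.2.2.2 h1⟩

omit [Fintype σ] in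
theorem cont_T3 : Continuous (T3 : ZZ σ → ZZ σ) := by unfold T3 dk; fun_prop

/-- The projection to the base. -/
def pr (p : ZZ σ) : (σ → ℂ) × (σ → ℝ) := (p.1.1, p.2)

/-- The compact set of admissible base points. -/
def C1 (h : σ → ℝ) (L D W : ℝ) : Set ((σ → ℂ) × (σ → ℝ)) :=
  {b | ∀ j, ‖b.1 j‖ ≤ wl h L (D + W) j ∧ |b.2 j| ≤ W ∧ (‖b.1 j‖ ≤ wl h L (W - D) j ∨
    b.1 j ^ 2 = (‖b.1 j‖ : ℂ) ^ 2 * exp (2 * Real.pi * I * b.2 j))}

omit [Fintype σ] in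
theorem compact_C1 : IsCompact (C1 h L D W) := by
  refine ((isCompact_univ_pi fun j => isCompact_closedBall (0 : ℂ) (wl h L (D + W) j)).prod
    (isCompact_univ_pi fun _ : σ => isCompact_closedBall (0 : ℝ) W)).of_isClosed_subset ?_ ?_
  · simp only [C1, Set.ofPred_forall]
    refine isClosed_iInter fun j => IsClosed.and ?_ (IsClosed.and ?_ ?_)
    · exact isClosed_le (by fun_prop) (by fun_prop)
    · exact isClosed_le (by fun_prop) (by fun_prop)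
    · rw [Set.ofPred_or]
      exact (isClosed_le (by fun_prop) (by fun_prop)).union (isClosed_eq (by fun_prop) (by fun_prop))
  · exact fun b hb => ⟨fun j _ => by simpa using (hb j).1, fun j _ => by simpa using (hb j).2.1⟩

theorem locA (h1 : lam ≠ 1) {b : (σ → ℂ) × (σ → ℝ)} {j : σ} (hj : wl h L (D - W) j ≤ ‖b.1 j‖)
    {U : Set _} (hU : U ∈ 𝓝 b) {a : ℝ} (ha : 0 < a) (k : ℕ) : ∃ U' ∈ 𝓝 b, ∃ a' > 0,
      Kill T3 (Gl lam) k (XX ex c h L D (W + a') a' ∩ pr ⁻¹' U')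
        (XX ex c h L D (W + a) a ∩ pr ⁻¹' U) := by
  refine ⟨U ∩ {y | wl h L (D - (W + a)) j < ‖y.1 j‖}, inter_mem hU
    ((isOpen_lt (by fun_prop) (by fun_prop)).mem_nhds ((wl_lt (by linarith) j).trans_le hj)),
    a, ha, kill_htpy (N := 1) cont_T3 (by simpa using X_sub_one_mem_Gl h1)
      (H := fun q => ((q.1.1.1, q.1.1.2 + 2 * Real.pi * I * q.2), q.1.2)) (by fun_prop)
      (fun q hq => ⟨⟨hq.1.1.1, by simpa using hq.1.1.2.1, hq.1.1.2.2.1, fun h2 =>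
        absurd (h2 j) (not_le.2 hq.1.2.2)⟩, hq.1.2.1⟩) (fun p _ => by simp)
      (fun p _ => by simp [T3, dk])⟩

theorem lift_eq {z : ℂ} (hz : z ≠ 0) {s t : ℝ}
    (h1 : z ^ 2 = (‖z‖ : ℂ) ^ 2 * exp (2 * Real.pi * I * s))
    (h2 : z ^ 2 = (‖z‖ : ℂ) ^ 2 * exp (2 * Real.pi * I * t)) (h3 : |s - t| < 1) : s = t := by
  have h4 := mul_left_cancel₀ (pow_ne_zero 2 (by simpa using hz)) (h1.symm.trans h2)
  obtain ⟨n, hn⟩ := exp_eq_exp_iff_exists_int.1 h4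
  have h5 : s = t + n := by
    have h6 : (2 * Real.pi * I : ℂ) ≠ 0 := two_pi_I_ne_zero
    have : (s : ℂ) = t + n := mul_left_cancel₀ h6 (by rw [hn]; ring)
    exact_mod_cast this
  rw [h5, add_sub_cancel_left] at h3
  have : n = 0 := Int.abs_lt_one_iff.1 (by exact_mod_cast h3)
  simp [h5, this]

theorem lift_arg {z w : ℂ} (hw : w ≠ 0) {t : ℝ}
    (h1 : w ^ 2 = (‖w‖ : ℂ) ^ 2 * exp (2 * Real.pi * I * t)) :
    z ^ 2 = (‖z‖ : ℂ) ^ 2 * exp (2 * Real.pi * I * (t + arg (z / w) / Real.pi : ℝ)) := by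
  have h2 : z = w * (‖z / w‖ * exp (arg (z / w) * I)) := by
    rw [norm_mul_exp_arg_mul_I, mul_div_cancel₀ _ hw]
  have h3 : (‖z‖ : ℂ) = ‖w‖ * ‖z / w‖ := by
    rw [← ofReal_mul, ← norm_mul, mul_div_cancel₀ _ hw]
  have h4 : 2 * Real.pi * I * (t + arg (z / w) / Real.pi : ℝ) =
      2 * Real.pi * I * t + (arg (z / w) * I + arg (z / w) * I) := by
    have : (Real.pi : ℂ) ≠ 0 := ofReal_ne_zero.2 Real.pi_ne_zero
    push_cast
    field_simp
    ring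
  rw [h3, h4, exp_add, exp_add]
  conv_lhs => rw [h2, mul_pow, h1]
  ring

theorem ball_of {x₀ : σ → ℂ} {N : Set (σ → ℂ)} (hN : N ∈ 𝓝 x₀) :
    ∃ ε > 0, ∀ x : σ → ℂ, ∑ i, ‖x i - x₀ i‖ ^ 2 < ε ^ 2 → x ∈ N := by
  obtain ⟨ε, hε, h⟩ := Metric.mem_nhds_iff.1 hN
  exact ⟨ε, hε, fun x hx => h (mem_ball_iff_norm.2 (Tool.norm_lt_of_sq (x := x - x₀) hε hx))⟩

theorem locB {b : (σ → ℂ) × (σ → ℝ)} (hb : b ∈ C1 h L D W) (h0 : Sm ex b.1 = 0)
    (hj : ∀ j, ‖b.1 j‖ < wl h L (D - W) j) {U : Set _} (hU : U ∈ 𝓝 b) {a : ℝ} (ha : 0 < a)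
    {k : ℕ} (hv : ∀ ε > 0, ∃ η > 0,
      Kill dk (Gl lam) k (Mx (ev ex c) b.1 η η) (Mx (ev ex c) b.1 ε a)) : ∃ U' ∈ 𝓝 b, ∃ a' > 0,
      Kill T3 (Gl lam) k (XX ex c h L D (W + a') a' ∩ pr ⁻¹' U')
        (XX ex c h L D (W + a) a ∩ pr ⁻¹' U) := by
  classical
  obtain ⟨x₀, θ₀⟩ := b
  let big : σ → Prop := fun j => wl h L (W - D) j < ‖x₀ j‖
  have nz : ∀ j, big j → x₀ j ≠ 0 := fun j hj => norm_pos_iff.1 ((Real.exp_pos _).trans hj)
  let Θ : (σ → ℂ) → σ → ℝ := fun x j => θ₀ j + if big j then arg (x j / x₀ j) / Real.pi else 0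
  have cΘ : ∀ x : σ → ℂ, (∀ j, big j → x j / x₀ j ∈ slitPlane) → ContinuousAt Θ x := fun x hx =>
    continuousAt_pi.2 fun j => continuousAt_const.add (by
      by_cases hj : big j
      · simp only [if_pos hj]
        exact (ContinuousAt.comp (f := fun x : σ → ℂ => x j / x₀ j) (continuousAt_arg (hx j hj))
          ((continuous_apply j).div_const _).continuousAt).div_const _
      · simp only [if_neg hj]; exact continuousAt_const)
  have sl : ∀ j, big j → x₀ j / x₀ j ∈ slitPlane := fun j hj => by simp [nz j hj]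
  have Θ0 : Θ x₀ = θ₀ := funext fun j => by
    by_cases hj : big j
    · simp [Θ, nz j hj]
    · simp [Θ, hj]
  have lf : ∀ (x : σ → ℂ) j, big j →
      x j ^ 2 = (‖x j‖ : ℂ) ^ 2 * exp (2 * Real.pi * I * Θ x j) := fun x j hj => by
    simp only [Θ, if_pos hj]
    exact lift_arg (nz j hj) ((hb j).2.2.resolve_left (not_le.2 hj))
  obtain ⟨N₀, hN₀, V₀, hV₀, hNV⟩ := mem_nhds_prod_iff.1 hU
  obtain ⟨r₀, hr₀, hV⟩ := Metric.mem_nhds_iff.1 hV₀
  obtain ⟨r, hr, r1, r2, r3⟩ : ∃ r > 0, r ≤ r₀ ∧ r ≤ a ∧ r ≤ 1 / 2 :=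
    ⟨min r₀ (min a (1 / 2)), by positivity, min_le_left _ _,
      (min_le_right _ _).trans (min_le_left _ _), (min_le_right _ _).trans (min_le_right _ _)⟩
  have hN : ∀ᶠ x in 𝓝 x₀, x ∈ N₀ ∧ Sm ex x < a ∧ Θ x ∈ Metric.ball θ₀ r ∧
      ∀ j, ‖x j‖ < wl h L (D + (W + a)) j ∧ (big j → x j / x₀ j ∈ slitPlane) ∧
        (¬ big j → ‖x j‖ < wl h L (W + a - D) j) := by
    refine Eventually.and hN₀ (((Tool.continuous_Sm ex).continuousAt.eventually_lt
      continuousAt_const (h0.trans_lt ha)).and (Eventually.and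
        ((cΘ x₀ sl).eventually_mem (Θ0 ▸ Metric.ball_mem_nhds _ hr))
        (eventually_all.2 fun j => Eventually.and ?_ (Eventually.and ?_ ?_))))
    · exact ContinuousAt.eventually_lt (continuous_apply j).norm.continuousAt continuousAt_const
        ((hb j).1.trans_lt (wl_lt (by linarith) j))
    · exact eventually_imp_distrib_left.2 fun hj => ContinuousAt.eventually_mem
        (f := fun x : σ → ℂ => x j / x₀ j) ((continuous_apply j).div_const _).continuousAt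
        (isOpen_slitPlane.mem_nhds (sl j hj))
    · exact eventually_imp_distrib_left.2 fun hj => ContinuousAt.eventually_lt
        (continuous_apply j).norm.continuousAt
        continuousAt_const ((not_lt.1 hj).trans_lt (wl_lt (by linarith) j))
  obtain ⟨ε, hε, hN⟩ := ball_of hN
  have tg : ∀ y ∈ Mx (ev ex c) x₀ ε a, ∀ θ ∈ Metric.ball θ₀ r, (∀ j, big j → θ j = Θ y.1 j) →
      (y, θ) ∈ XX ex c h L D (W + a) a ∩ pr ⁻¹' U := fun y hy θ hθ hl => by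
    obtain ⟨n0, n1, -, n2⟩ := hN y.1 hy.1
    refine ⟨⟨n1, hy.2.2, fun j => ⟨(n2 j).1, ?_, fun h2 => ?_⟩, fun _ => hy.2.1⟩,
      hNV ⟨n0, hV (Metric.ball_subset_ball r1 hθ)⟩⟩
    · have h2 := abs_lt.1 ((dist_pi_lt_iff hr).1 hθ j)
      have h3 := abs_le.1 (hb j).2.1
      exact abs_lt.2 ⟨by linarith [h2.1, h3.1], by linarith [h2.2, h3.2]⟩
    · by_cases hj : big j
      · simp only [hl j hj]; exact lf _ j hj
      · exact absurd h2 (not_lt.2 ((n2 j).2.2 hj).le)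
  obtain ⟨η₁, hη₁, hv⟩ := hv ε hε
  obtain ⟨η, hη, e1, e2, e3⟩ : ∃ η > 0, η ≤ η₁ ∧ η ≤ ε ∧ η ≤ a :=
    ⟨min η₁ (min ε a), by positivity, min_le_left _ _,
      (min_le_right _ _).trans (min_le_left _ _), (min_le_right _ _).trans (min_le_right _ _)⟩
  have hc : ∀ᶠ q : ℝ × (σ → ℂ) in 𝓝 (0, x₀), q.1 < η ∧ ∑ i, ‖q.2 i - x₀ i‖ ^ 2 < η ^ 2 ∧
      ∀ j, ‖q.2 j‖ < wl h L (D - (W + q.1)) j ∧ (big j → wl h L (W + q.1 - D) j < ‖q.2 j‖) := by
    refine Eventually.and ?_ (Eventually.and ?_ (eventually_all.2 fun j => Eventually.and ?_ ?_))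
    · exact ContinuousAt.eventually_lt (by fun_prop) continuousAt_const hη
    · exact ContinuousAt.eventually_lt (by fun_prop) continuousAt_const (by simpa using pow_pos hη 2)
    · exact ContinuousAt.eventually_lt (by fun_prop) (by unfold wl; fun_prop) (by simpa using hj j)
    · exact eventually_imp_distrib_left.2 fun hj => ContinuousAt.eventually_lt
        (by unfold wl; fun_prop) (by fun_prop) (by simpa using hj)
  obtain ⟨A, hA, N', hN', hAN⟩ := mem_nhds_prod_iff.1 hc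
  have hA' : ∀ᶠ t in 𝓝[>] (0 : ℝ), t ∈ A := nhdsWithin_le_nhds hA
  obtain ⟨a', ha1, ha'⟩ := (hA'.and self_mem_nhdsWithin).exists
  have hM : Mx (ev ex c) x₀ η η ⊆ Mx (ev ex c) x₀ ε a := Mx_mono _ _ hη.le e2 hη e3
  have src : ∀ p ∈ XX ex c h L D (W + a') a' ∩ pr ⁻¹' (N' ×ˢ Metric.ball θ₀ r),
      p.1 ∈ Mx (ev ex c) x₀ η η := fun p hp => by
    obtain ⟨m1, m2, m3⟩ := hAN (mk_mem_prod ha1 hp.2.1)
    exact ⟨m2, hp.1.2.2.2 fun j => (m3 j).1.le, hp.1.2.1.trans_le (Real.log_le_log ha' m1.le)⟩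
  have cs : ContinuousOn (fun y : YY σ => Θ y.1) (Mx (ev ex c) x₀ ε a) := fun y hy =>
    (ContinuousAt.comp (f := Prod.fst) (cΘ _ fun j => ((hN y.1 hy.1).2.2.2 j).2.1)
      continuousAt_fst).continuousWithinAt
  refine ⟨N' ×ˢ Metric.ball θ₀ r, prod_mem_nhds hN' (Metric.ball_mem_nhds _ hr), a', ha',
    kill_through cont_T3 cont_dk (fun p hp => ⟨XX_T3 _ hp.1, hp.2⟩) hM (Mx_dk _ _ _ _)
      (p := Prod.fst) (s := fun y => (y, Θ y.1)) continuousOn_fst src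
      (continuousOn_id.prodMk cs) (fun y hy => tg y hy _ (hN y.1 hy.1).2.2.1 fun _ _ => rfl)
      (fun _ _ => rfl) (H := fun q => (q.1.1, q.1.2 + q.2 • (Θ q.1.1.1 - q.1.2))) ?_
      (fun q hq => tg _ (hM (src _ hq.1)) _ ?_ fun j hj => ?_) (fun p _ => by simp)
      (fun p _ => by simp) (hv.mono (Mx_mono _ _ hη.le e1 hη e1) subset_rfl)⟩
  · have := cs.comp (continuousOn_fst (s := (XX ex c h L D (W + a') a' ∩
      pr ⁻¹' (N' ×ˢ Metric.ball θ₀ r)) ×ˢ Icc (0 : ℝ) 1)).fst fun q hq => hM (src _ hq.1)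
    exact continuousOn_fst.fst.prodMk (continuousOn_fst.snd.add
      (continuousOn_snd.smul (this.sub continuousOn_fst.snd)))
  · exact (convex_ball θ₀ r).add_smul_sub_mem hq.1.2.2
      (hN _ (hM (src _ hq.1)).1).2.2.1 hq.2
  · obtain ⟨-, -, m3⟩ := hAN (mk_mem_prod ha1 hq.1.2.1)
    have h2 := abs_lt.1 ((dist_pi_lt_iff hr).1 hq.1.2.2 j)
    have h3 := abs_lt.1 ((dist_pi_lt_iff hr).1 (hN _ (hM (src _ hq.1)).1).2.2.1 j)
    have h4 : q.1.2 j = Θ q.1.1.1 j := lift_eq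
      (norm_pos_iff.1 ((Real.exp_pos _).trans ((m3 j).2 hj)))
      ((hq.1.1.2.2.1 j).2.2 ((m3 j).2 hj)) (lf _ j hj)
      (abs_lt.2 ⟨by simp only [pr] at h2; linarith [h2.1, h3.2],
        by simp only [pr] at h2; linarith [h2.2, h3.1]⟩)
    simp [h4]

theorem core (h1 : lam ≠ 1) {η₀ : ℝ} (h0 : 0 < η₀) {k : ℕ}
    (hv : ∀ x₀ : σ → ℂ, (∀ j, ‖x₀ j‖ ≤ wl h L (D + W) j) → Sm ex x₀ = 0 → ∀ ε > 0, ∀ δ > 0, ∀ k,
      ∃ η > 0, Kill dk (Gl lam) k (Mx (ev ex c) x₀ η η) (Mx (ev ex c) x₀ ε δ))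
    (hE : ∀ η > 0, EigD k T3 lam (XX ex c h L D W η) (XX ex c h L D (W + 1) η₀)) : False := by
  have hC : IsCompact (C1 h L D W ∩ {b | Sm ex b.1 = 0}) :=
    compact_C1.inter_right (isClosed_eq (by fun_prop) continuous_const)
  obtain ⟨U, hU, hCU, a, ha, hK⟩ := lg cont_T3 (X_sub_one_mem_Gl h1) (π := pr)
    (S := fun a => XX ex c h L D (W + a) a) (fun a b ha hab => XX_mono (by linarith) ha hab)
    (fun a _ => XX_T3 a) (fun _ => rfl) (fun _ _ => by unfold pr; fun_prop)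
    (C₀ := C1 h L D W ∩ {b | Sm ex b.1 = 0}) (fun b hb U hU a ha k => by
      by_cases hj : ∃ j, wl h L (D - W) j ≤ ‖b.1 j‖
      · exact locA h1 hj.choose_spec hU ha k
      · push Not at hj
        exact locB hb.1 hb.2 hj hU ha fun ε hε =>
          hv b.1 (fun j => (hb.1 j).1) hb.2 ε hε a ha k)
    (k + 1) _ subset_rfl hC univ isOpen_univ (subset_univ _) (min 1 η₀) (lt_min one_pos h0)
  obtain ⟨m, hm, hb⟩ := (compact_C1.diff hU).exists_forall_le' (f := fun b => Sm ex b.1) (a := 0)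
    (by fun_prop) fun b hb => by
      have : 0 ≤ Sm ex b.1 := Finset.sum_nonneg fun _ _ => norm_nonneg _
      exact this.lt_of_ne fun e => hb.2 (hCU ⟨hb.1, e.symm⟩)
  have hη : 0 < min m (min a η₀) := lt_min hm (lt_min ha h0)
  obtain ⟨N, φ, p1, p2, z, z1, z2, z3⟩ := hE _ hη
  refine z3 ((hK.mono (fun p hp => ⟨XX_mono (by linarith) hη
    ((min_le_right _ _).trans (min_le_left _ _)) hp, by_contra fun hn => ?_⟩) fun p hp =>
      XX_mono (by linarith [min_le_left 1 η₀]) (lt_min one_pos h0) (min_le_right _ _) hp.1).eig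
      cont_T3 (XX_mono (by linarith) hη ((min_le_right _ _).trans (min_le_right _ _))) (XX_T3 _)
      p1 p2 z1 z2)
  refine absurd (hb (pr p) ⟨fun j => ⟨(hp.2.2.1 j).1.le, (hp.2.2.1 j).2.1.le, ?_⟩, hn⟩)
    (not_le.2 (hp.1.trans_le (min_le_left _ _)))
  exact (le_or_gt _ _).imp_right (hp.2.2.1 j).2.2

end Fin3

open Fin3 in
theorem t_Fin3 : S_Fin3 := by
  rintro σ _ _ f h lam hh h1 - ⟨e, he, κ, hκ, hN⟩ ⟨k, W, hE⟩ U hU
  by_contra hn
  push Not at hn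
  obtain ⟨r, hr, hrU⟩ := Metric.mem_nhds_iff.1 (inter_mem hU (Metric.ball_mem_nhds _ he))
  obtain ⟨D, hE⟩ := (hE (W + 1)).exists
  have hL : ∀ᶠ L in atTop, ∀ j, wl h L (D + W) j < r := eventually_all.2 fun j =>
    (Real.tendsto_exp_atBot.comp (tendsto_atBot_add_const_left _ (D + W)
      (tendsto_neg_atTop_atBot.comp (tendsto_id.atTop_mul_const (hh j))))).eventually_lt_const hr
  obtain ⟨L, ⟨η₀, h0, hE⟩, hL⟩ := (hE.and hL).exists
  have ef : ev (fun a : f.support => (a.1 : σ → ℕ)) (fun a => MvPolynomial.coeff a.1 f) =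
      fun x => MvPolynomial.eval x f := funext fun x => by
    rw [MvPolynomial.eval_eq', ev, Finset.sum_coe_sort f.support
      fun a => MvPolynomial.coeff a f * mon a x]
    rfl
  refine core h1 h0 (fun x₀ hx hS ε hε δ hδ k => ?_) hE
  have hx₀ := hrU (mem_ball_zero_iff.2 ((pi_norm_lt_iff hr).2 fun j => (hx j).trans_lt (hL j)))
  obtain ⟨η, hη, hk⟩ := qu _ _ hκ hN (mem_ball_zero_iff.1 hx₀.2) hS hε hδ k
  rw [ef] at hk ⊢
  refine lv f x₀ h1 (hn x₀ hx₀.1 ?_) hε hδ hη hk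
  rw [← congrFun ef x₀]
  exact Finset.sum_eq_zero fun a _ => mul_eq_zero_of_right _ (norm_eq_zero.1
    ((Finset.sum_eq_zero_iff_of_nonneg fun _ _ => norm_nonneg _).1 hS a (Finset.mem_univ a)))

end Pool.Agent.P.MP_9321be_ag.NC.E
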