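import Pool.Agent.P.MP_9321be_ag.NC.ECl
import Pool.Agent.P.MP_9321be_ag.NC.ECut
import Pool.Agent.P.MP_9321be_ag.NC.EExact
import Pool.Agent.P.MP_9321be_ag.NC.EFam
import Pool.Agent.P.MP_9321be_ag.NC.EGen
import Pool.Agent.P.MP_9321be_ag.NC.EImap
import Pool.Agent.P.MP_9321be_ag.NC.ELab
import Pool.Agent.P.MP_9321be_ag.NC.ELevel
import Pool.Agent.P.MP_9321be_ag.NC.ELoc
import Pool.Agent.P.MP_9321be_ag.NC.ENear
import Pool.Agent.P.MP_9321be_ag.NC.ERed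
import Pool.Agent.P.MP_9321be_ag.NC.EStep
import Pool.Agent.P.MP_9321be_ag.NC.Fin
import Pool.Agent.P.MP_9321be_ag.ND.ECarr
import Pool.Agent.P.MP_9321be_ag.ND.EG
import Pool.Agent.P.MP_9321be_ag.ND.EKGen
import Pool.Agent.P.MP_9321be_ag.ND.ENDNI
import Pool.Agent.P.MP_9321be_ag.ND.ENIND
import Pool.Agent.P.MP_9321be_ag.ND.ENV
import Pool.Agent.P.MP_9321be_ag.ND.ENVApp
import Pool.Agent.P.MP_9321be_ag.ND.ENVBase
import Pool.Agent.P.MP_9321be_ag.ND.ENVGeo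
import Pool.Agent.P.MP_9321be_ag.ND.ENVStep
import Pool.Agent.P.MP_9321be_ag.ND.EPath
import Pool.Agent.P.MP_9321be_ag.ND.EPhi
import Pool.Agent.P.MP_9321be_ag.ND.ERetr
import Pool.Agent.P.MP_9321be_ag.ND.ERoot
import Pool.Agent.P.MP_9321be_ag.ND.EStress
import Pool.Agent.P.MP_9321be_ag.ND.ETC
import Pool.Agent.P.MP_9321be_ag.ND.ETop
import Pool.Agent.P.MP_9321be_ag.ND.EVal
import Pool.Agent.P.MP_9321be_ag.ND.EZc

/-!
The eigenvalue theorem for all non-degenerate polynomials.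
-/

namespace Pool.Agent.P.MP_9321be_ag.NC.E

open Pool.Agent.P.MP_9321be_ag.ND.E

theorem s_ENC : S_ENC :=
  have hA := t_Approx (t_Level t_TC)
  have hC := t_Carr t_Zc
  have hN := t_NDNI t_TC
  t_Red3 hN (t_Fam3 hN (t_Const3 (t_Step3 t_TRD (t_Retr t_Root) t_Cut) hN t_NIND t_Path) t_KGen
    (t_Gen3 t_KGen) (t_Cl3 hA t_Exact3) t_Uniq3 (t_Near3 hA) (t_Phi t_G) (t_Val t_G)
    (t_Stress t_Top hC) (t_NVApp (t_NV t_NVBase (t_NVStep t_NVGeo))) t_Loc3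
    (t_Imap3 t_KGen t_Exact3) (t_Lab t_Zc hC)) t_Fin3

end Pool.Agent.P.MP_9321be_ag.NC.E
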