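import Pool.Agent.P.MP_9321be_ag.NC.ZDefs
import Pool.Agent.P.MP_9321be_ag.ND.ZCell
import Pool.Agent.P.MP_9321be_ag.ND.ZSer
import Pool.Agent.P.MP_9321be_ag.ND.ZPin
import Pool.Agent.P.MP_9321be_ag.ND.ZBox

/-!
Cells and boxes away from the dangerous set.
-/

namespace Pool.Agent.P.MP_9321be_ag.NC

open MvPolynomial ND

section

open ND.Cell

variable {σ : Type} [Fintype σ] [DecidableEq σ]

theorem core' {A : Finset (σ →₀ ℕ)} {α : ℚ} {lo hi : Option σ → ℚ}
    (hK : NoK A α lo hi) {r : σ → ℚ} (r0 : ∀ i, 0 ≤ r i)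
    (h1 : ∀ j, lo (some j) ≤ r j ∧ r j ≤ hi (some j))
    (h2 : lo none ≤ 1) (h3 : 1 ≤ hi none) (h4 : ∀ a ∈ A, 1 ≤ ∑ i, vec a i * r i)
    (h5 : ∑ i, r i = α) {lam : (σ →₀ ℕ) → ℚ} {κ : σ → ℚ}
    (h6 : ∀ a ∈ A, lam a ≠ 0 → ∑ i, vec a i * r i = 1) (h7 : ∀ j, κ j ≠ 0 → r j = 0)
    (h8 : ∀ i, ∑ a ∈ A, lam a * vec a i + κ i = 1) : False := by
  have e : ∀ a, dr a (fun i => (r i : ℝ)) = ((∑ i, vec a i * r i : ℚ) : ℝ) := fun a => by
    simp [dr, vec]
  refine hK (fun i => (r i : ℝ)) ⟨fun i => Rat.cast_nonneg.2 (r0 i),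
    fun a ha => by rw [e]; exact_mod_cast h4 a ha, by rw [← h5, Rat.cast_sum], ?_⟩
    (fun j => ⟨by exact_mod_cast (h1 j).1, by exact_mod_cast (h1 j).2⟩) h2 h3
  have : (fun _ => 1 : σ → ℝ) = ∑ a ∈ A, (lam a : ℝ) • vr a +
      ∑ j, ((κ j : ℝ) / 2) • vr (Finsupp.single j 2) := funext fun i => by
    have h9 := congrArg (Rat.cast : ℚ → ℝ) (h8 i)
    simp only [vec, Rat.cast_add, Rat.cast_sum, Rat.cast_mul, Rat.cast_natCast, Rat.cast_one] at h9
    simp [vr, Finsupp.single_apply, ← h9]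
  rw [this]
  refine Submodule.add_mem _ (Submodule.sum_mem _ fun a ha => ?_)
    (Submodule.sum_mem _ fun j _ => ?_)
  · by_cases h : lam a = 0
    · simp [h]
    · refine Submodule.smul_mem _ _ (Submodule.subset_span ⟨a, sub_vs _ _ ?_, rfl⟩)
      exact mem_fr.2 ⟨ha, by rw [e, h6 a ha h, Rat.cast_one]⟩
  · by_cases h : κ j = 0
    · simp [h]
    · exact Submodule.smul_mem _ _ (Submodule.subset_span
        ⟨_, single_mem_vs _ (mem_zs.2 (by simp [h7 j h])), rfl⟩)

variable {A F : Finset (σ →₀ ℕ)} {lo hi : Option σ → ℚ}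

theorem ray' {α : ℚ} {Γ : Option σ → Set ℚ} (hG : Gen A α Γ)
    (hW : WallOK Γ lo hi) (hK : NoK A α lo hi) {y : Io σ → ℚ} (l0 : 0 < y none)
    (h : ∀ k, 0 ≤ form A F lo hi k y) (c : Ko A → ℚ)
    (hc : ∀ k, c k ≠ 0 → form A F lo hi k y = 0)
    (e : ∀ y, ∑ k, c k * form A F lo hi k y = ∑ i, ((ee i : ℚ) - α * dd i) * y i) : False := by
  classical
  have e0 := e y
  rw [Finset.sum_eq_zero fun k _ => by
    by_cases hk : c k = 0
    · rw [hk, zero_mul]
    · rw [hc k hk, mul_zero]] at e0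
  simp only [Fintype.sum_option, ee, dd] at e0
  set lam : (σ →₀ ℕ) → ℚ := fun a => if h : a ∈ A then c (.inr (.inr (.inl (⟨a, h⟩, false)))) -
    if a ∈ F then c (.inr (.inr (.inl (⟨a, h⟩, true)))) else 0 else 0 with hlam
  have ex : ∀ y : Io σ → ℚ, ∑ k, c k * form A F lo hi k y =
      ∑ o, (c (.inl (o, true)) * (hi o * y none - y (some o)) +
        c (.inl (o, false)) * (y (some o) - lo o * y none)) +
      (∑ j, c (.inr (.inl j)) * y (some (some j)) +
        (∑ a ∈ A, lam a * (∑ i, vec a i * y (some (some i)) - y (some none)) +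
          (c (.inr (.inr (.inr true))) * y none +
            c (.inr (.inr (.inr false))) * (y none - y (some none))))) := fun y => by
    simp only [Fintype.sum_sum_type, Fintype.sum_prod_type, Fintype.sum_bool]
    rw [← Finset.sum_coe_sort A]
    refine congrArg₂ _ rfl (congrArg₂ _ rfl (congrArg₂ _ (Finset.sum_congr rfl fun a _ => ?_) rfl))
    by_cases ha : a.1 ∈ F <;> simp [form, hlam, ha]
    ring
  simp only [ex, Fintype.sum_option, ee, dd] at e
  have dv : ∀ a, ∑ i, vec a i * (y (some (some i)) / y none) =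
      (∑ i, vec a i * y (some (some i))) / y none := fun a => by
    simp only [Finset.sum_div, mul_div_assoc]
  have t1 : ∀ o, c (.inl (o, false)) ≠ 0 → y (some o) / y none = lo o := fun o h => by
    have := hc _ h
    rw [div_eq_iff l0.ne']
    simpa [form, sub_eq_zero] using this
  have t2 : ∀ o, c (.inl (o, true)) ≠ 0 → y (some o) / y none = hi o := fun o h => by
    have := hc _ h
    rw [div_eq_iff l0.ne', eq_comm]
    simpa [form, sub_eq_zero] using this
  have s1 : ∀ o, lo o ≤ y (some o) / y none := fun o =>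
    (le_div_iff₀ l0).2 (by simpa [form] using h (.inl (o, false)))
  have s2 : ∀ o, y (some o) / y none ≤ hi o := fun o =>
    (div_le_iff₀ l0).2 (by simpa [form] using h (.inl (o, true)))
  have e1 : ∑ i, y (some (some i)) / y none - y (some none) / y none = α - 1 := by
    rw [← Finset.sum_div, ← sub_div, div_eq_iff l0.ne']
    simp only [Int.cast_one, Int.cast_zero, mul_zero, sub_zero, one_mul, Int.cast_neg] at e0
    linarith
  obtain ⟨hN, lam', κ', g1, g2, g3⟩ := hG (fun j => y (some (some j)) / y none)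
    (y (some none) / y none) lam
    (fun j => c (.inl (some j, false)) - c (.inl (some j, true)) + c (.inr (.inl j)))
    (c (.inl (none, false)) - c (.inl (none, true)) - c (.inr (.inr (.inr false))))
    (fun a ha h0 => by
      rw [dv]
      congr 1
      by_cases h1 : c (.inr (.inr (.inl (⟨a, ha⟩, false)))) = 0
      · by_cases h2 : a ∈ F
        · have := hc (.inr (.inr (.inl (⟨a, ha⟩, true)))) fun h3 => h0 (by simp [hlam, h1, h3])
          exact Eq.symm (by simpa [form, h2, sub_eq_zero] using this)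
        · exact (h0 (by simp [hlam, ha, h1, h2])).elim
      · simpa [form, sub_eq_zero] using hc _ h1)
    (fun j h0 => by
      by_cases h1 : c (.inl (some j, false)) = 0
      · by_cases h2 : c (.inl (some j, true)) = 0
        · have := hc (.inr (.inl j)) fun h3 => h0 (by simp [h1, h2, h3])
          exact Or.inr (div_eq_zero_iff.2 (Or.inl this))
        · exact Or.inl (by rw [t2 _ h2]; exact (hW.1 j).2)
      · rw [t1 _ h1]; exact (hW.1 j).1)
    (fun h0 => by
      by_cases h1 : c (.inl (none, false)) = 0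
      · by_cases h2 : c (.inl (none, true)) = 0
        · have := hc (.inr (.inr (.inr false))) fun h3 => h0 (by simp [h1, h2, h3])
          refine Or.inr (Or.inr ?_)
          rw [div_eq_one_iff_eq l0.ne', eq_comm]
          simpa [form, sub_eq_zero] using this
        · rw [t2 _ h2]; exact hW.2.2.1.imp_right Or.inr
      · rw [t1 _ h1]; exact hW.2.1)
    (fun i => by
      have := e (Pi.single (some (some i)) 1)
      simp [Pi.single_apply, Finset.sum_add_distrib] at this
      linarith)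
    (by
      have := e (Pi.single (some none) 1)
      simp at this
      linarith) e1
  rw [hN] at g1 e1
  refine core' hK (fun j => div_nonneg (by simpa [form] using h (.inr (.inl j))) l0.le)
    (fun j => ⟨s1 _, s2 _⟩) (hN ▸ s1 none) (hN ▸ s2 none) (fun a ha => ?_)
    (by linarith) g1 g2 g3
  rw [dv, ← hN]
  exact div_le_div_of_nonneg_right
    (by simpa [form] using h (.inr (.inr (.inl (⟨a, ha⟩, false))))) l0.le

theorem ray0' (hA : ConvA A) {r : Io σ → ℤ} (hr : r ≠ 0)
    (h : ∀ k, 0 ≤ form A F lo hi k fun i => r i) : 0 < dd ⬝ᵥ r ∧ 0 < ee ⬝ᵥ r := by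
  have l0 : 0 ≤ r none := by simpa [form] using h (.inr (.inr (.inr true)))
  have lN : r (some none) ≤ r none := by simpa [form] using h (.inr (.inr (.inr false)))
  have v0 : ∀ j, 0 ≤ r (some (some j)) := fun j => by simpa [form] using h (.inr (.inl j))
  have l1 : 0 < r none := by
    refine l0.lt_of_ne fun e => hr (funext fun i => ?_)
    have a1 : ∀ o, r (some o) ≤ 0 := fun o => by simpa [form, ← e] using h (.inl (o, true))
    rcases i with _ | _ | j
    · exact e.symm
    · exact le_antisymm (a1 _) (by simpa [form, ← e] using h (.inl (none, false)))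
    · exact le_antisymm (a1 _) (v0 j)
  rw [dd_dot, ee_dot]
  refine ⟨l1, not_le.1 fun h1 => ?_⟩
  have h2 := Finset.sum_nonneg fun j (_ : j ∈ Finset.univ) => v0 j
  have h3 : ∀ j, r (some (some j)) = 0 := fun j =>
    (Finset.sum_eq_zero_iff_of_nonneg fun j _ => v0 j).1 (by omega) j (Finset.mem_univ j)
  obtain ⟨a, ha⟩ := hA.1
  have h4 : r (some none) ≤ 0 := by
    simpa [form, h3] using h (.inr (.inr (.inl (⟨a, ha⟩, false))))
  omega

end

open ND.Cell in
theorem t_Cell : S_Slice → S_Cell := by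
  intro hS R _ u σ _ _ A F α Γ lo hi κ hA hF hG hW hK
  have h0 := hW.2.2.2
  have key := sliceQ hS u (form A F lo hi) (bd A κ) (st A F) ee dd α
    (fun z => ND.Cell.Con A F lo hi κ fun i => z i) (fun z => con_iff _) (fin_con h0)
    (fun z h => by
      have h1 : ∀ i, 0 ≤ z i := fun i => by exact_mod_cast h.nonneg h0 i
      have h2 : z (some none) ≤ z none := by exact_mod_cast h.lN
      have h3 := Finset.sum_nonneg fun j (_ : j ∈ Finset.univ) => h1 (some (some j))
      rw [dd_dot, ee_dot]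
      exact ⟨h1 _, by omega⟩)
    fun r hr h => by
      obtain ⟨h1, h2⟩ := ray0' hA hr h
      exact ⟨h1, h2, ray' hG hW hK (by rw [dd_dot] at h1; exact_mod_cast h1) h⟩
  convert key using 3 with l
  refine finsum_mem_eq_of_bijOn (pt l) ⟨fun p hp => ⟨(con_pt hF l p).2 hp, dd_dot _⟩,
    fun p _ q _ e => Prod.ext (funext fun j => ?_) ?_, fun z hz => ?_⟩ fun p hp => ?_
  · exact Nat.cast_injective (congrFun e (some (some j)))
  · exact Nat.cast_injective (congrFun e (some none))
  · have h1 : ∀ i, 0 ≤ z i := fun i => by exact_mod_cast hz.1.nonneg h0 i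
    have e : pt l (fun j => (z (some (some j))).toNat, (z (some none)).toNat) = z := by
      funext i
      rcases i with _ | _ | j
      · exact ((dd_dot z).symm.trans hz.2).symm
      · exact Int.toNat_of_nonneg (h1 _)
      · exact Int.toNat_of_nonneg (h1 _)
    exact ⟨_, (con_pt hF l _).1 (by rw [e]; exact hz.1), e⟩
  · have := hp.2.1
    rw [ee_dot]
    simp only [pt, ← Nat.cast_sum]
    congr 1
    omega

section

open ND.Ser

variable {σ : Type} [Fintype σ] [DecidableEq σ]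

theorem good_le' (hC : S_Cell) {A F : Finset (σ →₀ ℕ)} {α : ℚ} {Γ : Option σ → Set ℚ}
    {lo hi : Option σ → ℚ} (κ : Option σ → ℕ) (hA : ConvA A) (hF : F ⊆ A) (hne : F.Nonempty)
    (hG : Gen A α Γ) (hW : WallOK Γ lo hi) (hK : NoK A α lo hi) :
    Good α (PowerSeries.mk fun l : ℕ =>
      ∑ v ∈ (wv A lo hi κ l).filter (fun v => nn A v ≤ l ∧ fc A v = F),
        lefInv ^ (∑ i, v i + l - nn A v)) := by
  have := hC MM lefInv σ A F α Γ lo hi κ hA hF hG hW hK
  simpa only [cell_sum hF hne] using this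

theorem good_eq' (hC : S_Cell) {A F : Finset (σ →₀ ℕ)} {α : ℚ} {Γ : Option σ → Set ℚ}
    {lo hi : Option σ → ℚ} (κ : Option σ → ℕ) (hA : ConvA A) (hF : F ⊆ A) (hne : F.Nonempty)
    (hG : Gen A α Γ) (hW : WallOK Γ lo hi) (hK : NoK A α lo hi) :
    Good α (PowerSeries.mk fun l : ℕ =>
      ∑ v ∈ (wv A lo hi κ l).filter (fun v => nn A v = l ∧ fc A v = F),
        lefInv ^ (∑ i, v i + l - nn A v)) := by
  by_cases hc : lo none ≤ 1 ∧ (1 < hi none ∨ (hi none = 1 ∧ 1 ≤ κ none))
  · have h1 : (1 : ℚ) ≤ hi none := hc.2.elim le_of_lt fun h => h.1.ge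
    have := good_le' hC (lo := Function.update lo none 1) (hi := Function.update hi none 1)
      (Function.update κ none 1) hA hF hne hG
      ⟨fun j => by simpa using hW.1 j, by simp, by simp, by simp⟩
      fun r hr h2 _ _ => hK r hr (fun j => by simpa using h2 j) hc.1 h1
    refine this.congr_ev (l₀ := 1) fun l hl => ?_
    rw [PowerSeries.coeff_mk, PowerSeries.coeff_mk]
    refine Finset.sum_congr (Finset.ext fun v => ?_) fun _ _ => rfl
    have hl' : (1 : ℚ) ≤ l := by exact_mod_cast hl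
    simp only [Finset.mem_filter, mem_wv, Walls, Function.update_self, ne_eq, reduceCtorEq,
      not_false_eq_true, Function.update_of_ne, one_mul, Nat.cast_one, Nat.cast_le]
    constructor
    · rintro ⟨⟨h2, -, -⟩, h3, h4⟩
      exact ⟨⟨h2, h3.ge, by rw [h3]; linarith⟩, h3.le, h4⟩
    · rintro ⟨⟨h2, h3, -⟩, h4, h5⟩
      have h6 := le_antisymm h4 h3
      refine ⟨⟨h2, by rw [h6]; nlinarith [hc.1], ?_⟩, h6, h5⟩
      rw [h6]
      rcases hc.2 with h | h
      · nlinarith [Nat.cast_nonneg (α := ℚ) (κ none)]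
      · have : (1 : ℚ) ≤ κ none := by exact_mod_cast h.2
        rw [h.1]; linarith
  · obtain ⟨l₀, hl₀⟩ : ∃ l₀ : ℕ, ∀ l, l₀ ≤ l →
        ¬ (lo none * (l : ℚ) ≤ l ∧ (l : ℚ) < hi none * l + κ none) := by
      by_cases h1 : lo none ≤ 1
      · rcases lt_trichotomy (hi none) 1 with h | h | h
        · obtain ⟨k, hk⟩ := exists_nat_ge ((κ none : ℚ) / (1 - hi none))
          refine ⟨k, fun l hl h2 => ?_⟩
          have h3 : (k : ℚ) ≤ l := by exact_mod_cast hl
          have h4 := (div_le_iff₀ (sub_pos.2 h)).1 (hk.trans h3)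
          linarith [h2.2]
        · have h2 : κ none = 0 := by
            by_contra h2
            exact hc ⟨h1, Or.inr ⟨h, Nat.one_le_iff_ne_zero.2 h2⟩⟩
          exact ⟨0, fun l _ h3 => by simpa [h, h2] using h3.2⟩
        · exact (hc ⟨h1, Or.inl h⟩).elim
      · refine ⟨1, fun l hl h2 => ?_⟩
        have hl' : (1 : ℚ) ≤ l := by exact_mod_cast hl
        nlinarith [h2.1, not_le.1 h1]
    refine rt_of_eventually_zero (l₀ := l₀) fun l hl => ?_
    rw [PowerSeries.coeff_mk]
    refine Finset.sum_eq_zero fun v hv => (hl₀ l hl ?_).elim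
    obtain ⟨h1, h2, -⟩ := Finset.mem_filter.1 hv
    have h3 := (mem_wv.1 h1).2
    rwa [h2] at h3

end

open ND.Ser in
theorem t_Ser : S_Cell → S_Ser := by
  classical
  intro hC σ _ _ f α Γ I 𝓕 lo hi κ hA hG hW hK
  let cz : Finset (σ →₀ ℕ) → MM := fun F => (algebraMap K0 MM lef - 1) *
    pr {p : σ → ℂ | (∀ i ∉ I, p i ≠ 0) ∧ eval p (fp f F) = 0}
  let cu : Finset (σ →₀ ℕ) → MM := fun F =>
    pr {p : σ → ℂ | (∀ i ∉ I, p i ≠ 0) ∧ eval p (fp f F) ≠ 0}
  have := rt_sum (u := lefInv) (P := (· ≠ α))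
    (f.support.powerset.filter fun F => F.Nonempty ∧ F ∈ 𝓕) fun F hF =>
      ((good_le' hC κ hA (Finset.mem_powerset.1 (Finset.mem_filter.1 hF).1)
        (Finset.mem_filter.1 hF).2.1 hG hW hK).C_mul (cz F)).add
      ((good_eq' hC κ hA (Finset.mem_powerset.1 (Finset.mem_filter.1 hF).1)
        (Finset.mem_filter.1 hF).2.1 hG hW hK).C_mul (cu F - cz F))
  refine this.congr_ev (l₀ := 0) fun l _ => ?_
  have e : {v | Walls lo hi κ l v (nn f.support v) ∧ fc f.support v ∈ 𝓕} =
      ((wv f.support lo hi κ l).filter fun v => fc f.support v ∈ 𝓕 : Finset (σ → ℕ)) := by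
    ext v; simp [mem_wv]
  simp only [map_sum, map_add, PowerSeries.coeff_C_mul, PowerSeries.coeff_mk]
  rw [e, finsum_mem_coe_finset]
  simp only [Finset.sum_filter (s := wv f.support lo hi κ l), Finset.mul_sum,
    ← Finset.sum_add_distrib]
  rw [Finset.sum_comm]
  refine Finset.sum_congr rfl fun v _ => ?_
  have hm : fc f.support v ∈ f.support.powerset.filter (fun F => F.Nonempty ∧ F ∈ 𝓕) ↔
      fc f.support v ∈ 𝓕 := by
    simp only [Finset.mem_filter, Finset.mem_powerset, fc_nonempty hA.1 v, true_and]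
    exact and_iff_right (Finset.filter_subset _ _)
  by_cases h : fc f.support v ∈ 𝓕
  · rw [Finset.sum_eq_single_of_mem _ (hm.2 h) (fun F _ h => by simp [h.symm]), if_pos h, hval]
    simp only [and_true]
    rcases lt_trichotomy l (nn f.support v) with h1 | h1 | h1
    · rw [if_pos h1, if_neg (not_le.2 h1), if_neg h1.ne']; simp
    · rw [if_neg h1.not_lt, if_pos h1, if_pos h1.ge, if_pos h1.symm]; ring
    · rw [if_neg h1.not_gt, if_neg h1.ne', if_pos h1.le, if_neg h1.ne]; ring
  · rw [if_neg h]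
    refine (Finset.sum_eq_zero fun F hF => ?_).symm
    have : fc f.support v ≠ F := fun h1 => h (h1 ▸ (Finset.mem_filter.1 hF).2.2)
    simp [this]

/-- A box whose unbounded sides start beyond one. -/
def S_Pin : Prop :=
  ∀ (σ : Type) [Fintype σ] [DecidableEq σ] (f : MvPolynomial σ ℂ) (α : ℚ) (Γ : Option σ → Set ℚ)
    (lo : σ → ℚ) (hi : σ → WithTop ℚ) (θ : ℚ), Ctx f α Γ → BoxOK Γ lo hi →
    (∀ j, hi j = ⊤ → 1 < lo j) →
    (Disjoint (clBox lo hi) (Kset f.support α) → Good α (Zs f (inBox lo hi))) ∧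
    (θ ∈ Γ none → θ < 1 →
      Good α (Zs f fun l x => inBox lo hi l x ∧ ¬ nGe f.support θ l x))

section

open ND.Pin

variable {σ : Type} [Fintype σ] [DecidableEq σ]

theorem pin_core (hH : S_Hensel) (hS : S_Ser) {lo : σ → ℚ} {hi : σ → WithTop ℚ}
    {f : MvPolynomial σ ℂ} {α : ℚ} {Γ : Option σ → Set ℚ}
    (hc : Ctx f α Γ) (hb : BoxOK Γ lo hi) (ht : ∀ j, hi j = ⊤ → 1 < lo j) (hN : ℚ) (kN : ℕ)
    (hN' : hN ∈ Γ none ∨ hN = 1) (hK : NoK f.support α (loW lo) (hiW lo hi hN))
    (W : ∀ l : ℕ, (σ → TR (2 * l)) → Prop)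
    (hW : ∀ l, l ≠ 0 → ∀ v x, CWalls lo hi l v → inCell v (topI hi) x → nn f.support v ≤ l →
      (W l x ↔ (nn f.support v : ℚ) < hN * l + kN)) :
    Good α (Zs f fun l x => inBox lo hi l x ∧ W l x) := by
  have hw : WallOK Γ (loW lo) (hiW lo hi hN) := by
    refine ⟨fun j => ⟨(hb j).1, ?_⟩, Or.inr (Or.inl rfl), hN', le_rfl⟩
    by_cases h : hi j = ⊤
    · have := ht j h
      simp only [hiW, Option.elim, h, WithTop.untopD_top]
      exact (hb j).1.resolve_right (by linarith)
    · obtain ⟨γ, e⟩ := WithTop.ne_top_iff_exists.1 h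
      simp only [hiW, Option.elim, ← e, WithTop.untopD_coe]
      exact ((hb j).2.2.2 γ e.symm).1
  refine (hS σ f α Γ (topI hi) Set.univ _ _ (kW hi kN) hc.conv hc.gen hw hK).congr_ev (l₀ := 1)
    fun l hl => ?_
  have hl0 : l ≠ 0 := by omega
  have h0 : ∀ j, 0 ≤ lo j := fun j => (hb j).2.1
  rw [PowerSeries.coeff_mk, coeff_Zs_cells f hl0 (topI hi)
    (V := {v | Walls (loW lo) (hiW lo hi hN) (kW hi kN) l v (nn f.support v) ∧
      fc f.support v ∈ (Set.univ : Set (Finset (σ →₀ ℕ)))})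
    ((walls_finite _ _ _ l (nn f.support)).subset fun v hv => hv.1)]
  · refine finsum_mem_congr rfl fun v hv => ?_
    have hv' := ((walls_iff lo hi h0 hN kN l v _).1 hv.1).1
    refine hH σ f (2 * l) l v (topI hi) (by omega) (fun i => ?_) fun hn =>
      smooth hc.nd (fun j => (hv' j).1) (fun j hj => lt_of_top ht hl0 hv' hj) hn
    by_cases h : hi i = ⊤
    · rw [(hv' i).2.2.1 h]
      exact th_le_two (hb i).2.2.1.le l
    · obtain ⟨γ, e⟩ := WithTop.ne_top_iff_exists.1 h
      exact ((hv' i).2.2.2 γ e.symm).le.trans (th_le_two ((hb i).2.2.2 γ e.symm).2.2.le l)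
  · intro x ho
    constructor
    · rintro ⟨h1, h2, h3⟩
      obtain ⟨v, h4, h5⟩ := exists_cell ht hl0 h1 h2
      exact ⟨v, ⟨(walls_iff lo hi h0 hN kN l v _).2
        ⟨h4, (hW l hl0 v x h4 h5 (nn_le_l h5 ho)).1 h3⟩, trivial⟩, h5⟩
    · rintro ⟨v, hv, h5⟩
      obtain ⟨h4, h6⟩ := (walls_iff lo hi h0 hN kN l v _).1 hv.1
      exact ⟨(of_cell h4 h5).1, (of_cell h4 h5).2, (hW l hl0 v x h4 h5 (nn_le_l h5 ho)).2 h6⟩
  · intro v hv w hw x h1 h2
    have hv' := ((walls_iff lo hi h0 hN kN l v _).1 hv.1).1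
    have hw' := ((walls_iff lo hi h0 hN kN l w _).1 hw.1).1
    funext j
    by_cases h : hi j = ⊤
    · rw [(hv' j).2.2.1 h, (hw' j).2.2.1 h]
    · have hj : j ∉ topI hi := fun hj => h (mem_topI.1 hj)
      exact ordEq.unique ⟨(h1 j).1, (h1 j).2 hj⟩ ⟨(h2 j).1, (h2 j).2 hj⟩

end

open ND.Pin in
theorem t_Pin : S_Hensel → S_Ser → S_Pin := by
  intro hH hS σ _ _ f α Γ lo hi θ hc hb ht
  constructor
  · intro hd
    have := pin_core hH hS hc hb ht 1 1 (Or.inr rfl) (fun r hr h _ _ => ?_) (fun _ _ => True)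
      fun l _ v x _ _ hn => ?_
    · simpa using this
    · refine Set.disjoint_left.1 hd (fun j => ⟨(h j).1, fun γ e => ?_⟩) hr
      have := (h j).2
      simpa [hiW, e] using this
    · have : (nn f.support v : ℚ) ≤ l := by exact_mod_cast hn
      simp only [true_iff]
      push_cast
      linarith
  · intro hθ hθ1
    refine pin_core hH hS hc hb ht θ 0 (Or.inl hθ) (fun r _ _ _ h => ?_) _ fun l hl v x hv hx hn => ?_
    · exact absurd h (not_le.2 hθ1)
    · rw [nGe_iff hc.conv.1 hθ1 hx (fun j hj => lt_of_top ht hl hv hj) hn, not_le, lt_th_iff]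
      simp

theorem t_Box : S_Pin → S_Box := by
  intro hpin σ _ _ f α Γ lo hi θ hctx hb
  refine ⟨fun hd => ?_, fun h1 h2 => ?_⟩
  · have := ND.Box.gen (f := f) (α := α) hctx.dns (cw_const True)
      (fun A => Disjoint A (Kset f.support α)) (fun A B hAB h => h.mono_left hAB)
      (fun lo hi hb hp hd => by simpa using (hpin σ f α Γ lo hi θ hctx hb hp).1 hd) _ lo hi
      le_rfl hb hd
    simpa using this
  · exact ND.Box.gen (f := f) (α := α) hctx.dns (cw_nGe f.support θ).not (fun _ => True)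
      (fun _ _ _ h => h) (fun lo hi hb hp _ => (hpin σ f α Γ lo hi θ hctx hb hp).2 h1 h2) _ lo hi
      le_rfl hb trivial

end Pool.Agent.P.MP_9321be_ag.NC
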