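import Pool.Agent.P.MP_9321be_ag.NC.ZDefs
import Pool.Agent.P.MP_9321be_ag.ND.ZBoxes
import Pool.Agent.P.MP_9321be_ag.ND.ZIE
import Pool.Agent.P.MP_9321be_ag.ND.ZCover

/-!
Small boxes, inclusion and exclusion, and the covering argument.
-/

namespace Pool.Agent.P.MP_9321be_ag.NC

open MvPolynomial ND

/-- A small box around a point, long in the directions of `D`. -/
def S_Boxes : Prop :=
  ∀ (σ : Type) [Fintype σ] [DecidableEq σ] (A : Finset (σ →₀ ℕ)) (Γ : Option σ → Set ℚ)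
    (u : σ → ℝ) (D : Finset σ) (ρ : ℝ), Dns Γ → 0 < ρ → (∀ i, 0 ≤ u i ∧ u i ≤ 1) →
    (∀ a ∈ A, 1 ≤ dr a u) → Indep (fx A u) D →
    ∃ lo hi : σ → ℚ, BoxOK Γ lo (fun j => (hi j : WithTop ℚ)) ∧
      (∀ j, ((lo j : ℝ) < u j ∨ lo j = 0) ∧ u j < hi j) ∧ (∀ j ∈ D, 0 < lo j) ∧
      (∀ r ∈ clBox lo (fun j => (hi j : WithTop ℚ)), dist u r < ρ) ∧
      (∀ a ∈ A, a ∉ fr A u → 1 < ∑ j, vec a j * lo j) ∧
      ∀ i ∈ D, ∀ a ∈ fr A u, a i ≠ 0 → lo i + ∑ j ∈ {i}ᶜ, vec a j * hi j < 1 ∧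
        1 < hi i + ∑ j ∈ {i}ᶜ, vec a j * lo j

/-- Inclusion and exclusion. -/
def S_IE : Prop :=
  ∀ (σ : Type) [Fintype σ] [DecidableEq σ] (f : MvPolynomial σ ℂ) (α : ℚ) (Γ : Option σ → Set ℚ)
    (K : Set (σ → ℝ)) (ι : Type) (T : Finset ι) (lo hi : ι → σ → ℚ),
    (∀ lo' hi', BoxOK Γ lo' hi' → Disjoint (clBox lo' hi') K → Good α (Zs f (inBox lo' hi'))) →
    (∀ k ∈ T, BoxOK Γ (lo k) fun j => (hi k j : WithTop ℚ)) →
    (∀ u ∈ K, ∃ k ∈ T, ∀ j, ((lo k j : ℝ) < u j ∨ lo k j = 0) ∧ u j < hi k j) →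
    (∀ T' ⊆ T, T'.Nonempty →
      Good α (Zs f fun l x => ∀ k ∈ T', inBox (lo k) (fun j => (hi k j : WithTop ℚ)) l x)) →
    Good α (Zs f fun _ _ => True)

open Filter Topology ND.Boxes in
theorem t_Boxes : S_Boxes := by
  classical
  intro σ _ _ A Γ u D ρ hΓ hρ hu hA hD'
  have hD : Indep (fr A u) D := hD'.mono (sub_vs _ _) subset_rfl
  set B : ℝ := 1 + ∑ a ∈ A, ∑ j, (a j : ℝ) with hBdef
  have hs0 : ∀ a : σ →₀ ℕ, (0 : ℝ) ≤ ∑ j, (a j : ℝ) := fun a =>
    Finset.sum_nonneg fun _ _ => Nat.cast_nonneg _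
  have hB1 : 1 ≤ B := by
    have := Finset.sum_nonneg fun a (_ : a ∈ A) => hs0 a
    linarith
  have hBa : ∀ a ∈ A, ∑ j, (a j : ℝ) ≤ B := fun a ha => by
    have := Finset.single_le_sum (f := fun a : σ →₀ ℕ => ∑ j, (a j : ℝ)) (fun a _ => hs0 a) ha
    linarith
  have e1 : ∀ᶠ x in 𝓝[>] (0 : ℝ), ∀ i, u i ≠ 0 → 1 * x < u i :=
    eventually_all.2 fun i => by
      by_cases h : u i = 0
      · simp [h]
      · exact (ev_lt ((hu i).1.lt_of_ne' h)).mono fun _ h' _ => h'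
  have e2 : ∀ᶠ x in 𝓝[>] (0 : ℝ), ∀ a ∈ A, a ∉ fr A u → B * x < dr a u - 1 := by
    refine (eventually_all_finset A).2 fun a ha => ?_
    by_cases h : a ∈ fr A u
    · exact Eventually.of_forall fun _ h' => absurd h h'
    · have : dr a u ≠ 1 := fun h' => h (Finset.mem_filter.2 ⟨ha, h'⟩)
      exact (ev_lt (sub_pos.2 (lt_of_le_of_ne (hA a ha) this.symm))).mono fun _ h' _ => h'
  obtain ⟨l, ⟨⟨⟨⟨h1, h2⟩, h3⟩, h4⟩, h0⟩⟩ := ((((e1.and e2).and (ev_lt (B := 1) hρ)).and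
    (ev_lt (B := 1) one_pos)).and self_mem_nhdsWithin).exists
  simp only [one_mul] at h1 h3 h4
  have h0 : 0 < l := h0
  set θ : ℝ := l / (4 * B) with hθ
  have θ0 : 0 < θ := by positivity
  have θB : B * θ = l / 4 := by rw [hθ]; field_simp
  have θl : θ < l := by nlinarith
  have key : ∀ j, ∃ lo : ℚ, (lo ∈ Γ (some j) ∨ lo = 0) ∧ ∃ hi ∈ Γ (some j),
      (u j - l < lo ∧ (lo : ℝ) ≤ u j ∧ u j < hi ∧ (hi : ℝ) < u j + l) ∧
      (j ∈ D → (lo : ℝ) < u j - l / 2 ∧ u j + l / 2 < hi) ∧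
      (j ∉ D → u j - θ < lo ∧ (hi : ℝ) < u j + θ) ∧ ((lo : ℝ) < u j ∨ lo = 0) ∧
      (0 : ℝ) ≤ lo ∧ (j ∈ D → (0 : ℝ) < lo) := by
    intro j
    by_cases hj : j ∈ D
    · obtain ⟨lo, m1, a1, a2⟩ := hΓ (some j) (u j - l) (u j - l / 2) (by linarith)
      obtain ⟨hi, m2, b1, b2⟩ := hΓ (some j) (u j + l / 2) (u j + l) (by linarith)
      have := h1 j fun e => indep_not_mem hD' hj (mem_zs.2 e)
      exact ⟨lo, .inl m1, hi, m2, ⟨a1, by linarith, by linarith, b2⟩, fun _ => ⟨a2, b1⟩,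
        fun h => absurd hj h, .inl (by linarith), by linarith, fun _ => by linarith⟩
    · obtain ⟨hi, m2, b1, b2⟩ := hΓ (some j) (u j) (u j + θ) (by linarith)
      by_cases hz : u j = 0
      · exact ⟨0, .inr rfl, hi, m2, ⟨by simp [hz, h0], by simp [hz], b1, by linarith⟩,
          fun h => absurd h hj, fun _ => ⟨by simp [hz, θ0], b2⟩, .inr rfl, by simp,
          fun h => absurd h hj⟩
      obtain ⟨lo, m1, a1, a2⟩ := hΓ (some j) (u j - θ) (u j) (by linarith)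
      have := h1 j hz
      exact ⟨lo, .inl m1, hi, m2, ⟨by linarith, a2.le, b1, by linarith⟩, fun h => absurd h hj,
        fun _ => ⟨a1, b2⟩, .inl a2, by linarith, fun h => absurd h hj⟩
  choose lo mlo hi mhi k1 k2 k3 k4 k5 k6 using key
  refine ⟨lo, hi, fun j => ?_, fun j => ⟨k4 j, (k1 j).2.2.1⟩, fun j hj => by exact_mod_cast k6 j hj,
    fun r hr => ?_, fun a ha hf => ?_, fun i hi' a ha h => ?_⟩
  · obtain ⟨a1, a2, a3, a4⟩ := k1 j
    have := hu j
    refine ⟨mlo j, by exact_mod_cast k5 j, ?_, fun γ hγ => ?_⟩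
    · exact_mod_cast (show (lo j : ℝ) < 2 by linarith)
    · obtain rfl : hi j = γ := WithTop.coe_injective hγ
      refine ⟨mhi j, ?_, ?_⟩
      · exact_mod_cast (show (0 : ℝ) ≤ hi j by linarith)
      · exact_mod_cast (show (hi j : ℝ) < 2 by linarith)
  · refine (dist_pi_lt_iff hρ).2 fun j => ?_
    obtain ⟨a1, a2, a3, a4⟩ := k1 j
    have b1 := (hr j).1
    have b2 := (hr j).2 (hi j) rfl
    rw [Real.dist_eq, abs_lt]
    constructor <;> linarith
  · have b : (1 : ℝ) < ∑ j, (a j : ℝ) * lo j := by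
      have c1 : ∑ j, (a j : ℝ) * (u j - l) ≤ ∑ j, (a j : ℝ) * lo j :=
        Finset.sum_le_sum fun j _ => mul_le_mul_of_nonneg_left (k1 j).1.le (Nat.cast_nonneg _)
      have c2 : ∑ j, (a j : ℝ) * (u j - l) = dr a u - (∑ j, (a j : ℝ)) * l := by
        simp only [dr, mul_sub, Finset.sum_sub_distrib, Finset.sum_mul]
      have c3 := h2 a ha hf
      have c4 := mul_le_mul_of_nonneg_right (hBa a ha) h0.le
      linarith
    simp only [vec]
    exact_mod_cast b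
  · obtain ⟨e, z⟩ := hD.eq_one ha hi' h
    obtain ⟨haA, hd⟩ := Finset.mem_filter.1 ha
    have d1 : u i + ∑ j ∈ ({i}ᶜ : Finset σ), (a j : ℝ) * u j = 1 := by
      rw [← hd, dr, ← Finset.sum_add_sum_compl {i}, Finset.sum_singleton, e]
      simp
    have d2 : ∑ j ∈ ({i}ᶜ : Finset σ), (a j : ℝ) * θ ≤ l / 4 := by
      rw [← Finset.sum_mul, ← θB]
      refine mul_le_mul_of_nonneg_right (le_trans ?_ (hBa a haA)) θ0.le
      exact Finset.sum_le_sum_of_subset_of_nonneg (Finset.subset_univ _)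
        fun _ _ _ => Nat.cast_nonneg _
    have d3 : ∀ j ∈ ({i}ᶜ : Finset σ), (a j : ℝ) * hi j ≤ a j * u j + a j * θ ∧
        (a j : ℝ) * u j - a j * θ ≤ a j * lo j := by
      intro j hj
      by_cases hjD : j ∈ D
      · have : a j = 0 := z j hjD (by simpa using hj)
        simp [this]
      · rw [← mul_add, ← mul_sub]
        exact ⟨mul_le_mul_of_nonneg_left (k3 j hjD).2.le (Nat.cast_nonneg _),
          mul_le_mul_of_nonneg_left (k3 j hjD).1.le (Nat.cast_nonneg _)⟩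
    have d4 := Finset.sum_le_sum fun j hj => (d3 j hj).1
    have d5 := Finset.sum_le_sum fun j hj => (d3 j hj).2
    rw [Finset.sum_add_distrib] at d4
    rw [Finset.sum_sub_distrib] at d5
    obtain ⟨f1, f2⟩ := k2 i hi'
    have g1 : (lo i : ℝ) + ∑ j ∈ ({i}ᶜ : Finset σ), (a j : ℝ) * hi j < 1 := by linarith
    have g2 : 1 < (hi i : ℝ) + ∑ j ∈ ({i}ᶜ : Finset σ), (a j : ℝ) * lo j := by linarith
    simp only [vec]
    exact ⟨by exact_mod_cast g1, by exact_mod_cast g2⟩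

open Set ND.IE in
theorem t_IE : S_IE := by
  classical
  intro σ _ _ f α Γ K ι T lo hi H0 H1 H2 H3
  have hN : ∀ k, CW (inBox (lo k) fun j => (hi k j : WithTop ℚ)) := fun k => cw_inBox _ _
  refine union hN T _ (cw_const True) (fun T' h1 h2 => good_congr (H3 T' h1 h2) (by simp)) ?_
  refine good_congr (split (Γ := Γ) (cw_forall T fun k _ => (hN k).not)
    (((T ×ˢ Finset.univ).image fun p : ι × σ => (p.2, lo p.1 p.2)) ∪
      (T ×ˢ Finset.univ).image fun p : ι × σ => (p.2, hi p.1 p.2)) (fun w hw => ?_)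
    (fun _ => 0) (fun _ => ⊤) (fun j => by simp) fun lo' hi' h1 _ _ h2 => ?_)
    fun l x => by simp [inBox, th]
  · rcases Finset.mem_union.1 hw with hw | hw <;> obtain ⟨p, h1, rfl⟩ := Finset.mem_image.1 hw
    · have := H1 _ (Finset.mem_product.1 h1).1 p.2
      exact ⟨this.1, this.2.1, this.2.2.1⟩
    · have := (H1 _ (Finset.mem_product.1 h1).1 p.2).2.2.2 _ rfl
      exact ⟨Or.inl this.1, this.2⟩
  · by_cases h : ∃ k ∈ T, ∀ j, lo k j ≤ lo' j ∧ hi' j ≤ hi k j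
    · obtain ⟨k, h3, h4⟩ := h
      refine good_congr (W := fun _ _ => False) (by rw [Zs_false]; exact rt_zero) fun l x =>
        iff_false_intro fun h => h.2 k h3 (inBox_mono (fun j => (h4 j).1) (fun j => (h4 j).2) h.1)
    · have h3 : ∀ k ∈ T, ∃ j, hi' j ≤ lo k j ∨ hi k j ≤ lo' j := fun k hk => by
        by_contra h4
        push Not at h4
        refine h ⟨k, hk, fun j => ⟨(h2 (j, lo k j) ?_).resolve_right (h4 j).1.not_ge,
          (h2 (j, hi k j) ?_).resolve_left (h4 j).2.not_ge⟩⟩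
        · exact Finset.mem_union_left _ (Finset.mem_image.2 ⟨(k, j), by simp [hk], rfl⟩)
        · exact Finset.mem_union_right _ (Finset.mem_image.2 ⟨(k, j), by simp [hk], rfl⟩)
      by_cases hz : ∃ j, hi' j ≤ (0 : ℚ)
      · obtain ⟨j, hz⟩ := hz
        obtain ⟨δ, h8, h9⟩ := WithTop.le_coe_iff.1 hz
        exact good_congr (W := fun _ _ => False) (by rw [Zs_false]; exact rt_zero) fun l x =>
          iff_false_intro fun h => (h.1 j).2 δ h8 (dvd_mono h9 (by simp [th]))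
      refine good_congr (H0 lo' hi' h1 (disjoint_left.2 fun u h4 h5 => ?_)) fun l x =>
        and_iff_left_of_imp fun h4 k hk h5 => ?_
      · obtain ⟨k, hk, h6⟩ := H2 u h5
        obtain ⟨j, h7 | h7⟩ := h3 k hk
        · obtain ⟨δ, h8, h9⟩ := WithTop.le_coe_iff.1 h7
          have h10 : (δ : ℝ) ≤ lo k j := by exact_mod_cast h9
          linarith [(h4 j).2 δ h8, (h6 j).1.resolve_right fun e => hz ⟨j, e ▸ h7⟩]
        · have h10 : (hi k j : ℝ) ≤ lo' j := by exact_mod_cast h7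
          linarith [(h4 j).1, (h6 j).2]
      · obtain ⟨j, h7 | h7⟩ := h3 k hk
        · obtain ⟨δ, h8, h9⟩ := WithTop.le_coe_iff.1 h7
          exact (h4 j).2 δ h8 (dvd_mono h9 (h5 j).1)
        · exact (h5 j).2 _ rfl (dvd_mono h7 (h4 j).1)

open ND.Cover in
theorem t_Cover : S_Lab → S_Box → S_Inter → S_Cover := by
  intro hLab hBox hInter σ _ _ f α Γ hctx hHB
  classical
  have hcomp := compact_K f.support α
  obtain ⟨D, ρ, hρ, hD, hS⟩ := hLab σ f.support α hcomp hHB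
  choose lo hi h1 h2 h2' h3 h4 h5 using fun u : Kset f.support α =>
    t_Boxes σ f.support Γ u (D u) ρ hctx.dns hρ
      (fun i => ⟨u.2.1 i, le_one u.2 i⟩) u.2.2.1 (hD u u.2)
  obtain ⟨T, hT⟩ := hcomp.elim_finite_subcover
    (fun u : Kset f.support α => {r : σ → ℝ |
      ∀ j, ((lo u j : ℝ) < r j ∨ lo u j = 0) ∧ r j < hi u j})
    (fun u => by
      rw [Set.ofPred_forall]
      exact isOpen_iInter_of_finite fun j =>
        ((isOpen_lt continuous_const (continuous_apply j)).union isOpen_const).inter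
          (isOpen_lt (continuous_apply j) continuous_const))
    (fun u hu => Set.mem_iUnion.mpr ⟨⟨u, hu⟩, h2 ⟨u, hu⟩⟩)
  refine t_IE σ f α Γ (Kset f.support α) _ T lo hi
    (fun lo' hi' hb hd => (hBox σ f α Γ lo' hi' 0 hctx hb).1 hd) (fun k _ => h1 k)
    (fun u hu => by simpa using hT hu) fun T' _ hne => ?_
  let lo' : σ → ℚ := fun j => T'.sup' hne fun k => lo k j
  let hi' : σ → ℚ := fun j => T'.inf' hne fun k => hi k j
  have e1 : ∀ j, ∃ k ∈ T', lo' j = lo k j := fun j => T'.exists_mem_eq_sup' hne _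
  have e2 : ∀ j, ∃ k ∈ T', hi' j = hi k j := fun j => T'.exists_mem_eq_inf' hne _
  have l1 : ∀ k ∈ T', ∀ j, lo k j ≤ lo' j := fun k hk j => T'.le_sup' (fun k => lo k j) hk
  have l2 : ∀ k ∈ T', ∀ j, hi' j ≤ hi k j := fun k hk j => T'.inf'_le (fun k => hi k j) hk
  have he : (fun l (x : σ → TR (2 * l)) =>
      ∀ k ∈ T', inBox (lo k) (fun j => (hi k j : WithTop ℚ)) l x) =
      inBox lo' fun j => (hi' j : WithTop ℚ) := by
    funext l x
    refine propext ⟨fun h j => ⟨?_, fun γ hγ => ?_⟩, fun h k hk j => ⟨?_, fun γ hγ => ?_⟩⟩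
    · obtain ⟨k, hk, e⟩ := e1 j
      rw [e]; exact (h k hk j).1
    · obtain ⟨k, hk, e⟩ := e2 j
      exact (h k hk j).2 γ (by rw [← hγ]; exact congrArg _ e.symm)
    · exact (pow_dvd_pow _ (th_mono (l1 k hk j) l)).trans (h j).1
    · have e : hi k j = γ := WithTop.coe_injective hγ
      exact fun hd => (h j).2 (hi' j) rfl
        ((pow_dvd_pow _ (th_mono (e ▸ l2 k hk j) l)).trans hd)
  rw [he]
  have hb : BoxOK Γ lo' fun j => (hi' j : WithTop ℚ) := by
    intro j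
    obtain ⟨k, -, e⟩ := e1 j
    obtain ⟨k', -, e'⟩ := e2 j
    refine ⟨e ▸ (h1 k j).1, e ▸ (h1 k j).2.1, e ▸ (h1 k j).2.2.1, fun γ hγ => ?_⟩
    exact (h1 k' j).2.2.2 γ (by rw [← hγ]; exact congrArg _ e'.symm)
  by_cases hd : Disjoint (clBox lo' fun j => (hi' j : WithTop ℚ)) (Kset f.support α)
  · exact (hBox σ f α Γ _ _ 0 hctx hb).1 hd
  obtain ⟨r, hr, hrK⟩ := Set.not_disjoint_iff.mp hd
  have r1 : ∀ j, (lo' j : ℝ) ≤ r j := fun j => (hr j).1
  have r2 : ∀ j, r j ≤ (hi' j : ℝ) := fun j => (hr j).2 _ rfl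
  obtain ⟨S, hSr⟩ := hS r
  have hSk : ∀ k ∈ T', S ⊆ D k ∧ Val f.support (fr f.support k) (zs k) S := fun k hk =>
    hSr k k.2 (h3 k r fun j => ⟨le_trans (by exact_mod_cast l1 k hk j) (r1 j), fun γ hγ => by
      have e : hi k j = γ := WithTop.coe_injective hγ
      exact (r2 j).trans (by exact_mod_cast e ▸ l2 k hk j)⟩)
  let Y := f.support.filter fun a => ∀ k ∈ T', a ∈ fr f.support (k : σ → ℝ)
  have hY : ∀ k ∈ T', Y ⊆ fr f.support (k : σ → ℝ) := fun k hk a ha =>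
    (Finset.mem_filter.mp ha).2 k hk
  have hval : Val f.support Y ∅ S := by
    obtain ⟨k, hk⟩ := hne
    exact (hSk k hk).2.mono (hY k hk) (Finset.empty_subset _)
  have hind : Indep Y S := hval.1.mono (sub_vs _ _) subset_rfl
  have hpos : ∀ i ∈ S, 0 < lo' i := fun i hi0 => by
    obtain ⟨k, hk⟩ := hne
    exact (h2' k i ((hSk k hk).1 hi0)).trans_le (l1 k hk i)
  have hout : ∀ a ∈ f.support, a ∉ Y → 1 < ∑ j, vec a j * lo' j := by
    intro a ha haY
    have : ∃ k ∈ T', a ∉ fr f.support (k : σ → ℝ) := by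
      by_contra h
      push Not at h
      exact haY (Finset.mem_filter.mpr ⟨ha, h⟩)
    obtain ⟨k, hk, hak⟩ := this
    exact (h4 k a ha hak).trans_le (sum_mono _ a (l1 k hk))
  refine hInter σ f α Γ lo' hi' Y ∅ S hctx hb (fun j => by exact_mod_cast (r1 j).trans (r2 j)) hpos
    (Finset.filter_subset _ _) hval hout (fun i hi0 => ?_) fun i hi0 a ha hai => ?_
  · obtain ⟨a, ha, hai⟩ := cover hrK (i := i)
      (lt_of_lt_of_le (by exact_mod_cast hpos i hi0) (r1 i)).ne'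
    obtain ⟨ha1, ha2⟩ := mem_fr.mp ha
    have haY : a ∈ Y := by
      by_contra h
      have h6 : (1 : ℝ) < ∑ j, (a j : ℝ) * lo' j := by
        have := hout a ha1 h
        unfold vec at this
        exact_mod_cast this
      have h7 : ∑ j, (a j : ℝ) * lo' j ≤ dr a r :=
        Finset.sum_le_sum fun j _ => mul_le_mul_of_nonneg_left (r1 j) (Nat.cast_nonneg _)
      linarith
    refine ⟨a, haY, (hind.eq_one haY hi0 hai).1, ?_⟩
    obtain ⟨k, hk, e⟩ := e1 i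
    have h6 := (h5 k i ((hSk k hk).1 hi0) a (hY k hk haY) hai).1
    have h7 := sum_mono {i}ᶜ a (l2 k hk)
    rw [sum_compl hind haY hi0 hai, e]
    linarith
  · have hai' : a i ≠ 0 := by omega
    obtain ⟨k, hk, e⟩ := e2 i
    have h6 := (h5 k i ((hSk k hk).1 hi0) a (hY k hk ha) hai').2
    have h7 := sum_mono {i}ᶜ a (l1 k hk)
    rw [sum_compl hind ha hi0 hai', e]
    linarith

end Pool.Agent.P.MP_9321be_ag.NC
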