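import Pool.Agent.P.MP_9321be_ag.NC.ZDefs
import Pool.Agent.P.MP_9321be_ag.ND.ZSmooth
import Pool.Agent.P.MP_9321be_ag.ND.ZCyl
import Pool.Agent.P.MP_9321be_ag.ND.ZInter

/-!
Smoothness, cylinders and long boxes.
-/

namespace Pool.Agent.P.MP_9321be_ag.NC

open MvPolynomial ND

theorem exchange {K V ι : Type} [Field K] [AddCommGroup V] [Module K V] [Fintype ι]
    {u : ι → V} (hu : LinearIndependent K u) (W : ι → Set V)
    (hW : ∀ i, u i ∈ Submodule.span K (W i)) :
    ∃ u' : ι → V, LinearIndependent K u' ∧ ∀ i, u' i ∈ W i := by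
  classical
  have key : ∀ s : Finset ι, ∃ u' : ι → V, LinearIndependent K u' ∧ (∀ i ∈ s, u' i ∈ W i) ∧
      ∀ i ∉ s, u' i = u i := fun s => by
    induction s using Finset.induction_on with
    | empty => exact ⟨u, hu, by simp, fun _ _ => rfl⟩
    | insert i s hi ih =>
      obtain ⟨u', h1, h2, h3⟩ := ih
      have h4 := h1.notMem_span_image (s := {i}ᶜ) (x := i) (by simp)
      obtain ⟨a, ha, h5⟩ : ∃ a ∈ W i, a ∉ Submodule.span K (u' '' {i}ᶜ) := by
        by_contra! h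
        exact h4 (h3 i hi ▸ Submodule.span_le.2 h (hW i))
      have e : Set.EqOn u' (Function.update u' i a) {i}ᶜ := fun j hj =>
        (Function.update_of_ne hj _ _).symm
      refine ⟨Function.update u' i a, ?_, fun j hj => ?_, fun j hj => ?_⟩
      · rw [← linearIndepOn_univ_iff, ← Set.union_compl_self {i}, Set.singleton_union]
        refine LinearIndepOn.insert ((h1.linearIndepOn _).congr e) ?_
        rwa [Function.update_self, ← e.image_eq]
      · by_cases e : j = i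
        · rwa [e, Function.update_self]
        · rw [Function.update_of_ne e]
          exact h2 j ((Finset.mem_insert.1 hj).resolve_left e)
      · rw [Finset.mem_insert, not_or] at hj
        rw [Function.update_of_ne hj.1, h3 j hj.2]
  obtain ⟨u', h1, h2, -⟩ := key Finset.univ
  exact ⟨u', h1, fun i => h2 i (Finset.mem_univ i)⟩

theorem pairs_of {σ : Type} [Fintype σ] [DecidableEq σ] {F : Finset (σ →₀ ℕ)} {S : Finset σ}
    {u : S ⊕ S → σ → ℂ} (hu : LinearIndependent ℂ u)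
    (h : ∀ k, u k ∈ Submodule.span ℂ ((fun a : σ →₀ ℕ => fun i => (a i : ℂ)) ''
      {a | a ∈ F ∧ a (k.elim id id : S) ≠ 0})) : Pairs F S := by
  obtain ⟨u', h1, h2⟩ := exchange hu _ h
  choose a ha e using h2
  have hinj : Function.Injective a := fun k k' h => h1.injective (by rw [← e, ← e, h])
  refine ⟨Finset.univ.image a, fun b hb => ?_, ?_, fun i hi => ?_⟩
  · obtain ⟨k, -, rfl⟩ := Finset.mem_image.1 hb
    exact (ha k).1
  · rw [linearIndepOn_finset_iff]
    intro g hg b hb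
    obtain ⟨k, -, rfl⟩ := Finset.mem_image.1 hb
    rw [Finset.sum_image hinj.injOn] at hg
    have := Fintype.linearIndependent_iff.1 h1 (fun k => (g (a k) : ℂ)) (funext fun i => by
      have := congrArg (fun x : σ → ℝ => (x i : ℂ)) hg
      simpa [vr, ← e] using this) k
    exact_mod_cast this
  · refine le_trans (by rw [Finset.card_pair (hinj.ne (by simp))]) (Finset.card_le_card
      (s := {a (.inl ⟨i, hi⟩), a (.inr ⟨i, hi⟩)}) fun b hb => Finset.mem_filter.2 ?_)
    rcases Finset.mem_insert.1 hb with rfl | hb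
    · exact ⟨by simp, (ha _).2⟩
    · rw [Finset.mem_singleton.1 hb]
      exact ⟨by simp, (ha _).2⟩

open ND.Smooth in
theorem t_Smooth : S_Smooth := by
  intro σ _ _ f S v hf hv hval hnp hS p hp _
  by_contra hc
  push Not at hc
  set F := fc f.support v with hF
  let T := S.filter fun i => p i = 0
  let p' : σ → ℂ := fun i => if i ∈ T then 1 else p i
  have hp' : ∀ i, p' i ≠ 0 := by
    intro i
    simp only [p']
    split_ifs with h
    · exact one_ne_zero
    · by_cases hi : i ∈ S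
      · exact fun h0 => h (Finset.mem_filter.mpr ⟨hi, h0⟩)
      · exact hp i hi
  by_cases hne : (F.filter fun a => ∀ i ∈ T, a i = 0).Nonempty
  · obtain ⟨j, hj⟩ := sub_face hf hv T hne p' hp'
    apply hj
    have h1 := euler f F p j
    rw [hc j, mul_zero] at h1
    rw [h1, Finset.sum_filter]
    refine Finset.sum_congr rfl fun a _ => ?_
    split_ifs with h
    · congr 2
      refine Finset.prod_congr rfl fun i _ => ?_
      simp only [p']
      split_ifs with hi
      · rw [h i hi, pow_zero, pow_zero]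
      · rfl
    · push Not at h
      obtain ⟨i, hi, hai⟩ := h
      rw [Finset.prod_eq_zero (Finset.mem_univ i)
        (by rw [(Finset.mem_filter.mp hi).2, zero_pow hai])]
      simp
  have hone : ∀ a ∈ F, ∃ i ∈ T, a i ≠ 0 := by
    intro a ha
    by_contra h
    push Not at h
    exact hne ⟨a, Finset.mem_filter.mpr ⟨ha, h⟩⟩
  have hTS : ∀ i ∈ S, i ∈ T := by
    intro i hi
    obtain ⟨a, ha, hai⟩ := hS i hi
    obtain ⟨k, hk, hak⟩ := hone a ha
    by_contra h
    exact hak ((hval.eq_one ha hi hai).2 k (Finset.mem_filter.mp hk).1 fun e => h (e ▸ hk))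
  have hp1 : ∀ i ∈ S, p' i = 1 := fun i hi => if_pos (hTS i hi)
  have hp2 : ∀ i ∉ S, p' i = p i := fun i hi => if_neg fun h => hi (Finset.mem_filter.mp h).1
  let y : (σ →₀ ℕ) → ℂ := fun a => coeff a f * ∏ i, p' i ^ a i
  have hy : ∀ i ∈ S, ∑ a ∈ F, (a i : ℂ) * y a = 0 := by
    intro i hi
    rw [← hc i, fp, map_sum, map_sum]
    refine Finset.sum_congr rfl fun a ha => ?_
    rw [pderiv_monomial, eval_monomial, Finsupp.prod_fintype _ _ (by simp)]
    by_cases h0 : a i = 0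
    · simp [h0]
    obtain ⟨h1, h2⟩ := hval.eq_one ha hi h0
    simp only [y]
    rw [h1, Nat.cast_one, one_mul, mul_one]
    congr 1
    refine Finset.prod_congr rfl fun k _ => ?_
    by_cases hk : k ∈ S
    · rw [hp1 k hk, one_pow]
      by_cases e : k = i
      · subst e; simp [h1]
      · simp [h2 k hk e]
    · have e : i ≠ k := fun e => hk (e ▸ hi)
      rw [hp2 k hk]
      simp [Finsupp.single_eq_of_ne' e]
  let δ : S → σ → ℂ := fun i => ∑ a ∈ F, ((a i : ℂ) * y a) • fun k => (a k : ℂ)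
  have hδ : ∀ (i : S) k, δ i k = ∑ a ∈ F, (a i : ℂ) * y a * a k := by
    intro i k
    simp [δ, Finset.sum_apply]
  have hδ0 : ∀ (i : S), ∀ k ∈ S, δ i k = 0 := by
    intro i k hk
    rw [hδ]
    by_cases e : k = i
    · rw [← hy i i.2]
      refine Finset.sum_congr rfl fun a ha => ?_
      by_cases h0 : a i = 0
      · simp [h0]
      · rw [e, (hval.eq_one ha i.2 h0).1]; simp
    · refine Finset.sum_eq_zero fun a ha => ?_
      by_cases h0 : a i = 0
      · simp [h0]
      · rw [(hval.eq_one ha i.2 h0).2 k hk e]; simp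
  have hdep : ¬ LinearIndependent ℂ δ := by
    intro hli
    choose c hc1 hc2 using fun i : S => hS i i.2
    have h1 : LinearIndependent ℂ (Sum.elim δ fun i : S => fun k => (c i k : ℂ)) := by
      rw [Fintype.linearIndependent_iff]
      intro g hg
      rw [Fintype.sum_sum_type] at hg
      simp only [Sum.elim_inl, Sum.elim_inr] at hg
      have h2 : ∀ k : S, g (.inr k) = 0 := by
        intro k
        have h3 := congrFun hg k
        simp only [Pi.add_apply, Finset.sum_apply, Pi.smul_apply, smul_eq_mul, Pi.zero_apply,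
          hδ0 _ _ k.2, mul_zero, Finset.sum_const_zero, zero_add] at h3
        rw [Finset.sum_eq_single k] at h3
        · rwa [(hval.eq_one (hc1 k) k.2 (hc2 k)).1, Nat.cast_one, mul_one] at h3
        · intro i _ hik
          rw [(hval.eq_one (hc1 i) i.2 (hc2 i)).2 k k.2 fun e => hik (Subtype.ext e.symm)]
          simp
        · simp
      simp only [h2, zero_smul, Finset.sum_const_zero, add_zero] at hg
      rintro (i | i)
      · exact Fintype.linearIndependent_iff.mp hli _ hg i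
      · exact h2 i
    refine hnp (pairs_of h1 ?_)
    rintro (i | i)
    · refine Submodule.sum_mem _ fun a ha => ?_
      by_cases h0 : a i = 0
      · simp [h0]
      · exact Submodule.smul_mem _ _ (Submodule.subset_span ⟨a, ⟨ha, h0⟩, rfl⟩)
    · exact Submodule.subset_span ⟨c i, ⟨hc1 i, hc2 i⟩, rfl⟩
  obtain ⟨g, hg, i0, hi0⟩ := Fintype.not_linearIndependent_iff.mp hdep
  let lam : σ → ℂ := fun i => if h : i ∈ S then g ⟨i, h⟩ else 0
  have hlam : ∀ i : S, lam i = g i := fun i => dif_pos i.2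
  let T' := S.filter fun i => lam i = 0
  let q : σ → ℂ := fun i => if i ∈ S ∧ lam i ≠ 0 then lam i else p' i
  have hq : ∀ i, q i ≠ 0 := by
    intro i
    simp only [q]
    split_ifs with h
    · exact h.2
    · exact hp' i
  obtain ⟨j, hj⟩ := sub_face hf hv T' (by
    obtain ⟨a, ha, hai⟩ := hS i0 i0.2
    refine ⟨a, Finset.mem_filter.mpr ⟨ha, fun k hk => ?_⟩⟩
    obtain ⟨hk1, hk2⟩ := Finset.mem_filter.mp hk
    exact (hval.eq_one ha i0.2 hai).2 k hk1 fun e => hi0 (by rw [← hlam, ← e, hk2])) q hq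
  apply hj
  have h1 := congrFun hg j
  simp only [Finset.sum_apply, Pi.smul_apply, smul_eq_mul, Pi.zero_apply, hδ, Finset.mul_sum] at h1
  rw [Finset.sum_comm] at h1
  rw [← h1, Finset.sum_filter]
  refine Finset.sum_congr rfl fun a ha => ?_
  obtain ⟨i, hi, hai⟩ := hone a ha
  have hi' := (Finset.mem_filter.mp hi).1
  obtain ⟨h4, h5⟩ := hval.eq_one ha hi' hai
  rw [Finset.sum_eq_single (⟨i, hi'⟩ : S)
    (fun k _ e => by rw [h5 k k.2 fun e' => e (Subtype.ext e')]; simp) (by simp), ← hlam]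
  simp only [h4, Nat.cast_one, one_mul]
  split_ifs with h
  · have hl : lam i ≠ 0 := fun h0 => hai (h i (Finset.mem_filter.mpr ⟨hi', h0⟩))
    have h6 : ∏ k, q k ^ a k = lam i * ∏ k, p' k ^ a k := by
      rw [← Finset.mul_prod_erase _ _ (Finset.mem_univ i),
        ← Finset.mul_prod_erase _ (fun k => p' k ^ a k) (Finset.mem_univ i), h4, hp1 i hi']
      simp only [q, if_pos (And.intro hi' hl), pow_one, one_mul]
      congr 1
      refine Finset.prod_congr rfl fun k hk => ?_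
      split_ifs with hk'
      · rw [h5 k hk'.1 (Finset.ne_of_mem_erase hk), pow_zero, pow_zero]
      · rfl
    rw [h6]
    simp only [y]
    ring
  · push Not at h
    obtain ⟨k, hk, hak⟩ := h
    obtain ⟨hk1, hk2⟩ := Finset.mem_filter.mp hk
    have e : k = i := by
      by_contra e
      exact hak (h5 k hk1 e)
    rw [← e, hk2, zero_mul]

section

open ND.Cyl

variable {σ : Type} [Fintype σ] [DecidableEq σ]

theorem forth' {A Y : Finset (σ →₀ ℕ)} {S : Finset σ} {lo hi c : σ → ℚ} {θ : ℚ} (h0 : 0 < θ)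
    (h1 : θ < 1) (hA : Y ⊆ A) (hY : Indep Y S) (hne : S.Nonempty) (hlo : ∀ j, 0 ≤ lo j) (hc : ∀ j, 1 < c j)
    (hout : ∀ a ∈ A, a ∉ Y → 1 < ∑ j, vec a j * lo j)
    (hin : ∀ i ∈ S, ∃ a ∈ Y, a i = 1 ∧ lo i + ∑ j ∈ Sᶜ, vec a j * hi j ≤ θ)
    {l : ℕ} (hl : l ≠ 0) {x : σ → TR (2 * l)} (ht : ∀ i, tt (2 * l) ∣ x i)
    (hb : inBox lo (fun j => if j ∈ S then ⊤ else (hi j : WithTop ℚ)) l x) (hn : nGe A θ l x) :
    ∃ w ∈ V A Y S lo hi c θ l, inCell w S x := by
  have hl' : (0 : ℚ) < l := Nat.cast_pos.2 (Nat.pos_of_ne_zero hl)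
  have hM : th θ l ≤ l := (th_le_iff _ _ _).2 (by nlinarith)
  have hM' : θ * l ≤ th θ l := Nat.le_ceil _
  have ex : ∀ j, ∃ v, j ∉ S → v < th (hi j) l ∧ ordEq v (x j) := fun j => by
    by_cases hj : j ∈ S
    · exact ⟨0, fun h => (h hj).elim⟩
    · obtain ⟨v, h⟩ := exists_ordEq ((hb j).2 (hi j) (by simp [hj]))
      exact ⟨v, fun _ => h⟩
  choose v hv using ex
  have hv' : ∀ j ∉ S, (v j : ℚ) < hi j * l := fun j hj => (lt_th_iff _ _ _).1 (hv j hj).1
  obtain ⟨s, hs⟩ : ∃ s : (σ →₀ ℕ) → ℕ, ∀ a, s a = ∑ j ∈ Sᶜ, a j * v j := ⟨_, fun _ => rfl⟩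
  obtain ⟨w, hw, hw'⟩ : ∃ w : σ → ℕ, (∀ j ∉ S, w j = v j) ∧
      ∀ i ∈ S, w i = (Y.filter fun a => a i ≠ 0).sup fun a => th θ l - s a :=
    ⟨fun i => if i ∈ S then (Y.filter fun a => a i ≠ 0).sup fun a => th θ l - s a else v i,
      fun j hj => if_neg hj, fun j hj => if_pos hj⟩
  have hsw : ∀ a, ∑ j ∈ Sᶜ, a j * w j = s a := fun a => by
    rw [hs]; exact Finset.sum_congr rfl fun j hj => by rw [hw j (Finset.mem_compl.1 hj)]
  have hu : ∀ a : σ →₀ ℕ, ∃ u, IsUnit u ∧ ∏ j ∈ Sᶜ, x j ^ a j = tt (2 * l) ^ s a * u := fun a => by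
    rw [hs]; exact prod_ordEq _ _ fun j hj _ => (hv j (Finset.mem_compl.1 hj)).2
  have hge : ∀ i ∈ S, ∀ a ∈ Y, a i ≠ 0 → th θ l - s a ≤ w i := fun i hi a ha h => by
    rw [hw' i hi]
    exact Finset.le_sup (f := fun a => th θ l - s a) (Finset.mem_filter.2 ⟨ha, h⟩)
  have hlow : ∀ i, 1 ≤ w i ∧ lo i * l ≤ w i := fun i => by
    by_cases hi : i ∈ S
    · obtain ⟨a, ha, h2, h3⟩ := hin i hi
      have h4 := hge i hi a ha (by omega)
      have h5 := mul_le_mul_of_nonneg_right h3 hl'.le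
      have h6 := sum_le_hi a hv'
      have h7 : s a < th θ l := by
        rw [lt_th_iff, hs]
        by_cases h8 : ∑ j ∈ Sᶜ, a j * v j = 0
        · rw [h8]; positivity
        · have := sum_lt_hi a hv' h8
          nlinarith [mul_nonneg (hlo i) hl'.le]
      have h9 : ((th θ l : ℕ) : ℚ) ≤ (w i + s a : ℕ) := Nat.cast_le.2 (by omega)
      rw [← hs] at h6
      push_cast at h9
      exact ⟨by omega, by linarith⟩
    · rw [hw i hi]
      exact ⟨((hv i hi).2.dvd_iff 1).1 (by simpa using ht i),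
        (th_le_iff _ _ _).1 (((hv i hi).2.dvd_iff _).1 (hb i).1)⟩
  have hatt : ∀ i ∈ S, ∃ a ∈ Y, a i ≠ 0 ∧ dn a w = th θ l := fun i hi => by
    obtain ⟨b, hb, h2, -⟩ := hin i hi
    obtain ⟨a, ha, h3⟩ := Finset.exists_mem_eq_sup (Y.filter fun a => a i ≠ 0)
      ⟨b, Finset.mem_filter.2 ⟨hb, by omega⟩⟩ fun a => th θ l - s a
    obtain ⟨h4, h5⟩ := Finset.mem_filter.1 ha
    refine ⟨a, h4, h5, ?_⟩
    rw [dn_one hY h4 hi h5, hsw]
    rw [← hw' i hi] at h3
    have := (hlow i).1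
    omega
  have hbig : ∀ a ∈ A, a ∉ Y → th θ l < dn a w := fun a ha h => by
    have h2 := mul_lt_mul_of_pos_right (hout a ha h) hl'
    have h3 : (∑ j, vec a j * lo j) * l ≤ (dn a w : ℕ) := by
      rw [Finset.sum_mul, dn]
      push_cast
      exact Finset.sum_le_sum fun j _ => by
        rw [mul_assoc]
        exact mul_le_mul_of_nonneg_left (hlow j).2 (Nat.cast_nonneg _)
    have : (l : ℚ) < (dn a w : ℕ) := by linarith
    exact hM.trans_lt (Nat.cast_lt.1 this)
  have hnn : nn A w = th θ l := by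
    obtain ⟨i, hi⟩ := hne
    obtain ⟨b, h2, -, h3⟩ := hatt i hi
    refine nn_eq (fun a ha => ?_) ⟨b, hA h2, h3⟩
    by_cases h : a ∈ Y
    · by_cases h4 : ∀ i ∈ S, a i = 0
      · obtain ⟨u, h5, h6⟩ := hu a
        have h7 := hn a ha
        rw [prod_zero' h4 (fun j k => x j ^ k) (by simp), h6, h5.dvd_mul_right,
          tt_pow_dvd_iff (by omega)] at h7
        rwa [dn, sum_zero h4 (fun j k => k * w j) (by simp), hsw]
      · push Not at h4
        obtain ⟨i, hi, h4⟩ := h4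
        have := hge i hi a h h4
        rw [dn_one hY h hi h4, hsw]
        omega
    · exact (hbig a ha h).le
  refine ⟨w, (mem_V h0).2 ⟨fun j => (hlow j).1, fun j hj => ⟨(hlow j).2, hw j hj ▸ hv' j hj⟩,
    fun j hj => ?_, hnn, fun a ha => ?_, fun i hi => ?_⟩, fun i => ?_⟩
  · have h2 : w j ≤ l := by
      rw [hw' j hj]
      exact Finset.sup_le fun a _ => by omega
    have h3 : (w j : ℚ) ≤ l := Nat.cast_le.2 h2
    nlinarith [hc j]
  · by_contra h
    have := hbig a (mem_fc.1 ha).1 h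
    rw [(mem_fc.1 ha).2, hnn] at this
    exact lt_irrefl _ this
  · obtain ⟨a, h2, h3, h4⟩ := hatt i hi
    exact ⟨a, mem_fc.2 ⟨hA h2, h4.trans hnn.symm⟩, h3⟩
  · by_cases hi : i ∈ S
    · refine ⟨?_, fun h => (h hi).elim⟩
      obtain ⟨a, h2, h3, h4⟩ := hatt i hi
      obtain ⟨u, h5, h6⟩ := hu a
      have h7 := hn a (hA h2)
      rw [dn_one hY h2 hi h3, hsw] at h4
      rw [prod_one' hY h2 hi h3 (fun j k => x j ^ k) (by simp), h6, ← mul_assoc,
        h5.dvd_mul_right, pow_one, mul_comm (x i), ← h4, add_comm, cancel (by omega)] at h7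
      exact h7
    · rw [hw i hi]
      exact ⟨(hv i hi).2.1, fun _ => (hv i hi).2.2⟩

theorem miss' {A Y : Finset (σ →₀ ℕ)} {α : ℚ} {lo hi : σ → ℚ} {S : Finset σ}
    (h : ∀ j, lo j ≤ hi j) (hV : Indep Y S) (h1 : ∀ a ∈ A, a ∉ Y → 1 < ∑ j, vec a j * lo j)
    {i : σ} (hS : i ∈ S) (hp : 0 < lo i) (h2 : ∀ a ∈ Y, a i = 1 → 1 < hi i + ∑ j ∈ Sᶜ, vec a j * lo j)
    (H : σ → WithTop ℚ) : Disjoint (clBox (Function.update lo i (hi i)) H) (Kset A α) := by
  refine Set.disjoint_left.2 fun r hr hr' => ?_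
  have a1 : (hi i : ℝ) ≤ r i := by simpa using (hr i).1
  have a2 : ∀ j, (lo j : ℝ) ≤ r j := fun j => by
    by_cases hj : j = i
    · exact hj ▸ le_trans (by exact_mod_cast h i) a1
    · simpa [hj] using (hr j).1
  have a3 : ∀ (a : σ →₀ ℕ) (T : Finset σ),
      ((∑ j ∈ T, vec a j * lo j : ℚ) : ℝ) ≤ ∑ j ∈ T, (a j : ℝ) * r j := fun a T => by
    push_cast
    exact Finset.sum_le_sum fun j _ => by
      simpa [vec] using mul_le_mul_of_nonneg_left (a2 j) (Nat.cast_nonneg (a j))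
  obtain ⟨a, ha, h0⟩ := cover hr' (i := i)
    (lt_of_lt_of_le (by exact_mod_cast hp) (a2 i)).ne'
  obtain ⟨b1, b2⟩ := mem_fr.1 ha
  have b3 : a ∈ Y := by_contra fun hY => by
    have : ((1 : ℚ) : ℝ) < ((∑ j, vec a j * lo j : ℚ) : ℝ) := by exact_mod_cast h1 a b1 hY
    exact absurd (this.trans_le ((a3 a _).trans_eq b2)) (by simp)
  obtain ⟨b4, b5⟩ := hV.eq_one b3 hS h0
  have b6 : ((1 : ℚ) : ℝ) < ((hi i + ∑ j ∈ Sᶜ, vec a j * lo j : ℚ) : ℝ) := by
    exact_mod_cast h2 a b3 b4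
  rw [dr, ← Finset.sum_add_sum_compl S,
    Finset.sum_eq_single_of_mem i hS fun j hj hne => by simp [b5 j hj hne], b4] at b2
  have := a3 a Sᶜ
  rw [Rat.cast_add] at b6
  simp only [Rat.cast_one, Nat.cast_one, one_mul] at b2 b6
  linarith

end

theorem Val.cell {σ : Type} [Fintype σ] [DecidableEq σ] {A Y : Finset (σ →₀ ℕ)} {Z S : Finset σ}
    (h : Val A Y Z S) (hA : ConvA A) {v : σ → ℕ} (hv : ∀ i, 1 ≤ v i) (hY : fc A v ⊆ Y) :
    ¬ Pairs (fc A v) S := fun hp => by
  have e : ∀ a, dr a (fun i => (v i : ℝ) / nn A v) = (dn a v : ℝ) / nn A v := fun a => by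
    simp [dr, dn, Finset.sum_div, mul_div_assoc]
  obtain ⟨b, hb⟩ := fc_nonempty hA.1 v
  have h0 : (0 : ℝ) < nn A v := by
    have := one_le_dr (a := b) (fun e => hA.2 (e ▸ (mem_fc.1 hb).1)) (w := fun i => (v i : ℝ))
      fun i => by exact_mod_cast hv i
    rw [← (mem_fc.1 hb).2, dn]
    push_cast
    exact one_pos.trans_le this
  refine h.2 (fun i => (v i : ℝ) / nn A v) (fun i => div_pos (by exact_mod_cast hv i) h0)
    (fun a ha => ?_) (hp.mono fun a ha => Finset.mem_inter.2 ⟨mem_fr.2 ⟨(mem_fc.1 ha).1, ?_⟩, hY ha⟩)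
  · rw [e, one_le_div h0]
    exact_mod_cast nn_le ha v
  · rw [e, (mem_fc.1 ha).2, div_self h0.ne']

theorem t_Cyl : S_Hensel → S_Ser → S_Smooth → S_Cyl := by
  intro hH hS hSm σ _ _ f α Γ lo hi θ Y Z S ctx hbox hθ h0 h1 hA hV hout hin
  have hY : Indep Y S := hV.1.mono (sub_vs _ _) subset_rfl
  have ex : ∀ j, ∃ c ∈ Γ (some j), 1 < c ∧ c < 2 := fun j => by
    obtain ⟨c, h2, h3, h4⟩ := ctx.dns (some j) 1 2 (by norm_num)
    exact ⟨c, h2, by exact_mod_cast h3, by exact_mod_cast h4⟩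
  choose c hc hc1 hc2 using ex
  have key := hS σ f α Γ S {F | F ⊆ Y ∧ ∀ i ∈ S, ∃ a ∈ F, a i ≠ 0}
    (fun o => o.elim θ fun j => if j ∈ S then 0 else lo j)
    (fun o => o.elim θ fun j => if j ∈ S then c j else hi j) (fun o => o.elim 1 fun _ => 0)
    ctx.conv ctx.gen ⟨fun j => ?_, Or.inl hθ, Or.inl hθ, h0.le⟩
    fun _ _ _ _ h => absurd h (not_le.2 h1)
  · refine key.congr_ev (l₀ := 1) fun l hl => ?_
    have hl' : l ≠ 0 := by omega
    have hfin : (ND.Cyl.V f.support Y S lo hi c θ l).Finite :=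
      (walls_finite (fun o => o.elim θ fun j => if j ∈ S then 0 else lo j)
        (fun o => o.elim θ fun j => if j ∈ S then c j else hi j) (fun o => o.elim 1 fun _ => 0) l
        (nn f.support)).subset fun _ h => h.1
    rw [PowerSeries.coeff_mk]
    refine (coeff_Zs_cells f hl' S hfin
      (fun x _ => ⟨fun h => forth' h0 h1 hA hY (hV.nonempty ctx.conv.2)
         (fun j => (hbox j).2.1) hc1 hout hin hl' h.1
        h.2.1 h.2.2, fun ⟨w, h2, h3⟩ => ND.Cyl.back h0 hA hY hin h2 h3⟩)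
      fun v hv w hw x h2 h3 => funext fun i =>
        le_antisymm (ND.Cyl.disj h0 hY hv hw h2 h3 i) (ND.Cyl.disj h0 hY hw hv h3 h2 i)).trans ?_
    refine finsum_mem_congr rfl fun v hv => ?_
    obtain ⟨a1, a2, a3, -, a5, a6⟩ := (ND.Cyl.mem_V h0).1 hv
    refine hH σ f (2 * l) l v S (by omega) (fun i => ?_)
      fun _ => hSm σ f S v ctx.nd a1 (hY.mono a5 subset_rfl) (hV.cell ctx.conv a1 a5) a6
    have h2 : (0 : ℚ) ≤ l := l.cast_nonneg
    have : (v i : ℚ) ≤ (2 * l : ℕ) := by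
      push_cast
      by_cases h : i ∈ S
      · nlinarith [a3 i h, hc2 i]
      · nlinarith [(a2 i h).2, ((hbox i).2.2.2 _ rfl).2.2]
    exact Nat.cast_le.1 this
  · by_cases h : j ∈ S
    · simpa [h] using hc j
    · simpa [h] using ⟨(hbox j).1, ((hbox j).2.2.2 _ rfl).1⟩

theorem t_Inter : S_Box → S_Cyl → S_Inter := by
  intro hB hC σ _ _ f α Γ lo hi Y Z S ctx ok hle hp hY hV h1 h2 h3
  choose! a ha using h2
  obtain ⟨θ, t1, t2, t3⟩ := ctx.dns none
    ((S.fold max 0 fun i => lo i + ∑ j ∈ Sᶜ, vec (a i) j * hi j : ℚ) : ℝ) 1 (by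
      exact_mod_cast (Finset.fold_max_lt _).2 ⟨one_pos, fun i hi => (ha i hi).2.2⟩)
  replace t3 : θ < 1 := by exact_mod_cast t3
  obtain ⟨t0, t4⟩ := (Finset.fold_max_lt _).1 (Rat.cast_lt.1 t2)
  have top : Good α (Zs f (inBox lo (ND.Inter.up hi S))) := by
    rw [Zs_split f (cw_inBox lo _) (cw_nGe f.support θ)]
    exact (hC σ f α Γ lo hi θ Y Z S ctx ok t1 t0 t3 hY hV h1 fun i hi =>
      ⟨a i, (ha i hi).1, (ha i hi).2.1, (t4 i hi).le⟩).add
      ((hB σ f α Γ lo _ θ ctx (ND.Inter.ok_up ok S)).2 t1 t3)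
  have key : ∀ T : Finset σ, T ⊆ S → Good α (Zs f (inBox lo (ND.Inter.up hi T))) →
      Good α (Zs f (inBox lo fun j => (hi j : WithTop ℚ))) := by
    intro T
    induction T using Finset.induction_on with
    | empty => exact fun _ h => h
    | insert i T hi' ih =>
      intro hT h
      have hS := hT (Finset.mem_insert_self _ _)
      refine ih ((Finset.subset_insert _ _).trans hT) ?_
      have := h.sub ((hB σ f α Γ _ _ θ ctx (ND.Inter.ok_upd ok (insert i T) i)).1
        (miss' hle (hV.1.mono (sub_vs _ _) subset_rfl) h1 hS (hp i hS) (h3 i hS) _))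
      rwa [ND.Inter.split f hle hi', add_sub_cancel_left] at this
  exact key S subset_rfl top

end Pool.Agent.P.MP_9321be_ag.NC
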