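import Pool.Agent.P.MP_9321be_ag.NC.ZDefs
import Pool.Agent.P.MP_9321be_ag.ND.ZLab

/-!
Compatible labels on the dangerous set.
-/

namespace Pool.Agent.P.MP_9321be_ag.NC

open Set Filter Topology ND

namespace Lab

variable {E ι σ : Type}

theorem honest [TopologicalSpace E] {K : Set E} (hK : IsCompact K) (I : Finset ι) {g : ι → E → ℝ}
    (hg : ∀ i, Continuous (g i)) (h0 : ∀ u ∈ K, ∀ i ∈ I, 0 ≤ g i u) {t' : ℝ} (ht : 0 < t') :
    ∃ t, 0 < t ∧ t < t' ∧ ∀ B ⊆ I, ∀ u ∈ K, (∀ i ∈ B, g i u < t) →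
      (∀ i ∈ I, i ∉ B → t' < g i u) → ∃ u' ∈ K, ∀ i ∈ I, g i u' = 0 ↔ i ∈ B := by
  have e : ∀ᶠ t in 𝓝[>] (0 : ℝ), ∀ B ∈ I.powerset, ∀ u ∈ K, (∀ i ∈ B, g i u < t) →
      (∀ i ∈ I, i ∉ B → t' < g i u) → ∃ u' ∈ K, ∀ i ∈ I, g i u' = 0 ↔ i ∈ B := by
    refine (eventually_all_finset _).2 fun B hB => ?_
    have hB := Finset.mem_powerset.1 hB
    have hC : IsCompact (K ∩ {u | ∀ i ∈ I, i ∉ B → t' ≤ g i u}) := hK.inter_right (by
      simp only [Set.ofPred_forall]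
      exact isClosed_iInter fun i => isClosed_iInter fun _ => isClosed_iInter fun _ =>
        isClosed_le continuous_const (hg i))
    rcases (K ∩ {u | ∀ i ∈ I, i ∉ B → t' ≤ g i u}).eq_empty_or_nonempty with h | h
    · exact .of_forall fun t u hu _ h2 => (h.subset ⟨hu, fun i hi hi' => (h2 i hi hi').le⟩).elim
    obtain ⟨u0, h1, h2⟩ := hC.exists_isMinOn h
      (continuous_finsetSum B fun i _ => hg i).continuousOn
    rcases (Finset.sum_nonneg fun i hi => h0 u0 h1.1 i (hB hi)).eq_or_lt with h3 | h3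
    · refine .of_forall fun t u _ _ _ => ⟨u0, h1.1, fun i hi => ⟨fun h4 => by_contra fun h5 => ?_,
        (Finset.sum_eq_zero_iff_of_nonneg fun i hi => h0 u0 h1.1 i (hB hi)).1 h3.symm i⟩⟩
      linarith [h1.2 i hi h5]
    · have h4 : Tendsto (fun t : ℝ => B.card * t) (𝓝 0) (𝓝 (B.card * 0)) :=
        (continuous_const.mul continuous_id).tendsto 0
      rw [mul_zero] at h4
      filter_upwards [(h4.eventually (gt_mem_nhds h3)).filter_mono nhdsWithin_le_nhds]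
        with t h5 u hu h6 h7
      have h8 : ∑ i ∈ B, g i u0 ≤ ∑ i ∈ B, g i u := h2 ⟨hu, fun i hi hi' => (h7 i hi hi').le⟩
      have h9 := Finset.sum_le_card_nsmul B _ t fun i hi => (h6 i hi).le
      rw [nsmul_eq_mul] at h9
      linarith
  obtain ⟨t, ⟨h1, h2⟩, h3⟩ := ((e.and ((eventually_lt_nhds ht).filter_mono
    nhdsWithin_le_nhds)).and self_mem_nhdsWithin).exists
  exact ⟨t, h3, h2, fun B hB => h1 B (Finset.mem_powerset.2 hB)⟩

theorem scale {P : ℝ → ℝ → Prop} (h : ∀ t', 0 < t' → ∃ t, 0 < t ∧ t < t' ∧ P t t') (r : ℕ) :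
    ∃ t : ℕ → ℝ, (∀ k, 0 < t k) ∧ Monotone t ∧ ∀ k < r, t k < t (k + 1) ∧ P (t k) (t (k + 1)) := by
  choose nx h1 h2 h3 using h
  let s : ℕ → {t : ℝ // 0 < t} := fun k => (fun t => ⟨nx t.1 t.2, h1 _ _⟩)^[k] ⟨1, one_pos⟩
  have e : ∀ k, (s (k + 1)).1 = nx (s k).1 (s k).2 := fun k => by
    simp only [s, Function.iterate_succ_apply']
  have hs : Antitone fun k => (s k).1 := antitone_nat_of_succ_le fun k => e k ▸ (h2 _ _).le
  refine ⟨fun k => (s (r - k)).1, fun k => (s _).2, fun k k' hk => hs (by omega), fun k hk => ?_⟩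
  dsimp only
  rw [show r - k = r - (k + 1) + 1 by omega, e]
  exact ⟨h2 _ _, h3 _ _⟩

/-- Minimal sets. -/
def Mn (V : Finset σ → Prop) (S : Finset σ) : Prop := V S ∧ ∀ S' ⊂ S, ¬ V S'

theorem exists_mn {V : Finset σ → Prop} {S : Finset σ} (h : V S) : ∃ S' ⊆ S, Mn V S' := by
  obtain ⟨T', h1, h2⟩ := exists_minimal_le_of_wellFoundedLT V S h
  exact ⟨T', h1, h2.1, fun S hS h => hS.not_ge (h2.2 h hS.le)⟩

theorem descend' (V : ℕ → Finset σ → Prop) (hV : ∀ j S, V (j + 1) S → V j S) (n : ℕ) :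
    ∀ S0, V n S0 → ∃ S ⊆ S0, V 0 S ∧ ∀ j ≤ n, ∃ S', Mn (V j) S' ∧ S ⊆ S' := by
  induction n with
  | zero =>
    intro S0 h
    obtain ⟨S, h1, h2⟩ := exists_mn h
    exact ⟨S, h1, h2.1, fun j hj => ⟨S, Nat.le_zero.1 hj ▸ h2, subset_rfl⟩⟩
  | succ n ih =>
    intro S0 h
    obtain ⟨S1, h1, h2⟩ := exists_mn h
    obtain ⟨S, h3, h4, h5⟩ := ih S1 (hV _ _ h2.1)
    refine ⟨S, h3.trans h1, h4, fun j hj => ?_⟩
    rcases hj.lt_or_eq with hj | rfl
    · exact h5 j (Nat.lt_succ_iff.1 hj)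
    · exact ⟨S1, h2, h3⟩

/-- Level sets of a label. -/
def lv (I : Finset ι) (l : ι → ℕ) (j : ℕ) : Finset ι := I.filter fun a => l a ≤ j

theorem mem_lv {I : Finset ι} {l : ι → ℕ} {j : ℕ} {a : ι} : a ∈ lv I l j ↔ a ∈ I ∧ l a ≤ j :=
  Finset.mem_filter

theorem lv_mono (I : Finset ι) (l : ι → ℕ) : Monotone (lv I l) :=
  fun _ _ h _ ha => mem_lv.2 ⟨(mem_lv.1 ha).1, (mem_lv.1 ha).2.trans h⟩

variable [DecidableEq σ]

/-- Strong sets. -/
def St (V N : Finset σ → Prop) (S : Finset σ) : Prop := V S ∧ ∀ S', Mn V S' → N (S ∪ S')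

theorem labels (I : Finset ι) (V N : Finset ι → Finset σ → Prop)
    (hV : ∀ X X' S, X ⊆ X' → V X' S → V X S)
    (hN : ∀ X X' S S', X ⊆ X' → S ⊆ S' → N X' S' → N X S) :
    ∃ (J : (ι → ℕ) → ℕ) (S : (ι → ℕ) → Finset σ), (∀ l, J l + 3 ≤ 3 * (I.card + 1)) ∧
    (∀ l, ∀ a ∈ I, l a ≤ J l ∨ J l + 3 ≤ l a) ∧
    (∀ l, (∃ T, St (V (lv I l (J l))) (N (lv I l (J l))) T) → V (lv I l 0) (S l)) ∧
    ∀ l l', (∃ T, St (V (lv I l (J l))) (N (lv I l (J l))) T) →
      (∃ T, St (V (lv I l' (J l'))) (N (lv I l' (J l'))) T) →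
      (∀ a ∈ I, l a ≤ l' a + 1 ∧ l' a ≤ l a + 1) → ∀ Y, Y ⊆ lv I l 0 → Y ⊆ lv I l' 0 →
      N Y (S l ∪ S l') := by
  choose J J1 J2 using ND.Lab.gap I
  have h0 : ∀ X : Finset ι, ∃ S0, (∃ T, St (V X) (N X) T) → St (V X) (N X) S0 := fun X =>
    ⟨Classical.epsilon (St (V X) (N X)), Classical.epsilon_spec⟩
  choose S0 hS0 using h0
  have h1 : ∀ l, ∃ S, (∃ T, St (V (lv I l (J l))) (N (lv I l (J l))) T) → S ⊆ S0 (lv I l (J l)) ∧
      V (lv I l 0) S ∧ ∀ j ≤ J l, ∃ S', Mn (V (lv I l j)) S' ∧ S ⊆ S' := fun l => by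
    by_cases h : ∃ T, St (V (lv I l (J l))) (N (lv I l (J l))) T
    · obtain ⟨S, hS⟩ := descend' (fun j => V (lv I l j))
        (fun j S => hV _ _ S (lv_mono I l j.le_succ)) (J l) _ (hS0 _ h).1
      exact ⟨S, fun _ => hS⟩
    · exact ⟨∅, fun h' => absurd h' h⟩
  choose S hS using h1
  have key : ∀ l l', (∃ T, St (V (lv I l (J l))) (N (lv I l (J l))) T) →
      (∃ T, St (V (lv I l' (J l'))) (N (lv I l' (J l'))) T) →
      (∀ a ∈ I, l a ≤ l' a + 1 ∧ l' a ≤ l a + 1) → J l ≤ J l' → N (lv I l 0) (S l ∪ S l') := by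
    intro l l' h h' hd hJ
    obtain ⟨j, hj, e⟩ : ∃ j ≤ J l', lv I l (J l) = lv I l' j := by
      refine ⟨min (J l + 1) (J l'), min_le_right _ _, ?_⟩
      ext a
      rw [mem_lv, mem_lv]
      refine and_congr_right fun ha => ?_
      have := hd a ha
      have := J2 l a ha
      have := J2 l' a ha
      omega
    obtain ⟨S', h2, h3⟩ := (hS l' h').2.2 j hj
    exact hN _ _ _ _ (lv_mono I l (Nat.zero_le _)) (Finset.union_subset_union (hS l h).1 h3)
      ((hS0 _ h).2 S' (e ▸ h2))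
  refine ⟨J, S, J1, J2, fun l h => (hS l h).2.1, fun l l' h h' hd Y hY hY' => ?_⟩
  rcases le_total (J l) (J l') with hJ | hJ
  · exact hN _ _ _ _ hY subset_rfl (key l l' h h' hd hJ)
  · exact hN _ _ _ _ hY' (Finset.union_comm _ _).subset (key l' l h' h (fun a ha => (hd a ha).symm) hJ)

theorem lab [Fintype σ] [PseudoMetricSpace E] {K : Set E} (hK : IsCompact K) (I : Finset ι)
    {g : ι → E → ℝ} (hg : ∀ i, Continuous (g i)) (h0 : ∀ u ∈ K, ∀ i ∈ I, 0 ≤ g i u)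
    (X : E → Finset ι) (hX : ∀ u i, i ∈ X u ↔ i ∈ I ∧ g i u = 0)
    (V N : Finset ι → Finset σ → Prop) (hV : ∀ X X' S, X ⊆ X' → V X' S → V X S)
    (hN : ∀ X X' S S', X ⊆ X' → S ⊆ S' → N X' S' → N X S)
    (hP : ∀ X D, (∀ i ∈ D, ∀ j ∈ D, N X {i, j}) → N X D)
    (hB : ∀ u ∈ K, ∃ T, St (V (X u)) (N (X u)) T) :
    ∃ D : E → Finset σ, ∃ ρ : ℝ, 0 < ρ ∧ (∀ u ∈ K, N (X u) (D u)) ∧
      ∀ p, ∃ S, ∀ u ∈ K, dist u p < ρ → S ⊆ D u ∧ V (X u) S := by
  classical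
  obtain ⟨J, S, h1, h1', h2, h3⟩ := labels I V N hV hN
  set r : ℕ := 3 * (I.card + 1) with hr
  obtain ⟨t, t0, t1, t2⟩ := scale (fun _ => honest hK I hg h0) r
  let Adm : (ι → ℕ) → E → Prop := fun l u => ∀ a ∈ I, l a ≤ r ∧
    (l a ≠ 0 → t (l a - 1) < g a u) ∧ (l a < r → g a u < t (l a + 1))
  have a1 : ∀ l u, Adm l u → X u ⊆ lv I l 0 := fun l u h a ha => by
    obtain ⟨h4, h5⟩ := (hX u a).1 ha
    refine mem_lv.2 ⟨h4, Nat.le_zero.2 (by_contra fun h6 => ?_)⟩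
    linarith [(h a h4).2.1 h6, t0 (l a - 1)]
  have a2 : ∀ l, ∀ u ∈ K, Adm l u → ∃ T, St (V (lv I l (J l))) (N (lv I l (J l))) T := by
    intro l u hu h
    have h4 := h1 l
    obtain ⟨u', h5, h6⟩ := (t2 (J l + 1) (by omega)).2 (lv I l (J l)) (Finset.filter_subset _ _)
      u hu (fun a ha => (((h a (mem_lv.1 ha).1).2.2 (by have := (mem_lv.1 ha).2; omega)).trans_le
        (t1 (by have := (mem_lv.1 ha).2; omega)))) fun a ha h5 => by
      have h6 := (h1' l a ha).resolve_left fun h6 => h5 (mem_lv.2 ⟨ha, h6⟩)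
      exact (t1 (by omega)).trans_lt ((h a ha).2.1 (by omega))
    have e : X u' = lv I l (J l) := Finset.ext fun a => by
      rw [hX]
      exact ⟨fun h => (h6 a h.1).1 h.2, fun h => ⟨(mem_lv.1 h).1, (h6 a (mem_lv.1 h).1).2 h⟩⟩
    exact e ▸ hB u' h5
  obtain ⟨ρ, hρ, h4⟩ := lebesgue_number_lemma_of_metric hK (c := fun l => {u | Adm l u})
    (fun l => by
      simp only [Adm, Set.ofPred_forall, Set.ofPred_and]
      exact isOpen_biInter_finset fun a _ => isOpen_const.inter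
        ((isOpen_iInter_of_finite fun _ => isOpen_lt continuous_const (hg a)).inter
          (isOpen_iInter_of_finite fun _ => isOpen_lt (hg a) continuous_const)))
    fun p _ => mem_iUnion.2 ⟨fun a => Nat.findGreatest (fun k => t k ≤ g a p) r, fun a _ => by
      have h4 := Nat.findGreatest_le (P := fun k => t k ≤ g a p) r
      refine ⟨h4, fun h5 => ?_, fun h5 => not_le.1
        (Nat.findGreatest_is_greatest (P := fun k => t k ≤ g a p) (Nat.lt_succ_self _) h5)⟩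
      have h6 := (t2 (Nat.findGreatest (fun k => t k ≤ g a p) r - 1) (by dsimp only at h5; omega)).1
      rw [Nat.sub_add_cancel (Nat.pos_of_ne_zero h5)] at h6
      exact h6.trans_le (Nat.findGreatest_of_ne_zero (P := fun k => t k ≤ g a p) rfl h5)⟩
  refine ⟨fun u => Finset.univ.filter fun i => ∃ l, Adm l u ∧ i ∈ S l, ρ / 2, half_pos hρ,
    fun u hu => hP _ _ fun i hi j hj => ?_, fun p => ?_⟩
  · obtain ⟨l, h4, h5⟩ := (Finset.mem_filter.1 hi).2
    obtain ⟨l', h6, h7⟩ := (Finset.mem_filter.1 hj).2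
    have b : ∀ l l', Adm l u → Adm l' u → ∀ a ∈ I, l a ≤ l' a + 1 := fun l l' h h' a ha =>
      not_lt.1 fun h8 => by
        have := (h a ha).1
        linarith [(h a ha).2.1 (by omega), (h' a ha).2.2 (by omega),
          t1 (show l' a + 1 ≤ l a - 1 by omega)]
    exact hN _ _ _ _ subset_rfl (by simp [Finset.insert_subset_iff, h5, h7])
      (h3 l l' (a2 l u hu h4) (a2 l' u hu h6) (fun a ha => ⟨b l l' h4 h6 a ha, b l' l h6 h4 a ha⟩)
        _ (a1 l u h4) (a1 l' u h6))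
  · by_cases h : ∃ u0 ∈ K, dist u0 p < ρ / 2
    · obtain ⟨u0, h5, h6⟩ := h
      obtain ⟨l, h7⟩ := h4 u0 h5
      refine ⟨S l, fun u hu hd => ?_⟩
      have h8 : Adm l u := h7 (by linarith [dist_triangle_right u u0 p] : dist u u0 < ρ)
      exact ⟨fun i hi => Finset.mem_filter.2 ⟨Finset.mem_univ _, l, h8, hi⟩,
        hV _ _ _ (a1 l u h8) (h2 l (a2 l u hu h8))⟩
    · exact ⟨∅, fun u hu hd => (h ⟨u, hu, hd⟩).elim⟩

end Lab

theorem t_Lab : S_Lab := by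
  intro σ _ _ A α hK hB
  have := Lab.lab hK (A.disjSum Finset.univ)
    (g := Sum.elim (fun a u => dr a u - 1) fun j u => u j)
    (by
      rintro (a | j)
      exacts [(cont_dr a).sub continuous_const, continuous_apply j])
    (by
      rintro u hu (a | j) h
      exacts [sub_nonneg.2 (hu.2.1 a (by simpa using h)), hu.1 j])
    (fun u => (fr A u).disjSum (zs u))
    (by rintro u (a | j) <;> simp [mem_fr, mem_zs, sub_eq_zero])
    (fun X S => Val A X.toLeft X.toRight S) (fun X S => Indep (vs X.toLeft X.toRight) S)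
    (fun X X' S h h' => h'.mono (Finset.toLeft_subset_toLeft h) (Finset.toRight_subset_toRight h))
    (fun X X' S S' h hS h' => h'.mono (vs_mono (Finset.toLeft_subset_toLeft h)
      (Finset.toRight_subset_toRight h)) hS) (fun X D => ND.Lab.indep_of_pairs) fun u hu => by
      obtain ⟨S, h1, h2⟩ := hB u hu
      simp only [Finset.toLeft_disjSum, Finset.toRight_disjSum]
      exact ⟨S, h1, fun S' h => h2 S' h.1 h.2⟩
  simpa only [Finset.toLeft_disjSum, Finset.toRight_disjSum, fx] using this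

end Pool.Agent.P.MP_9321be_ag.NC
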