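import Pool.Agent.P.MP_9321be_ag.Mono
import Pool.Agent.P.MP_9321be_ag.ND.ZAlg
import Pool.Agent.P.MP_9321be_ag.ND.ZDense
import Pool.Agent.P.MP_9321be_ag.ND.ZGen
import Pool.Agent.P.MP_9321be_ag.ND.ZHensel
import Pool.Agent.P.MP_9321be_ag.ND.ZLink
import Pool.Agent.P.MP_9321be_ag.ND.ZSlice
import Pool.Agent.P.MP_9321be_ag.NC.ZCell
import Pool.Agent.P.MP_9321be_ag.NC.ZCyl
import Pool.Agent.P.MP_9321be_ag.NC.ZLab
import Pool.Agent.P.MP_9321be_ag.NC.ZCover
import Pool.Agent.P.MP_9321be_ag.NC.CHB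
import Pool.Agent.P.MP_9321be_ag.NC.EAll

/-!
The motivic monodromy conjecture for non-degenerate polynomials.
-/

namespace Pool.Agent.P.MP_9321be_ag.NC

open MvPolynomial ND

theorem s_Cover : S_Cover :=
  have hS := t_Ser (t_Cell t_Slice)
  have hB := t_Box (t_Pin t_Hensel hS)
  t_Cover t_Lab hB (t_Inter hB (t_Cyl t_Hensel hS t_Smooth))

theorem conjecture {σ : Type} [Fintype σ] (f : MvPolynomial σ ℂ) (h0 : coeff 0 f = 0)
    (hn : Nondeg f) : MonodromyConjecture f := by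
  classical
  have hf : f ≠ 0 := by
    rintro rfl
    simpa [facePoly] using hn (fun _ => 1) (fun _ => one_pos) (fun _ => 1) fun _ => one_ne_zero
  have hA : ConvA f.support := ⟨support_nonempty.2 hf, by simpa using h0⟩
  have e0 : eval (0 : σ → ℂ) f = 0 := by simpa [constantCoeff_eq] using h0
  have key : ∀ α : ℚ, α ≠ 1 → HB f.support α → Rt lefInv (· ≠ α) (zeta f) := fun α h1 h2 => by
    obtain ⟨Γ, g1, g2⟩ := t_Gen t_Dense σ f.support α h1
    rw [t_Link σ f]
    exact s_Cover σ f α Γ ⟨hA, hn, g1, g2⟩ h2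
  have hint : ∀ k : ℤ, NearEig f (Complex.exp (-(2 * Real.pi * Complex.I * ((k : ℚ) : ℂ)))) :=
    fun k U hU => by
      have : Complex.exp (-(2 * Real.pi * Complex.I * ((k : ℚ) : ℂ))) = 1 := by
        rw [← Complex.exp_int_mul_two_pi_mul_I (-k)]
        congr 1
        push_cast
        ring
      rw [this]
      exact ⟨0, mem_of_mem_nhds hU, e0, isMonodromyEigenvalue_one hf e0⟩
  have hu : IsUnit lefInv := IsUnit.of_mul_eq_one_right _ (IsLocalization.Away.mul_invSelf lef)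
  have main := t_Alg MM lefInv hu
    (fun α => NearEig f (Complex.exp (-(2 * Real.pi * Complex.I * α))))
    (by simpa using hint 1) (zeta f) (fun α hα => ?_) ?_
  · obtain ⟨S, h1, h2⟩ := main
    refine fun U hU => ⟨S, fun q hq => ⟨(h1 q hq).1, (h1 q hq).2.1⟩, h2, fun q hq => ?_⟩
    convert (h1 q hq).2.2 U hU using 6
    push_cast
    ring
  · have hk : ∀ k : ℤ, α ≠ k := fun k e => hα (e ▸ hint k)
    refine key α (by simpa using hk 1) (t_HB σ _ α fun u ω h s J h1 h2 h3 => ?_)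
    by_contra hcon
    exact hα (E.s_ENC σ f h0 hn u ω h s J α h1 h3 (fun a ha => hcon ⟨a, ha⟩) h2 hk)
  · refine (key (-1) (by norm_num) fun u hu => ?_).mono fun _ _ => trivial
    have := Finset.sum_nonneg fun i (_ : i ∈ Finset.univ) => hu.1 i
    rw [hu.2.2.1] at this
    norm_num at this

end Pool.Agent.P.MP_9321be_ag.NC
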