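import Pool.Agent.P.MP_9321be_ag.NC.CPack

/-!
The two claims on signed weights.
-/

namespace Pool.Agent.P.MP_9321be_ag.NC

open Finset ND

variable {σ : Type} [Fintype σ] [DecidableEq σ] {X s : Finset (σ →₀ ℕ)} {w : (σ →₀ ℕ) → ℝ}

theorem Pack.one_le (P : Pack X) (j : σ) : 1 ≤ pp X P.ν j := by
  by_cases h : j ∈ P.J
  exacts [(P.p1 j h).ge, (P.p2 j h).le]

theorem Pack.same (P : Pack X) {a : σ →₀ ℕ} (ha : a ∈ X) {i j : σ} (hi : i ∈ P.S) (hj : j ∈ P.J)
    (h : a i ≠ 0) (h' : a j ≠ 0) : j = i :=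
  by_contra fun e => h' ((P.S1 i hi a ha h).2.2 j hj e)

theorem claim1 (P : Pack X) (hs : s ⊆ X) {lam : (σ →₀ ℕ) → ℝ} (h0 : ∀ a ∈ s, w a ≠ 0)
    (hw : pp s w = pp X P.ν) (h2 : ∀ i ∈ P.S, 2 ≤ (s.filter fun a => a i ≠ 0).card)
    (hn : ∀ a ∈ s, w a < 0 → ∃ i ∈ P.S, a i ≠ 0 ∧ (s.filter fun a => a i ≠ 0).card = 2)
    (hl : pp s lam = fun _ => 1) :
    ∃ s' ⊆ s, (∀ a ∈ s, a ∉ s' → lam a = 0) ∧ ∀ a, ¬ UApex s' a := by
  classical
  let Inv : Finset (σ →₀ ℕ) → Prop := fun R => ∀ a ∈ R, w a < 0 ∧ lam a = 0 ∧ ∃ i ∈ P.S,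
    a i ≠ 0 ∧ ∃ b ∈ s, 0 < w b ∧ b i ≠ 0 ∧ ∃ k ≠ i, Priv (s \ R) b k
  obtain ⟨R, hR, hmax⟩ := exists_max_image (s.powerset.filter Inv) card ⟨∅, by simp [Inv]⟩
  have hI : Inv R := (mem_filter.1 hR).2
  refine ⟨s \ R, sdiff_subset, fun a ha h => (hI a (by simpa [ha] using h)).2.1, ?_⟩
  rintro b ⟨hb, k, b1, b2, b3⟩
  have hb' := (Finset.mem_sdiff.1 hb).1
  have hp : ∀ j, ∑ a ∈ s, w a * a j = pp X P.ν j := fun j => by rw [← hw, pp_apply]
  have hl' : ∀ j, ∑ a ∈ s, lam a * a j = 1 := fun j => by rw [← pp_apply, hl]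
  have f1 : lam b = 1 := by
    rw [← hl' k, sum_eq_single_of_mem b hb' fun a ha e => ?_, b1, Nat.cast_one, mul_one]
    by_cases h : a ∈ R
    · rw [(hI a h).2.1, zero_mul]
    · rw [b2.2 a (Finset.mem_sdiff.2 ⟨ha, h⟩) e, Nat.cast_zero, mul_zero]
  have f2 : pp X P.ν k ≤ w b := by
    rw [← hp, ← add_sum_erase _ _ hb', b1, Nat.cast_one, mul_one, add_le_iff_nonpos_right]
    refine sum_nonpos fun a ha => ?_
    by_cases h : a ∈ R
    · exact mul_nonpos_of_nonpos_of_nonneg (hI a h).1.le (Nat.cast_nonneg _)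
    · rw [b2.2 a (Finset.mem_sdiff.2 ⟨(mem_erase.1 ha).2, h⟩) (mem_erase.1 ha).1, Nat.cast_zero,
        mul_zero]
  have f3 := (P.one_le k).trans f2
  by_cases hZ : ∃ i ∈ P.S, b i ≠ 0
  · obtain ⟨i, hi, hbi⟩ := hZ
    by_cases e : k = i
    · subst e
      obtain ⟨a, ha, e⟩ := exists_mem_ne (h2 k hi) b
      obtain ⟨a1, a2⟩ := mem_filter.1 ha
      obtain ⟨-, -, i', c1, c2, b', c3, c4, c5, k', c6, c7⟩ :=
        hI a (by_contra fun h => a2 (b2.2 a (Finset.mem_sdiff.2 ⟨a1, h⟩) e))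
      obtain rfl := P.same (hs a1) hi (P.S0 c1) a2 c2
      obtain rfl : b' = b := by_contra fun e => c5 (b2.2 b' (Finset.mem_sdiff.2
        ⟨c3, fun h => lt_asymm c4 (hI _ h).1⟩) e)
      exact c6 (b3 k' c7)
    have f4 : 1 < w b := (P.p2 k fun h => e (P.same (hs hb') hi h hbi b2.1)).trans_le f2
    obtain ⟨a, a1, a2, a3⟩ : ∃ a ∈ s, a i ≠ 0 ∧ w a < 0 := by
      by_contra! h
      have := single_le_sum (f := fun a => w a * a i) (fun a ha => by
        by_cases h' : a i = 0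
        · simp [h']
        · exact mul_nonneg (h a ha h') (Nat.cast_nonneg _)) hb'
      simp only [hp, P.p1 i (P.S0 hi), (P.S1 i hi b (hs hb') hbi).1, Nat.cast_one, mul_one] at this
      linarith
    obtain ⟨i', c1, c2, c3⟩ := hn a a1 a3
    obtain rfl := P.same (hs a1) hi (P.S0 c1) a2 c2
    have hab : a ≠ b := by
      rintro rfl
      linarith
    have c4 : ∀ c ∈ s, c ≠ a → c ≠ b → c i' = 0 := fun c hc e1 e2 => by_contra fun h => by
      have := card_le_card (s := {c, a, b}) (t := s.filter fun a => a i' ≠ 0)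
        (by simp [insert_subset_iff, hc, h, a1, a2, hb', hbi])
      rw [c3, card_eq_three.2 ⟨c, a, b, e1, e2, hab, rfl⟩] at this
      omega
    have c5 : lam a = 0 := by
      have := hl' i'
      rw [sum_eq_add_of_mem a b a1 hb' hab fun c hc e => by simp [c4 c hc e.1 e.2],
        (P.S1 i' hi a (hs a1) a2).1, (P.S1 i' hi b (hs hb') hbi).1, f1] at this
      simpa using this
    have c6 : a ∉ R := fun h => e (b3 i' ⟨hbi, fun c hc e => c4 c (Finset.mem_sdiff.1 hc).1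
      (by rintro rfl; exact (Finset.mem_sdiff.1 hc).2 h) e⟩).symm
    have hm : ∀ {b k}, Priv (s \ R) b k → Priv (s \ insert a R) b k := fun h =>
      ⟨h.1, fun c hc => h.2 c (sdiff_subset_sdiff subset_rfl (subset_insert _ _) hc)⟩
    have := hmax (insert a R) (mem_filter.2 ⟨mem_powerset.2 (insert_subset a1
      (mem_powerset.1 (mem_filter.1 hR).1)), fun c hc => by
        rcases mem_insert.1 hc with rfl | hc
        · exact ⟨a3, c5, i', hi, a2, b, hb', by linarith, hbi, k, e, hm b2⟩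
        · obtain ⟨d1, d2, i, d3, d4, b, d5, d6, d7, k, d8, d9⟩ := hI c hc
          exact ⟨d1, d2, i, d3, d4, b, d5, d6, d7, k, d8, hm d9⟩⟩)
    rw [card_insert_of_notMem c6] at this
    omega
  · push Not at hZ
    have f4 : dr b P.q = 0 := by
      have := single_le_sum (f := fun a => w a * dr a P.q) (fun a ha => by
        rcases lt_or_ge (w a) 0 with h | h
        · obtain ⟨i, c1, c2, -⟩ := hn a ha h
          simp [(P.S1 i c1 a (hs ha) c2).2.1]
        · exact mul_nonneg h (P.g0 a (hs ha))) hb'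
      rw [← pp_dot, hw] at this
      exact P.gap b (hs hb') (by nlinarith [P.cost, P.g0 b (hs hb')])
    refine b2.1 (hZ k (P.S2 b (hs hb') f4 k b1 fun j hj e => by_contra fun h =>
      e (b3 j ⟨h, fun a ha e => ?_⟩)))
    have ha := (Finset.mem_sdiff.1 ha).1
    have c1 : ∀ a ∈ s, 0 ≤ w a * a j := fun a ha => by
      rcases lt_or_ge (w a) 0 with h' | h'
      · obtain ⟨i, c1, c2, -⟩ := hn a ha h'
        simp [(P.S1 i c1 a (hs ha) c2).2.2 j hj fun e => h (e ▸ hZ i c1)]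
      · exact mul_nonneg h' (Nat.cast_nonneg _)
    have c2 := sum_le_sum_of_subset_of_nonneg (s := {a, b}) (by simp [insert_subset_iff, ha, hb'])
      fun a ha _ => c1 a ha
    rw [sum_pair e, hp, P.p1 j hj] at c2
    have c3 : (1 : ℝ) ≤ b j := by exact_mod_cast Nat.one_le_iff_ne_zero.2 h
    have c4 : w a * a j = 0 := le_antisymm (by nlinarith) (c1 a ha)
    exact_mod_cast (mul_eq_zero.1 c4).resolve_left (h0 a ha)

theorem claim2 (P : Pack X) (hs : s ⊆ X) {T : Finset σ} (hT : Indep X T) {j0 : σ} (h0 : j0 ∈ T)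
    (hJ : j0 ∉ P.J) (hw : pp s w = pp X P.ν) (h1 : (s.filter fun a => a j0 ≠ 0).card ≤ 1)
    (hn : ∀ a ∈ s, w a < 0 → ∃ i ∈ T, a i ≠ 0 ∧ (s.filter fun a => a i ≠ 0).card = 2) : False := by
  classical
  let Q := T.filter fun i => i = j0 ∨ ∃ a ∈ s, a i ≠ 0 ∧ w a < 0
  have hQ : Q ⊆ T := filter_subset _ _
  let W := s.filter fun a => ∃ i ∈ Q, a i ≠ 0
  let B := W.filter fun a => 0 < w a
  have hW : W ⊆ s := filter_subset _ _
  have hB : B ⊆ W := filter_subset _ _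
  have w0 : ∀ a ∈ s, a ∉ W → 0 ≤ w a := fun a ha h => not_lt.1 fun h' => by
    obtain ⟨i, c1, c2, -⟩ := hn a ha h'
    exact h (mem_filter.2 ⟨ha, i, mem_filter.2 ⟨c1, .inr ⟨a, ha, c2, h'⟩⟩, c2⟩)
  have w1 : ∀ a ∈ W, dr a P.y + dr a P.q = 1 := fun a ha => by
    obtain ⟨c1, i, c2, c3⟩ := mem_filter.1 ha
    exact P.real a (hs c1) i (hT.eq_one (hs c1) (hQ c2) c3).1
  have e1 : (Q.card : ℝ) < ∑ a ∈ W, w a := by
    have : ∑ i ∈ Q, pp X P.ν i = ∑ a ∈ W, w a := by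
      rw [← hw]
      simp only [pp_apply]
      rw [sum_comm, sum_filter]
      refine sum_congr rfl fun a ha => ?_
      rw [← mul_sum]
      split_ifs with h
      · obtain ⟨i, c2, c3⟩ := h
        obtain ⟨c4, c5⟩ := hT.eq_one (hs ha) (hQ c2) c3
        rw [sum_eq_single_of_mem i c2 fun j hj e => by simp [c5 j (hQ hj) e], c4]
        simp
      · rw [sum_eq_zero fun i hi => by simpa using fun e => h ⟨i, hi, e⟩, mul_zero]
    rw [← this, card_eq_sum_ones, Nat.cast_sum]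
    exact sum_lt_sum (fun i _ => by simpa using P.one_le i)
      ⟨j0, mem_filter.2 ⟨h0, .inl rfl⟩, by simpa using P.p2 j0 hJ⟩
  have e2 : B.card ≤ Q.card := by
    refine (card_le_card (t := Q.biUnion fun i => B.filter fun a => a i ≠ 0) fun a ha => ?_).trans
      (card_biUnion_le.trans ((sum_le_card_nsmul _ _ 1 fun i hi => ?_).trans (by simp)))
    · obtain ⟨i, c1, c2⟩ := (mem_filter.1 (hB ha)).2
      exact mem_biUnion.2 ⟨i, c1, mem_filter.2 ⟨ha, c2⟩⟩
    · rcases (mem_filter.1 hi).2 with rfl | ⟨a, c1, c2, c3⟩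
      · exact (card_le_card (filter_subset_filter _ (hB.trans hW))).trans h1
      · obtain ⟨i', c4, c5, c6⟩ := hn a c1 c3
        obtain rfl : i' = i := by_contra fun e => c5 ((hT.eq_one (hs c1) (hQ hi) c2).2 i' c4 e)
        have := card_lt_card (s := B.filter fun a => a i' ≠ 0) ⟨filter_subset_filter _ (hB.trans hW),
          fun h => lt_asymm c3 (mem_filter.1 (mem_filter.1 (h (mem_filter.2 ⟨c1, c2⟩))).1).2⟩
        omega
  let y : σ → ℝ := fun j => if ∃ b ∈ B, b j ≠ 0 then P.y j else 0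
  have y0 : ∀ j, 0 ≤ y j ∧ y j ≤ P.y j := fun j => by
    have := P.y0 j
    simp only [y]
    split_ifs <;> simp [this]
  have y1 : ∀ a, 0 ≤ dr a y ∧ dr a y ≤ dr a P.y := fun a =>
    ⟨sum_nonneg fun j _ => mul_nonneg (Nat.cast_nonneg _) (y0 j).1,
      sum_le_sum fun j _ => mul_le_mul_of_nonneg_left (y0 j).2 (Nat.cast_nonneg _)⟩
  have y2 : ∀ b ∈ B, dr b y = dr b P.y := fun b hb => sum_congr rfl fun j _ => by
    by_cases h : b j = 0
    · simp [h]
    · simp only [y, if_pos (⟨b, hb, h⟩ : ∃ b ∈ B, b j ≠ 0)]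
  have e3 : ∑ a ∈ W, w a * dr a y ≤ ∑ b ∈ B, dr b y := by
    refine (sum_le_sum_of_subset_of_nonneg hW fun a ha h =>
      mul_nonneg (w0 a ha h) (y1 a).1).trans ?_
    rw [← pp_dot, hw]
    simp only [dr, dotProduct]
    rw [sum_comm]
    refine sum_le_sum fun j _ => ?_
    rw [← sum_mul]
    by_cases h : y j = 0
    · simp [h]
    refine mul_le_mul_of_nonneg_right ?_ (y0 j).1
    simp only [y, ite_eq_right_iff, Classical.not_imp] at h
    obtain ⟨⟨b, c1, c2⟩, c3⟩ := h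
    rw [P.p1 j (P.yJ j c3)]
    exact le_trans (by exact_mod_cast Nat.one_le_iff_ne_zero.2 c2)
      (single_le_sum (f := fun a => (a j : ℝ)) (fun _ _ => Nat.cast_nonneg _) c1)
  have e4 : ∑ b ∈ B, dr b y + ∑ b ∈ B, dr b P.q = B.card := by
    rw [← sum_add_distrib, sum_congr rfl fun b hb => by rw [y2 b hb, w1 b (hB hb)]]
    simp
  have g0 : ∀ a ∈ W, 0 ≤ dr a P.q := fun a ha => P.g0 a (hs (hW ha))
  have e5 : ∑ a ∈ W, w a ≤ ∑ a ∈ W, w a * dr a y + ∑ a ∈ W, w a * dr a P.q := by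
    rw [← sum_add_distrib]
    refine sum_le_sum fun a ha => ?_
    rcases lt_or_ge 0 (w a) with h | h
    · rw [y2 a (mem_filter.2 ⟨ha, h⟩), ← mul_add, w1 a ha, mul_one]
    · nlinarith [(y1 a).2, w1 a ha]
  have e6 : ∑ a ∈ W, w a * dr a P.q < P.δ := by
    refine (sum_le_sum_of_subset_of_nonneg hW fun a ha h =>
      mul_nonneg (w0 a ha h) (P.g0 a (hs ha))).trans_lt ?_
    rw [← pp_dot, hw]
    exact P.cost
  have e7 : (B.card : ℝ) ≤ Q.card := by exact_mod_cast e2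
  have e8 : ∀ b ∈ B, dr b P.q = 0 := fun b hb => P.gap b (hs (hW (hB hb))) (by
    linarith [single_le_sum (f := fun b => dr b P.q) (fun a ha => g0 a (hB ha)) hb])
  have e9 : ∑ a ∈ W, w a ≤ ∑ a ∈ W, w a * dr a y := sum_le_sum fun a ha => by
    rcases lt_or_ge 0 (w a) with h | h
    · have := w1 a ha
      rw [e8 a (mem_filter.2 ⟨ha, h⟩), add_zero] at this
      rw [y2 a (mem_filter.2 ⟨ha, h⟩), this, mul_one]
    · nlinarith [(y1 a).2, w1 a ha, g0 a ha]
  linarith [sum_eq_zero e8]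

end Pool.Agent.P.MP_9321be_ag.NC
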