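import Pool.Agent.P.MP_9321be_ag.NC.CClaim
import Pool.Agent.P.MP_9321be_ag.ND.ZHB
import Pool.Agent.P.MP_9321be_ag.ND.ClaimB

/-!
Strong sets exist when all allowed contributing simplices have an apex.
-/

namespace Pool.Agent.P.MP_9321be_ag.NC

open Finset ND Filter Topology

variable {σ : Type} [Fintype σ] [DecidableEq σ] {A s : Finset (σ →₀ ℕ)} {u : σ → ℝ}

theorem contrib_of (hi : LinearIndepOn ℝ vr (s : Set (σ →₀ ℕ))) {lam : (σ →₀ ℕ) → ℝ}
    (hl : pp s lam = fun _ => 1) : Contrib s := by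
  refine ⟨linearIndepOn_finset_iff.2 fun g hg a ha => ?_, ?_⟩
  · have := linearIndepOn_finset_iff.1 hi (fun a => (g a : ℝ)) (funext fun i => by
      have := congrArg (fun x : σ → ℚ => (x i : ℝ)) hg
      simpa [vr, vec] using this) a ha
    exact_mod_cast this
  · obtain ⟨φ, hφ⟩ := HB.exists_pos_functional (fun _ : Unit => 1) fun _ => one_pos
    refine (Submodule.mem_span_image_finset_iff_exists_fun' ℚ).2
      ⟨fun a => φ (lam a) / φ 1, funext fun i => ?_⟩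
    have := congrArg φ ((pp_apply s lam i).symm.trans (congrFun hl i))
    rw [map_sum, sum_congr rfl (g := fun a => φ (lam a) * a i) fun a _ => by
      rw [mul_comm, ← nsmul_eq_mul, map_nsmul, nsmul_eq_mul, mul_comm]] at this
    simp only [Finset.sum_apply, Pi.smul_apply, smul_eq_mul, vec, div_mul_eq_mul_div, ← sum_div, this]
    exact div_self (hφ ()).ne'

theorem not_mem_fr {j : σ} (hj : u j = 0) : Finsupp.single j 2 ∉ fr A u := fun h => by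
  simpa [dr_single, hj] using (mem_fr.1 h).2

theorem maxX {μ : (σ →₀ ℕ) → ℝ} (hμ : ∀ a ∈ fx A u, 0 < μ a) {w h : σ → ℝ}
    (hw : ∀ a ∈ A, 1 ≤ dr a w) (hh : ∀ j, h j ≤ w j) {T : Finset σ}
    (hp : Pairs (fr A w ∩ fr A u) T) :
    ∃ s ⊆ fx A u, ∃ (ω : σ → ℝ) (m : (σ →₀ ℕ) → ℝ), LinearIndepOn ℝ vr (s : Set (σ →₀ ℕ)) ∧
      (∀ a ∈ fr A u, 0 ≤ dr a ω) ∧ (∀ a ∈ s, a ∈ fr A u → dr a ω = 0) ∧
      (∀ j, u j = 0 → h j ≤ ω j) ∧ (∀ j, u j = 0 → Finsupp.single j 2 ∈ s → ω j = h j) ∧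
      (∀ i ∈ T, 2 ≤ (s.filter fun a => a i ≠ 0).card) ∧ pp s m = pp (fx A u) μ ∧
        ∀ a ∈ s, m a < 0 → ∃ i ∈ T, a i ≠ 0 ∧ (s.filter fun a => a i ≠ 0).card = 2 := by
  obtain ⟨τ, h1, h2, h3⟩ := hp
  have e : ∀ a, dr a (w - u) = dr a w - dr a u := fun a => by
    simp [dr, mul_sub]
  obtain ⟨s, a0, ω, m, a1, a2, a3, a4⟩ := gmax hμ
    (fun a => if a ∈ fr A u then 0 else -dr a h) T
    (h1.trans (inter_subset_right.trans (sub_vs _ _))) h2 (ω0 := w - u) (fun a ha => by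
      by_cases h : a ∈ fr A u
      · rw [if_pos h, e, (mem_fr.1 h).2]
        linarith [hw a (mem_fr.1 h).1]
      · obtain ⟨j, hj, rfl⟩ := (mem_vs.1 ha).resolve_left h
        simpa [h, dr_single, mem_zs.1 hj] using hh j) (fun a ha => by
      have := mem_inter.1 (h1 ha)
      rw [if_pos this.2, e, (mem_fr.1 this.1).2, (mem_fr.1 this.2).2]
      simp) h3
  refine ⟨s, a0, ω, m, a1, fun a ha => by simpa [ha] using a2 a (sub_vs _ _ ha),
    fun a ha h => by simpa [h] using a3 a ha, fun j hj => ?_, fun j hj h => ?_, a4⟩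
  · simpa [not_mem_fr hj, dr_single] using a2 _ (single_mem_vs _ (mem_zs.2 hj))
  · simpa [not_mem_fr hj, dr_single, add_neg_eq_zero] using a3 _ h

theorem val_star {α : ℚ} (hU : UH A α) (hu : u ∈ Kset A α) (P : Pack (fx A u)) :
    Val A (fr A u) (zs u) P.S := by
  classical
  refine ⟨CB.indep_iff.2 fun a ha i hi h => ⟨(P.S1 i hi a ha h).1, fun j hj =>
    (P.S1 i hi a ha h).2.2 j (P.S0 hj)⟩, fun w h1 h2 hp => ?_⟩
  obtain ⟨h, h3, h4⟩ := exists_genH A h1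
  obtain ⟨s, a0, ω, m, a1, a2, a3, a4, a5, a6, a7, a8⟩ := maxX P.ν0 h2 (fun j => (h3 j).2.le) hp
  have hsp : ∀ T ⊆ s, (∀ a ∈ s, a ∉ T → m a = 0) → pp T m = pp (fx A u) P.ν := fun T hT h => by
    rw [← a7, pp, pp, sum_subset hT fun a ha h' => by rw [h a ha h', zero_smul]]
  have hg : ∀ T ⊆ s, (∀ a ∈ s, a ∉ T → m a = 0) → _ := fun T hT h => P.gen T (hT.trans a0)
    ((Submodule.mem_span_image_finset_iff_exists_fun' ℝ).2 ⟨m, hsp T hT h⟩)
  have hz : ∀ i ∈ P.S, ∀ a ∈ s, a i ≠ 0 → m a ≠ 0 := fun i hi a ha h hm => by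
    obtain ⟨b, hb, e⟩ := exists_mem_ne (a6 i hi) a
    obtain ⟨b1, b2⟩ := mem_filter.1 hb
    have c0 : ∀ c ∈ s, c ∉ s.erase a → m c = 0 := fun c hc h' => by
      rwa [show c = a by simpa [hc] using h']
    have c1 : ∀ {X : Finset (σ →₀ ℕ)} {c}, c ∈ X → vr c ∈ Submodule.span ℝ
        (vr '' (X : Set (σ →₀ ℕ))) := fun h => Submodule.subset_span ⟨_, h, rfl⟩
    have c2 : ∀ X : Finset (σ →₀ ℕ), pp X m ∈ Submodule.span ℝ (vr '' (X : Set (σ →₀ ℕ))) := fun X =>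
      (Submodule.mem_span_image_finset_iff_exists_fun' ℝ).2 ⟨m, rfl⟩
    have c3 := hg _ (erase_subset a s) c0 (pp (fx A u) P.ν + vr a - vr b) (sub_mem (add_mem
      ((Submodule.mem_span_image_finset_iff_exists_fun' ℝ).2 ⟨_, rfl⟩) (c1 (a0 ha))) (c1 (a0 b1)))
      fun j hj => by
        have d1 := P.S1 i hi a (a0 ha) h
        have d2 := P.S1 i hi b (a0 b1) b2
        by_cases e : j = i
        · simp [vr, P.p1 j hj, e ▸ d1.1, e ▸ d2.1]
        · simp [vr, P.p1 j hj, d1.2.2 j hj e, d2.2.2 j hj e]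
    have c4 := sub_mem (add_mem c3 (c1 (mem_erase.2 ⟨e, b1⟩))) (c2 (s.erase a))
    rw [hsp _ (erase_subset a s) c0, sub_add_cancel, add_sub_cancel_left, coe_erase] at c4
    exact a1.notMem_span ha c4
  have c0 : ∀ a ∈ s, a ∉ s.filter (m · ≠ 0) → m a = 0 := fun a ha h => by simpa [ha] using h
  have c1 : ∀ i ∈ P.S, (s.filter (m · ≠ 0)).filter (fun a => a i ≠ 0) = s.filter fun a => a i ≠ 0 :=
    fun i hi => by
      rw [filter_comm]
      exact filter_true_of_mem fun a ha => hz i hi a (mem_filter.1 ha).1 (mem_filter.1 ha).2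
  obtain ⟨lam, hl⟩ := (Submodule.mem_span_image_finset_iff_exists_fun' ℝ).1
    (hg _ (filter_subset _ _) c0 _ hu.2.2.2 fun _ _ => rfl)
  obtain ⟨s', b1, b2, b3⟩ := claim1 P ((filter_subset _ _).trans a0)
    (fun a ha => (mem_filter.1 ha).2) (hsp _ (filter_subset _ _) c0)
    (fun i hi => c1 i hi ▸ a6 i hi) (fun a ha h => by
      obtain ⟨i, d1, d2, d3⟩ := a8 a (mem_filter.1 ha).1 h
      exact ⟨i, d1, d2, c1 i d1 ▸ d3⟩) hl
  have b4 : s' ⊆ s := b1.trans (filter_subset _ _)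
  have e : vs (s' ∩ fr A u) ((zs u).filter fun j => Finsupp.single j 2 ∈ s') = s' := by
    ext a
    rw [mem_vs]
    constructor
    · rintro (h | ⟨j, hj, rfl⟩)
      exacts [(mem_inter.1 h).1, (mem_filter.1 hj).2]
    · intro ha
      rcases mem_vs.1 (a0 (b4 ha)) with h | ⟨j, hj, rfl⟩
      exacts [.inl (mem_inter.2 ⟨ha, h⟩), .inr ⟨j, mem_filter.2 ⟨hj, ha⟩, rfl⟩]
  obtain ⟨a, ha⟩ := hU u ω h (s' ∩ fr A u) ((zs u).filter fun j => Finsupp.single j 2 ∈ s')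
    ⟨hu.1, hu.2.1, inter_subset_right, a2, fun a ha => a3 a (b4 (mem_inter.1 ha).1)
      (mem_inter.1 ha).2, fun j => (h3 j).1, a4, fun j hj => ⟨mem_zs.1 (mem_filter.1 hj).1,
        a5 j (mem_zs.1 (mem_filter.1 hj).1) (b4 (mem_filter.1 hj).2)⟩, h4⟩ hu.2.2.1 (by
      rw [e]
      refine contrib_of (a1.mono (coe_subset.2 b4)) (lam := lam) ?_
      rw [← hl, pp, sum_subset b1 fun a ha h' => by rw [b2 a ha h', zero_smul]])
  exact b3 a (e ▸ ha)

theorem min_sub (h0 : ∀ i, 0 ≤ u i) (h1 : ∀ a ∈ A, 1 ≤ dr a u) (P : Pack (fx A u))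
    {T : Finset σ} (hT : Val A (fr A u) (zs u) T) (hm : ∀ S ⊂ T, ¬ Val A (fr A u) (zs u) S) :
    T ⊆ P.J := fun j0 hj => by_contra fun hJ => by
  classical
  obtain ⟨w, h2, h3, hp⟩ : ∃ w : σ → ℝ, (∀ i, 0 < w i) ∧ (∀ a ∈ A, 1 ≤ dr a w) ∧
      Pairs (fr A w ∩ fr A u) (T.erase j0) := by
    by_contra! h
    exact hm _ (erase_ssubset hj) ⟨hT.1.mono subset_rfl (erase_subset _ _), h⟩
  obtain ⟨s, a0, ω, m, a1, a2, a3, a4, -, a6, a7, a8⟩ := maxX P.ν0 h3 (fun j => le_rfl) hp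
  refine claim2 P a0 hT.1 hj hJ a7 (not_lt.1 fun h4 => ?_) fun a ha h =>
    (a8 a ha h).imp fun i h => ⟨mem_of_mem_erase h.1, h.2⟩
  have ev : ∀ x t : ℝ, 0 < x → ∀ᶠ η in 𝓝[>] (0 : ℝ), 0 < x + η * t := fun x t hx =>
    (((by fun_prop : Continuous fun η : ℝ => x + η * t).tendsto' 0 x (by simp)).eventually
      (lt_mem_nhds hx)).filter_mono nhdsWithin_le_nhds
  have e1 : ∀ᶠ η in 𝓝[>] (0 : ℝ), ∀ i, 0 < u i + η * ω i := eventually_all.2 fun i => by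
    rcases (h0 i).eq_or_lt with h | h
    · filter_upwards [self_mem_nhdsWithin] with η hη
      rw [← h, zero_add]
      exact mul_pos hη ((h2 i).trans_le (a4 i h.symm))
    · exact ev _ _ h
  have e2 : ∀ᶠ η in 𝓝[>] (0 : ℝ), ∀ a ∈ A, 1 ≤ dr a u + η * dr a ω :=
    (eventually_all_finset A).2 fun a ha => by
      rcases (h1 a ha).eq_or_lt with h | h
      · filter_upwards [self_mem_nhdsWithin] with η hη
        linarith [mul_nonneg (le_of_lt hη) (a2 a (mem_fr.2 ⟨ha, h.symm⟩))]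
      · filter_upwards [ev _ (dr a ω) (sub_pos.2 h)] with η hη
        linarith
  obtain ⟨η, h5, h6⟩ := (e1.and e2).exists
  have e : ∀ a, dr a (fun i => u i + η * ω i) = dr a u + η * dr a ω := fun a => by
    simp only [dr, mul_add, sum_add_distrib, mul_sum, mul_left_comm]
  refine hT.2 _ h5 (fun a ha => e a ▸ h6 a ha) ⟨s ∩ fr A u, fun a ha => ?_,
    a1.mono (coe_subset.2 inter_subset_left), fun i hi => ?_⟩
  · obtain ⟨b1, b2⟩ := mem_inter.1 ha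
    exact mem_inter.2 ⟨mem_fr.2 ⟨(mem_fr.1 b2).1, by
      rw [e, a3 a b1 b2, (mem_fr.1 b2).2, mul_zero, add_zero]⟩, b2⟩
  · refine le_trans ?_ (card_le_card (s := s.filter fun a => a i ≠ 0) fun a ha => ?_)
    · by_cases h : i = j0
      exacts [h ▸ h4, a6 i (mem_erase.2 ⟨h, hi⟩)]
    · obtain ⟨b1, b2⟩ := mem_filter.1 ha
      exact mem_filter.2 ⟨mem_inter.2 ⟨b1, indep_real hT.1 hi (a0 b1) b2⟩, b2⟩

theorem t_HB : S_HB := by
  intro σ _ _ A α hU u hu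
  obtain ⟨P⟩ := exists_pack (X := fx A u) rfl (fun a ha => (mem_fr.1 ha).2) (fun j => mem_zs.1)
    fun i => by
      by_cases h : u i = 0
      · exact ⟨_, single_mem_vs _ (mem_zs.2 h), by simp⟩
      · exact (cover hu h).imp fun a ha => ⟨sub_vs _ _ ha.1, ha.2⟩
  refine ⟨P.S, val_star hU hu P, fun T h1 h2 => CB.indep_iff.2 fun a ha i hi h => ?_⟩
  have h3 := min_sub hu.1 hu.2.1 P h1 h2
  by_cases h4 : ∃ k ∈ P.S, a k ≠ 0
  · obtain ⟨k, h4, h5⟩ := h4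
    obtain rfl := P.same ha h4 (union_subset P.S0 h3 hi) h5 h
    exact ⟨(P.S1 i h4 a ha h).1, fun j hj => (P.S1 i h4 a ha h).2.2 j (union_subset P.S0 h3 hj)⟩
  · push Not at h4
    obtain ⟨h5, h6⟩ := h1.1.eq_one ha ((mem_union.1 hi).resolve_left fun e => h (h4 i e)) h
    exact ⟨h5, fun j hj e => (mem_union.1 hj).elim (h4 j) fun hj => h6 j hj e⟩

end Pool.Agent.P.MP_9321be_ag.NC
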