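import Pool.Agent.P.MP_9321be_ag.NC.ZDefs
import Pool.Agent.P.MP_9321be_ag.ND.ETool

/-!
Generic points and the maximum principle for tight simplices.
-/

namespace Pool.Agent.P.MP_9321be_ag.NC

open Set Filter Topology ND ND.E Pointwise

theorem avoid {V κ : Type} [AddCommGroup V] [Module ℝ V] [TopologicalSpace V]
    [IsTopologicalAddGroup V] [ContinuousSMul ℝ V] {A : Set V}
    (hA : ∀ x ∈ A, ∀ y ∈ A, ∀ t : ℝ, x + t • (y - x) ∈ A) (φ : κ → V →ₗ[ℝ] ℝ)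
    (hφ : ∀ k, Continuous (φ k)) (s : Finset κ) (hs : ∀ k ∈ s, ∃ m ∈ A, φ k m ≠ 0) :
    ∀ U, IsOpen U → (A ∩ U).Nonempty → ∃ x ∈ A ∩ U, ∀ k ∈ s, φ k x ≠ 0 := by
  classical
  induction s using Finset.induction_on with
  | empty => exact fun U _ ⟨x, hx⟩ => ⟨x, hx, by simp⟩
  | insert k s _ ih =>
    rintro U hU ⟨x, h1, h2⟩
    obtain ⟨x, h3, h4⟩ := ih (fun k hk => hs k (Finset.mem_insert_of_mem hk)) (U ∩ {x | φ k x ≠ 0})
      (hU.inter (isOpen_ne_fun (hφ k) continuous_const)) (by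
      by_cases h : φ k x = 0
      · obtain ⟨m, h3, h4⟩ := hs k (Finset.mem_insert_self _ _)
        have c : Continuous fun t : ℝ => x + t • (m - x) := by fun_prop
        obtain ⟨t, h5, h6⟩ := (((c.tendsto' 0 x (by simp)).eventually (hU.mem_nhds h2)).filter_mono
          (nhdsWithin_le_nhds (s := Ioi 0))).and self_mem_nhdsWithin |>.exists
        exact ⟨_, hA x h1 m h3 t, h5, by simpa [h, h4] using (ne_of_gt h6)⟩
      · exact ⟨x, h1, h2, h⟩)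
    exact ⟨x, ⟨h3.1, h3.2.1⟩, Finset.forall_mem_insert _ _ _ |>.2 ⟨h3.2.2, h4⟩⟩

namespace Mx

variable {ι σ κ : Type} [Fintype ι] [DecidableEq ι] [Fintype σ] (v : ι → σ → ℝ) {μ : ι → ℝ}

/-- The pairing with the family. -/
def Φ : (σ → ℝ) →ₗ[ℝ] (ι → ℝ) := LinearMap.pi fun a => dotProductBilin ℝ ℝ (v a)

omit [DecidableEq ι] in
theorem box (hμ : ∀ a, 0 < μ a) (C : ℝ) : IsCompact {s : ι → ℝ | 0 ≤ s ∧ μ ⬝ᵥ s ≤ C} := by
  refine (isCompact_Icc (a := 0) (b := fun a => C / μ a)).of_isClosed_subset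
    ((isClosed_le continuous_const continuous_id).inter
      (isClosed_le (by fun_prop : Continuous fun s : ι → ℝ => μ ⬝ᵥ s) continuous_const))
    fun s hs => ⟨hs.1, fun a => (le_div_iff₀' (hμ a)).2 (le_trans ?_ hs.2)⟩
  exact Finset.single_le_sum (f := fun a => μ a * s a) (fun a _ => mul_nonneg (hμ a).le (hs.1 a))
    (Finset.mem_univ a)

/-- The heights for which `T` is tight at a point of bounded cost. -/
def Feas (μ : ι → ℝ) (C : ℝ) (T : Finset ι) : Set (ι → ℝ) :=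
  {H | ∃ ω, (0 ≤ Φ v ω + H ∧ μ ⬝ᵥ (Φ v ω + H) ≤ C) ∧ ∀ a ∈ T, (Φ v ω + H) a = 0}

omit [DecidableEq ι] in
theorem feas_closed (hμ : ∀ a, 0 < μ a) (C : ℝ) (T : Finset ι) : IsClosed (Feas v μ C T) := by
  have h := (LinearMap.range (Φ v)).closed_of_finiteDimensional.add_left_of_isCompact
    ((box hμ C).inter_right (t := {s | ∀ a ∈ T, s a = 0}) (by
      simp only [Set.ofPred_forall]
      exact isClosed_iInter fun a => isClosed_iInter fun _ =>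
        isClosed_eq (continuous_apply a) continuous_const))
  convert h using 1
  ext H
  constructor
  · rintro ⟨ω, h⟩
    exact ⟨_, h, Φ v (-ω), ⟨_, rfl⟩, by simp⟩
  · rintro ⟨s, h, _, ⟨ω, rfl⟩, rfl⟩
    exact ⟨-ω, by simpa using h⟩

theorem max0 (hμ : ∀ a, 0 < μ a) (H : ι → ℝ) (T : Finset κ) (c : κ → ι → Prop)
    [∀ i, DecidablePred (c i)]
    (hind : ∀ ω (s : Finset ι), (∀ a ∈ s, (Φ v ω + H) a = 0) → LinearIndepOn ℝ v (s : Set ι))
    {C : ℝ} {τ : Finset ι} (h0 : H ∈ Feas v μ C τ) (hτ : ∀ i ∈ T, 2 ≤ (τ.filter (c i)).card) :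
    ∃ s : Finset ι, H ∈ Feas v μ C s ∧ (∀ i ∈ T, 2 ≤ (s.filter (c i)).card) ∧ ∃ w : ι → ℝ,
      ∑ a ∈ s, w a • v a = ∑ a, μ a • v a ∧
        ∀ a ∈ s, w a < 0 → ∃ i ∈ T, c i a ∧ (s.filter (c i)).card = 2 := by
  classical
  let Q : (ι → ℝ) → Prop := fun s => ∀ i ∈ T, ∃ a b, a ≠ b ∧ c i a ∧ c i b ∧ s a = 0 ∧ s b = 0
  have hQ : ∀ (s : ι → ℝ) (τ : Finset ι), (∀ a ∈ τ, s a = 0) →
      (∀ i ∈ T, 2 ≤ (τ.filter (c i)).card) → Q s := fun s τ h h' i hi => by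
    obtain ⟨a, ha, b, hb, e⟩ := Finset.one_lt_card.1 (h' i hi)
    rw [Finset.mem_filter] at ha hb
    exact ⟨a, b, e, ha.2, hb.2, h a ha.1, h b hb.1⟩
  have hc : IsCompact ({s : ι → ℝ | 0 ≤ s ∧ μ ⬝ᵥ s ≤ C} ∩
      ({s | s - H ∈ LinearMap.range (Φ v)} ∩ {s | Q s})) := by
    refine (box hμ C).inter_right (((LinearMap.range (Φ v)).closed_of_finiteDimensional.preimage
      (by fun_prop : Continuous fun s : ι → ℝ => s - H)).inter ?_)
    simp only [Q, Set.ofPred_forall, Set.ofPred_exists]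
    exact isClosed_iInter fun i => isClosed_iInter fun _ => isClosed_iUnion_of_finite fun a =>
      isClosed_iUnion_of_finite fun b => isClosed_const.inter (isClosed_const.inter
        (isClosed_const.inter ((isClosed_eq (continuous_apply a) continuous_const).inter
          (isClosed_eq (continuous_apply b) continuous_const))))
  obtain ⟨ω0, h1, h2⟩ := h0
  obtain ⟨s, ⟨h3, ⟨ω, h4⟩, h5⟩, h6⟩ := hc.exists_isMinOn ⟨_, h1, ⟨ω0, by simp⟩, hQ _ τ h2 hτ⟩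
    (f := fun s => μ ⬝ᵥ s) (by fun_prop)
  obtain rfl : s = Φ v ω + H := by rw [h4]; simp
  set s := Finset.univ.filter fun a => (Φ v ω + H) a = 0 with hs
  have hm : ∀ a, a ∈ s ↔ (Φ v ω + H) a = 0 := fun a => by simp [hs]
  have hp : ∀ d, (∑ a, μ a • v a) ⬝ᵥ d = μ ⬝ᵥ Φ v d := fun d => by
    simp only [sum_dotProduct, smul_dotProduct, smul_eq_mul]
    rfl
  have move : ∀ d, (∀ a ∈ s, 0 ≤ v a ⬝ᵥ d) →
      (∀ i ∈ T, 2 ≤ ((s.filter fun a => v a ⬝ᵥ d = 0).filter (c i)).card) →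
      0 ≤ (∑ a, μ a • v a) ⬝ᵥ d := fun d d1 d2 => not_lt.1 fun d3 => by
    have e : ∀ᶠ t in 𝓝[>] (0 : ℝ), ∀ a, 0 ≤ (Φ v ω + H) a + t * (v a ⬝ᵥ d) := by
      refine eventually_all.2 fun a => ?_
      by_cases ha : a ∈ s
      · filter_upwards [self_mem_nhdsWithin] with t ht
        exact add_nonneg (h3.1 a) (mul_nonneg (le_of_lt ht) (d1 a ha))
      · have c : Continuous fun t : ℝ => (Φ v ω + H) a + t * (v a ⬝ᵥ d) := by fun_prop
        exact ((c.tendsto' 0 _ (by simp)).eventually (lt_mem_nhds (lt_of_le_of_ne (h3.1 a)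
          fun e => ha ((hm a).2 e.symm)))).filter_mono nhdsWithin_le_nhds |>.mono fun _ => le_of_lt
    obtain ⟨t, t1, t2⟩ := (e.and self_mem_nhdsWithin).exists
    have t3 : μ ⬝ᵥ (Φ v ω + H + t • Φ v d) < μ ⬝ᵥ (Φ v ω + H) := by
      rw [dotProduct_add _ _ (t • _), dotProduct_smul, ← hp, smul_eq_mul]
      linarith [mul_neg_of_pos_of_neg t2 d3]
    refine t3.not_ge (h6 ⟨⟨t1, t3.le.trans h3.2⟩, ⟨ω + t • d, by simp; abel⟩, hQ _ _ (fun a ha => ?_) d2⟩)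
    obtain ⟨h7, h8⟩ := Finset.mem_filter.1 ha
    change (Φ v ω + H) a + t * (v a ⬝ᵥ d) = 0
    rw [(hm a).1 h7, h8, mul_zero, add_zero]
  have h7 : ∀ i ∈ T, 2 ≤ (s.filter (c i)).card := fun i hi => by
    obtain ⟨a, b, e, h7, h8, h9, h10⟩ := h5 i hi
    exact Finset.one_lt_card.2 ⟨a, Finset.mem_filter.2 ⟨(hm a).2 h9, h7⟩, b,
      Finset.mem_filter.2 ⟨(hm b).2 h10, h8⟩, e⟩
  have h8 : ∀ d, (∀ a ∈ s, v a ⬝ᵥ d = 0) → 0 ≤ (∑ a, μ a • v a) ⬝ᵥ d := fun d hd =>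
    move d (fun a ha => (hd a ha).ge) (by rwa [Finset.filter_true_of_mem hd])
  obtain ⟨w, hw⟩ := (Submodule.mem_span_image_finset_iff_exists_fun' ℝ).1
    (Tool.mem_span_of_perp (τ := s) fun d hd => le_antisymm (by
      simpa using h8 (-d) (by simpa using hd)) (h8 d hd))
  refine ⟨s, ⟨ω, h3, fun a => (hm a).1⟩, h7, w, hw, fun a ha h9 => by_contra fun h10 => ?_⟩
  obtain ⟨L, hL, -⟩ := Tool.exists_dual (hind ω s fun a => (hm a).1)
  have h11 := move (L (Pi.single a 1)) (fun b hb => by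
    rw [hL _ b hb, Pi.single_apply]
    split_ifs <;> norm_num) fun i hi => by
      have e : (s.filter fun b => v b ⬝ᵥ L (Pi.single a 1) = 0).filter (c i) =
          (s.filter (c i)).erase a := by
        ext b
        simp only [Finset.mem_filter, Finset.mem_erase]
        constructor
        · rintro ⟨⟨b1, b2⟩, b3⟩
          exact ⟨by simpa [hL _ b b1, Pi.single_apply] using b2, b1, b3⟩
        · rintro ⟨b1, b2, b3⟩
          exact ⟨⟨b2, by simp [hL _ b b2, b1]⟩, b3⟩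
      have := h7 i hi
      rw [e, Finset.card_erase_eq_ite]
      split_ifs with h
      · have : (s.filter (c i)).card ≠ 2 := fun e => h10 ⟨i, hi, (Finset.mem_filter.1 h).2, e⟩
        omega
      · exact this
  rw [← hw, sum_dotProduct, Finset.sum_eq_single_of_mem a ha fun b hb hne => by
    simp [hL _ b hb, hne]] at h11
  simp [hL _ a ha] at h11
  linarith

theorem gmax (hμ : ∀ a, 0 < μ a) (H : ι → ℝ) (T : Finset κ) (c : κ → ι → Prop)
    [∀ i, DecidablePred (c i)] {τ : Finset ι} (hi : LinearIndepOn ℝ v (τ : Set ι)) {ω0 : σ → ℝ}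
    (h0 : 0 ≤ Φ v ω0 + H) (h1 : ∀ a ∈ τ, (Φ v ω0 + H) a = 0)
    (hτ : ∀ i ∈ T, 2 ≤ (τ.filter (c i)).card) :
    ∃ (s : Finset ι) (ω : σ → ℝ) (w : ι → ℝ), LinearIndepOn ℝ v (s : Set ι) ∧ 0 ≤ Φ v ω + H ∧
      (∀ a ∈ s, (Φ v ω + H) a = 0) ∧ (∀ i ∈ T, 2 ≤ (s.filter (c i)).card) ∧
      ∑ a ∈ s, w a • v a = ∑ a, μ a • v a ∧
        ∀ a ∈ s, w a < 0 → ∃ i ∈ T, c i a ∧ (s.filter (c i)).card = 2 := by
  classical
  have : ∀ ρ : {ρ : Finset ι // ¬ LinearIndepOn ℝ v (ρ : Set ι)}, ∃ m : ι → ℝ,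
      (∀ a ∉ ρ.1, m a = 0) ∧ ∑ a, m a • v a = 0 ∧ ∃ a ∉ τ, m a ≠ 0 := fun ρ => by
    obtain ⟨m, h1, a, ha, h2⟩ := (not_linearIndepOn_finset_iff).1 ρ.2
    have e : ∑ a, (if a ∈ ρ.1 then m a else 0) • v a = 0 := by
      simpa [ite_smul, Finset.sum_ite_mem] using h1
    refine ⟨fun a => if a ∈ ρ.1 then m a else 0, fun a ha => if_neg ha, e, ?_⟩
    by_contra! hn
    refine h2 ?_
    by_cases has : a ∈ τ
    · have := linearIndepOn_finset_iff.1 hi (fun a => if a ∈ ρ.1 then m a else 0) (by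
        rw [← e]
        exact Finset.sum_subset (Finset.subset_univ _) fun b _ hb => by
          rw [hn b hb, zero_smul]) a has
      simpa [ha] using this
    · simpa [ha] using hn a has
  choose m m0 m1 m2 using this
  set C := μ ⬝ᵥ (Φ v ω0 + H) + 1
  let U : Set (ι → ℝ) := (⋂ ρ : {ρ // H ∉ Feas v μ C ρ}, (Feas v μ C ρ)ᶜ) ∩
    {H' | μ ⬝ᵥ (Φ v ω0 + H') < C}
  have hU : IsOpen U := (isOpen_iInter_of_finite fun ρ => (feas_closed v hμ C _).isOpen_compl).inter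
    (isOpen_lt (by fun_prop : Continuous fun H' : ι → ℝ => μ ⬝ᵥ (Φ v ω0 + H')) continuous_const)
  obtain ⟨H', ⟨h2, ⟨h3, h4⟩, h5⟩, h6⟩ := avoid (A := {H' | ∀ a ∈ τ, H' a = H a})
    (fun x hx y hy t a ha => by simp [hx a ha, hy a ha]) (fun ρ => dotProductBilin ℝ ℝ (m ρ))
    (fun ρ => LinearMap.continuous_of_finiteDimensional _) Finset.univ (fun ρ _ => by
      obtain ⟨a, ha, h2⟩ := m2 ρ
      by_cases h : m ρ ⬝ᵥ H = 0
      · exact ⟨H + Pi.single a 1, fun b hb => by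
          simp [Pi.single_eq_of_ne (fun e : b = a => ha (e ▸ hb))], by simpa [h] using h2⟩
      · exact ⟨H, fun _ _ => rfl, h⟩) (U ∩ {H' | ∀ a ∉ τ, H a < H' a})
    (hU.inter (by
      simp only [Set.ofPred_forall]
      exact isOpen_iInter_of_finite fun a => isOpen_iInter_of_finite fun _ =>
        isOpen_lt continuous_const (continuous_apply a))) (by
      have c : Continuous fun t : ℝ => fun a => H a + if a ∈ τ then 0 else t :=
        continuous_pi fun a => by split_ifs <;> fun_prop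
      obtain ⟨t, h5, h6⟩ := (((c.tendsto' 0 H (by simp)).eventually (hU.mem_nhds
        ⟨mem_iInter.2 fun ρ => ρ.2, lt_add_one (μ ⬝ᵥ (Φ v ω0 + H))⟩)).filter_mono
          (nhdsWithin_le_nhds (s := Ioi 0))).and self_mem_nhdsWithin |>.exists
      exact ⟨_, fun a ha => by simp [ha], h5, fun a ha => by simpa [ha] using h6⟩)
  have hind : ∀ ω (s : Finset ι), (∀ a ∈ s, (Φ v ω + H') a = 0) → LinearIndepOn ℝ v (s : Set ι) :=
    fun ω s h => by_contra fun hn => h6 ⟨s, hn⟩ (Finset.mem_univ _) (by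
      have e1 : m ⟨s, hn⟩ ⬝ᵥ Φ v ω = 0 := by
        have := congrArg (· ⬝ᵥ ω) (m1 ⟨s, hn⟩)
        simp only [sum_dotProduct, smul_dotProduct, zero_dotProduct, smul_eq_mul] at this
        exact this
      have e2 : m ⟨s, hn⟩ ⬝ᵥ (Φ v ω + H') = 0 := Finset.sum_eq_zero fun a _ => by
        by_cases ha : a ∈ s
        · rw [h a ha, mul_zero]
        · rw [m0 _ a ha, zero_mul]
      rwa [dotProduct_add, e1, zero_add] at e2)
  obtain ⟨s, ⟨ω', h7⟩, h8, w, h9⟩ := max0 v hμ H' T c hind (C := C) ⟨ω0, ⟨fun a => by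
    refine (h0 a).trans (add_le_add le_rfl ?_)
    by_cases ha : a ∈ τ
    exacts [(h2 a ha).ge, (h5 a ha).le], le_of_lt h4⟩, fun a ha => by
      rw [← h1 a ha, Pi.add_apply, Pi.add_apply, h2 a ha]⟩ hτ
  obtain ⟨ω, h10⟩ : H ∈ Feas v μ C s := by_contra fun h => mem_iInter.1 h3 ⟨s, h⟩ ⟨ω', h7⟩
  exact ⟨s, ω, w, hind ω' s h7.2, h10.1.1, h10.2, h8, h9⟩

end Mx

variable {σ : Type} [Fintype σ] [DecidableEq σ]

theorem gmax {X τ : Finset (σ →₀ ℕ)} {μ : (σ →₀ ℕ) → ℝ} (hμ : ∀ a ∈ X, 0 < μ a)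
    (H : (σ →₀ ℕ) → ℝ) (T : Finset σ) (hX : τ ⊆ X) (hi : LinearIndepOn ℝ vr (τ : Set (σ →₀ ℕ)))
    {ω0 : σ → ℝ} (h0 : ∀ a ∈ X, 0 ≤ dr a ω0 + H a) (h1 : ∀ a ∈ τ, dr a ω0 + H a = 0)
    (hτ : ∀ i ∈ T, 2 ≤ (τ.filter fun a => a i ≠ 0).card) :
    ∃ s ⊆ X, ∃ (ω : σ → ℝ) (w : (σ →₀ ℕ) → ℝ), LinearIndepOn ℝ vr (s : Set (σ →₀ ℕ)) ∧
      (∀ a ∈ X, 0 ≤ dr a ω + H a) ∧ (∀ a ∈ s, dr a ω + H a = 0) ∧
      (∀ i ∈ T, 2 ≤ (s.filter fun a => a i ≠ 0).card) ∧ pp s w = pp X μ ∧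
        ∀ a ∈ s, w a < 0 → ∃ i ∈ T, a i ≠ 0 ∧ (s.filter fun a => a i ≠ 0).card = 2 := by
  have hc : ∀ (s : Finset X) i, ((s.map (Function.Embedding.subtype _)).filter
      fun a => a i ≠ 0).card = (s.filter fun a => a.1 i ≠ 0).card := fun s i => by
    rw [Finset.filter_map, Finset.card_map]
    rfl
  have e : (τ.subtype (· ∈ X)).map (Function.Embedding.subtype _) = τ :=
    Finset.subtype_map_of_mem hX
  obtain ⟨s, ω, w, a1, a2, a3, a4, a5, a6⟩ := Mx.gmax (fun a : X => vr a.1) (μ := fun a => μ a)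
    (fun a => hμ a a.2) (fun a => H a) T (fun i a => a.1 i ≠ 0) (τ := τ.subtype (· ∈ X))
    (LinearIndepOn.comp_of_image (f := Subtype.val) (by
      rw [← e, Finset.coe_map] at hi; exact hi) Subtype.val_injective.injOn) (ω0 := ω0)
    (fun a => h0 a a.2) (fun a ha => h1 a (Finset.mem_subtype.1 ha))
    fun i hi => by rw [← hc, e]; exact hτ i hi
  refine ⟨s.map (Function.Embedding.subtype _), fun a ha => ?_, ω,
    fun a => if h : a ∈ X then w ⟨a, h⟩ else 0, ?_, fun a ha => a2 ⟨a, ha⟩, fun a ha => ?_,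
    fun i hi => hc s i ▸ a4 i hi, ?_, fun a ha h => ?_⟩
  · obtain ⟨a, -, rfl⟩ := Finset.mem_map.1 ha
    exact a.2
  · rw [Finset.coe_map]
    exact LinearIndepOn.image_of_comp _ _ a1
  · obtain ⟨b, hb, rfl⟩ := Finset.mem_map.1 ha
    exact a3 b hb
  · rw [pp, pp, ← Finset.sum_coe_sort X, ← a5, Finset.sum_map]
    exact Finset.sum_congr rfl fun a _ => by simp
  · obtain ⟨b, hb, rfl⟩ := Finset.mem_map.1 ha
    simp only [hc]
    exact a6 b hb (by simpa using h)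

theorem exists_genH (A : Finset (σ →₀ ℕ)) {c : σ → ℝ} (hc : ∀ j, 0 < c j) :
    ∃ h : σ → ℝ, (∀ j, 0 < h j ∧ h j < c j) ∧ GenH A h := by
  classical
  have : ∀ p : Finset (σ →₀ ℕ) × Finset σ, ∃ κ : σ → ℝ, (∃ m κ, Rel p.1 p.2 m κ ∧ κ ≠ 0) →
      (∃ m, Rel p.1 p.2 m κ) ∧ κ ≠ 0 := fun p => by
    by_cases h : ∃ m κ, Rel p.1 p.2 m κ ∧ κ ≠ 0
    · obtain ⟨m, κ, h1, h2⟩ := h
      exact ⟨κ, fun _ => ⟨⟨m, h1⟩, h2⟩⟩
    · exact ⟨0, fun h' => (h h').elim⟩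
  choose κ hκ using this
  obtain ⟨h, ⟨-, h1⟩, h2⟩ := avoid (A := univ) (fun _ _ _ _ _ => trivial)
    (fun p => dotProductBilin ℝ ℝ (κ p)) (fun _ => LinearMap.continuous_of_finiteDimensional _)
    ((A.powerset ×ˢ Finset.univ).filter fun p => κ p ≠ 0)
    (fun p hp => ⟨κ p, trivial, by simpa using (Finset.mem_filter.1 hp).2⟩)
    {h | ∀ j, 0 < h j ∧ h j < c j} (by
      simp only [Set.ofPred_forall, Set.ofPred_and]
      exact isOpen_iInter_of_finite fun j => (isOpen_lt continuous_const (continuous_apply j)).inter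
        (isOpen_lt (continuous_apply j) continuous_const))
    ⟨fun j => c j / 2, trivial, fun j => ⟨half_pos (hc j), half_lt_self (hc j)⟩⟩
  refine ⟨h, h1, fun T hT J H m k hr => by_contra fun hk => ?_⟩
  obtain ⟨⟨m', h3⟩, h4⟩ := hκ (T, J) ⟨m, k, hr, hk⟩
  exact h2 (T, J) (by simp [hT, h4]) (H m' _ h3)

end Pool.Agent.P.MP_9321be_ag.NC
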