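import Pool.Agent.P.MP_9321be_ag.NC.CMax
import Pool.Agent.P.MP_9321be_ag.ND.CBState

/-!
The linear program on a face with virtual exponents.
-/

namespace Pool.Agent.P.MP_9321be_ag.NC

open Finset Filter Topology ND ND.CB ND.E

variable {σ : Type} [Fintype σ] [DecidableEq σ] {Y : Finset (σ →₀ ℕ)} {Z : Finset σ}

theorem exists_setup' {X : Finset (σ →₀ ℕ)} (hX : X = vs Y Z)
    (hd : ∀ j ∈ Z, Finsupp.single j 2 ∉ Y) (ht : ∀ i, ∃ a ∈ X, a i ≠ 0) :
    ∃ (D : Setup X) (μ : (σ →₀ ℕ) → ℚ) (y : σ → ℚ) (N : ℚ), D.Adm X μ ∧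
      (∀ a ∈ X, 0 < μ a) ∧ 0 < N ∧ (∀ j, 0 ≤ y j) ∧ (∀ j ∈ Z, y j = 0) ∧
      (∀ j, y j ≠ 0 → j ∈ D.E) ∧ (∀ a, D.g a = if a ∈ Y then N * (1 - y ⬝ᵥ vec a) else 0) ∧
      ∀ a ∈ X, D.g a < 1 → D.g a = 0 := by
  classical
  let F : (σ → ℚ) → Prop := fun y => (∀ i, 0 ≤ y i) ∧ ∀ a ∈ X, y ⬝ᵥ vec a ≤ 1
  let τ : (σ → ℚ) → (σ → Prop) × (X → Prop) := fun y => (fun i => y i = 0, fun a => y ⬝ᵥ vec a = 1)
  let N : (σ → ℚ) → ℚ := fun y => 1 + ∑ a ∈ X, (1 - y ⬝ᵥ vec a)⁻¹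
  have hrep : ∀ b, ∃ y, (∃ y', F y' ∧ τ y' = b) → F y ∧ τ y = b := fun b => by
    by_cases h : ∃ y', F y' ∧ τ y' = b
    · obtain ⟨y, h⟩ := h
      exact ⟨y, fun _ => h⟩
    · exact ⟨0, fun h' => (h h').elim⟩
  choose rep hrep using hrep
  obtain ⟨ε, hε, h0⟩ := ev_ex (eventually_all.2 fun b => ev_pos (x := 1)
    (-(N (rep b) * ∑ a ∈ X, (1 - rep b ⬝ᵥ vec a))) one_pos)
  obtain ⟨y', l, h1, h2, h3, h4, h5⟩ := lp ht fun i =>
    if i ∈ Z then -1 else 1 - ε * PP X (fun _ => 1) i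
  obtain ⟨⟨hy0, hy1⟩, hτ⟩ := hrep (τ y') ⟨y', h1, rfl⟩
  have h0 := h0 (τ y')
  set y := rep (τ y')
  have hτ1 : ∀ i, y i = 0 ↔ y' i = 0 := fun i => iff_of_eq (congrFun (congrArg Prod.fst hτ) i)
  have hτ2 : ∀ a ∈ X, y ⬝ᵥ vec a = 1 ↔ y' ⬝ᵥ vec a = 1 := fun a ha =>
    iff_of_eq (congrFun (congrArg Prod.snd hτ) ⟨a, ha⟩)
  have hN : ∀ a ∈ X, 0 ≤ (1 - y ⬝ᵥ vec a)⁻¹ := fun a ha => inv_nonneg.2 (sub_nonneg.2 (hy1 a ha))
  have hN0 : 0 < N y := add_pos_of_pos_of_nonneg one_pos (sum_nonneg hN)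
  have hv : ∀ (a : σ →₀ ℕ) i, 0 ≤ y i * vec a i := fun a i =>
    mul_nonneg (hy0 i) (Nat.cast_nonneg _)
  have hP0 : ∀ (m : (σ →₀ ℕ) → ℚ), (∀ a, 0 ≤ m a) → ∀ i, 0 ≤ PP X m i := fun m h i => by
    simpa using PP_ge (X := X) (empty_subset _) h i
  have hyZ : ∀ j ∈ Z, y j = 0 := fun j hj => (hτ1 j).2 (by_contra fun h => by
    have := h5 j h
    rw [if_pos hj] at this
    linarith [hP0 l h2 j])
  have hP : PP X (fun a => if a ∈ X then l a + ε + if a ∈ Y then 0 else 1 else 0) =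
      PP X l + ε • PP X (fun _ => 1) + PP X fun a => if a ∈ Y then 0 else 1 := by
    rw [← map_smul, ← map_add, ← map_add, PP_eq, PP_eq]
    exact sum_congr rfl fun a ha => by simp [ha]
  have hP1 : ∀ j ∉ Z, PP X (fun a => if a ∈ Y then 0 else 1) j = 0 := fun j hj => by
    rw [PP_apply]
    refine sum_eq_zero fun a ha => ?_
    rcases mem_vs.1 (hX ▸ ha) with h | ⟨k, hk, rfl⟩
    · simp [h]
    · simp [Finsupp.single_eq_of_ne (fun e : j = k => hj (e ▸ hk))]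
  have hg : ∀ b ∈ X, N y * (1 - y ⬝ᵥ vec b) < 1 → y ⬝ᵥ vec b = 1 := fun b hb h => by
    by_contra h6
    have h7 : 0 < 1 - y ⬝ᵥ vec b := sub_pos.2 ((hy1 b hb).lt_of_ne h6)
    have h8 := mul_le_mul_of_nonneg_right
      ((single_le_sum hN hb).trans (le_add_of_nonneg_left zero_le_one)) h7.le
    rw [inv_mul_cancel₀ h7.ne'] at h8
    exact h.not_ge h8
  refine ⟨⟨univ.filter (y · ≠ 0), univ.filter (y · = 1),
    fun a => if a ∈ Y then N y * (1 - y ⬝ᵥ vec a) else 0, fun i => ?_,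
    fun a ha i hi h => ?_, fun a ha => ?_, fun b hb h k hk hj => ?_⟩,
    fun a => if a ∈ X then l a + ε + if a ∈ Y then 0 else 1 else 0, y, N y,
    ⟨fun a ha => if_neg ha, fun a => ?_, fun j => ?_, fun j hj => ?_, ?_⟩, fun a ha => ?_, hN0, hy0,
    hyZ, fun j hj => mem_filter.2 ⟨mem_univ _, hj⟩, fun _ => rfl, fun a ha h => ?_⟩
  · simp +contextual
  · have hi := (mem_filter.1 hi).2
    have h6 := hy1 a ha
    have h7 : (1 : ℚ) ≤ a i := by exact_mod_cast Nat.one_le_iff_ne_zero.2 h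
    have h8 : y ⬝ᵥ vec a = a i + ∑ j ∈ univ.erase i, y j * vec a j := by
      rw [dotProduct, ← add_sum_erase _ _ (mem_univ i), hi, one_mul, vec]
    have h9 : 0 ≤ ∑ j ∈ univ.erase i, y j * vec a j := sum_nonneg fun j _ => hv a j
    refine ⟨by exact_mod_cast (by linarith : (a i : ℚ) = 1), fun j hj hne => ?_, ?_⟩
    · have := (sum_eq_zero_iff_of_nonneg fun j _ => hv a j).1
        (by linarith : ∑ j ∈ univ.erase i, y j * vec a j = 0) j (by simp [hne])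
      simpa [vec, (mem_filter.1 hj).2] using this
    · rw [(by linarith : y ⬝ᵥ vec a = 1), sub_self, mul_zero, ite_self]
  · split_ifs
    exacts [mul_nonneg hN0.le (sub_nonneg.2 (hy1 a ha)), le_rfl]
  · have hb' : b ∈ Y := (mem_vs.1 (hX ▸ hb)).resolve_right (by
      rintro ⟨j, -, rfl⟩
      rw [Finsupp.single_apply] at hk
      split_ifs at hk
      omega)
    rw [if_pos hb'] at h
    have h6 := hg b hb h
    rw [dotProduct, sum_eq_single k (fun j _ hne => ?_) (by simp)] at h6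
    · simpa [vec, hk] using h6
    · by_cases h7 : y j = 0
      · simp [h7]
      · simp [vec, hj j (by simpa using h7) hne]
  · have := h2 a
    dsimp only
    split_ifs <;> linarith
  · rw [hP]
    have := h4 j
    simp only [Pi.add_apply, Pi.smul_apply, smul_eq_mul]
    by_cases hj : j ∈ Z
    · have h6 := PP_ge (X := X) (W := {Finsupp.single j 2}) (μ := fun a => if a ∈ Y then 0 else 1)
        (by simpa [hX] using single_mem_vs Y hj) (fun a => by split_ifs <;> norm_num) j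
      simp [hd j hj] at h6
      linarith [hP0 l h2 j, mul_nonneg hε.le (hP0 (fun _ => 1) (fun _ => zero_le_one) j)]
    · rw [if_neg hj] at this
      linarith [hP1 j hj]
  · rw [hP]
    have hj' := (mem_filter.1 hj).2
    have := h5 j fun e => hj' ((hτ1 j).2 e)
    rw [if_neg fun h => hj' (hyZ j h)] at this
    simp only [Pi.add_apply, Pi.smul_apply, smul_eq_mul]
    linarith [hP1 j fun h => hj' (hyZ j h)]
  · rw [FF_eq]
    refine (sum_le_sum (g := fun a => ε * (N y * (1 - y ⬝ᵥ vec a))) fun a ha => ?_).trans_lt ?_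
    · by_cases hY : a ∈ Y
      · simp only [if_pos ha, if_pos hY]
        by_cases h : y' ⬝ᵥ vec a = 1
        · simp [(hτ2 a ha).2 h]
        · rw [h3 a ha h, zero_add, add_zero]
      · simp only [if_neg hY, mul_zero]
        exact mul_nonneg hε.le (mul_nonneg hN0.le (sub_nonneg.2 (hy1 a ha)))
    · rw [← mul_sum, ← mul_sum]
      linarith
  · have := h2 a
    simp only [if_pos ha]
    split_ifs <;> linarith
  · dsimp only at h ⊢
    split_ifs at h ⊢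
    exacts [by rw [hg a ha h, sub_self, mul_zero], rfl]

theorem pp_apply (X : Finset (σ →₀ ℕ)) (μ : (σ →₀ ℕ) → ℝ) (j : σ) :
    pp X μ j = ∑ a ∈ X, μ a * a j := by simp [pp, vr]

theorem pp_dot (X : Finset (σ →₀ ℕ)) (μ : (σ →₀ ℕ) → ℝ) (q : σ → ℝ) :
    pp X μ ⬝ᵥ q = ∑ a ∈ X, μ a * dr a q := by
  simp only [pp, sum_dotProduct, smul_dotProduct, smul_eq_mul]
  rfl

theorem exists_pack {X : Finset (σ →₀ ℕ)} (hX : X = vs Y Z) {u : σ → ℝ} (h1 : ∀ a ∈ Y, dr a u = 1) (h0 : ∀ j ∈ Z, u j = 0)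
    (ht : ∀ i, ∃ a ∈ X, a i ≠ 0) : Nonempty (Pack X) := by
  classical
  obtain ⟨D, μ, y, N, a1, a2, a3, a4, a5, a6, a7, a8⟩ := exists_setup' hX (fun j hj h => by
    simpa [dr_single, h0 j hj] using h1 _ h) ht
  obtain ⟨W, ν, b1, g, b2⟩ := exists_gen subset_rfl a1
  obtain rfl : W = X := b1.antisymm fun a ha => b2 μ a1 a (a2 a ha)
  rename' W => X
  let q : σ → ℝ := fun j => u j - y j
  have hN : (0 : ℝ) < N := by exact_mod_cast a3
  have hs : ∀ a, dr a (fun j => (y j : ℝ)) + dr a q = dr a u := fun a => by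
    simp only [dr, q, ← sum_add_distrib]
    exact sum_congr rfl fun j _ => by ring
  have hq : ∀ a ∈ X, (D.g a : ℝ) = N * dr a q := fun a ha => by
    rw [a7]
    split_ifs with h
    · rw [eq_sub_iff_add_eq'.2 (hs a), h1 a h]
      simp [dr, dotProduct, vec, mul_comm]
    · obtain ⟨j, hj, rfl⟩ := (mem_vs.1 (hX ▸ ha)).resolve_left h
      simp [dr_single, q, h0 j hj, a5 j hj]
  have hp : ∀ j, pp X (fun a => ν a) j = PP X ν j := fun j => by simp [pp_apply, PP_apply]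
  let J := univ.filter fun j => PP X ν j = 1
  have hJ : ∀ j, j ∈ J ↔ PP X ν j = 1 := fun j => by simp [J]
  have : ∀ T : Finset (σ →₀ ℕ), ∃ (d : σ → ℝ) (m : (σ →₀ ℕ) → ℝ),
      (∃ x ∈ Submodule.span ℝ (vr '' (X : Set (σ →₀ ℕ))), (∀ j ∈ J, x j = 1) ∧
        x ∉ Submodule.span ℝ (vr '' (T : Set (σ →₀ ℕ)))) →
      (∀ a ∈ T, vr a ⬝ᵥ d = 0) ∧ (∀ j ∈ J, pp X m j = 1) ∧ pp X m ⬝ᵥ d ≠ 0 := fun T => by
    by_cases h : ∃ x ∈ Submodule.span ℝ (vr '' (X : Set (σ →₀ ℕ))), (∀ j ∈ J, x j = 1) ∧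
        x ∉ Submodule.span ℝ (vr '' (T : Set (σ →₀ ℕ)))
    · obtain ⟨x, h2, h3, h4⟩ := h
      obtain ⟨m, rfl⟩ := (Submodule.mem_span_image_finset_iff_exists_fun' ℝ).1 h2
      obtain ⟨d, h5⟩ := not_forall.1 (mt Tool.mem_span_of_perp h4)
      exact ⟨d, m, fun _ => ⟨(Classical.not_imp.1 h5).1, h3, (Classical.not_imp.1 h5).2⟩⟩
    · exact ⟨0, 0, fun h' => (h h').elim⟩
  choose d m hd using this
  let φ : (σ → ℝ) → ((σ →₀ ℕ) → ℝ) →ₗ[ℝ] ℝ := fun d => ∑ a ∈ X, dr a d • LinearMap.proj a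
  have hφ : ∀ d μ, φ d μ = pp X μ ⬝ᵥ d := fun d μ => by simp [φ, pp_dot, mul_comm]
  have hc : ∀ d, Continuous fun μ => pp X μ ⬝ᵥ d := fun d => by
    simp only [pp_dot]
    fun_prop
  obtain ⟨ν', ⟨c1, c2, c3, c4⟩, c5⟩ := avoid (A := {μ | ∀ j ∈ J, pp X μ j = 1})
    (fun x hx y hy t j hj => by
      have e1 := hx j hj
      have e2 := hy j hj
      simp only [pp_apply, Pi.add_apply, Pi.smul_apply, Pi.sub_apply, smul_eq_mul, add_mul, sub_mul,
        mul_assoc, sum_add_distrib, ← mul_sum, sum_sub_distrib] at e1 e2 ⊢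
      rw [e1, e2]
      ring) (fun T => φ (d T)) (fun T => (hc (d T)).congr fun μ => (hφ _ _).symm)
    (X.powerset.filter fun T => ∃ x ∈ Submodule.span ℝ (vr '' (X : Set (σ →₀ ℕ))),
      (∀ j ∈ J, x j = 1) ∧ x ∉ Submodule.span ℝ (vr '' (T : Set (σ →₀ ℕ))))
    (fun T hT => ⟨m T, (hd T (mem_filter.1 hT).2).2.1, hφ _ _ ▸ (hd T (mem_filter.1 hT).2).2.2⟩)
    {μ | (∀ a ∈ X, 0 < μ a) ∧ (∀ j ∉ J, 1 < pp X μ j) ∧ pp X μ ⬝ᵥ q < 1 / N} (by
      simp only [Set.ofPred_and, Set.ofPred_forall]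
      exact (isOpen_biInter_finset fun a _ => isOpen_lt continuous_const (continuous_apply a)).inter
        ((isOpen_iInter_of_finite fun j => isOpen_iInter_of_finite fun _ => isOpen_lt
          continuous_const (by simp only [pp_apply]; fun_prop)).inter
          (isOpen_lt (hc q) continuous_const)))
    ⟨fun a => ν a, fun j hj => by rw [hp, (hJ j).1 hj, Rat.cast_one],
      fun a ha => Rat.cast_pos.2 (g.pos a ha), fun j hj => by
        rw [hp]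
        exact_mod_cast (g.adm.2.2.1 j).lt_of_ne' (mt (hJ j).2 hj), by
      have h2 : ((FF X D.g ν : ℚ) : ℝ) < (1 : ℚ) := Rat.cast_lt.2 g.adm.2.2.2.2
      rw [FF_eq, Rat.cast_sum, sum_congr rfl fun a ha => by rw [Rat.cast_mul, hq a ha]] at h2
      rw [pp_dot, lt_div_iff₀ hN, sum_mul]
      exact (sum_congr rfl fun a _ => by ring).trans_lt (h2.trans_eq Rat.cast_one)⟩
  have hE : ∀ j ∈ D.E, j ∈ J := fun j hj => (hJ j).2 (g.adm.2.2.2.1 j hj)
  have hz : ∀ a ∈ X, D.g a = 0 ↔ dr a q = 0 := fun a ha => by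
    rw [← Rat.cast_eq_zero (α := ℝ), hq a ha, mul_eq_zero, or_iff_right hN.ne']
  refine ⟨⟨fun j => y j, q, 1 / N, ν', J, D.SS X ν, fun j => by exact_mod_cast a4 j,
    fun j hj => hE j (a6 j (by exact_mod_cast hj)), fun a ha => ?_, fun a ha h => ?_,
    fun a ha k hk => ?_, c2, c1, c3, c4, fun i hi => hE i (D.sub (Setup.mem_SS.1 hi).1),
    fun i hi a ha h => ?_, fun b hb h k hk h2 => ?_, fun T hT h x h2 h3 => by_contra fun h4 => ?_⟩⟩
  · have : (0 : ℝ) ≤ D.g a := by exact_mod_cast D.nonneg a ha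
    rw [hq a ha] at this
    exact nonneg_of_mul_nonneg_right this hN
  · refine (hz a ha).1 (a8 a ha ?_)
    rw [lt_div_iff₀' hN, ← hq a ha] at h
    exact_mod_cast h
  · rw [hs, h1 a ((mem_vs.1 (hX ▸ ha)).resolve_right ?_)]
    rintro ⟨j, -, rfl⟩
    rw [Finsupp.single_apply] at hk
    split_ifs at hk
    omega
  · have := D.one a ha i (Setup.mem_SS.1 hi).1 h
    exact ⟨this.1, (hz a ha).1 this.2.2, fun j hj hne => g.avoid hi ha h hne ((hJ j).1 hj)⟩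
  · exact Setup.mem_SS.2 ⟨D.apex b hb (by rw [(hz b hb).2 h]; exact one_pos) k hk
      fun j hj => h2 j (hE j hj), b, hb, by omega, fun j hne hj => h2 j ((hJ j).2 hj) hne⟩
  · refine c5 T (mem_filter.2 ⟨mem_powerset.2 hT, x, h2, h3, h4⟩) ?_
    obtain ⟨w, hw⟩ := (Submodule.mem_span_image_finset_iff_exists_fun' ℝ).1 h
    rw [hφ, ← hw, sum_dotProduct]
    exact sum_eq_zero fun a ha => by
      rw [smul_dotProduct, (hd T ⟨x, h2, h3, h4⟩).1 a ha, smul_zero]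

end Pool.Agent.P.MP_9321be_ag.NC
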