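import Pool.Agent.P.MP_9321be_ag.ND.ZDefs

/-!
The interface between the two halves in the non-convenient case.
-/

namespace Pool.Agent.P.MP_9321be_ag.NC

open MvPolynomial ND

variable {σ : Type} [Fintype σ] [DecidableEq σ]

/-- A linear relation between the exponents in `T` and the unit vectors in `J`. -/
def Rel (T : Finset (σ →₀ ℕ)) (J : Finset σ) (m : (σ →₀ ℕ) → ℝ) (κ : σ → ℝ) : Prop :=
  (∀ j ∉ J, κ j = 0) ∧ (∀ i, ∑ a ∈ T, m a * a i + κ i = 0) ∧ ∑ a ∈ T, m a = 0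

/-- Generic heights for the unit vectors. -/
def GenH (A : Finset (σ →₀ ℕ)) (h : σ → ℝ) : Prop :=
  ∀ T ⊆ A, ∀ J : Finset σ, (∀ m κ, Rel T J m κ → ∑ j, κ j * h j = 0) →
    ∀ m κ, Rel T J m κ → κ = 0

/-- The exponents in `s` together with the virtual exponents `2 e j`, `j ∈ J`. -/
noncomputable def vs (s : Finset (σ →₀ ℕ)) (J : Finset σ) : Finset (σ →₀ ℕ) :=
  s ∪ J.image fun j => Finsupp.single j 2

/-- `s` lies in a compact face inside the face of `u`, and `J` is a set of tight walls. -/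
structure Allowed (A : Finset (σ →₀ ℕ)) (u ω h : σ → ℝ) (s : Finset (σ →₀ ℕ)) (J : Finset σ) :
    Prop where
  u0 : ∀ i, 0 ≤ u i
  u1 : ∀ a ∈ A, 1 ≤ dr a u
  sub : s ⊆ fr A u
  w0 : ∀ a ∈ fr A u, 0 ≤ dr a ω
  w1 : ∀ a ∈ s, dr a ω = 0
  h0 : ∀ j, 0 < h j
  h1 : ∀ j, u j = 0 → h j ≤ ω j
  h2 : ∀ j ∈ J, u j = 0 ∧ ω j = h j
  gen : GenH A h

/-- `lam` is a monodromy eigenvalue at points of the zero set arbitrarily close to the origin. -/
def NearEig (f : MvPolynomial σ ℂ) (lam : ℂ) : Prop :=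
  ∀ U ∈ nhds (0 : σ → ℂ), ∃ x ∈ U, eval x f = 0 ∧ IsMonodromyEigenvalue f x lam

/-- The eigenvalue theorem. -/
def S_ENC : Prop :=
  ∀ (σ : Type) [Fintype σ] [DecidableEq σ] (f : MvPolynomial σ ℂ), coeff 0 f = 0 → Nondeg f →
    ∀ (u ω h : σ → ℝ) (s : Finset (σ →₀ ℕ)) (J : Finset σ) (α : ℚ),
    Allowed f.support u ω h s J → Contrib (vs s J) → (∀ a, ¬ UApex (vs s J) a) →
    ∑ i, u i = α → (∀ k : ℤ, α ≠ k) →
    NearEig f (Complex.exp (-(2 * Real.pi * Complex.I * α)))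

end Pool.Agent.P.MP_9321be_ag.NC
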