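import Pool.Agent.P.MP_9321be_ag.NC.EIface
import Pool.Agent.P.MP_9321be_ag.ND.ESmall
import Pool.Agent.P.MP_9321be_ag.ND.ETool

/-!
Toolbox for the tubes.
-/

namespace Pool.Agent.P.MP_9321be_ag.NC.E

open Pool.Agent.Lib.Helper83 Pool.Agent.P.MP_9321be_ag.ND.E Set Complex Filter

variable {α σ : Type} [Fintype α] [DecidableEq α] [Fintype σ] [DecidableEq σ]

omit [Fintype α] [DecidableEq α] [DecidableEq σ] in
lemma KL_down (v : α → σ → ℝ) (H₀ H₁ H₂ : α → ℝ) :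
    ∀ τ ∈ KL v H₀ H₁ H₂, ∀ ρ ⊆ τ, ρ ∈ KL v H₀ H₁ H₂ := by
  rintro τ ⟨u, ω₁, ω₂, h0, h1, h2, h3⟩ ρ hρ
  exact ⟨u, ω₁, ω₂, h0, h1, h2, fun a ha => h3 a (hρ ha)⟩

omit [Fintype α] [DecidableEq α] [Fintype σ] in
@[simp] lemma rv_inl (ex : α → σ → ℕ) (a : α) : rv (ex3 ex) (Sum.inl a) = rv ex a := rfl

omit [Fintype α] [DecidableEq α] [Fintype σ] in
lemma rv_inr (ex : α → σ → ℕ) (j : σ) : rv (ex3 ex) (Sum.inr j) = Pi.single j 2 := by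
  funext i
  by_cases h : i = j <;> simp [rv, ex3, h]

omit [Fintype α] [DecidableEq α] in
@[simp] lemma rv_inr_dot (ex : α → σ → ℕ) (j : σ) (y : σ → ℝ) :
    rv (ex3 ex) (Sum.inr j) ⬝ᵥ y = 2 * y j := by rw [rv_inr, single_dotProduct]

omit [Fintype α] [DecidableEq α] in
/-- The complex in explicit terms. -/
lemma mem_K3 {ex : α → σ → ℕ} {h : σ → ℝ} {h₂ : α → ℝ} {τ : Finset (α ⊕ σ)} :
    τ ∈ K3 ex h h₂ ↔ ∃ u ω₁ ω₂ : σ → ℝ, ((∀ a, 1 ≤ rv ex a ⬝ᵥ u) ∧ ∀ j, 0 ≤ u j) ∧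
      ((∀ a, rv ex a ⬝ᵥ u = 1 → 0 ≤ rv ex a ⬝ᵥ ω₁) ∧ ∀ j, u j = 0 → h j ≤ ω₁ j) ∧
      ((∀ a, rv ex a ⬝ᵥ u = 1 → rv ex a ⬝ᵥ ω₁ = 0 → 0 ≤ rv ex a ⬝ᵥ ω₂ + h₂ a) ∧
        ∀ j, u j = 0 → ω₁ j = h j → 0 ≤ ω₂ j) ∧
      (∀ a, Sum.inl a ∈ τ → rv ex a ⬝ᵥ u = 1 ∧ rv ex a ⬝ᵥ ω₁ = 0 ∧ rv ex a ⬝ᵥ ω₂ + h₂ a = 0) ∧
        ∀ j, Sum.inr j ∈ τ → u j = 0 ∧ ω₁ j = h j ∧ ω₂ j = 0 := by
  simp [K3, KL, io, add_neg_eq_zero]

omit [Fintype σ] [DecidableEq σ] in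
lemma wl_pos (h : σ → ℝ) (L t : ℝ) (j : σ) : 0 < wl h L t j := Real.exp_pos _

omit [Fintype σ] [DecidableEq σ] in
lemma wl_le (h : σ → ℝ) (L : ℝ) {t t' : ℝ} (j : σ) (ht : t ≤ t') : wl h L t j ≤ wl h L t' j :=
  Real.exp_le_exp.2 (by linarith)

omit [Fintype σ] [DecidableEq σ] in
lemma wl_lt (h : σ → ℝ) (L : ℝ) {t t' : ℝ} (j : σ) (ht : t < t') : wl h L t j < wl h L t' j :=
  Real.exp_lt_exp.2 (by linarith)

omit [Fintype σ] [DecidableEq σ] in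
lemma wl_add (h : σ → ℝ) (L t t' : ℝ) (j : σ) : wl h L (t + t') j = Real.exp t' * wl h L t j := by
  rw [wl, wl, ← Real.exp_add]; congr 1; ring

omit [DecidableEq σ] in
/-- The walls shrink to the origin. -/
lemma wl_small {h : σ → ℝ} (hh : ∀ j, 0 < h j) (t : ℝ) {ε : ℝ} (hε : 0 < ε) :
    ∀ᶠ L in atTop, ∀ j, wl h L t j < ε :=
  eventually_all.2 fun j => (Real.tendsto_exp_atBot.comp (tendsto_atBot_add_const_left _ t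
    (tendsto_neg_atTop_atBot.comp (tendsto_id.atTop_mul_const (hh j))))).eventually_lt_const hε

omit [DecidableEq α] [DecidableEq σ] in
lemma XX_mono (ex : α → σ → ℕ) (c : α → ℂ) (h : σ → ℝ) (L D : ℝ) {W W' η η' : ℝ} (hW : W ≤ W')
    (h0 : 0 < η) (hη : η ≤ η') : XX ex c h L D W η ⊆ XX ex c h L D W' η' :=
  fun _ ⟨h1, h2, h3, h4⟩ => ⟨h1.trans_le hη, h2.trans_le (Real.log_le_log h0 hη),
    fun j => ⟨(h3 j).1.trans_le (wl_le h L j (by linarith)), (h3 j).2.1.trans_le hW,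
      fun e => (h3 j).2.2 ((wl_le h L j (by linarith)).trans_lt e)⟩,
    fun e => h4 fun j => (e j).trans (wl_le h L j (by linarith))⟩

omit [Fintype σ] [DecidableEq σ] in
@[fun_prop] lemma T3_cont : Continuous (T3 : ZZ σ → ZZ σ) := by unfold T3; fun_prop

omit [DecidableEq α] [DecidableEq σ] in
lemma T3_maps (ex : α → σ → ℕ) (c : α → ℂ) (h : σ → ℝ) (L D W η : ℝ) :
    MapsTo T3 (XX ex c h L D W η) (XX ex c h L D W η) := fun _ ⟨h1, h2, h3, h4⟩ =>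
  ⟨h1, by simpa [T3, dk] using h2, h3, fun e => by simpa [T3, dk, exp_add] using h4 e⟩

lemma EigD.mono {Y : Type} [TopologicalSpace Y] {k : ℕ} {T : Y → Y} {lam : ℂ}
    {S₁ S₂ S₁' S₂' : Set Y} (h : EigD k T lam S₁ S₂) (h₁ : S₁ ⊆ S₁') (h₂ : S₂' ⊆ S₂) :
    EigD k T lam S₁' S₂' := by
  obtain ⟨N, φ, a, b, z, hz, c⟩ := h
  exact ⟨N, φ, fun c hc => a c (sub_mono h₂ hc), fun z hz => b z (sub_mono h₂ hz),
    z, sub_mono h₁ hz, c⟩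

theorem t_TRD : S_TRD := by
  rintro Y Y' _ _ _ k T T' lam S₁ S₂ S₁' S₂' g h H hT mT hg mg hh mh e hH mH h0 h1
    ⟨N, φ, k1, k2, z, hz, hb, hne⟩
  refine ⟨N, φ ∘ₗ push h, fun c hc => ?_, fun c hc hc0 => ?_, push g z, push_mem mg hz, ?_, ?_⟩
  · rw [LinearMap.comp_apply, ← bd_push hh hc]
    exact k1 _ (push_mem mh hc)
  · rw [LinearMap.comp_apply, Sml.Tl_pow hT mT hh e N hc]
    exact k2 _ (push_mem mh hc) (by rw [bd_push hh hc, hc0, map_zero])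
  · rw [bd_push hg hz, hb, map_zero]
  · have := k1 _ (Pri_mem mH hz)
    rw [eq_sub_of_add_eq (bd_Pri hH hz), hb, map_zero, sub_zero, push_eq_self h0 hz,
      push_congr (g' := h ∘ g) h1 hz, map_sub, sub_eq_zero] at this
    rwa [LinearMap.comp_apply, push_push h hg hz, this]

end Pool.Agent.P.MP_9321be_ag.NC.E
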