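import Pool.Agent.P.MP_9321be_ag.NC.EBas
import Pool.Agent.P.MP_9321be_ag.ND.EKCl

/-!
Links of interior faces of the three level complex are complete.
-/

namespace Pool.Agent.P.MP_9321be_ag.NC.E

open Pool.Agent.P.MP_9321be_ag.ND.E Set Filter Topology

namespace Cl3

variable {α σ : Type} [Fintype α] [DecidableEq α] [Fintype σ]

omit [Fintype α] [DecidableEq α] in
/-- The feasible region of an interior face is compact. -/
theorem compact (v : α → σ → ℝ) (b : α → ℝ) (ρ : Finset α) (l : σ → ℝ) (hv : ∀ a i, 0 ≤ v a i)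
    (hint : Intr v ρ) (hl : ∀ q : σ → ℝ, (∀ a, 0 ≤ v a ⬝ᵥ q + b a) → ∀ i, l i ≤ q i) :
    IsCompact {q : σ → ℝ | (∀ a ∈ ρ, v a ⬝ᵥ q + b a = 0) ∧ ∀ a, 0 ≤ v a ⬝ᵥ q + b a} := by
  have hcl : IsClosed {q : σ → ℝ | (∀ a ∈ ρ, v a ⬝ᵥ q + b a = 0) ∧ ∀ a, 0 ≤ v a ⬝ᵥ q + b a} := by
    simp only [ofPred_and, ofPred_forall]
    refine (isClosed_iInter fun a => isClosed_iInter fun _ => isClosed_eq ?_ ?_).inter
      (isClosed_iInter fun a => isClosed_le ?_ ?_) <;> fun_prop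
  choose a ha hai using hint
  refine (isCompact_Icc (a := l)
    (b := fun i => l i + (-b (a i) - v (a i) ⬝ᵥ l) / v (a i) i)).of_isClosed_subset hcl
    fun q hq => ⟨hl q hq.2, fun i => ?_⟩
  have h0 : 0 < v (a i) i := lt_of_le_of_ne (hv _ _) (hai i).symm
  have h2 : v (a i) i * (q - l) i ≤ v (a i) ⬝ᵥ (q - l) :=
    Finset.single_le_sum (f := fun j => v (a i) j * (q - l) j)
      (fun j _ => mul_nonneg (hv _ _) (sub_nonneg.2 (hl q hq.2 j))) (Finset.mem_univ i)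
  have h4 := hq.1 _ (ha i)
  rw [dotProduct_sub, Pi.sub_apply] at h2
  show q i ≤ l i + (-b (a i) - v (a i) ⬝ᵥ l) / v (a i) i
  rw [← sub_le_iff_le_add', le_div_iff₀ h0]
  linarith

open Classical in
/-- Completeness of the link from a feasible point and the description of tight sets. -/
theorem core (v : α → σ → ℝ) (b : α → ℝ) (K : Set (Finset α)) (ρ : Finset α) (l y p : σ → ℝ)
    (hI : Ind v K) (hv : ∀ a i, 0 ≤ v a i) (hint : Intr v ρ)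
    (hl : ∀ q : σ → ℝ, (∀ a, 0 ≤ v a ⬝ᵥ q + b a) → ∀ i, l i ≤ q i)
    (hp : ∀ a ∈ ρ, v a ⬝ᵥ p + b a = 0) (hp' : ∀ a, 0 ≤ v a ⬝ᵥ p + b a)
    (hK : ∀ q : σ → ℝ, (∀ a, 0 ≤ v a ⬝ᵥ q + b a) →
      (Finset.univ.filter fun a => v a ⬝ᵥ q + b a ≤ 0) ∈ K) :
    ∃ τ ∈ K, ρ ⊆ τ ∧ ∃ t : α → ℝ, (∀ a ∉ ρ, 0 ≤ t a) ∧ (∀ a ∉ τ, t a = 0) ∧
      y = ∑ a, t a • v a := by
  obtain ⟨p₀, hp₀, hm⟩ := (compact v b ρ l hv hint hl).exists_isMinOn ⟨p, hp, hp'⟩
    (f := fun q => y ⬝ᵥ q) (Continuous.continuousOn (by fun_prop))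
  have hτ := hK p₀ hp₀.2
  have hsub : ρ ⊆ Finset.univ.filter fun a => v a ⬝ᵥ p₀ + b a ≤ 0 := fun a ha =>
    Finset.mem_filter.2 ⟨Finset.mem_univ _, (hp₀.1 a ha).le⟩
  exact ⟨_, hτ, hsub, KCl.rep _ ρ _ y (hI _ hτ) hsub (KCl.kkt v b 0 ρ _ y p₀ hp₀.1 hp₀.2
    (fun a ha => lt_of_not_ge fun e => ha (Finset.mem_filter.2 ⟨Finset.mem_univ _, e⟩))
    fun q h1 h2 => hm ⟨h1, h2⟩)⟩

end Cl3

theorem t_Cl3 : S_Approx → S_Exact3 → S_Cl3 := by
  intro hA hE α σ _ _ _ _ ex h h₂ hH ρ hρ hint y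
  obtain ⟨γ, hγ, hE⟩ := hE α σ ex h h₂ hH
  obtain ⟨L₂, hA, hL₂⟩ := ((hA (α ⊕ σ) σ (rv (ex3 ex)) (-io α σ) (Sum.elim 0 fun j => -(2 * h j))
    (Sum.elim h₂ 0) 0).and (eventually_ge_atTop 0)).exists
  obtain ⟨L, hA, hE⟩ := (hA.and (hE L₂ hL₂ 0 le_rfl)).exists
  obtain ⟨R, hA, p, hp⟩ := (hA.and hE).exists
  obtain ⟨h1, h2⟩ := hp ρ hρ
  refine Cl3.core (rv (ex3 ex)) (fun a => R * (-io α σ) a +
    L * (Sum.elim 0 fun j => -(2 * h j) : α ⊕ σ → ℝ) a + L₂ * (Sum.elim h₂ 0 : α ⊕ σ → ℝ) a) _ ρ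
    (fun j => L * h j) y (p ρ) hH.ind (fun a i => Nat.cast_nonneg _) hint (fun q hq j => ?_)
    ?_ ?_ fun q hq => ?_
  · have := hq (Sum.inr j)
    simp [io] at this
    linarith
  · rintro (a | j) ha
    · have := (h1 a).1 ha
      simp [io]
      linarith
    · have := (h2 j).1 ha
      simp [io]
      linarith
  · rintro (a | j)
    · by_cases ha : Sum.inl a ∈ ρ
      · have := (h1 a).1 ha
        simp [io]
        linarith
      · have := (h1 a).2 ha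
        have := mul_nonneg hL₂ hγ.le
        simp [io]
        linarith
    · by_cases ha : Sum.inr j ∈ ρ
      · have := (h2 j).1 ha
        simp [io]
        linarith
      · have := (h2 j).2 ha
        simp [io]
        linarith
  · have := hA q fun a => by simpa [add_assoc] using hq a
    simpa [add_assoc, K3] using this

end Pool.Agent.P.MP_9321be_ag.NC.E
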