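import Pool.Agent.P.MP_9321be_ag.ND.EBasic

/-!
Definitions for the eigenvalue part without the convenience hypothesis.
-/

namespace Pool.Agent.P.MP_9321be_ag.NC.E

open Pool.Agent.Lib.Helper83 Pool.Agent.P.MP_9321be_ag.ND.E Set Complex Filter

variable {α σ : Type} [Fintype α] [DecidableEq α] [Fintype σ] [DecidableEq σ]

/-! ### The three level complex -/

/-- The exponents together with the virtual vertices `2 e j`. -/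
def ex3 (ex : α → σ → ℕ) : α ⊕ σ → σ → ℕ := Sum.elim ex fun j => Pi.single j 2

/-- The indicator of the real vertices. -/
def io (α σ : Type) : α ⊕ σ → ℝ := Sum.elim 1 0

/-- Lexicographic lower faces for three height functions. -/
def KL (v : α → σ → ℝ) (H₀ H₁ H₂ : α → ℝ) : Set (Finset α) :=
  {τ | ∃ u ω₁ ω₂ : σ → ℝ, (∀ a, 0 ≤ v a ⬝ᵥ u + H₀ a) ∧
    (∀ a, v a ⬝ᵥ u + H₀ a = 0 → 0 ≤ v a ⬝ᵥ ω₁ + H₁ a) ∧
    (∀ a, v a ⬝ᵥ u + H₀ a = 0 → v a ⬝ᵥ ω₁ + H₁ a = 0 → 0 ≤ v a ⬝ᵥ ω₂ + H₂ a) ∧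
    ∀ a ∈ τ, v a ⬝ᵥ u + H₀ a = 0 ∧ v a ⬝ᵥ ω₁ + H₁ a = 0 ∧ v a ⬝ᵥ ω₂ + H₂ a = 0}

/-- The triangulation of the orthant. -/
def K3 (ex : α → σ → ℕ) (h : σ → ℝ) (h₂ : α → ℝ) : Set (Finset (α ⊕ σ)) :=
  KL (rv (ex3 ex)) (-io α σ) (Sum.elim 0 fun j => -(2 * h j)) (Sum.elim h₂ 0)

/-- A relation between exponents in `T` and coordinate vectors in `J`. -/
def Rel (ex : α → σ → ℕ) (T : Finset α) (J : Finset σ) (m : α → ℝ) (κ : σ → ℝ) : Prop :=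
  (∀ a ∉ T, m a = 0) ∧ (∀ j ∉ J, κ j = 0) ∧ ∑ a, m a • rv ex a + κ = 0 ∧ ∑ a, m a = 0

/-- Genericity of the virtual heights. -/
def GenF (ex : α → σ → ℕ) (h : σ → ℝ) : Prop :=
  ∀ (T : Finset α) (J : Finset σ), (∀ m κ, Rel ex T J m κ → κ ⬝ᵥ h = 0) →
    ∀ m κ, Rel ex T J m κ → κ = 0

/-- The standing hypotheses on the heights. -/
structure Hts (ex : α → σ → ℕ) (h : σ → ℝ) (h₂ : α → ℝ) : Prop where
  ne : ∀ a, ex a ≠ 0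
  pos : ∀ j, 0 < h j
  gen : GenF ex h
  ind : Ind (rv (ex3 ex)) (K3 ex h h₂)

/-! ### The space -/

/-- The ambient space: a point, a logarithm of the value, and lifted arguments. -/
abbrev ZZ (σ : Type) := YY σ × (σ → ℝ)

/-- The radius of the wall, shifted by `t` on the logarithmic scale. -/
noncomputable def wl (h : σ → ℝ) (L t : ℝ) (j : σ) : ℝ := Real.exp (t - L * h j)

/-- The tube; beyond the walls the equation is dropped. -/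
def XX (ex : α → σ → ℕ) (c : α → ℂ) (h : σ → ℝ) (L D W η : ℝ) : Set (ZZ σ) :=
  {p | Sm ex p.1.1 < η ∧ p.1.2.re < Real.log η ∧
    (∀ j, ‖p.1.1 j‖ < wl h L (D + W) j ∧ |p.2 j| < W ∧ (wl h L (W - D) j < ‖p.1.1 j‖ →
      p.1.1 j ^ 2 = (‖p.1.1 j‖ : ℂ) ^ 2 * exp (2 * Real.pi * I * p.2 j))) ∧
    ((∀ j, ‖p.1.1 j‖ ≤ wl h L (D - W) j) → ev ex c p.1.1 = exp p.1.2)}

/-- The deck transformation. -/
noncomputable def T3 (p : ZZ σ) : ZZ σ := (dk p.1, p.2)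

/-- A generalised eigenclass in a fixed degree. -/
def EigD {Y : Type} [TopologicalSpace Y] (k : ℕ) (T : Y → Y) (lam : ℂ) (S₁ S₂ : Set Y) : Prop :=
  ∃ (N : ℕ) (φ : Ch ℂ Y →ₗ[ℂ] ℂ), (∀ c ∈ sub ℂ S₂ (k + 2), φ (bd c) = 0) ∧
    (∀ z ∈ sub ℂ S₂ (k + 1), bd z = 0 → φ ((Tl T lam ^ N) z) = 0) ∧
    ∃ z ∈ sub ℂ S₁ (k + 1), bd z = 0 ∧ φ z ≠ 0

/-- The stable form of the eigenvalue property on tubes. -/
def Eig3 (ex : α → σ → ℕ) (c : α → ℂ) (h : σ → ℝ) (lam : ℂ) : Prop :=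
  ∃ (k : ℕ) (W₁ : ℝ), ∀ W₂ : ℝ, ∀ᶠ D in atTop, ∀ᶠ L in atTop, ∃ η₀ > 0, ∀ η > 0,
    EigD k T3 lam (XX ex c h L D W₁ η) (XX ex c h L D W₂ η₀)

/-! ### Labelled spaces -/

/-- Labels, torus coordinates and phases on a space. -/
structure LD (Y α σ : Type) where
  lab : Y → α
  xs : Y → σ → ℂ
  ph : Y → ℝ

section LD
variable {Y : Type} [TopologicalSpace Y]

/-- The sheet number. -/
def LD.kap (D : LD Y α σ) (v : α → σ → ℝ) (p : Y) (w : σ → ℝ) : ℝ := v (D.lab p) ⬝ᵥ w - D.ph p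

/-- Coherent lifts of a tuple of points. -/
def LD.Vld (D : LD Y α σ) (v : α → σ → ℝ) {n : ℕ} (p : Fin n → Y) (w : Fin n → σ → ℝ)
    (k : α → ℝ) : Prop :=
  (∀ j, Lft (D.xs (p j)) (w j)) ∧ (∀ j j' i, |w j i - w j' i| < 1 / 2) ∧
    ∀ j, D.kap v (p j) (w j) = k (D.lab (p j))

open Classical in
/-- The singular cochain. -/
noncomputable def LD.Ph (D : LD Y α σ) (v : α → σ → ℝ) (g : α → ℝ) (E : Finset α)
    (Φ : (α → ℝ) → LC ℝ (X0 α σ) →ₗ[ℝ] ℝ) : Ch ℂ Y →ₗ[ℂ] ℂ :=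
  Finsupp.linearCombination ℂ fun x =>
    if h : ∃ y : (Fin x.1 → σ → ℝ) × (α → ℝ), D.Vld v (vtx x.2) y.1 y.2 then
      chi g E h.choose.2 * (Φ h.choose.2 (ax ℝ fun j => (D.lab (vtx x.2 j), h.choose.1 j)) : ℝ)
    else 0

/-- The labels are invariant and the phase is shifted by `ι`. -/
def LD.Inv (D : LD Y α σ) (T : Y → Y) (ι : α → ℝ) : Prop :=
  ∀ p, D.lab (T p) = D.lab p ∧ D.xs (T p) = D.xs p ∧ D.ph (T p) = D.ph p + ι (D.lab p)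

/-- Local structure of the labels on `S`. -/
def LD.Loc (D : LD Y α σ) (v : α → σ → ℝ) (K : Set (Finset α)) (τ₀ : Finset α) (S : Set Y) :
    Prop :=
  ∀ p ∈ S, ∃ N : Set Y, IsOpen N ∧ p ∈ N ∧ ∃ τ : Finset α, (∀ p' ∈ S ∩ N, D.lab p' ∈ τ) ∧
    (τ₀ ⊆ τ → τ ∈ K ∧ ∃ (w : Y → σ → ℝ) (k : α → ℝ), ∀ (n : ℕ) (t : Fin n → Y),
      (∀ j, t j ∈ S ∩ N) → D.Vld v t (w ∘ t) k)

/-- The patchworking maps. -/
structure LD.Im (D : LD Y α σ) (v : α → σ → ℝ) (K : Set (Finset α)) (S : Set Y)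
    (Ψ : (α → ℝ) → (α → ℝ) → Y) (W : (α → ℝ) → (α → ℝ) → σ → ℝ) : Prop where
  cont : ∀ τ ∈ K, ∀ k, IsInt k → ContinuousOn (Ψ k) (Dτ τ)
  contW : ∀ k, Continuous (W k)
  maps : ∀ τ ∈ K, ∀ k, IsInt k → MapsTo (Ψ k) (Dτ τ) S
  loc : ∀ τ ∈ K, ∀ k k' : α → ℝ, (∀ a ∈ τ, k a = k' a) → EqOn (Ψ k) (Ψ k') (Dτ τ)
  lift : ∀ k β, Lft (D.xs (Ψ k β)) (W k β)
  labk : ∀ τ ∈ K, ∀ k, IsInt k → ∀ β ∈ Dτ τ,
    D.lab (Ψ k β) ∈ τ ∧ D.kap v (Ψ k β) (W k β) = k (D.lab (Ψ k β))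

end LD

open Classical in
/-- The label of a point of the tube: virtual beyond a wall. -/
noncomputable def lab3 [Nonempty α] (ex : α → σ → ℕ) (c : α → ℂ) (K₀ : ℝ) (h : σ → ℝ) (L : ℝ)
    (p : ZZ σ) : α ⊕ σ :=
  if hp : ∃ j, wl h L 0 j < ‖p.1.1 j‖ then Sum.inr hp.choose else Sum.inl (lab ex c K₀ p.1)

/-- The labelled structure on the tube. -/
noncomputable def ld3 [Nonempty α] (ex : α → σ → ℕ) (c : α → ℂ) (K₀ : ℝ) (h : σ → ℝ) (L : ℝ) :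
    LD (ZZ σ) (α ⊕ σ) σ where
  lab := lab3 ex c K₀ h L
  xs p := p.1.1
  ph p := Sum.elim (fun a => p.1.2.im / (2 * Real.pi) + arg (zz ex c a p.1) / (2 * Real.pi)) p.2
    (lab3 ex c K₀ h L p)

open Classical in
/-- Inside the walls, the large terms and the active walls form a face. -/
def Near3 (ex : α → σ → ℕ) (c : α → ℂ) (K₀ : ℝ) (h : σ → ℝ) (L η : ℝ)
    (K : Set (Finset (α ⊕ σ))) : Prop :=
  ∀ x : σ → ℂ, Sm ex x < η → (∀ j, ‖x j‖ ≤ wl h L 0 j) → 0 < Sm ex x →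
    (Finset.univ.filter (Sum.elim
      (fun a => ∑ b, ‖c b * mon (ex b) x‖ ≤ K₀ * ‖c a * mon (ex a) x‖)
      fun j => ‖x j‖ = wl h L 0 j)) ∈ K

end Pool.Agent.P.MP_9321be_ag.NC.E
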