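import Pool.Agent.P.MP_9321be_ag.NC.EDefs

/-!
Exact statements of the steps of the eigenvalue part without the convenience hypothesis.
-/

namespace Pool.Agent.P.MP_9321be_ag.NC.E

open Pool.Agent.Lib.Helper83 Pool.Agent.P.MP_9321be_ag.ND.E Set Complex Filter Topology

/-- One level of the lexicographic order. -/
def S_Level : Prop :=
  ∀ (α σ : Type) [Fintype α] [DecidableEq α] [Fintype σ] [DecidableEq σ] (v : α → σ → ℝ)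
    (h H : α → ℝ) (κ : ℝ), ∀ᶠ L in atTop, ∀ (F : Finset α) (q : σ → ℝ),
      (∀ a ∈ F, -κ ≤ v a ⬝ᵥ q + L * h a + H a) → ∃ ω : σ → ℝ, ∀ a ∈ F, 0 ≤ v a ⬝ᵥ ω + h a ∧
        (v a ⬝ᵥ q + L * h a + H a ≤ κ → v a ⬝ᵥ ω + h a = 0)

open Classical in
/-- Almost tight sets are faces. -/
def S_Approx : Prop :=
  ∀ (α σ : Type) [Fintype α] [DecidableEq α] [Fintype σ] [DecidableEq σ] (v : α → σ → ℝ)
    (H₀ H₁ H₂ : α → ℝ) (κ : ℝ), ∀ᶠ L₂ in atTop, ∀ᶠ L₁ in atTop, ∀ᶠ L₀ in atTop, ∀ p : σ → ℝ,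
      (∀ a, -κ ≤ v a ⬝ᵥ p + L₀ * H₀ a + L₁ * H₁ a + L₂ * H₂ a) →
      (Finset.univ.filter fun a => v a ⬝ᵥ p + L₀ * H₀ a + L₁ * H₁ a + L₂ * H₂ a ≤ κ) ∈
        KL v H₀ H₁ H₂

/-- Uniqueness of the facet on a side of a ridge. -/
def S_Uniq3 : Prop :=
  ∀ (α σ : Type) [Fintype α] [DecidableEq α] [Fintype σ] [DecidableEq σ] (v : α → σ → ℝ)
    (H₀ H₁ H₂ : α → ℝ), Ind v (KL v H₀ H₁ H₂) → Uniq v (KL v H₀ H₁ H₂)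

/-- Generic real heights. -/
def S_Gen3 : Prop :=
  ∀ (α σ : Type) [Fintype α] [DecidableEq α] [Fintype σ] [DecidableEq σ] (ex : α → σ → ℕ)
    (h : σ → ℝ) (s : Finset (α ⊕ σ)), GenF ex h → LinearIndepOn ℝ (rv (ex3 ex)) (s : Set (α ⊕ σ)) →
    ∃ h₂ : α → ℝ, (∀ a, 0 ≤ h₂ a) ∧ (∀ a, Sum.inl a ∈ s → h₂ a = 0) ∧
      Ind (rv (ex3 ex)) (K3 ex h h₂)

/-- Exact supporting weights with uniform gaps. -/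
def S_Exact3 : Prop :=
  ∀ (α σ : Type) [Fintype α] [DecidableEq α] [Fintype σ] [DecidableEq σ] (ex : α → σ → ℕ)
    (h : σ → ℝ) (h₂ : α → ℝ), Hts ex h h₂ → ∃ γ > 0, ∀ L₂ ≥ (0 : ℝ), ∀ D ≥ (0 : ℝ),
      ∀ᶠ L in atTop, ∀ᶠ R in atTop, ∃ p : Finset (α ⊕ σ) → σ → ℝ, ∀ τ ∈ K3 ex h h₂,
        (∀ a, (Sum.inl a ∈ τ → rv ex a ⬝ᵥ p τ + L₂ * h₂ a = R) ∧
          (Sum.inl a ∉ τ → R + L₂ * γ ≤ rv ex a ⬝ᵥ p τ + L₂ * h₂ a)) ∧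
        ∀ j, (Sum.inr j ∈ τ → p τ j = L * h j - D) ∧ (Sum.inr j ∉ τ → L * h j + 10 * D ≤ p τ j)

/-- Links of interior faces are complete. -/
def S_Cl3 : Prop :=
  ∀ (α σ : Type) [Fintype α] [DecidableEq α] [Fintype σ] [DecidableEq σ] (ex : α → σ → ℕ)
    (h : σ → ℝ) (h₂ : α → ℝ), Hts ex h h₂ → Cl (rv (ex3 ex)) (K3 ex h h₂)

/-- The patchworking polynomial: gradient inequality and large terms. -/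
def S_Near3 : Prop :=
  ∀ (α σ : Type) [Fintype α] [DecidableEq α] [Fintype σ] [DecidableEq σ] (ex : α → σ → ℕ)
    (h : σ → ℝ) (h₂ : α → ℝ) (K₀ : ℝ), Hts ex h h₂ → 0 < K₀ → ∀ᶠ L₂ in atTop,
      NI ex (vc h₂ L₂) ∧ ∀ᶠ L in atTop, ∃ η > 0, Near3 ex (vc h₂ L₂) K₀ h L η (K3 ex h h₂)

/-- Local structure of the labels on the tube. -/
def S_Loc3 : Prop :=
  ∀ (α σ : Type) [Fintype α] [DecidableEq α] [Nonempty α] [Fintype σ] [DecidableEq σ]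
    (ex : α → σ → ℕ) (h : σ → ℝ) (h₂ : α → ℝ) (L₂ K₀ L D W η : ℝ) (K : Set (Finset (α ⊕ σ)))
    (τ₀ : Finset (α ⊕ σ)), 3 * (Fintype.card α : ℝ) ≤ K₀ → W < D →
    Near3 ex (vc h₂ L₂) K₀ h L η K → Intr (rv (ex3 ex)) τ₀ → (∃ a, Sum.inl a ∈ τ₀) →
    (ld3 ex (vc h₂ L₂) K₀ h L).Loc (rv (ex3 ex)) K τ₀ (XX ex (vc h₂ L₂) h L D W η)

/-- Construction of the patchworking maps. -/
def S_Imap3 : Prop :=
  ∀ (α σ : Type) [Fintype α] [DecidableEq α] [Nonempty α] [Fintype σ] [DecidableEq σ]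
    (ex : α → σ → ℕ) (h : σ → ℝ) (h₂ : α → ℝ) (K₀ : ℝ), Hts ex h h₂ →
    3 * (Fintype.card α : ℝ) ≤ K₀ → ∀ᶠ L₂ in atTop, ∀ D ≥ (2 : ℝ), ∀ᶠ L in atTop, ∀ η > 0,
      ∃ Ψ W, (ld3 ex (vc h₂ L₂) K₀ h L).Im (rv (ex3 ex)) (K3 ex h h₂)
        (XX ex (vc h₂ L₂) h L D 1 η) Ψ W

/-- The eigenclass of a labelled space. -/
def S_Lab : Prop :=
  ∀ (Y α σ : Type) [TopologicalSpace Y] [Nonempty Y] [Fintype α] [DecidableEq α] [Fintype σ]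
    [DecidableEq σ] (D : LD Y α σ) (v : α → σ → ℝ) (K : Set (Finset α)) (T : Y → Y) (ι : α → ℝ)
    (S₁ S₂ : Set Y) (d : ℕ) (e : Fin (d + 1) ≃ σ) (τ₀ E : Finset α) (g : α → ℝ) (q : ℕ)
    (Φ : (α → ℝ) → LC ℝ (X0 α σ) →ₗ[ℝ] ℝ) (Ψ : (α → ℝ) → (α → ℝ) → Y)
    (W : (α → ℝ) → (α → ℝ) → σ → ℝ) (μ : Multiset α), Continuous T → D.Inv T ι → Cx v K →
    Intr v τ₀ → E ⊆ τ₀ → (∀ i, ∃ z : ℤ, ∑ a ∈ E, g a * v a i = z) → PhiP v K τ₀ q Φ →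
    D.Loc v K τ₀ S₂ → D.Im v K S₁ Ψ W → (∀ a ∈ E, ∀ z : ℤ, g a ≠ z) → (∀ a ∈ μ, a ∉ E) →
    Intr v (μ.toFinset ∪ E) → (∃ c₀ ≠ 0, ∀ k, Dm μ (NN e v K Φ) k = c₀) →
    EigD d T (exp (-(2 * Real.pi * I * (∑ a ∈ E, g a * ι a : ℝ)))) S₁ S₂

/-- Transfer of eigenclasses in a fixed degree. -/
def S_TRD : Prop :=
  ∀ (Y Y' : Type) [TopologicalSpace Y] [TopologicalSpace Y'] [Nonempty Y] (k : ℕ) (T : Y → Y)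
    (T' : Y' → Y') (lam : ℂ) (S₁ S₂ : Set Y) (S₁' S₂' : Set Y') (g : Y → Y') (h : Y' → Y)
    (H : Y × ℝ → Y), Continuous T' → MapsTo T' S₂' S₂' →
    ContinuousOn g S₁ → MapsTo g S₁ S₁' → ContinuousOn h S₂' → MapsTo h S₂' S₂ →
    (∀ y ∈ S₂', h (T' y) = T (h y)) → ContinuousOn H (S₁ ×ˢ Icc (0 : ℝ) 1) →
    MapsTo H (S₁ ×ˢ Icc (0 : ℝ) 1) S₂ → (∀ x ∈ S₁, H (x, 0) = x) →
    (∀ x ∈ S₁, H (x, 1) = h (g x)) → EigD k T lam S₁ S₂ → EigD k T' lam S₁' S₂'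

/-- A retraction with a cutoff at the walls. -/
def S_Cut : Prop :=
  ∀ (α σ : Type) [Fintype α] [DecidableEq α] [Fintype σ] [DecidableEq σ] (ex : α → σ → ℕ)
    (c : α → ℂ) (h : σ → ℝ) (ε β C L D W : ℝ) (μ : YY σ → σ → ℂ),
    ContinuousOn μ (Ap ex c ε β) → (∀ p, μ (dk p) = μ p) →
    (∀ p ∈ Ap ex c ε β, ev ex c (p.1 * μ p) = exp p.2 ∧ ∀ j, ‖μ p j - 1‖ ≤ 1 / 2 ∧
      ‖μ p j - 1‖ * Sm ex p.1 ≤ C * ‖ev ex c p.1 - exp p.2‖) →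
    ∃ m : YY σ → σ → ℂ, (∀ p, m (dk p) = m p) ∧
      ContinuousOn m {p | (∀ j, ‖p.1 j‖ ≤ wl h L (D - W) j) → p ∈ Ap ex c ε β} ∧
      ∀ p, ((∀ j, ‖p.1 j‖ ≤ wl h L (D - W) j) → p ∈ Ap ex c ε β) →
        (∀ j, ‖m p j - 1‖ ≤ 1 / 2) ∧
        ((∀ j, ‖p.1 j‖ ≤ wl h L (D - W - 2) j) → ev ex c (p.1 * m p) = exp p.2) ∧
        ((∀ j, ‖p.1 j‖ ≤ wl h L (D - W) j) →
          ∀ j, ‖m p j - 1‖ * Sm ex p.1 ≤ C * ‖ev ex c p.1 - exp p.2‖) ∧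
        ((∃ j, wl h L (D - W - 1) j ≤ ‖p.1 j‖) → m p = 1)

/-- The eigenvalue property on tubes is locally constant. -/
def S_Step3 : Prop :=
  ∀ (α σ : Type) [Fintype α] [DecidableEq α] [Fintype σ] [DecidableEq σ] (ex : α → σ → ℕ)
    (c : α → ℂ) (h : σ → ℝ) (lam : ℂ), (∀ j, 0 < h j) → NI ex c → ∃ r > 0, ∀ c' c'' : α → ℂ,
      ‖c' - c‖ < r → ‖c'' - c‖ < r → NI ex c' ∧ (Eig3 ex c' h lam → Eig3 ex c'' h lam)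

/-- The eigenvalue property on tubes is constant on non-degenerate polynomials. -/
def S_Const3 : Prop :=
  ∀ (α σ : Type) [Fintype α] [DecidableEq α] [Nonempty α] [Fintype σ] [DecidableEq σ]
    (ex : α → σ → ℕ) (c₀ c₁ : α → ℂ) (h : σ → ℝ) (lam : ℂ), (∀ j, 0 < h j) → NI ex c₀ → NI ex c₁ →
      Eig3 ex c₁ h lam → Eig3 ex c₀ h lam

/-- The eigenclass on tubes for a family of exponents. -/
def S_Fam3 : Prop :=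
  ∀ (α σ : Type) [Fintype α] [DecidableEq α] [Fintype σ] [DecidableEq σ] (ex : α → σ → ℕ)
    (c : α → ℂ) (h u ω : σ → ℝ) (s : Finset (α ⊕ σ)) (g : α ⊕ σ → ℝ), (∀ a, ex a ≠ 0) →
    NDc ex c → (∀ j, 0 < h j) → GenF ex h → (∀ j, 0 ≤ u j) → (∀ a, 1 ≤ rv ex a ⬝ᵥ u) →
    (∀ a, rv ex a ⬝ᵥ u = 1 → 0 ≤ rv ex a ⬝ᵥ ω) → (∀ j, u j = 0 → h j ≤ ω j) →
    (∀ a, Sum.inl a ∈ s → rv ex a ⬝ᵥ u = 1 ∧ rv ex a ⬝ᵥ ω = 0) →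
    (∀ j, Sum.inr j ∈ s → u j = 0 ∧ ω j = h j) →
    LinearIndepOn ℝ (rv (ex3 ex)) (s : Set (α ⊕ σ)) → (∀ i, ∑ a ∈ s, g a * ex3 ex a i = 1) →
    (∀ a ∈ s, ∀ i, ex3 ex a i = 1 → (∀ b ∈ s, b ≠ a → ex3 ex b i = 0) →
      ∃ j, j ≠ i ∧ ex3 ex a j ≠ 0 ∧ ∀ b ∈ s, b ≠ a → ex3 ex b j = 0) →
    (∀ z : ℤ, ∑ a ∈ s, g a * io α σ a ≠ z) →
    Eig3 ex c h (exp (-(2 * Real.pi * I * (∑ a ∈ s, g a * io α σ a : ℝ))))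

/-- From the tubes to a nearby point. -/
def S_Fin3 : Prop :=
  ∀ (σ : Type) [Fintype σ] [DecidableEq σ] (f : MvPolynomial σ ℂ) (h : σ → ℝ) (lam : ℂ),
    (∀ j, 0 < h j) → lam ≠ 1 → MvPolynomial.coeff 0 f = 0 →
    NI (fun a : f.support => (a.1 : σ → ℕ)) (fun a => MvPolynomial.coeff a.1 f) →
    Eig3 (fun a : f.support => (a.1 : σ → ℕ)) (fun a => MvPolynomial.coeff a.1 f) h lam →
    ∀ U ∈ 𝓝 (0 : σ → ℂ), ∃ x ∈ U, MvPolynomial.eval x f = 0 ∧ IsMonodromyEigenvalue f x lam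

end Pool.Agent.P.MP_9321be_ag.NC.E
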