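import Pool.Agent.P.MP_9321be_ag.NC.EBas
import Pool.Agent.P.MP_9321be_ag.NC.Defs

/-!
Reduction of the eigenvalue theorem to families of exponents.
-/

namespace Pool.Agent.P.MP_9321be_ag.NC.E

open Pool.Agent.Lib.Helper83 Pool.Agent.P.MP_9321be_ag.ND.E Set Complex

namespace Red3

open MvPolynomial ND

variable {σ : Type} [Fintype σ] [DecidableEq σ]

omit [DecidableEq σ] in
theorem ndc {f : MvPolynomial σ ℂ} (hn : Nondeg f) :
    NDc (fun a : f.support => (a.1 : σ → ℕ)) fun a => coeff a.1 f := by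
  intro w hw x hx
  obtain ⟨i, hi⟩ := hn w hw x hx
  refine ⟨i, fun e => mul_ne_zero (hx i) hi ?_⟩
  rw [← e, show x i * eval x (pderiv i (facePoly f w)) = eval x (X i * pderiv i (facePoly f w))
    by simp, facePoly, map_sum, Finset.mul_sum, map_sum, Finset.sum_filter, Finset.sum_filter,
    ← Finset.sum_coe_sort]
  refine Finset.sum_congr rfl fun a _ => if_congr ?_ ?_ rfl
  · exact ⟨fun h b => h b.1 b.2, fun h b hb => h ⟨b, hb⟩⟩
  · rw [X_mul_pderiv_monomial, map_nsmul, eval_monomial, nsmul_eq_mul,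
      Finsupp.prod_fintype _ _ (by simp), mon]
    ring

theorem gen {A : Finset (σ →₀ ℕ)} {h : σ → ℝ} (hg : GenH A h) :
    GenF (fun a : A => (a.1 : σ → ℕ)) h := by
  intro T J H m κ hr
  have sm : ∀ (m : A → ℝ) (m' : (σ →₀ ℕ) → ℝ), (∀ a ∉ T, m a = 0) → (∀ a ∈ T, m' a.1 = m a) →
      ∀ F : (σ →₀ ℕ) → ℝ, ∑ a ∈ T.image (·.1), m' a * F a = ∑ a, m a * F a.1 := fun m m' h1 h2 F => by
    rw [Finset.sum_image fun _ _ _ _ e => Subtype.ext e, ← Finset.sum_subset T.subset_univ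
      fun a _ ha => by rw [h1 a ha, zero_mul]]
    exact Finset.sum_congr rfl fun a ha => by rw [h2 a ha]
  have key : ∀ (m : A → ℝ) (m' : (σ →₀ ℕ) → ℝ) κ, (∀ a ∉ T, m a = 0) → (∀ a ∈ T, m' a.1 = m a) →
      (E.Rel (fun a : A => (a.1 : σ → ℕ)) T J m κ ↔ NC.Rel (T.image (·.1)) J m' κ) :=
    fun m m' κ h1 h2 => (and_iff_right h1).trans (and_congr_right fun _ => and_congr
      (funext_iff.trans (forall_congr' fun i => by
        rw [sm m m' h1 h2 fun a => a i]; simp [rv]))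
      (by simpa using Eq.congr_left (sm m m' h1 h2 1).symm))
  refine hg (T.image (·.1)) (fun a ha => ?_) J (fun m' κ' h' => H (fun a => if a ∈ T then m' a.1
    else 0) κ' ((key _ _ _ (fun a ha => if_neg ha) fun a ha => (if_pos ha).symm).2 h'))
    (fun a => if ha : a ∈ A then m ⟨a, ha⟩ else 0) κ
    ((key _ _ _ hr.1 fun a _ => dif_pos a.2).1 hr)
  obtain ⟨b, -, rfl⟩ := Finset.mem_image.1 ha
  exact b.2

end Red3

open MvPolynomial ND Red3 in
theorem t_Red3 : S_NDNI → S_Fam3 → S_Fin3 → S_ENC := by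
  intro hN hF hB σ _ _ f h0 hn u ω h s J al hA hcs hU hal hz
  classical
  have hs := fun a (ha : a ∈ s) => Finset.mem_filter.1 (hA.sub ha)
  let ι : f.support ⊕ σ → σ →₀ ℕ := Sum.elim (·.1) fun j => Finsupp.single j 2
  let s' := (s.subtype (· ∈ f.support)).disjSum J
  have hι : ∀ a i, ex3 (fun a : f.support => (a.1 : σ → ℕ)) a i = ι a i := by
    rintro (a | j) i
    exacts [rfl, (congrFun (Finsupp.single_eq_pi_single j 2) i).symm]
  have hd : ∀ a ∈ s', dr (ι a) u = io _ _ a := by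
    rintro (a | j) ha
    · exact (hs _ (Finset.mem_subtype.1 (Finset.inl_mem_disjSum.1 ha))).2
    · simp [ι, io, dr, Finsupp.single_apply, (hA.h2 j (Finset.inr_mem_disjSum.1 ha)).1]
  have inj : InjOn ι s' := by
    rintro (a | i) ha (b | j) hb e
    · exact congrArg _ (Subtype.ext e)
    · exact (one_ne_zero (α := ℝ) ((hd _ ha).symm.trans (e ▸ hd _ hb))).elim
    · exact (zero_ne_one (α := ℝ) ((hd _ ha).symm.trans (e ▸ hd _ hb))).elim
    · exact congrArg _ (Finsupp.single_left_injective two_ne_zero e)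
  have img : vs s J = s'.image ι := by
    ext a
    simp only [vs, s', ι, Finset.mem_union, Finset.mem_image, Sum.exists, Finset.inl_mem_disjSum,
      Finset.inr_mem_disjSum, Finset.mem_subtype, Sum.elim_inl, Sum.elim_inr]
    exact or_congr_left ⟨fun ha => ⟨⟨a, (hs a ha).1⟩, ha, rfl⟩, fun ⟨b, hb, e⟩ => e ▸ hb⟩
  rw [img] at hcs hU
  obtain ⟨g, hg⟩ := (Submodule.mem_span_image_finset_iff_exists_fun' ℚ).1 hcs.2
  have hg' : ∀ i, ∑ a ∈ s', (g (ι a) : ℝ) * ι a i = 1 := fun i => by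
    have := congrFun hg i
    simp only [Finset.sum_apply, Pi.smul_apply, smul_eq_mul, vec, Finset.sum_image inj] at this
    exact_mod_cast this
  have hsum : ∑ a ∈ s', (g (ι a) : ℝ) * io _ _ a = al := by
    rw [← hal]
    calc _ = ∑ a ∈ s', (g (ι a) : ℝ) * dr (ι a) u :=
          Finset.sum_congr rfl fun a ha => by rw [hd a ha]
      _ = ∑ i, (∑ a ∈ s', (g (ι a) : ℝ) * ι a i) * u i := by
          simp only [dr, Finset.mul_sum, Finset.sum_mul, mul_assoc]
          exact Finset.sum_comm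
      _ = _ := by simp [hg']
  have key := hF f.support σ (fun a => a.1) (fun a => coeff a.1 f) h u ω s' (fun a => g (ι a))
    (fun a e => ?_) (ndc hn) hA.h0 (gen hA.gen) hA.u0 (fun a => hA.u1 a.1 a.2)
    (fun a e => hA.w0 a.1 (Finset.mem_filter.2 ⟨a.2, e⟩)) hA.h1
    (fun a ha => ⟨hd _ ha, hA.w1 _ (Finset.mem_subtype.1 (Finset.inl_mem_disjSum.1 ha))⟩)
    (fun j hj => hA.h2 j (Finset.inr_mem_disjSum.1 hj)) ?_
    (fun i => by simpa only [hι] using hg' i) (fun a ha i h1 h2 => ?_)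
    (fun z e => hz z (by exact_mod_cast hsum.symm.trans e))
  · rw [hsum, ofReal_ratCast] at key
    refine hB σ f h _ hA.h0 (fun e => ?_) h0 (hN _ _ _ _ (ndc hn)) key
    obtain ⟨k, hk⟩ := exp_eq_one_iff.1 e
    refine hz (-k) ?_
    have : (al : ℂ) = ((-k : ℤ) : ℚ) :=
      mul_left_cancel₀ two_pi_I_ne_zero (by push_cast; linear_combination -hk)
    exact_mod_cast this
  · exact mem_support_iff.1 a.2 (by rw [show a.1 = 0 from DFunLike.coe_injective e, h0])
  · have := ((linearIndependent_algebraMap_comp_iff (S := ℝ)).2 hcs.1).comp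
      (fun a : (s' : Set (f.support ⊕ σ)) => (⟨ι a.1, Finset.mem_image_of_mem _ a.2⟩ :
        (s'.image ι : Set (σ →₀ ℕ)))) fun a b e => Subtype.ext (inj a.2 b.2 (Subtype.mk.inj e))
    have e : rv (ex3 fun a : f.support => (a.1 : σ → ℕ)) = fun a i => (ι a i : ℝ) := by
      ext a i
      rw [rv, hι]
    rw [e]
    exact this
  · have pr : ∀ j, Priv (s'.image ι) (ι a) j ↔ ι a j ≠ 0 ∧ ∀ b ∈ s', b ≠ a → ι b j = 0 := fun j =>
      and_congr_right fun _ => Finset.forall_mem_image.trans (forall₂_congr fun b hb =>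
        imp_congr_left (inj.eq_iff hb ha).not)
    simp only [hι] at h1 h2 ⊢
    by_contra hcon
    exact hU (ι a) ⟨Finset.mem_image_of_mem _ ha, i, h1, (pr i).2 ⟨by simp [h1], h2⟩,
      fun j hj => by_contra fun e => hcon ⟨j, e, (pr j).1 hj⟩⟩

end Pool.Agent.P.MP_9321be_ag.NC.E
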