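import Pool.Agent.P.MP_9321be_ag.ND.EDefs

/-!
Annihilation of cycles by polynomials in the monodromy: an abstract local to global principle.
-/

namespace Pool.Agent.P.MP_9321be_ag.NC

open Pool.Agent.Lib.Helper83 Set Filter Topology

variable {Y Y' : Type} [TopologicalSpace Y] [TopologicalSpace Y']

/-- The action of a polynomial in `T` on chains. -/
noncomputable def act (T : Y → Y) (g : Polynomial ℂ) : Module.End ℂ (Ch ℂ Y) :=
  Polynomial.aeval (push T : Module.End ℂ (Ch ℂ Y)) g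

/-- One polynomial of `G` sends all cycles of `A` to boundaries of `A'`. -/
def Kill (T : Y → Y) (G : Submonoid (Polynomial ℂ)) (k : ℕ) (A A' : Set Y) : Prop :=
  ∃ g ∈ G, ∀ z ∈ sub ℂ A k, bd z = 0 → act T g z ∈ Bd ℂ A' k

/-- Polynomials that do not vanish at `lam`. -/
def Gl (lam : ℂ) : Submonoid (Polynomial ℂ) where
  carrier := {g | g.eval lam ≠ 0}
  mul_mem' := fun ha hb => by
    show Polynomial.eval lam (_ * _) ≠ 0
    rw [Polynomial.eval_mul]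
    exact mul_ne_zero ha hb
  one_mem' := by simp

lemma mem_Gl {lam : ℂ} {g : Polynomial ℂ} : g ∈ Gl lam ↔ g.eval lam ≠ 0 := Iff.rfl

/-- Nonzero polynomials. -/
def G0 : Submonoid (Polynomial ℂ) where
  carrier := {g | g ≠ 0}
  mul_mem' := fun ha hb => mul_ne_zero ha hb
  one_mem' := one_ne_zero

lemma mem_G0 {g : Polynomial ℂ} : g ∈ G0 ↔ g ≠ 0 := Iff.rfl

lemma X_sub_one_mem_Gl {lam : ℂ} (h : lam ≠ 1) : Polynomial.X - 1 ∈ Gl lam := by
  simpa [mem_Gl, sub_eq_zero] using h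

lemma X_pow_sub_one_mem_G0 {N : ℕ} (h : 0 < N) : Polynomial.X ^ N - 1 ∈ G0 := by
  simpa [mem_G0] using Polynomial.X_pow_sub_C_ne_zero h (1 : ℂ)

lemma act_mul (T : Y → Y) (g h : Polynomial ℂ) (z : Ch ℂ Y) :
    act T (g * h) z = act T g (act T h z) := by simp [act]

lemma act_add (T : Y → Y) (g h : Polynomial ℂ) (z : Ch ℂ Y) :
    act T (g + h) z = act T g z + act T h z := by simp [act]

lemma act_sub (T : Y → Y) (g h : Polynomial ℂ) (z : Ch ℂ Y) :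
    act T (g - h) z = act T g z - act T h z := by simp [act]

lemma act_one (T : Y → Y) (z : Ch ℂ Y) : act T 1 z = z := by simp [act]

lemma act_X (T : Y → Y) (z : Ch ℂ Y) : act T Polynomial.X z = push T z := by simp [act]

lemma act_C (T : Y → Y) (a : ℂ) (z : Ch ℂ Y) : act T (Polynomial.C a) z = a • z := by simp [act]

lemma act_Tl (T : Y → Y) (lam : ℂ) (N : ℕ) (z : Ch ℂ Y) :
    act T ((Polynomial.X - Polynomial.C lam) ^ N) z = (ND.E.Tl T lam ^ N) z := by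
  have : act T (Polynomial.X - Polynomial.C lam) = ND.E.Tl T lam :=
    LinearMap.ext fun c => by rw [act_sub, act_X, act_C]; rfl
  rw [← this]; simp [act]

lemma act_inv {T : Y → Y} {P : Submodule ℂ (Ch ℂ Y)} (h : ∀ z ∈ P, push T z ∈ P)
    (g : Polynomial ℂ) {z : Ch ℂ Y} (hz : z ∈ P) : act T g z ∈ P := by
  induction g using Polynomial.induction_on with
  | C a => rw [act_C]; exact P.smul_mem _ hz
  | add p q hp hq => rw [act_add]; exact add_mem hp hq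
  | monomial n a ih => rw [pow_succ', mul_left_comm, act_mul, act_X]; exact h _ ih

lemma act_mem {T : Y → Y} {S : Set Y} (hS : MapsTo T S S) (g : Polynomial ℂ) {k : ℕ}
    {z : Ch ℂ Y} (hz : z ∈ sub ℂ S k) : act T g z ∈ sub ℂ S k :=
  act_inv (fun _ h => push_mem hS h) g hz

lemma act_Bd {T : Y → Y} (hT : Continuous T) {S : Set Y} (hS : MapsTo T S S) (g : Polynomial ℂ)
    {k : ℕ} {z : Ch ℂ Y} (hz : z ∈ Bd ℂ S k) : act T g z ∈ Bd ℂ S k :=
  act_inv (fun _ h => push_Bd hT.continuousOn hS h) g hz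

lemma bd_act {T : Y → Y} (hT : Continuous T) (g : Polynomial ℂ) (z : Ch ℂ Y) :
    bd (act T g z) = act T g (bd z) := by
  have h : ∀ c : Ch ℂ Y, bd (push T c) = push T (bd c) := fun c =>
    all_eq (bd ∘ₗ push T) (push T ∘ₗ bd) (fun a =>
      bd_push (S := univ) hT.continuousOn (sx_mem (s := a.2) fun _ => trivial)) c
  induction g using Polynomial.induction_on with
  | C a => rw [act_C, act_C, map_smul]
  | add p q hp hq => rw [act_add, act_add, map_add, hp, hq]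
  | monomial n a ih => rw [pow_succ', mul_left_comm, act_mul, act_mul T Polynomial.X, act_X, act_X, h, ih]

/-- Equivariant maps commute with the action. -/
lemma push_act {T : Y → Y} {T' : Y' → Y'} (hT : Continuous T) {S : Set Y} (hS : MapsTo T S S)
    {h : Y → Y'} (hh : ContinuousOn h S) (e : ∀ y ∈ S, h (T y) = T' (h y)) (g : Polynomial ℂ)
    {k : ℕ} {z : Ch ℂ Y} (hz : z ∈ sub ℂ S k) : push h (act T g z) = act T' g (push h z) := by
  induction g using Polynomial.induction_on with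
  | C a => rw [act_C, act_C, map_smul]
  | add p q hp hq => rw [act_add, act_add, map_add, hp, hq]
  | monomial n a ih =>
    rw [pow_succ', mul_left_comm, act_mul, act_mul T' Polynomial.X, act_X, act_X, ← ih,
      push_push h hT.continuousOn (act_mem hS _ hz), push_push T' hh (act_mem hS _ hz)]
    exact push_congr e (act_mem hS _ hz)

lemma act_X_pow {T : Y → Y} (hT : Continuous T) (N : ℕ) {k : ℕ} {S : Set Y} {z : Ch ℂ Y}
    (hz : z ∈ sub ℂ S k) : act T (Polynomial.X ^ N) z = push T^[N] z := by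
  induction N with
  | zero => rw [pow_zero, act_one, Function.iterate_zero, push_id]
  | succ N ih =>
    rw [pow_succ', act_mul, act_X, ih, push_push T (hT.iterate N).continuousOn hz,
      Function.iterate_succ']

variable {T : Y → Y} {T' : Y' → Y'} {G : Submonoid (Polynomial ℂ)} {k : ℕ} {A A' : Set Y}

lemma Kill.mono (h : Kill T G k A A') {A₁ A₁' : Set Y} (h1 : A₁ ⊆ A) (h2 : A' ⊆ A₁') :
    Kill T G k A₁ A₁' := by
  obtain ⟨g, hg, h⟩ := h
  exact ⟨g, hg, fun z hz h0 => Bd_mono h2 (h z (sub_mono h1 hz) h0)⟩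

lemma Kill.le (h : Kill T G k A A') {G' : Submonoid (Polynomial ℂ)} (hG : G ≤ G') :
    Kill T G' k A A' := by
  obtain ⟨g, hg, h⟩ := h
  exact ⟨g, hG hg, h⟩

lemma kill_zero (hG : Polynomial.X - 1 ∈ G) : Kill T G 0 A A' := by
  refine ⟨_, hG, fun z hz _ => ?_⟩
  have h6 : z ∈ sub ℂ ∅ 0 := sub_ind LinearMap.id
    (fun s _ => sx_mem fun t => by simpa using t.2.2) hz
  rw [act_sub, act_X, act_one, push_eq_self (fun x hx => hx.elim) h6, sub_self]
  exact zero_mem _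

lemma kill_empty (hG : Polynomial.X - 1 ∈ G) : Kill T G k ∅ A' := by
  cases k with
  | zero => exact kill_zero hG
  | succ k => exact ⟨1, one_mem _, fun z hz _ => by rw [sub_empty hz, map_zero]; exact zero_mem _⟩

/-- Homotopic maps agree on cycles up to boundaries. -/
lemma htpy_Bd [Nonempty Y] {B : Set Y'} {H : Y × ℝ → Y'}
    (hH : ContinuousOn H (A ×ˢ Icc (0 : ℝ) 1)) (hm : MapsTo H (A ×ˢ Icc (0 : ℝ) 1) B)
    {f₀ f₁ : Y → Y'} (h0 : ∀ x ∈ A, H (x, 0) = f₀ x) (h1 : ∀ x ∈ A, H (x, 1) = f₁ x)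
    {z : Ch ℂ Y} (hz : z ∈ sub ℂ A k) (hb : bd z = 0) : push f₁ z - push f₀ z ∈ Bd ℂ B k := by
  have := bd_Pri hH hz
  rw [hb, map_zero, add_zero, push_congr (g' := f₁) h1 hz, push_congr (g' := f₀) h0 hz] at this
  rw [← this]
  exact bd_mem_Bd (Pri_mem hm hz)

/-- If the inclusion is homotopic to a power of `T` then `X ^ N - 1` annihilates. -/
lemma kill_htpy [Nonempty Y] (hT : Continuous T) {N : ℕ} (hG : Polynomial.X ^ N - 1 ∈ G)
    {H : Y × ℝ → Y} (hH : ContinuousOn H (A ×ˢ Icc (0 : ℝ) 1))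
    (hm : MapsTo H (A ×ˢ Icc (0 : ℝ) 1) A') (h0 : ∀ x ∈ A, H (x, 0) = x)
    (h1 : ∀ x ∈ A, H (x, 1) = T^[N] x) : Kill T G k A A' := by
  refine ⟨_, hG, fun z hz hb => ?_⟩
  have := htpy_Bd hH hm (f₀ := id) h0 h1 hz hb
  rwa [push_id, ← act_X_pow hT N hz, ← act_one T z, ← act_mul, mul_one, ← act_sub] at this

/-- Annihilation passes through a factorisation up to homotopy. -/
lemma kill_through [Nonempty Y] (hT : Continuous T) (hT' : Continuous T') (hA' : MapsTo T A' A')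
    {M M' : Set Y'} (hM : M ⊆ M') (hM' : MapsTo T' M' M') {p : Y → Y'} {s : Y' → Y}
    (hp : ContinuousOn p A) (hpm : MapsTo p A M) (hs : ContinuousOn s M') (hsm : MapsTo s M' A')
    (e : ∀ y ∈ M', s (T' y) = T (s y)) {H : Y × ℝ → Y}
    (hH : ContinuousOn H (A ×ˢ Icc (0 : ℝ) 1)) (hm : MapsTo H (A ×ˢ Icc (0 : ℝ) 1) A')
    (h0 : ∀ x ∈ A, H (x, 0) = x) (h1 : ∀ x ∈ A, H (x, 1) = s (p x)) (h : Kill T' G k M M') :
    Kill T G k A A' := by
  obtain ⟨g, hg, h⟩ := h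
  refine ⟨g, hg, fun z hz hb => ?_⟩
  have h2 := htpy_Bd hH hm (f₀ := id) (f₁ := s ∘ p) h0 h1 hz hb
  have h3 := push_Bd hs hsm (h _ (push_mem hpm hz) (by rw [bd_push hp hz, hb, map_zero]))
  rw [push_act hT' hM' hs e g (sub_mono hM (push_mem hpm hz)), push_push s hp hz] at h3
  have h4 := sub_mem h3 (act_Bd hT hA' g h2)
  rwa [push_id, map_sub, sub_sub_cancel] at h4

/-- A functional that is killed by a power of `T - lam` vanishes on annihilated cycles. -/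
lemma Kill.eig {lam : ℂ} (h : Kill T (Gl lam) k A A') (hT : Continuous T) (hA : A ⊆ A')
    (hA' : MapsTo T A' A') {N : ℕ} {φ : Ch ℂ Y →ₗ[ℂ] ℂ}
    (h1 : ∀ c ∈ sub ℂ A' (k + 1), φ (bd c) = 0)
    (h2 : ∀ z ∈ sub ℂ A' k, bd z = 0 → φ ((ND.E.Tl T lam ^ N) z) = 0) {z : Ch ℂ Y}
    (hz : z ∈ sub ℂ A k) (hb : bd z = 0) : φ z = 0 := by
  obtain ⟨g, hg, h⟩ := h
  have hc : IsCoprime g ((Polynomial.X - Polynomial.C lam) ^ N) := by
    refine IsCoprime.pow_right (IsCoprime.symm ?_)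
    rw [(Polynomial.irreducible_X_sub_C lam).coprime_iff_not_dvd, Polynomial.dvd_iff_isRoot]
    exact hg
  obtain ⟨a, b, hab⟩ := hc
  obtain ⟨c, hc, e⟩ := act_Bd hT hA' a (h z hz hb)
  have h3 := h2 _ (act_mem hA' b (sub_mono hA hz)) (by rw [bd_act hT, hb, map_zero])
  rw [← act_Tl, ← act_mul, mul_comm] at h3
  rw [← act_one T z, ← hab, act_add, map_add, h3, act_mul, ← e, h1 c hc, add_zero]

/-- The Mayer-Vietoris step. -/
lemma kill_union [Nonempty Y] (hT : Continuous T) {A₁ A₂ V W₁ W₂ : Set Y} (hW₁ : IsOpen W₁)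
    (hW₂ : IsOpen W₂) (cov : A ⊆ W₁ ∪ W₂) (hA : A ⊆ A') (hA' : MapsTo T A' A')
    (hA₁ : MapsTo T A₁ A₁) (hA₂ : MapsTo T A₂ A₂) (h1 : A ∩ W₁ ⊆ A₁) (h2 : A ∩ W₂ ⊆ A₂)
    (h3 : A ∩ W₁ ∩ (A ∩ W₂) ⊆ V) (k1 : Kill T G (k + 1) A₁ A') (k2 : Kill T G (k + 1) A₂ A')
    (k3 : Kill T G k V (A₁ ∩ A₂)) : Kill T G (k + 1) A A' := by
  obtain ⟨g₁, hg₁, k1⟩ := k1
  obtain ⟨g₂, hg₂, k2⟩ := k2
  obtain ⟨g₃, hg₃, k3⟩ := k3
  refine ⟨g₁ * g₂ * g₃, mul_mem (mul_mem hg₁ hg₂) hg₃, fun z hz hb => ?_⟩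
  obtain ⟨y₁, hy₁, y₂, hy₂, hy⟩ := split hW₁ hW₂ cov hz (zero_mem _) (zero_mem _)
    (by rw [hb, add_zero])
  have hb2 : bd y₂ = -bd y₁ := by
    obtain ⟨e, -, he⟩ := hy
    have := congrArg bd he
    rw [bd_bd, map_sub, map_sub, hb] at this
    linear_combination (norm := abel) this
  have hm : bd y₁ ∈ sub ℂ V k := sub_mono h3 (sub_inter (bd_mem hy₁)
    (by simpa [hb2] using neg_mem (bd_mem hy₂)))
  obtain ⟨b, hb', e⟩ := k3 _ hm (bd_bd _)
  have c1 := k1 (act T g₃ y₁ - b) (sub_mem (act_mem hA₁ _ (sub_mono h1 hy₁))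
    (sub_mono inter_subset_left hb')) (by rw [map_sub, bd_act hT, e, sub_self])
  have c2 := k2 (act T g₃ y₂ + b) (add_mem (act_mem hA₂ _ (sub_mono h2 hy₂))
    (sub_mono inter_subset_right hb')) (by rw [map_add, bd_act hT, e, hb2, map_neg, neg_add_cancel])
  have := add_mem (add_mem (act_Bd hT hA' g₂ c1) (act_Bd hT hA' g₁ c2))
    (act_Bd hT hA' (g₁ * g₂ * g₃) (Bd_mono hA hy))
  convert this using 1
  simp only [map_sub, map_add, ← act_mul, mul_comm g₂ g₁, ← mul_assoc]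
  abel

/-- The local to global principle. -/
theorem lg [Nonempty Y] {B : Type} [TopologicalSpace B] [T3Space B] (hT : Continuous T)
    (hG : Polynomial.X - 1 ∈ G) {π : Y → B} {S : ℝ → Set Y}
    (hS : ∀ a b, 0 < a → a ≤ b → S a ⊆ S b) (hST : ∀ a, 0 < a → MapsTo T (S a) (S a))
    (hπT : ∀ y, π (T y) = π y) (hπ : ∀ a, 0 < a → ContinuousOn π (S a)) {C₀ : Set B}
    (hloc : ∀ b ∈ C₀, ∀ U ∈ 𝓝 b, ∀ a > 0, ∀ k, ∃ U' ∈ 𝓝 b, ∃ a' > 0,
      Kill T G k (S a' ∩ π ⁻¹' U') (S a ∩ π ⁻¹' U)) (k : ℕ) :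
    ∀ C ⊆ C₀, IsCompact C → ∀ U, IsOpen U → C ⊆ U → ∀ a > 0, ∃ U', IsOpen U' ∧ C ⊆ U' ∧
      ∃ a' > 0, Kill T G k (S a' ∩ π ⁻¹' U') (S a ∩ π ⁻¹' U) := by
  have inv : ∀ a, 0 < a → ∀ U, MapsTo T (S a ∩ π ⁻¹' U) (S a ∩ π ⁻¹' U) := fun a ha U y hy =>
    ⟨hST a ha hy.1, by rw [mem_preimage, hπT]; exact hy.2⟩
  induction k with
  | zero => exact fun C _ _ U hU hC a ha => ⟨U, hU, hC, a, ha, kill_zero hG⟩
  | succ k ih =>
    intro C hC0 hC U hU hCU a ha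
    suffices h : ∃ C', C ⊆ C' ∧ C' ⊆ C₀ ∧ IsCompact C' ∧ ∃ U', IsOpen U' ∧ C' ⊆ U' ∧ U' ⊆ U ∧
        ∃ a' > 0, a' ≤ a ∧ Kill T G (k + 1) (S a' ∩ π ⁻¹' U') (S a ∩ π ⁻¹' U) by
      obtain ⟨C', h1, -, -, U', h2, h3, -, a', h4, -, h5⟩ := h
      exact ⟨U', h2, h1.trans h3, a', h4, h5⟩
    refine hC.induction_on (p := fun s => ∃ C', s ⊆ C' ∧ C' ⊆ C₀ ∧ IsCompact C' ∧ ∃ U',
      IsOpen U' ∧ C' ⊆ U' ∧ U' ⊆ U ∧ ∃ a' > 0, a' ≤ a ∧
        Kill T G (k + 1) (S a' ∩ π ⁻¹' U') (S a ∩ π ⁻¹' U)) ?_ ?_ ?_ ?_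
    · exact ⟨∅, subset_rfl, empty_subset _, isCompact_empty, ∅, isOpen_empty, subset_rfl,
        empty_subset _, a, ha, le_rfl, by simpa using kill_empty hG⟩
    · rintro s t hst ⟨C', h1, h⟩
      exact ⟨C', hst.trans h1, h⟩
    · rintro s t ⟨C₁, s1, z1, c1, U₁, o1, u1, v1, a₁, p1, l1, k1⟩
        ⟨C₂, s2, z2, c2, U₂, o2, u2, v2, a₂, p2, l2, k2⟩
      obtain ⟨V, oV, uV, a₃, p3, k3⟩ := ih (C₁ ∩ C₂) (inter_subset_left.trans z1) (c1.inter c2)
        (U₁ ∩ U₂) (o1.inter o2) (inter_subset_inter u1 u2) (min a₁ a₂) (lt_min p1 p2)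
      obtain ⟨A₁, A₂, oA1, oA2, w1, w2, hd⟩ := SeparatedNhds.of_isCompact_isCompact
        (c1.diff oV) (c2.diff oV) (disjoint_left.2 fun x h1 h2 => h1.2 (uV ⟨h1.1, h2.1⟩))
      have p4 : 0 < min (min a₁ a₂) a₃ := lt_min (lt_min p1 p2) p3
      have m1 : min (min a₁ a₂) a₃ ≤ a₁ := (min_le_left _ _).trans (min_le_left _ _)
      have m2 : min (min a₁ a₂) a₃ ≤ a₂ := (min_le_left _ _).trans (min_le_right _ _)
      have o1' := (oA1.union oV).inter o1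
      have o2' := (oA2.union oV).inter o2
      obtain ⟨W₁, oW1, e1⟩ := continuousOn_iff'.1 (hπ _ p4) _ o1'
      obtain ⟨W₂, oW2, e2⟩ := continuousOn_iff'.1 (hπ _ p4) _ o2'
      have f1 := fun y => Set.ext_iff.1 e1 y
      have f2 := fun y => Set.ext_iff.1 e2 y
      refine ⟨C₁ ∪ C₂, union_subset_union s1 s2, union_subset z1 z2, c1.union c2,
        (A₁ ∪ V) ∩ U₁ ∪ (A₂ ∪ V) ∩ U₂, o1'.union o2', union_subset_union
          (fun x hx => ⟨(em (x ∈ V)).elim Or.inr fun h => Or.inl (w1 ⟨hx, h⟩), u1 hx⟩)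
          (fun x hx => ⟨(em (x ∈ V)).elim Or.inr fun h => Or.inl (w2 ⟨hx, h⟩), u2 hx⟩),
        union_subset (inter_subset_right.trans v1) (inter_subset_right.trans v2), _, p4,
        m1.trans l1, kill_union hT oW1 oW2 (V := S a₃ ∩ π ⁻¹' V) ?_ ?_ (inv a ha U) (inv _ p1 _)
          (inv _ p2 _) ?_ ?_ ?_ k1 k2 (k3.mono subset_rfl ?_)⟩
      · exact fun y hy => hy.2.imp (fun h => ((f1 y).1 ⟨h, hy.1⟩).1) fun h => ((f2 y).1 ⟨h, hy.1⟩).1
      · exact fun y hy => ⟨hS _ _ p4 (m1.trans l1) hy.1, hy.2.elim (fun h => v1 h.2) fun h => v2 h.2⟩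
      · exact fun y hy => ⟨hS _ _ p4 m1 hy.1.1, ((f1 y).2 ⟨hy.2, hy.1.1⟩).1.2⟩
      · exact fun y hy => ⟨hS _ _ p4 m2 hy.1.1, ((f2 y).2 ⟨hy.2, hy.1.1⟩).1.2⟩
      · refine fun y hy => ⟨hS _ _ p4 (min_le_right _ _) hy.1.1.1, ?_⟩
        rcases ((f1 y).2 ⟨hy.1.2, hy.1.1.1⟩).1.1 with h | h
        · rcases ((f2 y).2 ⟨hy.2.2, hy.1.1.1⟩).1.1 with h' | h'
          · exact (disjoint_left.1 hd h h').elim
          · exact h'
        · exact h
      · exact fun y hy => ⟨⟨hS _ _ (lt_min p1 p2) (min_le_left _ _) hy.1, hy.2.1⟩,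
          hS _ _ (lt_min p1 p2) (min_le_right _ _) hy.1, hy.2.2⟩
    · intro b hb
      obtain ⟨U', hU', a', ha', h⟩ := hloc b (hC0 hb) U (hU.mem_nhds (hCU hb)) a ha (k + 1)
      obtain ⟨F, hF, cF, sF⟩ := exists_mem_nhds_isClosed_subset
        ((isOpen_interior.inter hU).mem_nhds ⟨mem_interior_iff_mem_nhds.2 hU', hCU hb⟩)
      exact ⟨C ∩ F, inter_mem_nhdsWithin _ hF, C ∩ F, subset_rfl, inter_subset_left.trans hC0,
        hC.inter_right cF, interior U' ∩ U, isOpen_interior.inter hU, inter_subset_right.trans sF,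
        inter_subset_right, min a' a, lt_min ha' ha, min_le_right _ _, h.mono (fun y hy =>
          ⟨hS _ _ (lt_min ha' ha) (min_le_left _ _) hy.1, interior_subset (s := U') hy.2.1⟩) subset_rfl⟩

end Pool.Agent.P.MP_9321be_ag.NC
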