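import Pool.Agent.P.MP_9321be_ag.NC.LG
import Pool.Agent.P.MP_9321be_ag.ND.EBR

/-!
Local vanishing: a number that is not a monodromy eigenvalue at `x₀` is not a root of an
annihilating polynomial.
-/

namespace Pool.Agent.P.MP_9321be_ag.NC

open Pool.Agent.Lib.Helper83 Set Filter Topology Complex ND.E

variable {σ : Type} [Fintype σ]

/-- The canonical Milnor fibre at `x₀` as a subset. -/
def Mx (F : (σ → ℂ) → ℂ) (x₀ : σ → ℂ) (ε δ : ℝ) : Set (YY σ) :=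
  {p | ∑ i, ‖p.1 i - x₀ i‖ ^ 2 < ε ^ 2 ∧ F p.1 = exp p.2 ∧ p.2.re < Real.log δ}

lemma Mx_mono (F : (σ → ℂ) → ℂ) (x₀ : σ → ℂ) {ε ε' δ δ' : ℝ} (h0 : 0 ≤ ε) (h1 : ε ≤ ε')
    (h2 : 0 < δ) (h3 : δ ≤ δ') : Mx F x₀ ε δ ⊆ Mx F x₀ ε' δ' := fun _ hp =>
  ⟨hp.1.trans_le (pow_le_pow_left₀ h0 h1 2), hp.2.1, hp.2.2.trans_le (Real.log_le_log h2 h3)⟩

omit [Fintype σ] in
lemma cont_dk : Continuous (dk : YY σ → YY σ) := by unfold dk; fun_prop

lemma Mx_dk (F : (σ → ℂ) → ℂ) (x₀ : σ → ℂ) (ε δ : ℝ) :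
    MapsTo dk (Mx F x₀ ε δ) (Mx F x₀ ε δ) := fun p hp =>
  ⟨hp.1, by simpa [dk, exp_add] using hp.2.1, by simpa [dk] using hp.2.2⟩

/-- Surjectivity of `T - lam` on the homology of a fibre, in the ambient space. -/
lemma surj_Mx (f : MvPolynomial σ ℂ) (x₀ : σ → ℂ) {lam : ℂ} (h1 : lam ≠ 1) (ε δ : ℝ) (k : ℕ)
    (h : ¬ Module.End.HasEigenvalue
      (((AlgebraicTopology.singularHomologyFunctor (ModuleCat.{0} ℂ) k).obj
        (ModuleCat.of ℂ ℂ)).map (TopCat.ofHom (deck f x₀ ε δ))).hom.dualMap lam)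
    {c : Ch ℂ (YY σ)} (hc : c ∈ sub ℂ (Mx (fun x => MvPolynomial.eval x f) x₀ ε δ) (k + 1))
    (h0 : bd c = 0) : ∃ y ∈ sub ℂ (Mx (fun x => MvPolynomial.eval x f) x₀ ε δ) (k + 1),
      bd y = 0 ∧ c - act dk (Polynomial.X - Polynomial.C lam) y ∈
        Bd ℂ (Mx (fun x => MvPolynomial.eval x f) x₀ ε δ) (k + 1) := by
  set S := Mx (fun x => MvPolynomial.eval x f) x₀ ε δ
  let v : milnorFibre f x₀ ε δ → YY σ := Subtype.val
  have hv : IsInducing v := IsInducing.subtypeVal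
  have hS : range v = S := by
    refine Subtype.range_coe_subtype.trans ?_
    simp only [finsum_eq_sum_of_fintype, Mx, S]
  rcases S.eq_empty_or_nonempty with he | hne
  · rw [he] at hc ⊢
    exact ⟨0, zero_mem _, map_zero _, by rw [sub_empty hc, map_zero, sub_zero]; exact zero_mem _⟩
  have : Nonempty (milnorFibre f x₀ ε δ) := range_nonempty_iff_nonempty.1 (hS ▸ hne)
  have hr : ∀ y ∈ S, v (Function.invFun v y) = y := fun y hy =>
    Function.invFun_eq (hS ▸ hy : y ∈ range v)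
  have cr : ContinuousOn (Function.invFun v) S :=
    hv.continuousOn_iff.2 (continuousOn_id.congr hr)
  have cv := hv.continuous.continuousOn (s := univ)
  have hm : MapsTo v univ S := fun x _ => hS ▸ mem_range_self x
  obtain ⟨y, hy, hy0, e, he, h2⟩ := BR.surj (deck f x₀ ε δ) h1 k h
    (push_mem (mapsTo_univ _ _) hc) (by rw [bd_push cr hc, h0, map_zero])
  refine ⟨push v y, push_mem hm hy, by rw [bd_push cv hy, hy0, map_zero], ?_⟩
  have h3 := congrArg (push v) h2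
  rw [push_push v cr hc, push_eq_self (g := v ∘ Function.invFun v) hr hc, map_add,
    ← pow_one (Tl _ lam), ← act_Tl, pow_one,
    push_act (T' := dk) (deck f x₀ ε δ).continuous (mapsTo_univ _ _) cv (fun _ _ => rfl) _ hy] at h3
  rw [h3, add_sub_cancel_left]
  exact push_Bd cv hm (bd_mem_Bd he)

/-- Local vanishing. -/
theorem lv (f : MvPolynomial σ ℂ) (x₀ : σ → ℂ) {lam : ℂ} (h1 : lam ≠ 1)
    (hn : ¬ IsMonodromyEigenvalue f x₀ lam) {ε δ η : ℝ} (hε : 0 < ε) (hδ : 0 < δ) (hη : 0 < η)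
    {k : ℕ} (hq : Kill dk G0 k (Mx (fun x => MvPolynomial.eval x f) x₀ η η)
      (Mx (fun x => MvPolynomial.eval x f) x₀ ε δ)) :
    ∃ η' > 0, Kill dk (Gl lam) k (Mx (fun x => MvPolynomial.eval x f) x₀ η' η')
      (Mx (fun x => MvPolynomial.eval x f) x₀ ε δ) := by
  rcases k with _ | k
  · exact ⟨1, one_pos, kill_zero (X_sub_one_mem_Gl h1)⟩
  unfold IsMonodromyEigenvalue at hn
  push Not at hn
  obtain ⟨ε', hε', hn⟩ := hn (min η ε) (lt_min hη hε)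
  obtain ⟨δ', hδ', hn⟩ := hn (min η δ) (lt_min hη hδ)
  obtain ⟨P, hP, hq⟩ := hq
  obtain ⟨g, hg, hd⟩ := Polynomial.exists_eq_pow_rootMultiplicity_mul_and_not_dvd P hP lam
  generalize Polynomial.rootMultiplicity lam P = m at hg
  set F := fun x => MvPolynomial.eval x f
  have key : ∀ m : ℕ, ∀ c ∈ sub ℂ (Mx F x₀ ε' δ') (k + 1), bd c = 0 →
      ∃ y ∈ sub ℂ (Mx F x₀ ε' δ') (k + 1), bd y = 0 ∧
        c - act dk ((Polynomial.X - Polynomial.C lam) ^ m) y ∈ Bd ℂ (Mx F x₀ ε' δ') (k + 1) := by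
    intro m
    induction m with
    | zero => exact fun c hc h0 => ⟨c, hc, h0, by rw [pow_zero, act_one, sub_self]; exact zero_mem _⟩
    | succ m ih =>
      intro c hc h0
      obtain ⟨y, hy, hy0, h2⟩ := ih c hc h0
      obtain ⟨y', hy', hy0', h3⟩ := surj_Mx f x₀ h1 ε' δ' k (hn k) hy hy0
      refine ⟨y', hy', hy0', ?_⟩
      have := add_mem h2 (act_Bd cont_dk (Mx_dk F x₀ ε' δ') ((Polynomial.X - Polynomial.C lam) ^ m) h3)
      rwa [map_sub, sub_add_sub_cancel, ← act_mul, ← pow_succ] at this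
  refine ⟨min ε' δ', lt_min hε'.1 hδ'.1, g, fun h => hd (Polynomial.dvd_iff_isRoot.2 h),
    fun z hz hb => ?_⟩
  obtain ⟨y, hy, hy0, h2⟩ := key m z (sub_mono (Mx_mono F x₀ (lt_min hε'.1 hδ'.1).le
    (min_le_left _ _) (lt_min hε'.1 hδ'.1) (min_le_right _ _)) hz) hb
  have h3 := hq y (sub_mono (Mx_mono F x₀ hε'.1.le (hε'.2.le.trans (min_le_left _ _)) hδ'.1
    (hδ'.2.le.trans (min_le_left _ _))) hy) hy0
  have h4 := act_Bd cont_dk (Mx_dk F x₀ ε δ) g (Bd_mono (Mx_mono F x₀ hε'.1.le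
    (hε'.2.le.trans (min_le_right _ _)) hδ'.1 (hδ'.2.le.trans (min_le_right _ _))) h2)
  have := add_mem h4 h3
  rwa [map_sub, ← act_mul, mul_comm g, ← hg, sub_add_cancel] at this

end Pool.Agent.P.MP_9321be_ag.NC
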