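import Pool.Agent.P.MP_9321be_ag.NC.Defs
import Pool.Agent.P.MP_9321be_ag.ND.ZBasic

/-!
Definitions and exact statements for the zeta function part in the non-convenient case.
-/

namespace Pool.Agent.P.MP_9321be_ag.NC

open MvPolynomial ND

variable {σ : Type} [Fintype σ] [DecidableEq σ]

/-- An exponent as a real vector. -/
def vr (a : σ →₀ ℕ) : σ → ℝ := fun i => (a i : ℝ)

open Classical in
/-- The coordinates where a weight vanishes. -/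
noncomputable def zs (u : σ → ℝ) : Finset σ := Finset.univ.filter fun j => u j = 0

/-- The face of a weight, with its virtual exponents. -/
noncomputable def fx (A : Finset (σ →₀ ℕ)) (u : σ → ℝ) : Finset (σ →₀ ℕ) := vs (fr A u) (zs u)

/-- A nonempty set of nonzero exponents. -/
def ConvA (A : Finset (σ →₀ ℕ)) : Prop := A.Nonempty ∧ 0 ∉ A

/-- The dangerous weights for the slope `α`. -/
def Kset (A : Finset (σ →₀ ℕ)) (α : ℚ) : Set (σ → ℝ) :=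
  {u | (∀ i, 0 ≤ u i) ∧ (∀ a ∈ A, 1 ≤ dr a u) ∧ ∑ i, u i = α ∧
    (fun _ => 1 : σ → ℝ) ∈ Submodule.span ℝ (vr '' (fx A u : Set (σ →₀ ℕ)))}

/-- The closure of the cell does not meet the dangerous set. -/
def NoK (A : Finset (σ →₀ ℕ)) (α : ℚ) (lo hi : Option σ → ℚ) : Prop :=
  ∀ r ∈ Kset A α, (∀ j, (lo (some j) : ℝ) ≤ r j ∧ r j ≤ hi (some j)) → lo none ≤ 1 →
    1 ≤ hi none → False

/-- The standing hypotheses of the zeta function part. -/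
structure Ctx (f : MvPolynomial σ ℂ) (α : ℚ) (Γ : Option σ → Set ℚ) : Prop where
  conv : ConvA f.support
  nd : Nondeg f
  dns : Dns Γ
  gen : Gen f.support α Γ

/-- `G` contains an independent set with two elements touching each coordinate of `S`. -/
def Pairs (G : Finset (σ →₀ ℕ)) (S : Finset σ) : Prop :=
  ∃ τ ⊆ G, LinearIndepOn ℝ vr (τ : Set (σ →₀ ℕ)) ∧ ∀ i ∈ S, 2 ≤ (τ.filter fun a => a i ≠ 0).card

/-- `S` is independent and no compact face has a system of pairs inside `Y`. -/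
def Val (A Y : Finset (σ →₀ ℕ)) (Z S : Finset σ) : Prop :=
  Indep (vs Y Z) S ∧
    ∀ w : σ → ℝ, (∀ i, 0 < w i) → (∀ a ∈ A, 1 ≤ dr a w) → ¬ Pairs (fr A w ∩ Y) S

/-- Strong sets exist on all dangerous faces. -/
def HB (A : Finset (σ →₀ ℕ)) (α : ℚ) : Prop :=
  ∀ u ∈ Kset A α, ∃ S, Val A (fr A u) (zs u) S ∧ ∀ S', Val A (fr A u) (zs u) S' →
    (∀ S'' ⊂ S', ¬ Val A (fr A u) (zs u) S'') → Indep (fx A u) (S ∪ S')

/-- Every allowed contributing simplex of slope `α` has an apex. -/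
def UH (A : Finset (σ →₀ ℕ)) (α : ℚ) : Prop :=
  ∀ (u ω h : σ → ℝ) (s : Finset (σ →₀ ℕ)) (J : Finset σ), Allowed A u ω h s J → ∑ i, u i = α →
    Contrib (vs s J) → ∃ a, UApex (vs s J) a

/-- The weighted sum of the elements of `X`. -/
noncomputable def pp (X : Finset (σ →₀ ℕ)) (μ : (σ →₀ ℕ) → ℝ) : σ → ℝ := ∑ a ∈ X, μ a • vr a

/-- The data extracted from the linear program. -/
structure Pack (X : Finset (σ →₀ ℕ)) where
  y : σ → ℝ
  q : σ → ℝ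
  δ : ℝ
  ν : (σ →₀ ℕ) → ℝ
  J : Finset σ
  S : Finset σ
  y0 : ∀ j, 0 ≤ y j
  yJ : ∀ j, y j ≠ 0 → j ∈ J
  g0 : ∀ a ∈ X, 0 ≤ dr a q
  gap : ∀ a ∈ X, dr a q < δ → dr a q = 0
  real : ∀ a ∈ X, ∀ k, a k = 1 → dr a y + dr a q = 1
  ν0 : ∀ a ∈ X, 0 < ν a
  p1 : ∀ j ∈ J, pp X ν j = 1
  p2 : ∀ j ∉ J, 1 < pp X ν j
  cost : pp X ν ⬝ᵥ q < δ
  S0 : S ⊆ J
  S1 : ∀ i ∈ S, ∀ a ∈ X, a i ≠ 0 → a i = 1 ∧ dr a q = 0 ∧ ∀ j ∈ J, j ≠ i → a j = 0
  S2 : ∀ b ∈ X, dr b q = 0 → ∀ k, b k = 1 → (∀ j ∈ J, j ≠ k → b j = 0) → k ∈ S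
  gen : ∀ T ⊆ X, pp X ν ∈ Submodule.span ℝ (vr '' (T : Set (σ →₀ ℕ))) →
    ∀ x ∈ Submodule.span ℝ (vr '' (X : Set (σ →₀ ℕ))), (∀ j ∈ J, x j = 1) →
      x ∈ Submodule.span ℝ (vr '' (T : Set (σ →₀ ℕ)))

/-- The series of a polyhedral cell away from the dangerous set. -/
def S_Cell : Prop :=
  ∀ (R : Type 1) [CommRing R] (u : R) (σ : Type) [Fintype σ] [DecidableEq σ]
    (A F : Finset (σ →₀ ℕ)) (α : ℚ) (Γ : Option σ → Set ℚ) (lo hi : Option σ → ℚ)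
    (κ : Option σ → ℕ), ConvA A → F ⊆ A → Gen A α Γ → WallOK Γ lo hi → NoK A α lo hi →
    Rt u (· ≠ α) (PowerSeries.mk fun l : ℕ =>
      ∑ᶠ p ∈ cellSet A F lo hi κ l, u ^ (∑ i, p.1 i + l - p.2))

/-- The series of the Hensel values over a union of cells. -/
def S_Ser : Prop :=
  ∀ (σ : Type) [Fintype σ] [DecidableEq σ] (f : MvPolynomial σ ℂ) (α : ℚ) (Γ : Option σ → Set ℚ)
    (I : Finset σ) (𝓕 : Set (Finset (σ →₀ ℕ))) (lo hi : Option σ → ℚ) (κ : Option σ → ℕ),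
    ConvA f.support → Gen f.support α Γ → WallOK Γ lo hi → NoK f.support α lo hi →
    Good α (PowerSeries.mk fun l : ℕ =>
      ∑ᶠ v ∈ {v | Walls lo hi κ l v (nn f.support v) ∧ fc f.support v ∈ 𝓕}, hval f I l v)

/-- Smoothness of the initial form when there is no system of pairs. -/
def S_Smooth : Prop :=
  ∀ (σ : Type) [Fintype σ] [DecidableEq σ] (f : MvPolynomial σ ℂ) (S : Finset σ) (v : σ → ℕ),
    Nondeg f → (∀ i, 0 < v i) → Indep (fc f.support v) S → ¬ Pairs (fc f.support v) S →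
    (∀ i ∈ S, ∃ a ∈ fc f.support v, a i ≠ 0) → Smooth (fp f (fc f.support v)) S

/-- Boxes away from the dangerous set. -/
def S_Box : Prop :=
  ∀ (σ : Type) [Fintype σ] [DecidableEq σ] (f : MvPolynomial σ ℂ) (α : ℚ) (Γ : Option σ → Set ℚ)
    (lo : σ → ℚ) (hi : σ → WithTop ℚ) (θ : ℚ), Ctx f α Γ → BoxOK Γ lo hi →
    (Disjoint (clBox lo hi) (Kset f.support α) → Good α (Zs f (inBox lo hi))) ∧
    (θ ∈ Γ none → θ < 1 →
      Good α (Zs f fun l x => inBox lo hi l x ∧ ¬ nGe f.support θ l x))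

/-- The upper part of a cylinder in the directions of a valid set. -/
def S_Cyl : Prop :=
  ∀ (σ : Type) [Fintype σ] [DecidableEq σ] (f : MvPolynomial σ ℂ) (α : ℚ) (Γ : Option σ → Set ℚ)
    (lo hi : σ → ℚ) (θ : ℚ) (Y : Finset (σ →₀ ℕ)) (Z S : Finset σ), Ctx f α Γ →
    BoxOK Γ lo (fun j => (hi j : WithTop ℚ)) → θ ∈ Γ none → 0 < θ → θ < 1 → Y ⊆ f.support →
    Val f.support Y Z S → (∀ a ∈ f.support, a ∉ Y → 1 < ∑ j, vec a j * lo j) →
    (∀ i ∈ S, ∃ a ∈ Y, a i = 1 ∧ lo i + ∑ j ∈ Sᶜ, vec a j * hi j ≤ θ) →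
    Good α (Zs f fun l x => inBox lo (fun j => if j ∈ S then ⊤ else (hi j : WithTop ℚ)) l x ∧
      nGe f.support θ l x)

/-- A box that is long in the directions of a valid set. -/
def S_Inter : Prop :=
  ∀ (σ : Type) [Fintype σ] [DecidableEq σ] (f : MvPolynomial σ ℂ) (α : ℚ) (Γ : Option σ → Set ℚ)
    (lo hi : σ → ℚ) (Y : Finset (σ →₀ ℕ)) (Z S : Finset σ), Ctx f α Γ →
    BoxOK Γ lo (fun j => (hi j : WithTop ℚ)) → (∀ j, lo j ≤ hi j) → (∀ i ∈ S, 0 < lo i) →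
    Y ⊆ f.support → Val f.support Y Z S →
    (∀ a ∈ f.support, a ∉ Y → 1 < ∑ j, vec a j * lo j) →
    (∀ i ∈ S, ∃ a ∈ Y, a i = 1 ∧ lo i + ∑ j ∈ Sᶜ, vec a j * hi j < 1) →
    (∀ i ∈ S, ∀ a ∈ Y, a i = 1 → 1 < hi i + ∑ j ∈ Sᶜ, vec a j * lo j) →
    Good α (Zs f (inBox lo fun j => (hi j : WithTop ℚ)))

/-- Compatible labels. -/
def S_Lab : Prop :=
  ∀ (σ : Type) [Fintype σ] [DecidableEq σ] (A : Finset (σ →₀ ℕ)) (α : ℚ),
    IsCompact (Kset A α) → HB A α →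
    ∃ D : (σ → ℝ) → Finset σ, ∃ ρ : ℝ, 0 < ρ ∧ (∀ u ∈ Kset A α, Indep (fx A u) (D u)) ∧
      ∀ p : σ → ℝ, ∃ S, ∀ u ∈ Kset A α, dist u p < ρ → S ⊆ D u ∧ Val A (fr A u) (zs u) S

/-- The covering argument. -/
def S_Cover : Prop :=
  ∀ (σ : Type) [Fintype σ] [DecidableEq σ] (f : MvPolynomial σ ℂ) (α : ℚ) (Γ : Option σ → Set ℚ),
    Ctx f α Γ → HB f.support α → Good α (Zs f fun _ _ => True)

/-- Strong sets exist when all allowed contributing simplices have an apex. -/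
def S_HB : Prop :=
  ∀ (σ : Type) [Fintype σ] [DecidableEq σ] (A : Finset (σ →₀ ℕ)) (α : ℚ), UH A α → HB A α

set_option linter.unusedSectionVars false

theorem mem_zs {u : σ → ℝ} {j : σ} : j ∈ zs u ↔ u j = 0 := by simp [zs]

theorem mem_vs {Y : Finset (σ →₀ ℕ)} {Z : Finset σ} {a : σ →₀ ℕ} :
    a ∈ vs Y Z ↔ a ∈ Y ∨ ∃ j ∈ Z, Finsupp.single j 2 = a := by simp [vs]

theorem sub_vs (Y : Finset (σ →₀ ℕ)) (Z : Finset σ) : Y ⊆ vs Y Z := Finset.subset_union_left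

theorem single_mem_vs (Y : Finset (σ →₀ ℕ)) {Z : Finset σ} {j : σ} (h : j ∈ Z) :
    Finsupp.single j 2 ∈ vs Y Z := mem_vs.2 (.inr ⟨j, h, rfl⟩)

theorem vs_mono {Y Y' : Finset (σ →₀ ℕ)} {Z Z' : Finset σ} (h : Y ⊆ Y') (h' : Z ⊆ Z') :
    vs Y Z ⊆ vs Y' Z' := Finset.union_subset_union h (Finset.image_subset_image h')

theorem dr_single (j : σ) (k : ℕ) (u : σ → ℝ) : dr (Finsupp.single j k) u = k * u j := by
  rw [dr, Finset.sum_eq_single j] <;> simp +contextual [eq_comm]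

theorem indep_not_mem {Y : Finset (σ →₀ ℕ)} {Z S : Finset σ} (h : Indep (vs Y Z) S) {i : σ}
    (hi : i ∈ S) : i ∉ Z := fun hZ => by
  have := (h.eq_one (single_mem_vs Y hZ) hi (by simp)).1
  simp at this

theorem indep_real {Y : Finset (σ →₀ ℕ)} {Z S : Finset σ} (h : Indep (vs Y Z) S) {i : σ}
    (hi : i ∈ S) {a : σ →₀ ℕ} (ha : a ∈ vs Y Z) (h0 : a i ≠ 0) : a ∈ Y := by
  refine (mem_vs.1 ha).resolve_right ?_
  rintro ⟨j, hj, rfl⟩
  exact indep_not_mem h hi ((Finsupp.single_apply_ne_zero.1 h0).1 ▸ hj)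

theorem Pairs.mono {G G' : Finset (σ →₀ ℕ)} {S : Finset σ} (h : Pairs G S) (hG : G ⊆ G') :
    Pairs G' S := by
  obtain ⟨τ, h1, h2⟩ := h
  exact ⟨τ, h1.trans hG, h2⟩

theorem Val.mono {A Y Y' : Finset (σ →₀ ℕ)} {Z Z' S : Finset σ} (h : Val A Y' Z' S)
    (hY : Y ⊆ Y') (hZ : Z ⊆ Z') : Val A Y Z S :=
  ⟨h.1.mono (vs_mono hY hZ) subset_rfl, fun w h1 h2 h3 =>
    h.2 w h1 h2 (h3.mono (Finset.inter_subset_inter subset_rfl hY))⟩

theorem one_le_dr {a : σ →₀ ℕ} (ha : a ≠ 0) {w : σ → ℝ} (hw : ∀ i, 1 ≤ w i) : 1 ≤ dr a w := by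
  obtain ⟨i, hi⟩ := Finsupp.ne_iff.1 ha
  have h1 : (1 : ℝ) ≤ a i := by exact_mod_cast Nat.one_le_iff_ne_zero.2 hi
  have h2 := Finset.single_le_sum (f := fun j => (a j : ℝ) * w j)
    (fun j _ => mul_nonneg (Nat.cast_nonneg _) (zero_le_one.trans (hw j))) (Finset.mem_univ i)
  exact (one_le_mul_of_one_le_of_one_le h1 (hw i)).trans h2

theorem Val.nonempty {A Y : Finset (σ →₀ ℕ)} {Z S : Finset σ} (h : Val A Y Z S) (hA : 0 ∉ A) :
    S.Nonempty := by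
  rcases S.eq_empty_or_nonempty with rfl | h'
  · exact (h.2 (fun _ => 1) (fun _ => one_pos) (fun a ha => one_le_dr (fun e => hA (e ▸ ha))
      fun _ => le_rfl) ⟨∅, by simp, by simp, by simp⟩).elim
  · exact h'

theorem cover {A : Finset (σ →₀ ℕ)} {α : ℚ} {u : σ → ℝ} (hu : u ∈ Kset A α) {i : σ}
    (hi : u i ≠ 0) : ∃ a ∈ fr A u, a i ≠ 0 := by
  by_contra h
  push Not at h
  have h1 : Submodule.span ℝ (vr '' (fx A u : Set (σ →₀ ℕ))) ≤
      LinearMap.ker (LinearMap.proj i : (σ → ℝ) →ₗ[ℝ] ℝ) := by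
    rw [Submodule.span_le]
    rintro _ ⟨a, ha, rfl⟩
    rcases mem_vs.1 ha with ha | ⟨j, hj, rfl⟩
    · simp [vr, h a ha]
    · have : j ≠ i := fun e => hi (e ▸ mem_zs.1 hj)
      simp [vr, this]
  simpa using h1 hu.2.2.2

theorem le_one {A : Finset (σ →₀ ℕ)} {α : ℚ} {u : σ → ℝ} (hu : u ∈ Kset A α) (i : σ) :
    u i ≤ 1 := by
  by_cases h : u i = 0
  · rw [h]; exact zero_le_one
  obtain ⟨a, ha, hi⟩ := cover hu h
  have h1 : (a i : ℝ) * u i ≤ dr a u :=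
    Finset.single_le_sum (f := fun j => (a j : ℝ) * u j)
      (fun j _ => mul_nonneg (Nat.cast_nonneg _) (hu.1 j)) (Finset.mem_univ i)
  have h2 : (1 : ℝ) ≤ a i := by exact_mod_cast Nat.one_le_iff_ne_zero.2 hi
  rw [(mem_fr.1 ha).2] at h1
  exact (le_mul_of_one_le_left (hu.1 i) h2).trans h1

theorem cont_dr (a : σ →₀ ℕ) : Continuous (dr a) := by
  unfold dr; fun_prop

theorem compact_K (A : Finset (σ →₀ ℕ)) (α : ℚ) : IsCompact (Kset A α) := by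
  refine (isCompact_Icc (a := (0 : σ → ℝ)) (b := 1)).of_isClosed_subset ?_
    fun u hu => ⟨hu.1, le_one hu⟩
  have e : Kset A α = ⋃ F ∈ {F : Finset (σ →₀ ℕ) × Finset σ | F.1 ⊆ A ∧
      (fun _ => 1 : σ → ℝ) ∈ Submodule.span ℝ (vr '' (vs F.1 F.2 : Set (σ →₀ ℕ)))},
      {u : σ → ℝ | (∀ i, 0 ≤ u i) ∧ (∀ a ∈ A, 1 ≤ dr a u) ∧ ∑ i, u i = α ∧
        (∀ a ∈ F.1, dr a u = 1) ∧ ∀ j ∈ F.2, u j = 0} := by
    ext u
    simp only [Set.mem_iUnion, exists_prop]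
    constructor
    · rintro ⟨h1, h2, h3, h4⟩
      exact ⟨(fr A u, zs u), ⟨fun a ha => (mem_fr.1 ha).1, h4⟩, h1, h2, h3,
        fun a ha => (mem_fr.1 ha).2, fun j hj => mem_zs.1 hj⟩
    · rintro ⟨F, ⟨h0, h4⟩, h1, h2, h3, h5, h6⟩
      exact ⟨h1, h2, h3, Submodule.span_mono (Set.image_mono (Finset.coe_subset.2 (vs_mono
        (fun a ha => mem_fr.2 ⟨h0 ha, h5 a ha⟩) fun j hj => mem_zs.2 (h6 j hj)))) h4⟩
  rw [e]
  refine Set.Finite.isClosed_biUnion ((A.powerset ×ˢ Finset.univ).finite_toSet.subset fun F hF =>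
    Finset.mem_coe.2 (Finset.mem_product.2 ⟨Finset.mem_powerset.2 hF.1, Finset.mem_univ _⟩))
    fun F _ => ?_
  simp only [Set.ofPred_and, Set.ofPred_forall]
  exact (isClosed_iInter fun i => isClosed_le continuous_const (continuous_apply i)).inter
    ((isClosed_iInter fun a => isClosed_iInter fun _ =>
      isClosed_le continuous_const (cont_dr a)).inter
    ((isClosed_eq (by fun_prop) continuous_const).inter
      ((isClosed_iInter fun a => isClosed_iInter fun _ =>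
        isClosed_eq (cont_dr a) continuous_const).inter (isClosed_iInter fun j =>
          isClosed_iInter fun _ => isClosed_eq (continuous_apply j) continuous_const))))

end Pool.Agent.P.MP_9321be_ag.NC
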